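import Pool.Agent.L7h83.WM.Fx

/-! # From mean square convergence to almost sure convergence, averages with a phase -/

set_option autoImplicit false

open MeasureTheory Filter Topology
open scoped BigOperators ENNReal NNReal InnerProductSpace ComplexConjugate

namespace Pool.Agent.L7h83.WM

open Pool.Agent.TH980.IM Pool.Agent.H5R2 Pool.Agent.Y662.ERG Pool.Agent.R988

section one

open NB

variable {X : Type} [NormedAddCommGroup X] [InnerProductSpace ℂ X] [CompleteSpace X]

theorem avS_block (W : UG X) (l : ℝ) (v : X →L[ℂ] X) (m n : ℕ) (hm : 0 < m) (x : X) :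
    avS W l v id (n * m) x = ((n : ℂ)⁻¹) • ∑ k ∈ Finset.range n,
      ph l ((k * m : ℕ) : ℝ) •
        W.U (-(((k * m : ℕ) : ℝ))) (avS W l v id m (W.U (((k * m : ℕ) : ℝ)) x)) := by
  have hmC : (m : ℂ) ≠ 0 := by exact_mod_cast hm.ne'
  have hi : ∀ a b : ℝ, IntervalIntegrable (gT W l v x) volume a b :=
    fun a b => (gT_cont W l v x).intervalIntegrable a b
  have hsum := intervalIntegral.sum_integral_adjacent_intervals (μ := volume)
    (f := gT W l v x) (a := fun k : ℕ => (((k * m : ℕ) : ℝ))) (n := n) (fun k _ => hi _ _)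
  have hterm : ∀ k : ℕ, ∫ s in (((k * m : ℕ) : ℝ))..((((k + 1) * m : ℕ) : ℝ)), gT W l v x s =
      (m : ℂ) • (ph l ((k * m : ℕ) : ℝ) •
        W.U (-(((k * m : ℕ) : ℝ))) (avS W l v id m (W.U (((k * m : ℕ) : ℝ)) x))) := by
    intro k
    set a : ℝ := ((k * m : ℕ) : ℝ) with ha
    have e1 : avS W l v id m (W.U a x) = ((m : ℂ)⁻¹) • ∫ s in (0 : ℝ)..(m : ℝ),
        gT W l v (W.U a x) s := rfl
    have e2 : ∫ s in (0 : ℝ)..(m : ℝ), gT W l v (W.U a x) s =
        ph l (-a) • W.U a (∫ s in (0 : ℝ)..(m : ℝ), gT W l v x (s + a)) := by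
      have hh : IntervalIntegrable (fun s => gT W l v x (s + a)) volume 0 (m : ℝ) :=
        ((gT_cont W l v x).comp (continuous_add_const a)).intervalIntegrable _ _
      rw [← ContinuousLinearMap.intervalIntegral_comp_comm _ hh, ← intervalIntegral.integral_smul]
      exact intervalIntegral.integral_congr fun s _ => gT_shift W l v x a s
    have e3 : ph l a * ph l (-a) = 1 := by rw [mul_comm, ph_neg_mul]
    rw [e1, e2, map_smul, map_smul, smul_comm (m : ℂ), smul_smul (m : ℂ), mul_inv_cancel₀ hmC,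
      one_smul, smul_smul, e3, one_smul, ← W.add', neg_add_cancel, W.zero',
      intervalIntegral.integral_comp_add_right (fun s => gT W l v x s) a]
    congr 1
    · simp
    · rw [ha]
      push_cast
      ring
  have h0 : avS W l v id (n * m) x = (((n * m : ℕ) : ℂ)⁻¹) • ∫ s in (0 : ℝ)..(((n * m : ℕ) : ℝ)),
      gT W l v x s := rfl
  rw [h0]
  have h1 : ∫ s in (0 : ℝ)..(((n * m : ℕ) : ℝ)), gT W l v x s =
      ∑ k ∈ Finset.range n, (m : ℂ) • (ph l ((k * m : ℕ) : ℝ) •
        W.U (-(((k * m : ℕ) : ℝ))) (avS W l v id m (W.U (((k * m : ℕ) : ℝ)) x))) := by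
    rw [← Finset.sum_congr rfl fun k _ => hterm k]
    rw [hsum]
    simp
  rw [h1, ← Finset.smul_sum, smul_smul]
  congr 1
  push_cast
  rw [mul_inv, mul_assoc, inv_mul_cancel₀ hmC, mul_one]

theorem block_boundT (W : UG X) (l : ℝ) (v : X →L[ℂ] X) (m n : ℕ) (hm : 0 < m) (hn : 0 < n)
    (x : X) :
    ‖avS W l v id (n * m) x‖ ^ 2 ≤
      (∑ k ∈ Finset.range n, ‖avS W l v id m (W.U (((k * m : ℕ) : ℝ)) x)‖ ^ 2) / n := by
  have hnR : (0 : ℝ) < n := by exact_mod_cast hn
  have e4 : ‖avS W l v id (n * m) x‖ ≤ (n : ℝ)⁻¹ * ∑ k ∈ Finset.range n,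
      ‖avS W l v id m (W.U (((k * m : ℕ) : ℝ)) x)‖ := by
    rw [avS_block W l v m n hm x, norm_smul, norm_inv, Complex.norm_natCast]
    refine mul_le_mul_of_nonneg_left ?_ (by positivity)
    refine (norm_sum_le _ _).trans (le_of_eq ?_)
    refine Finset.sum_congr rfl fun k _ => ?_
    rw [norm_smul, norm_ph, one_mul]
    exact W.norm' _ _
  have e5 := sq_sum_le_card_mul_sum_sq (s := Finset.range n)
    (f := fun k => ‖avS W l v id m (W.U (((k * m : ℕ) : ℝ)) x)‖)
  rw [Finset.card_range] at e5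
  have e6 := pow_le_pow_left₀ (norm_nonneg _) e4 2
  refine e6.trans ?_
  rw [mul_pow, le_div_iff₀ hnR]
  calc (n : ℝ)⁻¹ ^ 2 * (∑ k ∈ Finset.range n,
        ‖avS W l v id m (W.U (((k * m : ℕ) : ℝ)) x)‖) ^ 2 * n
      ≤ (n : ℝ)⁻¹ ^ 2 * (n * ∑ k ∈ Finset.range n,
        ‖avS W l v id m (W.U (((k * m : ℕ) : ℝ)) x)‖ ^ 2) * n := by
        gcongr
    _ = _ := by
        field_simp

/-- from the blocks to all times -/
theorem tendsto_of_blocksT (W : UG X) (l : ℝ) (v : X →L[ℂ] X) (x : X)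
    (h : ∀ ε : ℝ, 0 < ε → ∃ m : ℕ, 0 < m ∧ ∀ n : ℕ, 0 < n → ‖avS W l v id (n * m) x‖ ≤ ε) :
    Tendsto (fun N : ℕ => avS W l v id N x) atTop (𝓝 0) := by
  rw [Metric.tendsto_atTop]
  intro ε hε
  obtain ⟨m, hm, hmn⟩ := h (ε / 2) (by positivity)
  set C : ℝ := (‖v‖ * ‖x‖) * m with hC
  have hC0 : 0 ≤ C := by positivity
  obtain ⟨N₀, hN₀⟩ := exists_nat_gt (4 * C / ε)
  refine ⟨max m (N₀ + 1), fun N hN => ?_⟩
  have hNm : m ≤ N := (le_max_left _ _).trans hN
  have hN1 : N₀ + 1 ≤ N := (le_max_right _ _).trans hN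
  have hNpos : (0 : ℝ) < N := by
    have : 0 < N := lt_of_lt_of_le (Nat.succ_pos _) hN1
    exact_mod_cast this
  have hNC : (N : ℂ) ≠ 0 := by exact_mod_cast hNpos.ne'
  set n := N / m with hn
  have hn0 : 0 < n := Nat.div_pos hNm hm
  have hnm : n * m ≤ N := Nat.div_mul_le_self N m
  have hnm2 : N < (n + 1) * m := by
    have h1 := Nat.div_add_mod N m
    have h2 := Nat.mod_lt N hm
    calc N = m * (N / m) + N % m := h1.symm
      _ < m * (N / m) + m := by omega
      _ = (n + 1) * m := by rw [hn]; ring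
  have hnm3 : N - n * m ≤ m := by
    have : (n + 1) * m = n * m + m := by ring
    omega
  have hnmC : ((n * m : ℕ) : ℂ) ≠ 0 := by exact_mod_cast (Nat.mul_pos hn0 hm).ne'
  have hi : ∀ a b : ℝ, IntervalIntegrable (gT W l v x) volume a b :=
    fun a b => (gT_cont W l v x).intervalIntegrable a b
  have e1 : (N : ℂ) • avS W l v id N x = ((n * m : ℕ) : ℂ) • avS W l v id (n * m) x +
      ∫ s in (((n * m : ℕ) : ℝ))..(N : ℝ), gT W l v x s := by
    have a1 : (N : ℂ) • avS W l v id N x = ∫ s in (0 : ℝ)..(N : ℝ), gT W l v x s := by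
      unfold avS
      rw [smul_smul, mul_inv_cancel₀ hNC, one_smul]
      rfl
    have a2 : ((n * m : ℕ) : ℂ) • avS W l v id (n * m) x =
        ∫ s in (0 : ℝ)..(((n * m : ℕ) : ℝ)), gT W l v x s := by
      unfold avS
      rw [smul_smul, mul_inv_cancel₀ hnmC, one_smul]
      rfl
    rw [a1, a2,
      ← intervalIntegral.integral_add_adjacent_intervals (hi 0 (((n * m : ℕ) : ℝ))) (hi _ _)]
  have e2 : ‖∫ s in (((n * m : ℕ) : ℝ))..(N : ℝ), gT W l v x s‖ ≤ C := by
    refine (int_norm W l v x _ _).trans ?_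
    have : |(N : ℝ) - ((n * m : ℕ) : ℝ)| ≤ m := by
      have b1 : (0 : ℝ) ≤ (N : ℝ) - ((n * m : ℕ) : ℝ) := by
        have : ((n * m : ℕ) : ℝ) ≤ N := by exact_mod_cast hnm
        linarith
      rw [abs_of_nonneg b1]
      have b2 : (N : ℝ) ≤ ((n * m : ℕ) : ℝ) + m := by
        have : N ≤ n * m + m := by omega
        exact_mod_cast this
      linarith
    exact mul_le_mul_of_nonneg_left this (by positivity)
  have e4 : (N : ℝ) * ‖avS W l v id N x‖ ≤ N * (ε / 2) + C := by
    have b0 : (N : ℝ) * ‖avS W l v id N x‖ = ‖(N : ℂ) • avS W l v id N x‖ := by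
      rw [norm_smul, Complex.norm_natCast]
    rw [b0, e1]
    refine (norm_add_le _ _).trans ?_
    have b1 : ‖((n * m : ℕ) : ℂ) • avS W l v id (n * m) x‖ ≤ N * (ε / 2) := by
      rw [norm_smul, Complex.norm_natCast]
      have : ((n * m : ℕ) : ℝ) ≤ N := by exact_mod_cast hnm
      exact mul_le_mul this (hmn n hn0) (norm_nonneg _) (Nat.cast_nonneg _)
    linarith
  have e5 : C < N * (ε / 4) := by
    have b1 : (N₀ : ℝ) < N := by exact_mod_cast hN1
    have b2 : 4 * C / ε < N := hN₀.trans b1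
    rw [div_lt_iff₀ hε] at b2
    linarith
  rw [dist_zero_right]
  have e6 : (N : ℝ) * ‖avS W l v id N x‖ < N * ε := by nlinarith
  exact lt_of_mul_lt_mul_left e6 hNpos.le

end one

/-! ### fields -/

variable {d : ℕ} {c o : ℝ} {ev : (NB.Site d → ℝ) → NB.UG (L2 d)}

theorem shf_add (o : ℝ) (V : NB.Site d → ℝ) : shf o (fun x => o + V x) = V := by
  funext x
  unfold shf
  ring

theorem hev_shf (hev : ∀ ω : NB.Site d → ℝ, NB.IsGrp c (fun x => o + ω x) (ev ω))
    (V : NB.Site d → ℝ) : NB.IsGrp c V (ev (shf o V)) := by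
  have h := hev (shf o V)
  have e : (fun x => o + shf o V x) = V := by
    funext x
    unfold shf
    ring
  rwa [e] at h

theorem contUo (hev : ∀ ω : NB.Site d → ℝ, NB.IsGrp c (fun x => o + ω x) (ev ω)) :
    Continuous fun p : (NB.Site d → ℝ) × ℝ × L2 d => (ev p.1).U p.2.1 p.2.2 := by
  have h := NB.ALL.a_CV d c (fun V => ev (shf o V)) (hev_shf hev)
  have h2 : Continuous fun p : (NB.Site d → ℝ) × ℝ × L2 d =>
      (((fun x => o + p.1 x) : NB.Site d → ℝ), p.2.1, p.2.2) := by fun_prop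
  have h3 := h.comp h2
  simp only [Function.comp_def, shf_add] at h3
  exact h3

theorem covUo (hev : ∀ ω : NB.Site d → ℝ, NB.IsGrp c (fun x => o + ω x) (ev ω))
    (z : NB.Site d) (S : L2 d →L[ℂ] L2 d) (hS : NB.IsShift z S) (V : NB.Site d → ℝ) (t : ℝ)
    (ψ : L2 d) : (ev fun y => V (y + z)).U t (S ψ) = S ((ev V).U t ψ) := by
  have h := NB.ALL.a_COV d c (fun V => ev (shf o V)) (hev_shf hev) z S hS (fun x => o + V x) t ψ
  simp only [shf_add] at h
  exact h

/-- the unitary group as a field -/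
theorem ft_U (hev : ∀ ω : NB.Site d → ℝ, NB.IsGrp c (fun x => o + ω x) (ev ω)) (t : ℝ) :
    FT (fun _ => 1) 1 (fun V => (ev V).U t) (fun V => (ev V).U (-t)) where
  adj V f g := by rw [NB.STAT.inner_adj (ev V) (-t) f g, neg_neg]
  bd V ψ := by rw [one_mul]; exact ((ev V).norm' t ψ).le
  bd' V ψ := by rw [one_mul]; exact ((ev V).norm' (-t) ψ).le
  meas f hf := by
    have h1 : Continuous fun p : (NB.Site d → ℝ) × L2 d => (ev p.1).U t p.2 :=
      (contUo hev).comp (continuous_fst.prodMk (continuous_const.prodMk continuous_snd))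
    exact h1.comp_stronglyMeasurable (stronglyMeasurable_id.prodMk hf)
  meas' f hf := by
    have h1 : Continuous fun p : (NB.Site d → ℝ) × L2 d => (ev p.1).U (-t) p.2 :=
      (contUo hev).comp (continuous_fst.prodMk (continuous_const.prodMk continuous_snd))
    exact h1.comp_stronglyMeasurable (stronglyMeasurable_id.prodMk hf)
  chi z := by simp
  cov z S hS V ψ := by rw [one_smul]; exact covUo hev z S hS V t ψ
  cov' z S hS V ψ := by rw [map_one, one_smul]; exact covUo hev z S hS V (-t) ψ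

variable {χ : NB.Site d → ℂ} {C : ℝ} {A A' : NQ.OF d}

theorem sm_avS (hev : ∀ ω : NB.Site d → ℝ, NB.IsGrp c (fun x => o + ω x) (ev ω))
    (hA : FT χ C A A') (l : ℝ) (m : ℕ) (f : (NB.Site d → ℝ) → L2 d) (hf : StronglyMeasurable f) :
    StronglyMeasurable fun V => avS (ev V) l (A V) id m (f V) := by
  have h1 : ∀ s : ℝ, StronglyMeasurable fun V => gT (ev V) l (A V) (f V) s := by
    intro s
    have a1 := (ft_U hev s).meas f hf
    have a2 := hA.meas _ a1
    have a3 := (ft_U hev (-s)).meas _ a2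
    exact a3.const_smul (ph l s)
  have h2 : StronglyMeasurable (Function.uncurry fun (s : ℝ) V => gT (ev V) l (A V) (f V) s) :=
    stronglyMeasurable_uncurry_of_continuous_of_stronglyMeasurable
      (fun V => gT_cont (ev V) l (A V) (f V)) h1
  have h3 : StronglyMeasurable fun V => ∫ s in (0 : ℝ)..(m : ℝ), gT (ev V) l (A V) (f V) s := by
    have e : (fun V => ∫ s in (0 : ℝ)..(m : ℝ), gT (ev V) l (A V) (f V) s) =
        fun V => ∫ s, Function.uncurry (fun (s : ℝ) V => gT (ev V) l (A V) (f V) s) (s, V)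
          ∂(volume.restrict (Set.Ioc (0 : ℝ) (m : ℝ))) := by
      funext V
      rw [intervalIntegral.integral_of_le (Nat.cast_nonneg m)]
      rfl
    rw [e]
    exact h2.integral_prod_left'
  exact h3.const_smul ((m : ℂ)⁻¹)

/-- the averages as a field -/
theorem ft_avS (hev : ∀ ω : NB.Site d → ℝ, NB.IsGrp c (fun x => o + ω x) (ev ω))
    (hA : FT χ C A A') (l : ℝ) (m : ℕ) :
    FT χ C (fun V => SL (ev V) l (A V) id continuous_id m)
      (fun V => SL (ev V) (-l) (A' V) id continuous_id m) := by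
  have hcov : ∀ {χ : NB.Site d → ℂ} {A A' : NQ.OF d} (_ : FT χ C A A') (l : ℝ)
      (z : NB.Site d) (S : L2 d →L[ℂ] L2 d) (_ : NB.IsShift z S) (V) (ψ : L2 d),
      SL (ev fun y => V (y + z)) l (A fun y => V (y + z)) id continuous_id m (S ψ) =
        χ z • S (SL (ev V) l (A V) id continuous_id m ψ) := by
    intro χ A A' hA l z S hS V ψ
    rw [SL_apply, SL_apply]
    unfold avS
    have e := ContinuousLinearMap.intervalIntegral_comp_comm S
      ((gT_cont (ev V) l (A V) ψ).intervalIntegrable (μ := volume) (0 : ℝ) (m : ℝ))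
    rw [map_smul, smul_comm]
    congr 1
    have e2 : ∫ s in (0 : ℝ)..(m : ℝ), gT (ev fun y => V (y + z)) l (A fun y => V (y + z)) (S ψ)
        (id s) = ∫ s in (0 : ℝ)..(m : ℝ), χ z • S (gT (ev V) l (A V) ψ s) := by
      refine intervalIntegral.integral_congr fun s _ => ?_
      show gT (ev fun y => V (y + z)) l (A fun y => V (y + z)) (S ψ) s = _
      unfold gT
      have hU := covUo hev z S hS V
      rw [hU, hA.cov z S hS, map_smul, hU, map_smul, smul_comm]
    refine e2.trans ?_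
    rw [intervalIntegral.integral_smul, e]
    rfl
  refine ⟨fun V f g => ?_, fun V ψ => ?_, fun V ψ => ?_, fun f hf => ?_, fun f hf => ?_, hA.chi,
    hcov hA l, hcov hA.swap (-l)⟩
  · exact avS_adj (ev V) l (A V) (A' V) (hA.adj V) f g m
  · exact (avS_norm _ _ _ _ _ _).trans (mul_le_mul_of_nonneg_right (hA.opn V) (norm_nonneg _))
  · exact (avS_norm _ _ _ _ _ _).trans (mul_le_mul_of_nonneg_right (hA.swap.opn V) (norm_nonneg _))
  · exact sm_avS hev hA l m f hf
  · exact sm_avS hev hA.swap (-l) m f hf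

end Pool.Agent.L7h83.WM
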