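import Pool.Agent.L7h83.WM.Gn

/-! # Maximal estimate for sequences of fields; covariance arguments -/

set_option autoImplicit false

open MeasureTheory Filter Topology
open scoped BigOperators ENNReal NNReal InnerProductSpace ComplexConjugate

namespace Pool.Agent.L7h83.WM

open Pool.Agent.TH980.IM Pool.Agent.H5R2 Pool.Agent.Y662.ERG Pool.Agent.R988

variable {d : ℕ} {c o : ℝ} {ev : (NB.Site d → ℝ) → NB.UG (L2 d)}
variable {χ : NB.Site d → ℂ} {C : ℝ} {A A' P : NQ.OF d}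
variable {ν : Measure ℝ} [IsProbabilityMeasure ν]

theorem sqL {Ω E : Type} [MeasurableSpace Ω] [NormedAddCommGroup E] (μ : Measure Ω) (f : Ω → E) :
    eLpNorm f 2 μ ^ 2 = ∫⁻ x, ‖f x‖ₑ ^ 2 ∂μ := by
  have h1 := eLpNorm_nnreal_pow_eq_lintegral (μ := μ) (f := f) (p := 2) (by norm_num)
  have h3 : (eLpNorm f 2 μ) ^ 2 = (eLpNorm f ((2 : ℝ≥0) : ℝ≥0∞) μ) ^ (((2 : ℝ≥0) : ℝ)) := by
    rw [← ENNReal.rpow_natCast]
    norm_num
  rw [h3, h1]
  refine lintegral_congr fun V => ?_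
  rw [← ENNReal.rpow_natCast]
  norm_num

/-- the maximal estimate -/
theorem core_sup (hev : ∀ ω : NB.Site d → ℝ, NB.IsGrp c (fun x => o + ω x) (ev ω))
    {Z Z' : ℕ → NQ.OF d} (hZ : ∀ m, FT χ C (Z m) (Z' m))
    (hlim : Tendsto (fun m : ℕ => ∫⁻ V, ‖Z m V (NB.dl 0)‖ₑ ^ 2 ∂(NB.PP d ν)) atTop (𝓝 0)) :
    ∀ᵐ V ∂(NB.PP d ν), ∀ ε : ℝ, 0 < ε → ∃ m : ℕ, 0 < m ∧ ∀ n : ℕ, 0 < n →
      (∑ k ∈ Finset.range n, ‖Z m V ((ev V).U (((k * m : ℕ) : ℝ)) (NB.dl 0))‖ ^ 2) / n ≤ ε ^ 2 := by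
  have hPP : IsProbabilityMeasure (NB.PP d ν) := by unfold NB.PP; infer_instance
  have hC0 : 0 ≤ C := (hZ 0).nn
  set B : ℕ → NQ.OF d := fun m V => (Z' m V).comp (Z m V) with hB
  have hD : ∀ m : ℕ, NQ.Data (NQ.Uf ev (m : ℝ)) (NQ.Uf ev (-(m : ℝ))) (B m) (C * C) := by
    intro m
    refine ⟨(ft_U hev _).fld fun _ => rfl, (ft_U hev _).fld fun _ => rfl, (ft_U hev _).adj,
      fun V f => ?_, fun V f => ?_, by positivity, (hZ m).sq.fld fun _ => rfl, (hZ m).sq.adj⟩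
    · show (ev V).U (-(m : ℝ)) ((ev V).U (m : ℝ) f) = f
      rw [← (ev V).add', neg_add_cancel, (ev V).zero']
    · show (ev V).U (m : ℝ) ((ev V).U (-(m : ℝ)) f) = f
      rw [← (ev V).add', add_neg_cancel, (ev V).zero']
  set γ : ℝ := C * C with hγ
  set R : ℕ → (NB.Site d → ℝ) → ℝ≥0∞ := fun m V => ⨆ n : ℕ, ENNReal.ofReal
    (NQ.qq (NQ.Uf ev (m : ℝ)) (NQ.Uf ev (-(m : ℝ))) (B m) (n + 1) V /
      ((n + 1 : ℕ) : ℝ)) with hR
  have hRm : ∀ m, Measurable (R m) := fun m => Measurable.iSup fun n =>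
    ENNReal.measurable_ofReal.comp ((NQ.meas_qq (hD m) (n + 1)).div_const _)
  have hBle : ∀ m V u, ‖B m V u‖ ≤ C * ‖Z m V u‖ := fun m V u => (hZ m).bd' V _
  have htau : Tendsto (fun m : ℕ => NQ.tauB ν (B m)) atTop (𝓝 0) := by
    have h1 := (ENNReal.tendsto_toReal (by simp : (0 : ℝ≥0∞) ≠ ∞)).comp hlim
    rw [ENNReal.toReal_zero] at h1
    have h2 := h1.const_mul (C ^ 2)
    rw [mul_zero] at h2
    refine squeeze_zero (fun m => integral_nonneg fun V => sq_nonneg _) (fun m => ?_) h2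
    have hs : StronglyMeasurable fun V => Z m V (NB.dl 0) := (hZ m).meas _ stronglyMeasurable_const
    have e1 : (∫⁻ V, ‖Z m V (NB.dl 0)‖ₑ ^ 2 ∂(NB.PP d ν)).toReal =
        ∫ V, ‖Z m V (NB.dl 0)‖ ^ 2 ∂(NB.PP d ν) := by
      rw [integral_eq_lintegral_of_nonneg_ae (Eventually.of_forall fun V => sq_nonneg _)
        (hs.norm.pow 2).aestronglyMeasurable]
      congr 1
      refine lintegral_congr fun V => ?_
      rw [ENNReal.ofReal_pow (norm_nonneg _), ofReal_norm]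
    show NQ.tauB ν (B m) ≤ C ^ 2 * (∫⁻ V, ‖Z m V (NB.dl 0)‖ₑ ^ 2 ∂(NB.PP d ν)).toReal
    rw [e1, ← integral_const_mul]
    unfold NQ.tauB
    have i1 : Integrable (fun V => ‖NQ.vec (B m) V‖ ^ 2) (NB.PP d ν) := (hZ m).sq.sq_int
    have i2 : Integrable (fun V => C ^ 2 * ‖Z m V (NB.dl 0)‖ ^ 2) (NB.PP d ν) :=
      (hZ m).sq_int.const_mul _
    refine integral_mono i1 i2 fun V => ?_
    show ‖NQ.vec (B m) V‖ ^ 2 ≤ C ^ 2 * ‖Z m V (NB.dl 0)‖ ^ 2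
    rw [← mul_pow]
    exact pow_le_pow_left₀ (norm_nonneg _) (hBle m V (NB.dl 0)) 2
  have hsmall : ∀ ε : ℝ, 0 < ε → ∃ m : ℕ, 0 < m ∧
      ∫⁻ V, R m V ∂(NB.PP d ν) ≤ ENNReal.ofReal (3 * ε) := by
    intro ε hε
    have h1 : ∀ᶠ m : ℕ in atTop, 2 * γ ^ 2 * (NQ.tauB ν (B m) / ε) < ε := by
      have h2 : Tendsto (fun m : ℕ => 2 * γ ^ 2 * (NQ.tauB ν (B m) / ε)) atTop
          (𝓝 0) := by
        have := (htau.div_const ε).const_mul (2 * γ ^ 2)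
        simpa using this
      exact (tendsto_order.1 h2).2 ε hε
    obtain ⟨m, hm, hm0⟩ := (h1.and (eventually_gt_atTop 0)).exists
    refine ⟨m, hm0, (NQ.maximal (hD m) hε).trans (ENNReal.ofReal_le_ofReal ?_)⟩
    linarith
  have hinf : ∀ᵐ V ∂(NB.PP d ν), (⨅ m : ℕ, R (m + 1) V) = 0 := by
    have hm : Measurable fun V => ⨅ m : ℕ, R (m + 1) V := Measurable.iInf fun m => hRm (m + 1)
    have h0 : ∫⁻ V, (⨅ m : ℕ, R (m + 1) V) ∂(NB.PP d ν) = 0 := by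
      refine le_antisymm ?_ bot_le
      refine ge_of_tendsto (x := 𝓝[>] (0 : ℝ)) (f := fun ε => ENNReal.ofReal (3 * ε)) ?_ ?_
      · have hc : Continuous fun ε : ℝ => ENNReal.ofReal (3 * ε) :=
          ENNReal.continuous_ofReal.comp (continuous_const.mul continuous_id)
        have := hc.tendsto 0
        rw [mul_zero, ENNReal.ofReal_zero] at this
        exact this.mono_left nhdsWithin_le_nhds
      · filter_upwards [self_mem_nhdsWithin] with ε hε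
        obtain ⟨m, hm0, hm1⟩ := hsmall ε hε
        refine le_trans (lintegral_mono fun V => ?_) hm1
        obtain ⟨k, rfl⟩ : ∃ k, m = k + 1 := ⟨m - 1, by omega⟩
        exact iInf_le (fun m : ℕ => R (m + 1) V) k
    exact (lintegral_eq_zero_iff hm).1 h0
  filter_upwards [hinf] with V hV
  intro ε hε
  have h1 : (⨅ m : ℕ, R (m + 1) V) < ENNReal.ofReal ((ε ^ 2) ^ 2) := by
    rw [hV]
    exact ENNReal.ofReal_pos.2 (by positivity)
  obtain ⟨k, hk⟩ := iInf_lt_iff.1 h1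
  refine ⟨k + 1, Nat.succ_pos k, fun n hn => ?_⟩
  obtain ⟨n', rfl⟩ : ∃ n', n = n' + 1 := ⟨n - 1, by omega⟩
  have h2 : ENNReal.ofReal (NQ.qq (NQ.Uf ev ((k + 1 : ℕ) : ℝ)) (NQ.Uf ev (-((k + 1 : ℕ) : ℝ)))
      (B (k + 1)) (n' + 1) V / ((n' + 1 : ℕ) : ℝ)) ≤ ENNReal.ofReal ((ε ^ 2) ^ 2) :=
    (le_iSup (fun n : ℕ => ENNReal.ofReal (NQ.qq (NQ.Uf ev ((k + 1 : ℕ) : ℝ))
      (NQ.Uf ev (-((k + 1 : ℕ) : ℝ))) (B (k + 1)) (n + 1) V /
        ((n + 1 : ℕ) : ℝ))) n').trans hk.le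
  rw [ENNReal.ofReal_le_ofReal_iff (by positivity)] at h2
  have h4 := NQ.SS_eq (ev := ev) (m := k + 1) (hD (k + 1)).sB (n' + 1) V (NB.dl 0)
  unfold NQ.qq at h2
  rw [h4] at h2
  set a : ℕ → ℝ := fun j => ‖B (k + 1) V ((ev V).U (((j * (k + 1) : ℕ) : ℝ)) (NB.dl 0))‖ with ha
  have hn1 : (0 : ℝ) < ((n' + 1 : ℕ) : ℝ) := by positivity
  have h5 : ∀ j, ‖Z (k + 1) V ((ev V).U (((j * (k + 1) : ℕ) : ℝ)) (NB.dl 0))‖ ^ 2 ≤ a j := by
    intro j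
    set u := (ev V).U (((j * (k + 1) : ℕ) : ℝ)) (NB.dl 0) with hu
    have b0 : ‖u‖ = 1 := by rw [hu, (ev V).norm', NB.STAT.norm_dl]
    have b1 := inner_sq (hZ (k + 1)) V u
    have b2 : (⟪u, Z' (k + 1) V (Z (k + 1) V u)⟫_ℂ).re = ‖Z (k + 1) V u‖ ^ 2 := by
      rw [b1, Complex.ofReal_re]
    rw [← b2]
    refine (Complex.re_le_norm _).trans ((norm_inner_le_norm _ _).trans ?_)
    rw [b0, one_mul]
    exact le_rfl
  have h6 : (∑ j ∈ Finset.range (n' + 1), a j) / ((n' + 1 : ℕ) : ℝ) ≤ ε ^ 2 := by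
    have b1 := sq_sum_le_card_mul_sum_sq (s := Finset.range (n' + 1)) (f := a)
    rw [Finset.card_range] at b1
    have b2 : (∑ j ∈ Finset.range (n' + 1), a j ^ 2) / ((n' + 1 : ℕ) : ℝ) ≤ (ε ^ 2) ^ 2 := h2
    rw [div_le_iff₀ hn1] at b2
    rw [div_le_iff₀ hn1]
    have b3 : (∑ j ∈ Finset.range (n' + 1), a j) ^ 2 ≤ (ε ^ 2 * ((n' + 1 : ℕ) : ℝ)) ^ 2 := by
      calc (∑ j ∈ Finset.range (n' + 1), a j) ^ 2
          ≤ ((n' + 1 : ℕ) : ℝ) * ∑ j ∈ Finset.range (n' + 1), a j ^ 2 := b1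
        _ ≤ ((n' + 1 : ℕ) : ℝ) * ((ε ^ 2) ^ 2 * ((n' + 1 : ℕ) : ℝ)) :=
            mul_le_mul_of_nonneg_left b2 hn1.le
        _ = _ := by ring
    have b4 : 0 ≤ ∑ j ∈ Finset.range (n' + 1), a j := Finset.sum_nonneg fun j _ => norm_nonneg _
    exact (sq_le_sq₀ b4 (by positivity)).1 b3
  refine le_trans (div_le_div_of_nonneg_right ?_ hn1.le) h6
  exact Finset.sum_le_sum fun j _ => h5 j

/-- the norm at a site -/
theorem FT.site (hA : FT χ C A A') (V : NB.Site d → ℝ) (z : NB.Site d) :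
    ‖A V (NB.dl z)‖ = ‖A (fun y => V (y + z)) (NB.dl 0)‖ := by
  obtain ⟨S, hS⟩ := (NB.t_OPS d).1 (-z)
  have h2 := hA.cov (-z) S hS (fun y => V (y + z)) (NB.dl 0)
  have e : (fun y => (fun y => V (y + z)) (y + -z)) = V := by
    funext y; simp
  rw [e, NB.LIMB.shift_dl z S hS] at h2
  have hSn : ∀ u : L2 d, ‖S u‖ = ‖u‖ := by
    intro u
    have : S u = Sh (-z) u := by
      ext x
      rw [hS, Sh_apply]
    rw [this, Sh_norm]
  rw [h2, norm_smul, hA.chi, one_mul, hSn]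

/-- mean squares at all sites agree -/
theorem FT.ms_site (hA : FT χ C A A') (z : NB.Site d) :
    ∫⁻ V, ‖A V (NB.dl z)‖ₑ ^ 2 ∂(NB.PP d ν) = ∫⁻ V, ‖A V (NB.dl 0)‖ₑ ^ 2 ∂(NB.PP d ν) := by
  have hmp := (NB.t_RES d ν).2 z
  have hm : Measurable fun V => ‖A V (NB.dl 0)‖ₑ ^ 2 :=
    (hA.meas _ stronglyMeasurable_const).enorm.pow_const 2
  rw [← hmp.lintegral_comp hm]
  refine lintegral_congr fun V => ?_
  rw [← ofReal_norm, ← ofReal_norm, hA.site V z]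

/-- convergence at the origin implies convergence for all vectors -/
theorem all_of_origin {Z Z' : ℕ → NQ.OF d} (hZ : ∀ m, FT χ C (Z m) (Z' m))
    (h0 : ∀ᵐ V ∂(NB.PP d ν), Tendsto (fun N : ℕ => Z N V (NB.dl 0)) atTop (𝓝 0)) :
    ∀ᵐ V ∂(NB.PP d ν), ∀ x, Tendsto (fun N : ℕ => Z N V x) atTop (𝓝 0) := by
  have hz : ∀ᵐ V ∂(NB.PP d ν), ∀ z : NB.Site d,
      Tendsto (fun N : ℕ => Z N (fun y => V (y + z)) (NB.dl 0)) atTop (𝓝 0) := by
    rw [ae_all_iff]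
    intro z
    exact ((NB.t_RES d ν).2 z).quasiMeasurePreserving.ae h0
  filter_upwards [hz] with V hV
  have hdl : ∀ z : NB.Site d, Tendsto (fun N : ℕ => Z N V (NB.dl z)) atTop (𝓝 0) := by
    intro z
    have h1 := (hV z).norm
    rw [norm_zero] at h1
    rw [tendsto_zero_iff_norm_tendsto_zero]
    exact h1.congr fun N => ((hZ N).site V z).symm
  obtain ⟨B, hB⟩ := NB.LIMB.ext_lim (fun N => Z N V) (fun N => Z N V) C (hZ 0).nn
    (fun N => (hZ N).bd V) (fun N => (hZ N).bd V)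
    (NB.Site d) NB.dl (NB.LIMB.dl_dense d) (fun z => ⟨0, hdl z, hdl z⟩)
  have hBw : B = 0 := by
    refine ContinuousLinearMap.ext_on (s := Set.range (NB.dl (d := d)))
      (fun x => NB.LIMB.dl_dense d x) ?_
    rintro _ ⟨z, rfl⟩
    exact tendsto_nhds_unique (hB (NB.dl z)).1 (hdl z)
  intro x
  have := (hB x).1
  rw [hBw] at this
  exact this

/-- convergence at the origin implies the existence of a limit operator -/
theorem lim_of_origin {Z Z' : ℕ → NQ.OF d} (hZ : ∀ m, FT χ C (Z m) (Z' m))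
    (h0 : ∀ᵐ V ∂(NB.PP d ν), ∃ y, Tendsto (fun N : ℕ => Z N V (NB.dl 0)) atTop (𝓝 y)) :
    ∀ᵐ V ∂(NB.PP d ν), ∃ B : L2 d →L[ℂ] L2 d, ∀ x,
      Tendsto (fun N : ℕ => Z N V x) atTop (𝓝 (B x)) := by
  have hz : ∀ᵐ V ∂(NB.PP d ν), ∀ z : NB.Site d,
      ∃ y, Tendsto (fun N : ℕ => Z N (fun y => V (y + z)) (NB.dl 0)) atTop (𝓝 y) := by
    rw [ae_all_iff]
    intro z
    exact ((NB.t_RES d ν).2 z).quasiMeasurePreserving.ae h0
  filter_upwards [hz] with V hV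
  have hdl : ∀ z : NB.Site d, ∃ y, Tendsto (fun N : ℕ => Z N V (NB.dl z)) atTop (𝓝 y) := by
    intro z
    obtain ⟨y, hy⟩ := hV z
    obtain ⟨S, hS⟩ := (NB.t_OPS d).1 (-z)
    have e : (fun y => (fun y => V (y + z)) (y + -z)) = V := by
      funext y; simp
    refine ⟨χ (-z) • S y, ?_⟩
    have h1 := ((S.continuous.tendsto _).comp hy).const_smul (χ (-z))
    refine h1.congr fun N => ?_
    have h2 := (hZ N).cov (-z) S hS (fun y => V (y + z)) (NB.dl 0)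
    rw [e, NB.LIMB.shift_dl z S hS] at h2
    exact h2.symm
  obtain ⟨B, hB⟩ := NB.LIMB.ext_lim (fun N => Z N V) (fun N => Z N V) C (hZ 0).nn
    (fun N => (hZ N).bd V) (fun N => (hZ N).bd V)
    (NB.Site d) NB.dl (NB.LIMB.dl_dense d) (fun z => by
      obtain ⟨y, hy⟩ := hdl z
      exact ⟨y, hy, hy⟩)
  exact ⟨B, fun x => (hB x).1⟩

end Pool.Agent.L7h83.WM
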