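import Pool.Agent.L7h83.WM.Dn

/-! # The averages are contractions in mean square -/

set_option autoImplicit false

open MeasureTheory Filter Topology
open scoped BigOperators ENNReal NNReal InnerProductSpace ComplexConjugate

namespace Pool.Agent.L7h83.WM

open Pool.Agent.TH980.IM Pool.Agent.H5R2 Pool.Agent.Y662.ERG Pool.Agent.R988

variable {d : ℕ} {c o : ℝ} {ev : (NB.Site d → ℝ) → NB.UG (L2 d)}
variable {χ : NB.Site d → ℂ} {C : ℝ} {D D' A A' P : NQ.OF d}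
variable {ν : Measure ℝ} [IsProbabilityMeasure ν]

/-- the mean square at the origin -/
noncomputable def II (ν : Measure ℝ) [IsProbabilityMeasure ν] (D : NQ.OF d) : ℝ :=
  ∫ V, ‖D V (NB.dl 0)‖ ^ 2 ∂(NB.PP d ν)

theorem FT.sq_int (hD : FT χ C D D') : Integrable (fun V => ‖D V (NB.dl 0)‖ ^ 2) (NB.PP d ν) := by
  have hPP : IsProbabilityMeasure (NB.PP d ν) := by unfold NB.PP; infer_instance
  have hs := hD.meas (fun _ => NB.dl 0) stronglyMeasurable_const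
  refine Integrable.of_bound (hs.norm.pow 2).aestronglyMeasurable (C ^ 2)
    (Eventually.of_forall fun V => ?_)
  have h2 := hD.bd V (NB.dl 0)
  rw [NB.STAT.norm_dl, mul_one] at h2
  rw [norm_pow, norm_norm]
  exact pow_le_pow_left₀ (norm_nonneg _) h2 2

/-- `D* D` is a covariant field -/
theorem FT.sq (hD : FT χ C D D') : FT (fun _ => 1) (C * C) (fun V => (D' V).comp (D V))
    (fun V => (D' V).comp (D V)) :=
  (hD.swap.mul hD).congr_chi fun z => by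
    rw [mul_comm, Complex.mul_conj, Complex.normSq_eq_norm_sq, hD.chi]
    simp

theorem inner_sq (hD : FT χ C D D') (V : NB.Site d → ℝ) (x : L2 d) :
    ⟪x, D' V (D V x)⟫_ℂ = ((‖D V x‖ ^ 2 : ℝ) : ℂ) := by
  rw [← hD.adj, inner_self_eq_norm_sq_to_K]
  norm_cast

theorem int_ofReal {Ω : Type} [MeasurableSpace Ω] (μ : Measure Ω) (f : Ω → ℝ) :
    ∫ V, ((f V : ℝ) : ℂ) ∂μ = ((∫ V, f V ∂μ : ℝ) : ℂ) := integral_ofReal

theorem II_U (hev : ∀ ω : NB.Site d → ℝ, NB.IsGrp c (fun x => o + ω x) (ev ω))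
    (hD : FT χ C D D') (s : ℝ) :
    II ν (fun V => (D V).comp ((ev V).U s)) = II ν D := by
  have hU := ft_U (c := c) (o := o) hev s
  have hQ := hD.sq
  have hY := hQ.mul hU
  have h1 := NQ.trace (ν := ν) (hU.fld fun _ => rfl) (hU.swap.fld fun _ => by simp)
    (hY.fld fun _ => by simp) (hY.swap.fld fun _ => by simp) hU.adj hY.adj
  have e1 : ∀ V, ⟪NQ.vec (fun V => (ev V).U s) V, NQ.vec (fun V => ((D' V).comp (D V)).comp
      ((ev V).U s)) V⟫_ℂ = ((‖D V ((ev V).U s (NB.dl 0))‖ ^ 2 : ℝ) : ℂ) := by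
    intro V
    exact inner_sq hD V _
  have e2 : ∀ V, ⟪NQ.vec (fun V => ((ev V).U (-s)).comp ((D' V).comp (D V))) V,
      NQ.vec (fun V => (ev V).U (-s)) V⟫_ℂ = ((‖D V (NB.dl 0)‖ ^ 2 : ℝ) : ℂ) := by
    intro V
    show ⟪(ev V).U (-s) (D' V (D V (NB.dl 0))), (ev V).U (-s) (NB.dl 0)⟫_ℂ = _
    rw [NB.STAT.inner_UG, ← inner_conj_symm, inner_sq hD V, Complex.conj_ofReal]
  simp only [e1, e2] at h1
  rw [int_ofReal, int_ofReal] at h1
  exact_mod_cast h1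

theorem II_P (hP : PrF P) (hD : FT χ C D D') : II ν (fun V => (D V).comp (P V)) ≤ II ν D := by
  have hQ := hD.sq
  have hY := hQ.mul hP.ft
  have h1 := NQ.trace (ν := ν) (hP.ft.fld fun _ => rfl) (hP.ft.fld fun _ => rfl)
    (hY.fld fun _ => by simp) (hY.swap.fld fun _ => by simp) hP.ft.adj hY.adj
  have e1 : ∀ V, ⟪NQ.vec P V, NQ.vec (fun V => ((D' V).comp (D V)).comp (P V)) V⟫_ℂ =
      ((‖D V (P V (NB.dl 0))‖ ^ 2 : ℝ) : ℂ) := by
    intro V
    exact inner_sq hD V _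
  have e2 : ∀ V, ⟪NQ.vec (fun V => (P V).comp ((D' V).comp (D V))) V, NQ.vec P V⟫_ℂ =
      ⟪D V (NB.dl 0), D V (P V (NB.dl 0))⟫_ℂ := by
    intro V
    show ⟪P V (D' V (D V (NB.dl 0))), P V (NB.dl 0)⟫_ℂ = _
    rw [hP.ft.adj, hP.idem, hD.swap.adj]
  simp only [e1, e2] at h1
  rw [int_ofReal] at h1
  have hDP := hD.mul hP.ft
  have i1 : Integrable (fun V => ‖D V (P V (NB.dl 0))‖ ^ 2) (NB.PP d ν) := hDP.sq_int
  have i2 : Integrable (fun V => ‖D V (NB.dl 0)‖ ^ 2) (NB.PP d ν) := hD.sq_int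
  have h2 : ‖∫ V, ⟪D V (NB.dl 0), D V (P V (NB.dl 0))⟫_ℂ ∂(NB.PP d ν)‖ ≤
      ∫ V, (‖D V (NB.dl 0)‖ ^ 2 + ‖D V (P V (NB.dl 0))‖ ^ 2) / 2 ∂(NB.PP d ν) := by
    refine norm_integral_le_of_norm_le ((i2.add i1).div_const 2) (Eventually.of_forall fun V => ?_)
    refine (norm_inner_le_norm _ _).trans ?_
    nlinarith [sq_nonneg (‖D V (NB.dl 0)‖ - ‖D V (P V (NB.dl 0))‖)]
  rw [integral_div, integral_add i2 i1, ← h1, Complex.norm_real] at h2
  have h3 := (le_abs_self _).trans h2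
  show ∫ V, ‖D V (P V (NB.dl 0))‖ ^ 2 ∂(NB.PP d ν) ≤ ∫ V, ‖D V (NB.dl 0)‖ ^ 2 ∂(NB.PP d ν)
  linarith

/-- the square of the norm of an average -/
theorem avS_sq {X : Type} [NormedAddCommGroup X] [InnerProductSpace ℂ X]
    (W : NB.UG X) (l : ℝ) (v : X →L[ℂ] X) (N : ℕ) (x : X) :
    ‖avS W l v id N x‖ ^ 2 ≤ (N : ℝ)⁻¹ * ∫ s in (0 : ℝ)..(N : ℝ), ‖gT W l v x s‖ ^ 2 := by
  rcases Nat.eq_zero_or_pos N with hN | hN
  · subst hN
    unfold avS
    simp
  have hNR : (0 : ℝ) < N := by exact_mod_cast hN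
  have hc : Continuous fun s => ‖gT W l v x s‖ := (gT_cont W l v x).norm
  have h1 : ‖avS W l v id N x‖ ≤ (N : ℝ)⁻¹ * ∫ s in (0 : ℝ)..(N : ℝ), ‖gT W l v x s‖ := by
    unfold avS
    rw [norm_smul, norm_inv, Complex.norm_natCast]
    exact mul_le_mul_of_nonneg_left
      (intervalIntegral.norm_integral_le_integral_norm hNR.le) (by positivity)
  set m : ℝ := (N : ℝ)⁻¹ * ∫ s in (0 : ℝ)..(N : ℝ), ‖gT W l v x s‖ with hm
  have hm0 : ∫ s in (0 : ℝ)..(N : ℝ), ‖gT W l v x s‖ = N * m := by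
    rw [hm]
    field_simp
  have i1 : IntervalIntegrable (fun s => ‖gT W l v x s‖ ^ 2) volume 0 (N : ℝ) :=
    (hc.pow 2).intervalIntegrable _ _
  have i2 : IntervalIntegrable (fun s => 2 * m * ‖gT W l v x s‖) volume 0 (N : ℝ) :=
    (continuous_const.mul hc).intervalIntegrable _ _
  have i3 : IntervalIntegrable (fun _ : ℝ => m ^ 2) volume 0 (N : ℝ) :=
    continuous_const.intervalIntegrable _ _
  have h2 : 0 ≤ ∫ s in (0 : ℝ)..(N : ℝ), (‖gT W l v x s‖ - m) ^ 2 :=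
    intervalIntegral.integral_nonneg hNR.le fun s _ => sq_nonneg _
  have h3 : ∫ s in (0 : ℝ)..(N : ℝ), (‖gT W l v x s‖ - m) ^ 2 =
      (∫ s in (0 : ℝ)..(N : ℝ), ‖gT W l v x s‖ ^ 2) - N * m ^ 2 := by
    have e : ∀ s, (‖gT W l v x s‖ - m) ^ 2 =
        (‖gT W l v x s‖ ^ 2 - 2 * m * ‖gT W l v x s‖) + m ^ 2 := fun s => by ring
    simp_rw [e]
    rw [intervalIntegral.integral_add (i1.sub i2) i3, intervalIntegral.integral_sub i1 i2,
      intervalIntegral.integral_const_mul, hm0, intervalIntegral.integral_const, smul_eq_mul]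
    ring
  rw [h3] at h2
  have h4 : m ^ 2 ≤ (N : ℝ)⁻¹ * ∫ s in (0 : ℝ)..(N : ℝ), ‖gT W l v x s‖ ^ 2 := by
    rw [inv_mul_eq_div, le_div_iff₀ hNR]
    linarith
  exact (pow_le_pow_left₀ (norm_nonneg _) h1 2).trans h4

/-- the averages are contractions in mean square -/
theorem contr (hev : ∀ ω : NB.Site d → ℝ, NB.IsGrp c (fun x => o + ω x) (ev ω))
    (hP : PrF P) (hcomm : ∀ᵐ V ∂(NB.PP d ν), ∀ t x, P V ((ev V).U t x) = (ev V).U t (P V x))
    (hD : FT χ C D D') (l : ℝ) (N : ℕ) :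
    ∫⁻ V, ‖avS (ev V) l (D V) id N (P V (NB.dl 0))‖ₑ ^ 2 ∂(NB.PP d ν) ≤
      ∫⁻ V, ‖D V (NB.dl 0)‖ₑ ^ 2 ∂(NB.PP d ν) := by
  have hPP : IsProbabilityMeasure (NB.PP d ν) := by unfold NB.PP; infer_instance
  rcases Nat.eq_zero_or_pos N with hN | hN
  · subst hN
    have : ∀ V, avS (ev V) l (D V) id 0 (P V (NB.dl 0)) = 0 := by
      intro V
      unfold avS
      simp
    simp_rw [this]
    simp
  have hNR : (0 : ℝ) < N := by exact_mod_cast hN
  set p : (NB.Site d → ℝ) → L2 d := fun V => P V (NB.dl 0) with hp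
  have hpm : StronglyMeasurable p := hP.ft.meas _ stronglyMeasurable_const
  have hpb : ∀ V, ‖p V‖ ≤ 1 := by
    intro V
    have := hP.ft.bd V (NB.dl 0)
    rwa [NB.STAT.norm_dl, mul_one] at this
  -- the value for each time
  have hs : ∀ s : ℝ, ∫ V, ‖gT (ev V) l (D V) (p V) s‖ ^ 2 ∂(NB.PP d ν) ≤ II ν D := by
    intro s
    have h1 : ∫ V, ‖gT (ev V) l (D V) (p V) s‖ ^ 2 ∂(NB.PP d ν) =
        II ν (fun V => ((D V).comp (P V)).comp ((ev V).U s)) := by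
      refine integral_congr_ae ?_
      filter_upwards [hcomm] with V hV
      show ‖gT (ev V) l (D V) (p V) s‖ ^ 2 = ‖D V (P V ((ev V).U s (NB.dl 0)))‖ ^ 2
      unfold gT
      rw [norm_smul, norm_ph, one_mul, (ev V).norm', hV]
    rw [h1, II_U hev (hD.mul hP.ft) s]
    exact II_P hP hD
  -- joint measurability
  have hm1 : ∀ s : ℝ, StronglyMeasurable fun V => gT (ev V) l (D V) (p V) s := by
    intro s
    have a1 := (ft_U hev s).meas p hpm
    have a2 := hD.meas _ a1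
    have a3 := (ft_U hev (-s)).meas _ a2
    exact a3.const_smul (ph l s)
  have hm2 : StronglyMeasurable (Function.uncurry fun (s : ℝ) V => gT (ev V) l (D V) (p V) s) :=
    stronglyMeasurable_uncurry_of_continuous_of_stronglyMeasurable
      (fun V => gT_cont (ev V) l (D V) (p V)) hm1
  have hgb : ∀ V s, ‖gT (ev V) l (D V) (p V) s‖ ≤ C := by
    intro V s
    refine (gT_norm _ _ _ _ _).trans ?_
    calc ‖D V‖ * ‖p V‖ ≤ C * 1 := mul_le_mul (hD.opn V) (hpb V) (norm_nonneg _) hD.nn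
      _ = C := mul_one C
  have hint : Integrable (Function.uncurry fun (s : ℝ) V => ‖gT (ev V) l (D V) (p V) s‖ ^ 2)
      ((volume.restrict (Set.Ioc (0 : ℝ) (N : ℝ))).prod (NB.PP d ν)) := by
    refine Integrable.of_bound (hm2.norm.pow 2).aestronglyMeasurable (C ^ 2)
      (Eventually.of_forall fun q => ?_)
    show ‖‖gT (ev q.2) l (D q.2) (p q.2) q.1‖ ^ 2‖ ≤ C ^ 2
    rw [norm_pow, norm_norm]
    exact pow_le_pow_left₀ (norm_nonneg _) (hgb _ _) 2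
  have hsw := integral_integral_swap hint
  have hmain : ∫ V, (N : ℝ)⁻¹ * (∫ s in (0 : ℝ)..(N : ℝ), ‖gT (ev V) l (D V) (p V) s‖ ^ 2)
      ∂(NB.PP d ν) ≤ II ν D := by
    rw [integral_const_mul]
    have e1 : ∫ V, (∫ s in (0 : ℝ)..(N : ℝ), ‖gT (ev V) l (D V) (p V) s‖ ^ 2) ∂(NB.PP d ν) =
        ∫ s in (0 : ℝ)..(N : ℝ), (∫ V, ‖gT (ev V) l (D V) (p V) s‖ ^ 2 ∂(NB.PP d ν)) := by
      simp_rw [intervalIntegral.integral_of_le hNR.le]
      exact hsw.symm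
    rw [e1]
    have e2 : ∫ s in (0 : ℝ)..(N : ℝ), (∫ V, ‖gT (ev V) l (D V) (p V) s‖ ^ 2 ∂(NB.PP d ν)) ≤
        ∫ _s in (0 : ℝ)..(N : ℝ), II ν D := by
      refine intervalIntegral.integral_mono_on hNR.le ?_ (by simp) fun s _ => hs s
      rw [intervalIntegrable_iff_integrableOn_Ioc_of_le hNR.le]
      exact hint.integral_prod_left
    rw [intervalIntegral.integral_const, sub_zero, smul_eq_mul] at e2
    rw [inv_mul_le_iff₀ hNR]
    exact e2
  -- conclusion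
  have hav : StronglyMeasurable fun V => avS (ev V) l (D V) id N (p V) := sm_avS hev hD l N p hpm
  have havb : ∀ V, ‖avS (ev V) l (D V) id N (p V)‖ ≤ C := by
    intro V
    refine (avS_norm _ _ _ _ _ _).trans ?_
    calc ‖D V‖ * ‖p V‖ ≤ C * 1 := mul_le_mul (hD.opn V) (hpb V) (norm_nonneg _) hD.nn
      _ = C := mul_one C
  have hr : ∫ V, ‖avS (ev V) l (D V) id N (p V)‖ ^ 2 ∂(NB.PP d ν) ≤ II ν D := by
    refine le_trans ?_ hmain
    refine integral_mono ?_ ?_ fun V => avS_sq _ _ _ _ _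
    · refine Integrable.of_bound (hav.norm.pow 2).aestronglyMeasurable (C ^ 2)
        (Eventually.of_forall fun V => ?_)
      rw [norm_pow, norm_norm]
      exact pow_le_pow_left₀ (norm_nonneg _) (havb V) 2
    · refine Integrable.const_mul ?_ _
      simp_rw [intervalIntegral.integral_of_le hNR.le]
      exact hint.integral_prod_right
  have e : ∀ (f : (NB.Site d → ℝ) → L2 d), StronglyMeasurable f → (∀ V, ‖f V‖ ≤ C) →
      ∫⁻ V, ‖f V‖ₑ ^ 2 ∂(NB.PP d ν) = ENNReal.ofReal (∫ V, ‖f V‖ ^ 2 ∂(NB.PP d ν)) := by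
    intro f hf hfb
    rw [ofReal_integral_eq_lintegral_ofReal]
    · refine lintegral_congr fun V => ?_
      rw [ENNReal.ofReal_pow (norm_nonneg _), ofReal_norm]
    · refine Integrable.of_bound (hf.norm.pow 2).aestronglyMeasurable (C ^ 2)
        (Eventually.of_forall fun V => ?_)
      rw [norm_pow, norm_norm]
      exact pow_le_pow_left₀ (norm_nonneg _) (hfb V) 2
    · exact Eventually.of_forall fun V => sq_nonneg _
  rw [e _ hav havb, e _ (hD.meas _ stronglyMeasurable_const) fun V => by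
    have := hD.bd V (NB.dl 0)
    rwa [NB.STAT.norm_dl, mul_one] at this]
  exact ENNReal.ofReal_le_ofReal hr

/-- approximation of the field gives convergence in mean square -/
theorem ms_of_approx (hev : ∀ ω : NB.Site d → ℝ, NB.IsGrp c (fun x => o + ω x) (ev ω))
    (hP : PrF P) (hcomm : ∀ᵐ V ∂(NB.PP d ν), ∀ t x, P V ((ev V).U t x) = (ev V).U t (P V x))
    (hA : FT χ C A A') (l : ℝ)
    (happ : ∀ ε : ℝ≥0∞, 0 < ε → ∃ (M : ℝ) (v w : NQ.OF d), FT χ M v w ∧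
      ∫⁻ V, ‖v V (NB.dl 0) - A V (NB.dl 0)‖ₑ ^ 2 ∂(NB.PP d ν) ≤ ε ∧
      Tendsto (fun N : ℕ => ∫⁻ V, ‖avS (ev V) l (v V) id N (P V (NB.dl 0))‖ₑ ^ 2 ∂(NB.PP d ν))
        atTop (𝓝 0)) :
    Tendsto (fun N : ℕ => ∫⁻ V, ‖avS (ev V) l (A V) id N (P V (NB.dl 0))‖ₑ ^ 2 ∂(NB.PP d ν))
      atTop (𝓝 0) := by
  rw [ENNReal.tendsto_atTop_zero]
  intro ε hε
  have hε4 : 0 < ε / 4 := ENNReal.div_pos hε.ne' (by norm_num)
  obtain ⟨M, v, w, hv, h1, h2⟩ := happ (ε / 4) hε4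
  rw [ENNReal.tendsto_atTop_zero] at h2
  obtain ⟨N₀, hN₀⟩ := h2 (ε / 4) hε4
  refine ⟨N₀, fun N hN => ?_⟩
  have h3 := contr hev hP hcomm (hv.sub hA) l N
  have h4 : ∫⁻ V, ‖(v V - A V) (NB.dl 0)‖ₑ ^ 2 ∂(NB.PP d ν) ≤ ε / 4 := h1
  have h5 := h3.trans h4
  have hm : Measurable fun V => 2 * ‖avS (ev V) l (v V) id N (P V (NB.dl 0))‖ₑ ^ 2 :=
    (((sm_avS hev hv l N _ (hP.ft.meas _ stronglyMeasurable_const)).enorm).pow_const 2).const_mul 2
  calc ∫⁻ V, ‖avS (ev V) l (A V) id N (P V (NB.dl 0))‖ₑ ^ 2 ∂(NB.PP d ν)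
      ≤ ∫⁻ V, (2 * ‖avS (ev V) l (v V) id N (P V (NB.dl 0))‖ₑ ^ 2 +
        2 * ‖avS (ev V) l (v V - A V) id N (P V (NB.dl 0))‖ₑ ^ 2) ∂(NB.PP d ν) := by
        refine lintegral_mono fun V => ?_
        rw [avS_sub (ev V) l (A V) (v V) id continuous_id N, sub_eq_add_neg]
        refine (enorm_sq_le _ _).trans (le_of_eq ?_)
        rw [enorm_neg]
    _ = 2 * (∫⁻ V, ‖avS (ev V) l (v V) id N (P V (NB.dl 0))‖ₑ ^ 2 ∂(NB.PP d ν)) +
        2 * ∫⁻ V, ‖avS (ev V) l (v V - A V) id N (P V (NB.dl 0))‖ₑ ^ 2 ∂(NB.PP d ν) := by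
        rw [lintegral_add_left hm, lintegral_const_mul' _ _ (by norm_num),
          lintegral_const_mul' _ _ (by norm_num)]
    _ ≤ 2 * (ε / 4) + 2 * (ε / 4) := by
        gcongr
        exact hN₀ N hN
    _ = ε := by
        rw [← two_mul, ← mul_assoc]
        norm_num
        exact ENNReal.mul_div_cancel (by norm_num) (by norm_num)

end Pool.Agent.L7h83.WM
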