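import Pool.Agent.L7h83.WM.Tw

/-! # Rank one families and averages with a phase -/

set_option autoImplicit false

open MeasureTheory Filter Topology
open scoped BigOperators ENNReal NNReal InnerProductSpace ComplexConjugate

namespace Pool.Agent.L7h83.WM

open Pool.Agent.H5R2.NB Pool.Agent.H5R2.NBA Pool.Agent.Y662.ERG

variable {ι : Type}

/-- vectors of bounded spectral density which are orthogonal to the cyclic space of `e` are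
orthogonal to the image of this cyclic space under the averaged observable -/
theorem w6T {α : Type} (U : ℝ → UG (L2 ι)) (e : L2 ι) (hF : Fam U e) {κ κ' : ℝ} (hκ : κ ≠ κ')
    (l : ℝ) (v v' : L2 ι →L[ℂ] L2 ι)
    (F : Finset α) (f : α → L2 ι) (A : ℝ) (hD : ∀ x, ‖v' x - v x‖ ≤ A * ∑ i ∈ F, ‖⟪f i, x⟫_ℂ‖)
    (Nk : ℕ → ℕ) (hNk : Tendsto Nk atTop atTop)
    (B B' : L2 ι →L[ℂ] L2 ι) (hB : GoodT (U κ) l v Nk B) (hB' : GoodT (U κ') l v' Nk B')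
    (C : ℝ) (φ : L2 ι) (hφ : Minf (U κ') C φ) (hort : ∀ t, ⟪φ, (U κ').U t e⟫_ℂ = 0) :
      ∀ t, ⟪φ, B' ((U κ').U t e)⟫_ℂ = 0 := by
  have hWP : St_WP := t_WP
  have hWI : St_WI := t_WI
  -- averages of `v` over vectors of bounded density
  have hvP : ∀ (C' : ℝ) (x : L2 ι), Minf (U κ') C' x →
      Tendsto (fun k => avS (U κ') l v id (Nk k) x) atTop (𝓝 (B' x)) := by
    intro C' x hx
    have h1 := neg_coreT (U κ') l (v' - v) F f A hD x id continuous_id (fun φ => WP.weak hx φ)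
      Nk hNk
    have h2 := ((hB' x).1).sub h1
    rw [sub_zero] at h2
    refine h2.congr fun k => ?_
    exact (avS_sub (U κ') l v v' id continuous_id (Nk k) x).symm
  have hvM : ∀ (C' : ℝ) (x : L2 ι), Minf (U κ') C' x →
      Tendsto (fun k => avS (U κ') l v (fun s => -s) (Nk k) x) atTop (𝓝 (B' x)) := by
    intro C' x hx
    have h1 := neg_coreT (U κ') l (v' - v) F f A hD x (fun s => -s) continuous_neg
      (fun φ => weakM hx φ) Nk hNk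
    have h3 := ((hB' x).2).sub h1
    rw [sub_zero] at h3
    refine h3.congr fun k => ?_
    exact (avS_sub (U κ') l v v' (fun s => -s) continuous_neg (Nk k) x).symm
  -- basic facts
  set Bd : L2 ι →L[ℂ] L2 ι := ContinuousLinearMap.adjoint B' with hBd
  have hadj : ∀ x y, ⟪B' x, y⟫_ℂ = ⟪x, Bd y⟫_ℂ := fun x y =>
    (ContinuousLinearMap.adjoint_inner_right B' x y).symm
  have hadj2 : ∀ x y, ⟪Bd x, y⟫_ℂ = ⟪x, B' y⟫_ℂ := fun x y =>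
    ContinuousLinearMap.adjoint_inner_left B' y x
  have hBn := hB'.norm_le
  have hBc := hB'.comm hNk
  set C₁ : ℝ := max C 0 with hC₁
  have hC₁0 : 0 ≤ C₁ := le_max_right _ _
  have hφ₁ : Minf (U κ') C₁ φ := W6.minf_mono hφ (le_max_left _ _)
  -- eta
  set η : L2 ι := Bd φ with hη
  have hηM : Minf (U κ') (C₁ * ‖v'‖ ^ 2) η := by
    intro φ₁
    have h1 : (∫⁻ t : ℝ, ‖⟪φ₁, (U κ').U t η⟫_ℂ‖ₑ ^ 2) =
        ∫⁻ t : ℝ, ‖⟪B' φ₁, (U κ').U t φ⟫_ℂ‖ₑ ^ 2 := by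
      refine lintegral_congr fun t => ?_
      have e1 : ⟪φ₁, (U κ').U t η⟫_ℂ = ⟪(U κ').U (-t) φ₁, η⟫_ℂ := by
        rw [NN.inner_adj, neg_neg]
      have e2 : ⟪B' φ₁, (U κ').U t φ⟫_ℂ = ⟪(U κ').U (-t) (B' φ₁), φ⟫_ℂ := by
        rw [NN.inner_adj, neg_neg]
      have e3 : ‖⟪φ₁, (U κ').U t η⟫_ℂ‖ = ‖⟪B' φ₁, (U κ').U t φ⟫_ℂ‖ := by
        rw [e1, e2, hη, ← hadj, hBc, inner_smul_left, norm_mul, RCLike.norm_conj, norm_ph,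
          one_mul]
      rw [← ofReal_norm, ← ofReal_norm, e3]
    rw [h1]
    refine (hφ₁ (B' φ₁)).trans (ENNReal.ofReal_le_ofReal ?_)
    have h2 := hBn φ₁
    have h3 : ‖B' φ₁‖ ^ 2 ≤ (‖v'‖ * ‖φ₁‖) ^ 2 := pow_le_pow_left₀ (norm_nonneg _) h2 2
    calc C₁ * ‖B' φ₁‖ ^ 2 ≤ C₁ * (‖v'‖ * ‖φ₁‖) ^ 2 := mul_le_mul_of_nonneg_left h3 hC₁0
      _ = C₁ * ‖v'‖ ^ 2 * ‖φ₁‖ ^ 2 := by ring
  -- U_t φ = U'_t φ
  obtain ⟨hort2, hUU⟩ := t_NN ι U e hF κ' κ φ hort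
  have hconst : (fun t : ℝ => (U κ').U (-t) ((U κ).U t φ)) = fun _ => φ := by
    funext t
    rw [hUU t, ← (U κ').add', neg_add_cancel, (U κ').zero']
  have hφtop : Tendsto (fun t : ℝ => (U κ').U (-t) ((U κ).U t φ)) atTop (𝓝 φ) := by
    rw [hconst]; exact tendsto_const_nhds
  have hφbot : Tendsto (fun t : ℝ => (U κ').U (-t) ((U κ).U t φ)) atBot (𝓝 φ) := by
    rw [hconst]; exact tendsto_const_nhds
  -- key vanishing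
  have key : ∀ (C0 : ℝ) (ψ0 : L2 ι), Minf (U κ) C0 ψ0 →
      ∫ s : ℝ, ⟪e, (U κ).U s ψ0⟫_ℂ * ⟪η, (U κ').U (-s) e⟫_ℂ = 0 := by
    intro C0 ψ0 hψ0
    obtain ⟨⟨ψp, hp⟩, ⟨ψm, hm⟩⟩ := hWP ι U e hF κ κ' C0 ψ0 hψ0
    have hpM := (hWI ι (U κ) (U κ') atTop (Or.inl rfl) ψ0 ψp hp).2.2.1 _ hψ0
    have hmM := (hWI ι (U κ) (U κ') atBot (Or.inr rfl) ψ0 ψm hm).2.2.1 _ hψ0
    have a1 : ⟪φ, B' ψp⟫_ℂ = ⟪φ, B ψ0⟫_ℂ :=
      coreT (U κ) (U κ') l v Nk hNk atTop id continuous_id tendsto_id φ φ ψ0 ψp (B ψ0) (B' ψp)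
        hφtop hp (hB ψ0).1 (hvP _ _ hpM)
    have a2 : ⟪φ, B' ψm⟫_ℂ = ⟪φ, B ψ0⟫_ℂ :=
      coreT (U κ) (U κ') l v Nk hNk atBot (fun s => -s) continuous_neg
        tendsto_neg_atTop_atBot φ φ ψ0 ψm (B ψ0) (B' ψm) hφbot hm (hB ψ0).2 (hvM _ _ hmM)
    have a3 : ⟪η, ψp - ψm⟫_ℂ = 0 := by
      rw [inner_sub_right, hη, hadj2, hadj2, a1, a2, sub_self]
    have a4 := t_W4 ι U e hF κ κ' C0 (C₁ * ‖v'‖ ^ 2) ψ0 ψp ψm η hψ0 hηM hp hm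
    rw [a3] at a4
    have a5 : Complex.I * ((κ' - κ : ℝ) : ℂ) ≠ 0 := by
      refine mul_ne_zero Complex.I_ne_zero ?_
      rw [Ne, Complex.ofReal_eq_zero, sub_eq_zero]
      exact fun h => hκ h.symm
    exact (mul_eq_zero.1 a4.symm).resolve_left a5
  -- the function h
  have hconj : ∀ r : ℝ, ⟪η, (U κ').U (-r) e⟫_ℂ = conj ⟪e, (U κ').U r η⟫_ℂ := by
    intro r
    rw [inner_conj_symm, NN.inner_adj]
  have hcontg : Continuous fun r : ℝ => ⟪e, (U κ').U r η⟫_ℂ :=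
    continuous_const.inner ((U κ').cont' η)
  have hconth : Continuous fun r : ℝ => ⟪η, (U κ').U (-r) e⟫_ℂ :=
    continuous_const.inner (((U κ').cont' e).comp continuous_neg)
  have hfin : (∫⁻ r : ℝ, ‖⟪η, (U κ').U (-r) e⟫_ℂ‖ₑ ^ 2) < ∞ := by
    refine lt_of_le_of_lt ?_ (ENNReal.ofReal_lt_top (r := C₁ * ‖v'‖ ^ 2 * ‖e‖ ^ 2))
    refine le_trans (le_of_eq ?_) (hηM e)
    refine lintegral_congr fun r => ?_
    rw [hconj, RCLike.enorm_conj]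
  -- the choice of ψ0
  obtain ⟨⟨ψ0, hψ0t⟩, -⟩ := hWP ι U e hF κ' κ (C₁ * ‖v'‖ ^ 2) η hηM
  obtain ⟨-, -, hI3, hI4⟩ := hWI ι (U κ') (U κ) atTop (Or.inl rfl) η ψ0 hψ0t
  have hψ0M := hI3 _ hηM
  have hzero : ∫ r : ℝ, ⟪e, (U κ').U r η⟫_ℂ * ⟪η, (U κ').U (-r) e⟫_ℂ = 0 := by
    refine t_W5 ι U e hF κ κ' _ ψ0 η hψ0M hI4 (fun r => ⟪η, (U κ').U (-r) e⟫_ℂ)
      hconth.measurable hfin ?_
    intro s
    have b := key _ ((U κ).U s ψ0) (W6.minf_shift hψ0M s)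
    rw [← b]
    refine integral_congr_ae (Eventually.of_forall fun r => ?_)
    show ⟪e, (U κ).U (r + s) ψ0⟫_ℂ * _ = ⟪e, (U κ).U r ((U κ).U s ψ0)⟫_ℂ * _
    rw [(U κ).add']
  -- conclusion
  have hsq : ∀ r : ℝ, ⟪e, (U κ').U r η⟫_ℂ * ⟪η, (U κ').U (-r) e⟫_ℂ =
      ((‖⟪e, (U κ').U r η⟫_ℂ‖ ^ 2 : ℝ) : ℂ) := by
    intro r
    rw [hconj, Complex.mul_conj, Complex.normSq_eq_norm_sq]
  have hreal : ∫ r : ℝ, ‖⟪e, (U κ').U r η⟫_ℂ‖ ^ 2 = 0 := by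
    have c1 : ((∫ r : ℝ, ‖⟪e, (U κ').U r η⟫_ℂ‖ ^ 2 : ℝ) : ℂ) = 0 := by
      rw [← integral_complex_ofReal, ← hzero]
      exact integral_congr_ae (Eventually.of_forall fun r => (hsq r).symm)
    exact_mod_cast c1
  have hcont2 : Continuous fun r : ℝ => ‖⟪e, (U κ').U r η⟫_ℂ‖ ^ 2 := (hcontg.norm).pow 2
  have hint : Integrable (fun r : ℝ => ‖⟪e, (U κ').U r η⟫_ℂ‖ ^ 2) := by
    refine ⟨hcont2.aestronglyMeasurable, ?_⟩
    refine lt_of_le_of_lt (le_of_eq ?_) hfin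
    refine lintegral_congr fun r => ?_
    rw [hconj, RCLike.enorm_conj, enorm_pow, enorm_norm]
  have hae := (integral_eq_zero_iff_of_nonneg (fun r => by positivity) hint).1 hreal
  have hall : (fun r : ℝ => ‖⟪e, (U κ').U r η⟫_ℂ‖ ^ 2) = fun _ => (0 : ℝ) :=
    (Continuous.ae_eq_iff_eq volume hcont2 continuous_const).1 hae
  intro t
  have d1 := congrFun hall (-t)
  have d2 : ⟪e, (U κ').U (-t) η⟫_ℂ = 0 := by
    have := pow_eq_zero_iff (two_ne_zero) |>.1 d1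
    exact norm_eq_zero.1 this
  have d3 := hconj (-t)
  rw [neg_neg, d2, map_zero] at d3
  rw [← hadj2]
  exact d3

/-- the same on the whole absolutely continuous subspace -/
theorem w6T_hac {α : Type} (U : ℝ → UG (L2 ι)) (e : L2 ι) (hF : Fam U e) {κ κ' : ℝ} (hκ : κ ≠ κ')
    (l : ℝ) (v v' : L2 ι →L[ℂ] L2 ι)
    (F : Finset α) (f : α → L2 ι) (A : ℝ) (hD : ∀ x, ‖v' x - v x‖ ≤ A * ∑ i ∈ F, ‖⟪f i, x⟫_ℂ‖)
    (Nk : ℕ → ℕ) (hNk : Tendsto Nk atTop atTop)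
    (B B' : L2 ι →L[ℂ] L2 ι) (hB : GoodT (U κ) l v Nk B) (hB' : GoodT (U κ') l v' Nk B')
    (φ : L2 ι) (hφ : φ ∈ HAC (U κ')) (hort : ∀ t, ⟪φ, (U κ').U t e⟫_ℂ = 0) :
      ⟪φ, B' e⟫_ℂ = 0 := by
  have hle : ∀ ε : ℝ, 0 < ε → ‖⟪φ, B' e⟫_ℂ‖ ≤ ε * (‖v'‖ * ‖e‖) := by
    intro ε hε
    obtain ⟨C, φ', hC, ho, hn⟩ := t_QN ι (U κ') e φ hφ hort ε hε
    have e1 := w6T U e hF hκ l v v' F f A hD Nk hNk B B' hB hB' C φ' hC ho 0
    rw [(U κ').zero'] at e1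
    have e2 : ⟪φ, B' e⟫_ℂ = ⟪φ - φ', B' e⟫_ℂ := by
      rw [inner_sub_left, e1, sub_zero]
    rw [e2]
    calc ‖⟪φ - φ', B' e⟫_ℂ‖ ≤ ‖φ - φ'‖ * ‖B' e‖ := norm_inner_le_norm _ _
      _ ≤ ε * (‖v'‖ * ‖e‖) := mul_le_mul hn (hB'.norm_le e) (norm_nonneg _) hε.le
  have hle0 : ‖⟪φ, B' e⟫_ℂ‖ ≤ 0 := by
    refine le_of_forall_pos_le_add fun δ hδ => ?_
    have hpos : 0 < ‖v'‖ * ‖e‖ + 1 := by positivity
    have h4 := hle (δ / (‖v'‖ * ‖e‖ + 1)) (by positivity)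
    rw [zero_add]
    refine h4.trans ?_
    rw [div_mul_eq_mul_div, div_le_iff₀ hpos]
    nlinarith [norm_nonneg v', norm_nonneg e, mul_nonneg (norm_nonneg v') (norm_nonneg e)]
  exact norm_le_zero_iff.mp hle0

end Pool.Agent.L7h83.WM
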