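import Pool.Agent.Y662.ERG.Obs
import Pool.Agent.L7h83.WM.Fam2

/-! # Twisted covariant observables: stationarity and convergence along subsequences -/

set_option autoImplicit false

open MeasureTheory Filter Topology
open scoped BigOperators ENNReal NNReal InnerProductSpace ComplexConjugate

namespace Pool.Agent.L7h83.WM

open Pool.Agent.H5R2.NB Pool.Agent.H5R2.NBA Pool.Agent.Y662.ERG

/-- a local observable `v` with adjoint `w`, covariant up to the character `χ` -/
structure ObsT (d : ℕ) (χ : Site d → ℂ) (v w : (Site d → ℝ) → L2 (Site d) →L[ℂ] L2 (Site d))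
    (M : ℝ) : Prop where
  adj : ∀ V x y, ⟪v V x, y⟫_ℂ = ⟪x, w V y⟫_ℂ
  bound : ∀ V x, ‖v V x‖ ≤ M * ‖x‖
  boundw : ∀ V x, ‖w V x‖ ≤ M * ‖x‖
  cont : Continuous fun p : (Site d → ℝ) × L2 (Site d) => v p.1 p.2
  contw : Continuous fun p : (Site d → ℝ) × L2 (Site d) => w p.1 p.2
  chi : ∀ z, ‖χ z‖ = 1
  mul : ∀ z z', χ (z + z') = χ z * χ z'
  cov : ∀ (z : Site d) (S : L2 (Site d) →L[ℂ] L2 (Site d)), IsShift z S →
    ∀ V ψ, v (fun y => V (y + z)) (S ψ) = χ z • S (v V ψ)
  covw : ∀ (z : Site d) (S : L2 (Site d) →L[ℂ] L2 (Site d)), IsShift z S →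
    ∀ V ψ, w (fun y => V (y + z)) (S ψ) = conj (χ z) • S (w V ψ)
  loc : ∀ V κ, ∃ (F : Finset (Site d)) (C : ℝ), ∀ ψ,
    ‖v (Function.update V 0 κ) ψ - v V ψ‖ ≤ C * ∑ x ∈ F, ‖⟪(dl x : L2 (Site d)), ψ⟫_ℂ‖
  locw : ∀ V κ, ∃ (F : Finset (Site d)) (C : ℝ), ∀ ψ,
    ‖w (Function.update V 0 κ) ψ - w V ψ‖ ≤ C * ∑ x ∈ F, ‖⟪(dl x : L2 (Site d)), ψ⟫_ℂ‖

variable {d : ℕ} {χ : Site d → ℂ} {v w : (Site d → ℝ) → L2 (Site d) →L[ℂ] L2 (Site d)} {M : ℝ}

theorem ObsT.swap (h : ObsT d χ v w M) : ObsT d (fun z => conj (χ z)) w v M where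
  adj V x y := by
    rw [← inner_conj_symm, ← h.adj, inner_conj_symm]
  bound := h.boundw
  boundw := h.bound
  cont := h.contw
  contw := h.cont
  chi z := by rw [RCLike.norm_conj]; exact h.chi z
  mul z z' := by rw [h.mul, map_mul]
  cov := h.covw
  covw z S hS V ψ := by rw [Complex.conj_conj]; exact h.cov z S hS V ψ
  loc := h.locw
  locw := h.loc

theorem ObsT.nn (h : ObsT d χ v w M) : 0 ≤ M := by
  have h1 := h.bound 0 (dl 0)
  rw [STAT.norm_dl, mul_one] at h1
  exact (norm_nonneg _).trans h1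

theorem ObsT.opn (h : ObsT d χ v w M) (V : Site d → ℝ) : ‖v V‖ ≤ M :=
  ContinuousLinearMap.opNorm_le_bound _ h.nn (h.bound V)

theorem ObsT.ne (h : ObsT d χ v w M) (z : Site d) : χ z ≠ 0 := by
  intro h0
  have := h.chi z
  rw [h0, norm_zero] at this
  exact zero_ne_one this

/-- the observable at time `s` applied to `δ_0` -/
noncomputable def tauT (ev : (Site d → ℝ) → UG (L2 (Site d)))
    (v : (Site d → ℝ) → L2 (Site d) →L[ℂ] L2 (Site d)) (s : ℝ) (V : Site d → ℝ) : L2 (Site d) :=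
  (ev V).U (-s) (v V ((ev V).U s (dl 0)))

theorem XX_adj {ι : Type} (W : UG (L2 ι)) (v w : L2 ι →L[ℂ] L2 ι)
    (h : ∀ x y, ⟪v x, y⟫_ℂ = ⟪x, w y⟫_ℂ) (s : ℝ) (x y : L2 ι) :
    ⟪STAT.XX W v s x, y⟫_ℂ = ⟪x, STAT.XX W w s y⟫_ℂ := by
  unfold STAT.XX
  rw [STAT.inner_adj W (-s), neg_neg, ← h]
  have h := STAT.inner_adj W s (v (W.U s x)) y
  rw [h]

open STAT in
theorem statT {c : ℝ} {ev : (Site d → ℝ) → UG (L2 (Site d))} (hev : ∀ V, IsGrp c V (ev V))
    (hO : ObsT d χ v w M) (ν : Measure ℝ) [IsProbabilityMeasure ν] (s s' a : ℝ) :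
      ∫ V, ⟪tauT ev v (s + a) V, tauT ev v (s' + a) V⟫_ℂ ∂(PP d ν) =
        ∫ V, ⟪tauT ev v s V, tauT ev v s' V⟫_ℂ ∂(PP d ν) := by
  have h1 : St_COV := ALL.a_COV
  have h3 : St_RES := t_RES
  have h2 : St_CV := ALL.a_CV
  have h4 : St_OPS := t_OPS
  have hM := hO.nn
  -- continuity
  have hcU : ∀ (t : ℝ) (f : (Site d → ℝ) → L2 (Site d)), Continuous f →
      Continuous fun V => (ev V).U t (f V) := by
    intro t f hf
    exact (h2 d c ev hev).comp (continuous_id.prodMk (continuous_const.prodMk hf))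
  have hcX : ∀ (t : ℝ) (f : (Site d → ℝ) → L2 (Site d)), Continuous f →
      Continuous fun V => XX (ev V) (v V) t (f V) := by
    intro t f hf
    exact hcU (-t) _ (hO.cont.comp (continuous_id.prodMk (hcU t f hf)))
  have hcY : ∀ (t : ℝ) (f : (Site d → ℝ) → L2 (Site d)), Continuous f →
      Continuous fun V => XX (ev V) (w V) t (f V) := by
    intro t f hf
    exact hcU (-t) _ (hO.contw.comp (continuous_id.prodMk (hcU t f hf)))
  have hPP : IsProbabilityMeasure (PP d ν) := by unfold PP; infer_instance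
  -- the four vectors
  set f1 : (Site d → ℝ) → L2 (Site d) := fun V => (ev V).U a (dl 0) with hf1
  set g1 : (Site d → ℝ) → L2 (Site d) :=
    fun V => XX (ev V) (w V) s (XX (ev V) (v V) s' ((ev V).U a (dl 0))) with hg1
  set f2 : (Site d → ℝ) → L2 (Site d) :=
    fun V => (ev V).U (-a) (XX (ev V) (w V) s' (XX (ev V) (v V) s (dl 0))) with hf2
  set g2 : (Site d → ℝ) → L2 (Site d) := fun V => (ev V).U (-a) (dl 0) with hg2
  have cf1 : Continuous f1 := hcU a _ continuous_const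
  have cg1 : Continuous g1 := hcY s _ (hcX s' _ (hcU a _ continuous_const))
  have cf2 : Continuous f2 := hcU (-a) _ (hcY s' _ (hcX s _ continuous_const))
  have cg2 : Continuous g2 := hcU (-a) _ continuous_const
  set A : ℝ := 1 + M * M with hA
  have hv0 : 0 ≤ M * M := mul_nonneg hM hM
  have bf1 : ∀ V, ‖f1 V‖ ≤ A := by
    intro V
    show ‖(ev V).U a (dl 0)‖ ≤ A
    rw [(ev V).norm', norm_dl]; linarith
  have bg2 : ∀ V, ‖g2 V‖ ≤ A := by
    intro V
    show ‖(ev V).U (-a) (dl 0)‖ ≤ A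
    rw [(ev V).norm', norm_dl]; linarith
  have bXX : ∀ V t t' (f : L2 (Site d)), ‖f‖ = 1 →
      ‖XX (ev V) (w V) t (XX (ev V) (v V) t' f)‖ ≤ A := by
    intro V t t' f hf
    have e1 := XX_normM (ev V) (w V) (hO.boundw V) t (XX (ev V) (v V) t' f)
    have e2 := XX_normM (ev V) (v V) (hO.bound V) t' f
    rw [hf, mul_one] at e2
    have e3 : M * ‖XX (ev V) (v V) t' f‖ ≤ M * M :=
      mul_le_mul_of_nonneg_left e2 hM
    linarith
  have bg1 : ∀ V, ‖g1 V‖ ≤ A := by
    intro V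
    exact bXX V s s' _ (by rw [(ev V).norm', norm_dl])
  have bf2 : ∀ V, ‖f2 V‖ ≤ A := by
    intro V
    show ‖(ev V).U (-a) (XX (ev V) (w V) s' (XX (ev V) (v V) s (dl 0)))‖ ≤ A
    rw [(ev V).norm']
    exact bXX V s' s _ (norm_dl 0)
  have E1 := exch (PP d ν) f1 g1 A
    (fun x => ((cont_eval x).comp cf1).aestronglyMeasurable)
    (fun x => ((cont_eval x).comp cg1).aestronglyMeasurable) bf1 bg1
  have E2 := exch (PP d ν) f2 g2 A
    (fun x => ((cont_eval x).comp cf2).aestronglyMeasurable)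
    (fun x => ((cont_eval x).comp cg2).aestronglyMeasurable) bf2 bg2
  -- covariance
  have covX : ∀ (z : Site d) (S : L2 (Site d) →L[ℂ] L2 (Site d)), IsShift z S →
      ∀ V t ψ, XX (ev fun y => V (y + z)) (v fun y => V (y + z)) t (S ψ) =
        χ z • S (XX (ev V) (v V) t ψ) := by
    intro z S hS V t ψ
    unfold XX
    rw [h1 d c ev hev z S hS V t ψ, hO.cov z S hS, map_smul, h1 d c ev hev z S hS V (-t)]
  have covY : ∀ (z : Site d) (S : L2 (Site d) →L[ℂ] L2 (Site d)), IsShift z S →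
      ∀ V t ψ, XX (ev fun y => V (y + z)) (w fun y => V (y + z)) t (S ψ) =
        conj (χ z) • S (XX (ev V) (w V) t ψ) := by
    intro z S hS V t ψ
    unfold XX
    rw [h1 d c ev hev z S hS V t ψ, hO.covw z S hS, map_smul, h1 d c ev hev z S hS V (-t)]
  have hsm : ∀ {ι : Type} (W : UG (L2 ι)) (u : L2 ι →L[ℂ] L2 ι) (t : ℝ) (r : ℂ) (x : L2 ι),
      XX W u t (r • x) = r • XX W u t x := by
    intro ι W u t r x
    unfold XX
    rw [map_smul, map_smul, map_smul]
  have covYX : ∀ (z : Site d) (S : L2 (Site d) →L[ℂ] L2 (Site d)), IsShift z S →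
      ∀ V t t' ψ, XX (ev fun y => V (y + z)) (w fun y => V (y + z)) t
        (XX (ev fun y => V (y + z)) (v fun y => V (y + z)) t' (S ψ)) =
        S (XX (ev V) (w V) t (XX (ev V) (v V) t' ψ)) := by
    intro z S hS V t t' ψ
    rw [covX z S hS, hsm, covY z S hS, smul_smul, Complex.mul_conj, Complex.normSq_eq_norm_sq,
      hO.chi]
    simp
  -- equality of the terms
  have key : ∀ x : Site d, (∫ V, conj ((f1 V) x) * (g1 V) x ∂(PP d ν)) =
      ∫ V, conj ((f2 V) (-x)) * (g2 V) (-x) ∂(PP d ν) := by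
    intro x
    obtain ⟨S, hS⟩ := (h4 d).1 x
    have hmp := (h3 d ν).2 x
    set F : (Site d → ℝ) → ℂ := fun V => conj (((ev V).U a (dl (-x))) 0) *
      (XX (ev V) (w V) s (XX (ev V) (v V) s' ((ev V).U a (dl (-x))))) 0 with hF
    have cF : Continuous F := by
      refine (Complex.continuous_conj.comp ((cont_eval 0).comp (hcU a _ continuous_const))).mul ?_
      exact (cont_eval 0).comp (hcY s _ (hcX s' _ (hcU a _ continuous_const)))
    have e1 : ∀ V, conj ((f1 V) x) * (g1 V) x = F (fun y => V (y + x)) := by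
      intro V
      have a1 : (ev fun y => V (y + x)).U a (dl (-x)) = S ((ev V).U a (dl 0)) := by
        rw [← STAT.shift_dl x S hS, h1 d c ev hev x S hS]
      have a2 : ((ev fun y => V (y + x)).U a (dl (-x))) 0 = (f1 V) x := by
        rw [a1, hS, zero_add]
      have a3 : (XX (ev fun y => V (y + x)) (w fun y => V (y + x)) s
          (XX (ev fun y => V (y + x)) (v fun y => V (y + x)) s'
          ((ev fun y => V (y + x)).U a (dl (-x))))) 0 = (g1 V) x := by
        rw [a1, covYX x S hS, hS, zero_add]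
      show _ = conj (((ev fun y => V (y + x)).U a (dl (-x))) 0) *
        (XX (ev fun y => V (y + x)) (w fun y => V (y + x)) s
          (XX (ev fun y => V (y + x)) (v fun y => V (y + x)) s'
          ((ev fun y => V (y + x)).U a (dl (-x))))) 0
      rw [a2, a3]
    have e2 : ∀ V, F V = conj ((f2 V) (-x)) * (g2 V) (-x) := by
      intro V
      have a1 : ((ev V).U a (dl (-x))) 0 = conj ((g2 V) (-x)) := by
        rw [← inner_dl 0, inner_adj, inner_dl']
      have a2 : (XX (ev V) (w V) s (XX (ev V) (v V) s' ((ev V).U a (dl (-x))))) 0 =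
          conj ((f2 V) (-x)) := by
        rw [← inner_dl 0, ← XX_adj (ev V) (v V) (w V) (hO.adj V),
          ← XX_adj (ev V) (w V) (v V) (hO.swap.adj V), inner_adj, inner_dl']
      show conj (((ev V).U a (dl (-x))) 0) *
        (XX (ev V) (w V) s (XX (ev V) (v V) s' ((ev V).U a (dl (-x))))) 0 = _
      rw [a1, a2, Complex.conj_conj, mul_comm]
    calc (∫ V, conj ((f1 V) x) * (g1 V) x ∂(PP d ν))
        = ∫ V, F (fun y => V (y + x)) ∂(PP d ν) := by simp_rw [e1]
      _ = ∫ V, F V ∂(Measure.map (fun (V : Site d → ℝ) (y : Site d) => V (y + x)) (PP d ν)) := by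
          rw [integral_map hmp.measurable.aemeasurable cF.aestronglyMeasurable]
      _ = ∫ V, F V ∂(PP d ν) := by rw [hmp.map_eq]
      _ = _ := by simp_rw [e2]
  -- conclusion
  have E3 : HasSum (fun x => ∫ V, conj ((f1 V) x) * (g1 V) x ∂(PP d ν))
      (∫ V, ⟪f2 V, g2 V⟫_ℂ ∂(PP d ν)) := by
    have h := (Equiv.neg (Site d)).hasSum_iff.mpr E2
    have e : (fun x => ∫ V, conj ((f1 V) x) * (g1 V) x ∂(PP d ν)) =
        (fun x => ∫ V, conj ((f2 V) x) * (g2 V) x ∂(PP d ν)) ∘ ⇑(Equiv.neg (Site d)) :=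
      funext key
    rw [e]
    exact h
  have E4 := E1.unique E3
  have L : ∀ V, ⟪tauT ev v (s + a) V, tauT ev v (s' + a) V⟫_ℂ = ⟪f1 V, g1 V⟫_ℂ := by
    intro V
    have a1 : ∀ t, tauT ev v (t + a) V =
        (ev V).U (-a) (XX (ev V) (v V) t ((ev V).U a (dl 0))) := by
      intro t
      unfold tauT XX
      rw [(ev V).add' t a, neg_add_rev, (ev V).add' (-a) (-t)]
    rw [a1, a1, inner_UG]
    rw [XX_adj (ev V) (v V) (w V) (hO.adj V)]
  have R : ∀ V, ⟪tauT ev v s V, tauT ev v s' V⟫_ℂ = ⟪f2 V, g2 V⟫_ℂ := by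
    intro V
    show ⟪XX (ev V) (v V) s (dl 0), XX (ev V) (v V) s' (dl 0)⟫_ℂ =
      ⟪(ev V).U (-a) (XX (ev V) (w V) s' (XX (ev V) (v V) s (dl 0))), (ev V).U (-a) (dl 0)⟫_ℂ
    rw [inner_UG, XX_adj (ev V) (w V) (v V) (hO.swap.adj V) s']
  simp_rw [L, R]
  exact E4

/-- mean square convergence of both averages at `δ_0` to the same limit -/
theorem limaT {c : ℝ} {ev : (Site d → ℝ) → UG (L2 (Site d))} (hev : ∀ V, IsGrp c V (ev V))
    (hO : ObsT d χ v w M) (l : ℝ) (ν : Measure ℝ) [IsProbabilityMeasure ν] :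
    ∃ b : (Site d → ℝ) → L2 (Site d), AEStronglyMeasurable b (PP d ν) ∧
        Tendsto (fun N : ℕ => ∫⁻ V, ‖avS (ev V) l (v V) id N (dl 0) - b V‖ₑ ^ 2 ∂(PP d ν)) atTop
          (𝓝 0) ∧
        Tendsto (fun N : ℕ => ∫⁻ V, ‖avS (ev V) l (v V) (fun s => -s) N (dl 0) - b V‖ₑ ^ 2
          ∂(PP d ν)) atTop (𝓝 0) := by
  have hCV := ALL.a_CV d c ev hev
  have hT0 : Continuous fun p : ℝ × (Site d → ℝ) => tauT ev v p.1 p.2 := by
    unfold tauT
    have g1 : Continuous fun p : ℝ × (Site d → ℝ) => (ev p.2).U p.1 (dl 0) :=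
      hCV.comp (by fun_prop :
        Continuous fun p : ℝ × (Site d → ℝ) => (p.2, p.1, (dl 0 : L2 (Site d))))
    have g2 : Continuous fun p : ℝ × (Site d → ℝ) => v p.2 ((ev p.2).U p.1 (dl 0)) :=
      hO.cont.comp (continuous_snd.prodMk g1)
    exact hCV.comp ((continuous_snd.prodMk (continuous_fst.neg.prodMk g2)) :
      Continuous fun p : ℝ × (Site d → ℝ) => (p.2, -p.1, v p.2 ((ev p.2).U p.1 (dl 0))))
  have hT : Continuous fun p : ℝ × (Site d → ℝ) => ph l p.1 • tauT ev v p.1 p.2 :=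
    ((cont_ph l).comp continuous_fst).smul hT0
  have hK : ∀ s V, ‖ph l s • tauT ev v s V‖ ≤ M * ‖(dl 0 : L2 (Site d))‖ := by
    intro s V
    rw [norm_smul, norm_ph, one_mul]
    unfold tauT
    rw [(ev V).norm']
    refine le_trans (hO.bound V _) ?_
    rw [(ev V).norm']
  have hP : IsProbabilityMeasure (PP d ν) := by
    unfold PP
    infer_instance
  have hin : ∀ s s' V, ⟪ph l s • tauT ev v s V, ph l s' • tauT ev v s' V⟫_ℂ =
      (conj (ph l s) * ph l s') * ⟪tauT ev v s V, tauT ev v s' V⟫_ℂ := by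
    intro s s' V
    rw [inner_smul_left, inner_smul_right]
    ring
  obtain ⟨b, hb, hf, hg⟩ := LIMA.main (PP d ν) (fun s V => ph l s • tauT ev v s V) _ t_ME hT hK
    (fun s s' a => by
      simp only [hin]
      rw [integral_const_mul, integral_const_mul, statT hev hO ν s s' a]
      congr 1
      rw [ph_add, ph_add, map_mul]
      have : conj (ph l a) * ph l a = 1 := by
        rw [mul_comm, Complex.mul_conj, Complex.normSq_eq_norm_sq, norm_ph]
        simp
      linear_combination (conj (ph l s) * ph l s') * this)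
  exact ⟨b, hb, hf, hg⟩

section shift

open LIMB

variable {c : ℝ} {ev : (Site d → ℝ) → UG (L2 (Site d))} {z : Site d}
  {S T : L2 (Site d) →L[ℂ] L2 (Site d)}

theorem avS_conj (hev : ∀ V, IsGrp c V (ev V)) (hO : ObsT d χ v w M) (l : ℝ) (hS : IsShift z S)
    (hT : IsShift (-z) T) (V : Site d → ℝ) (σ : ℝ → ℝ) (hσ : Continuous σ) (N : ℕ)
    (x : L2 (Site d)) :
    avS (ev fun y => V (y + z)) l (v fun y => V (y + z)) σ N x =
      χ z • S (avS (ev V) l (v V) σ N (T x)) := by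
  unfold avS
  have e := ContinuousLinearMap.intervalIntegral_comp_comm S
    (((gT_cont (ev V) l (v V) (T x)).comp hσ).intervalIntegrable (μ := volume) (0 : ℝ) (N : ℝ))
  rw [map_smul, smul_comm]
  congr 1
  have e2 : ∫ s in (0 : ℝ)..(N : ℝ), gT (ev fun y => V (y + z)) l (v fun y => V (y + z)) x (σ s) =
      ∫ s in (0 : ℝ)..(N : ℝ), χ z • S (gT (ev V) l (v V) (T x) (σ s)) := by
    refine intervalIntegral.integral_congr fun s _ => ?_
    have hC := ALL.a_COV d c ev hev z S hS V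
    show gT (ev fun y => V (y + z)) l (v fun y => V (y + z)) x (σ s) =
      χ z • S (gT (ev V) l (v V) (T x) (σ s))
    unfold gT
    have hx : x = S (T x) := (inv1 hS hT x).symm
    conv_lhs => rw [hx]
    rw [hC, hO.cov z S hS, map_smul, hC, map_smul, smul_comm]
  refine e2.trans ?_
  rw [intervalIntegral.integral_smul]
  congr 1

theorem goodT_conj (hev : ∀ V, IsGrp c V (ev V)) (hO : ObsT d χ v w M) (l : ℝ) (hS : IsShift z S)
    (hT : IsShift (-z) T) (V : Site d → ℝ) (Nk : ℕ → ℕ) (B : L2 (Site d) →L[ℂ] L2 (Site d))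
    (hB : GoodT (ev V) l (v V) Nk B) :
    GoodT (ev fun y => V (y + z)) l (v fun y => V (y + z)) Nk (χ z • ((S.comp B).comp T)) := by
  intro x
  obtain ⟨h1, h2⟩ := hB (T x)
  constructor
  · refine (((S.continuous.tendsto _).comp h1).const_smul (χ z)).congr fun k => ?_
    rw [avS_conj hev hO l hS hT V id continuous_id]
    rfl
  · refine (((S.continuous.tendsto _).comp h2).const_smul (χ z)).congr fun k => ?_
    rw [avS_conj hev hO l hS hT V (fun s => -s) continuous_neg]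
    rfl

theorem cont_intT (hev : ∀ V, IsGrp c V (ev V)) (hO : ObsT d χ v w M) (l : ℝ) (σ : ℝ → ℝ)
    (hσ : Continuous σ) (T : ℝ) :
    Continuous fun p : (Site d → ℝ) × L2 (Site d) =>
      ∫ s in (0 : ℝ)..T, gT (ev p.1) l (v p.1) p.2 (σ s) := by
  have h := ALL.a_CV d c ev hev
  have h1 : Continuous (fun p : ((Site d → ℝ) × L2 (Site d)) × ℝ =>
      (ev p.1.1).U (σ p.2) p.1.2) :=
    h.comp ((continuous_fst.comp continuous_fst).prodMk ((hσ.comp continuous_snd).prodMk
      (continuous_snd.comp continuous_fst)))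
  have h2 : Continuous (fun p : ((Site d → ℝ) × L2 (Site d)) × ℝ =>
      gT (ev p.1.1) l (v p.1.1) p.1.2 (σ p.2)) := by
    unfold gT
    refine ((cont_ph l).comp (hσ.comp continuous_snd)).smul ?_
    exact h.comp ((continuous_fst.comp continuous_fst).prodMk ((hσ.comp continuous_snd).neg.prodMk
      (hO.cont.comp ((continuous_fst.comp continuous_fst).prodMk h1))))
  exact intervalIntegral.continuous_parametric_intervalIntegral_of_continuous'
    (f := fun (p : (Site d → ℝ) × L2 (Site d)) (s : ℝ) => gT (ev p.1) l (v p.1) p.2 (σ s)) h2 0 T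

theorem cont_avS (hev : ∀ V, IsGrp c V (ev V)) (hO : ObsT d χ v w M) (l : ℝ) (σ : ℝ → ℝ)
    (hσ : Continuous σ) (N : ℕ) : Continuous fun V => avS (ev V) l (v V) σ N (dl 0) := by
  unfold avS
  have h := (cont_intT hev hO l σ hσ (N : ℝ)).comp
    ((continuous_id (X := Site d → ℝ)).prodMk (continuous_const (y := (dl 0 : L2 (Site d)))))
  exact h.const_smul ((N : ℂ)⁻¹)

end shift

/-- the average as a bounded operator -/
noncomputable def SL {X : Type} [NormedAddCommGroup X] [InnerProductSpace ℂ X] (W : UG X) (l : ℝ)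
    (v : X →L[ℂ] X) (σ : ℝ → ℝ) (hσ : Continuous σ) (N : ℕ) : X →L[ℂ] X :=
  LinearMap.mkContinuous
    { toFun := avS W l v σ N
      map_add' := fun x y => by
        have hx : IntervalIntegrable (fun s => gT W l v x (σ s)) volume (0 : ℝ) (N : ℝ) :=
          ((gT_cont W l v x).comp hσ).intervalIntegrable _ _
        have hy : IntervalIntegrable (fun s => gT W l v y (σ s)) volume (0 : ℝ) (N : ℝ) :=
          ((gT_cont W l v y).comp hσ).intervalIntegrable _ _
        unfold avS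
        rw [← smul_add, ← intervalIntegral.integral_add hx hy]
        congr 1
        refine intervalIntegral.integral_congr fun s _ => ?_
        show gT W l v (x + y) (σ s) = gT W l v x (σ s) + gT W l v y (σ s)
        unfold gT
        rw [map_add, map_add, map_add, smul_add]
      map_smul' := fun r x => by
        unfold avS
        rw [RingHom.id_apply, smul_comm r]
        congr 1
        rw [← intervalIntegral.integral_smul]
        refine intervalIntegral.integral_congr fun s _ => ?_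
        show gT W l v (r • x) (σ s) = r • gT W l v x (σ s)
        unfold gT
        rw [map_smul, map_smul, map_smul, smul_comm] } ‖v‖
    (fun x => avS_norm W l v σ N x)

theorem SL_apply {X : Type} [NormedAddCommGroup X] [InnerProductSpace ℂ X] (W : UG X) (l : ℝ)
    (v : X →L[ℂ] X) (σ : ℝ → ℝ) (hσ : Continuous σ) (N : ℕ) (x : X) :
    SL W l v σ hσ N x = avS W l v σ N x := rfl

open LIMB in
/-- subsequences: the averages converge strongly, almost surely; the limit at `δ_0` is `b` -/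
theorem lim2T {c : ℝ} {ev : (Site d → ℝ) → UG (L2 (Site d))} (hev : ∀ V, IsGrp c V (ev V))
    (hO : ObsT d χ v w M) (l : ℝ) (ν : Measure ℝ) [IsProbabilityMeasure ν] :
    ∃ b : (Site d → ℝ) → L2 (Site d), AEStronglyMeasurable b (PP d ν) ∧
      ∀ Mk : ℕ → ℕ, Tendsto Mk atTop atTop →
      ∃ a : ℕ → ℕ, StrictMono a ∧
        ∀ᵐ V ∂(PP d ν), ∃ B : L2 (Site d) →L[ℂ] L2 (Site d),
          GoodT (ev V) l (v V) (Mk ∘ a) B ∧
          ∀ (z : Site d) (S : L2 (Site d) →L[ℂ] L2 (Site d)), IsShift (-z) S →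
            B (dl z) = (χ z)⁻¹ • S (b fun y => V (y + z)) := by
  have h2 : St_COV := ALL.a_COV
  have h3 : St_RES := t_RES
  have h4 : St_CV := ALL.a_CV
  have h5 : St_OPS := t_OPS
  obtain ⟨b, hb, hP0, hM0⟩ := limaT hev hO l ν
  refine ⟨b, hb, fun Mk hMt => ?_⟩
  have hP := hP0.comp hMt
  have hM := hM0.comp hMt
  have hfP : ∀ N, AEMeasurable (fun V => ‖avS (ev V) l (v V) id N (dl 0) - b V‖ₑ ^ 2) (PP d ν) :=
    fun N => (((cont_avS hev hO l id continuous_id N).aestronglyMeasurable).sub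
      hb).enorm.pow_const 2
  have hfM : ∀ N, AEMeasurable (fun V => ‖avS (ev V) l (v V) (fun s => -s) N (dl 0) - b V‖ₑ ^ 2)
      (PP d ν) :=
    fun N => (((cont_avS hev hO l (fun s => -s) continuous_neg N).aestronglyMeasurable).sub
      hb).enorm.pow_const 2
  have hPM := hP.add hM
  rw [add_zero] at hPM
  obtain ⟨a, hmono, hNk⟩ := extraction_forall_of_eventually
    (P := fun n k => (∫⁻ V, ‖avS (ev V) l (v V) id (Mk k) (dl 0) - b V‖ₑ ^ 2 ∂(PP d ν)) +
      (∫⁻ V, ‖avS (ev V) l (v V) (fun s => -s) (Mk k) (dl 0) - b V‖ₑ ^ 2 ∂(PP d ν)) <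
        (2⁻¹ : ℝ≥0∞) ^ n)
    (fun n => (tendsto_order.1 hPM).2 _ (by
      refine ENNReal.pow_pos ?_ n
      simp))
  refine ⟨a, hmono, ?_⟩
  set Nk : ℕ → ℕ := Mk ∘ a with hNkdef
  -- almost sure convergence at the origin
  have hfS : ∀ n, AEMeasurable (fun V => ‖avS (ev V) l (v V) id (Nk n) (dl 0) - b V‖ₑ ^ 2 +
      ‖avS (ev V) l (v V) (fun s => -s) (Nk n) (dl 0) - b V‖ₑ ^ 2) (PP d ν) := fun n =>
    (hfP (Nk n)).add (hfM (Nk n))
  have hsum : ∫⁻ V, ∑' n, (‖avS (ev V) l (v V) id (Nk n) (dl 0) - b V‖ₑ ^ 2 +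
      ‖avS (ev V) l (v V) (fun s => -s) (Nk n) (dl 0) - b V‖ₑ ^ 2) ∂(PP d ν) ≠ ∞ := by
    rw [lintegral_tsum hfS]
    have hle : ∑' n, ∫⁻ V, (‖avS (ev V) l (v V) id (Nk n) (dl 0) - b V‖ₑ ^ 2 +
        ‖avS (ev V) l (v V) (fun s => -s) (Nk n) (dl 0) - b V‖ₑ ^ 2) ∂(PP d ν) ≤
          ∑' n : ℕ, (2⁻¹ : ℝ≥0∞) ^ n := by
      refine ENNReal.tsum_le_tsum fun n => ?_
      rw [lintegral_add_left' (hfP (Nk n))]
      exact (hNk n).le
    refine ne_top_of_le_ne_top ?_ hle
    rw [ENNReal.tsum_geometric]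
    simp
  have hae := ae_lt_top' (AEMeasurable.tsum hfS) hsum
  have hG : ∀ᵐ V ∂(PP d ν),
      Tendsto (fun n => avS (ev V) l (v V) id (Nk n) (dl 0)) atTop (𝓝 (b V)) ∧
      Tendsto (fun n => avS (ev V) l (v V) (fun s => -s) (Nk n) (dl 0)) atTop (𝓝 (b V)) := by
    filter_upwards [hae] with V hV
    have h0 := ENNReal.tendsto_atTop_zero_of_tsum_ne_top hV.ne
    constructor
    · refine tendsto_of_enorm_sq (tendsto_of_tendsto_of_tendsto_of_le_of_le tendsto_const_nhds h0
        (fun _ => zero_le) fun n => ?_)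
      exact le_self_add
    · refine tendsto_of_enorm_sq (tendsto_of_tendsto_of_tendsto_of_le_of_le tendsto_const_nhds h0
        (fun _ => zero_le) fun n => ?_)
      exact le_add_self
  have hGz : ∀ᵐ V ∂(PP d ν), ∀ z : Site d,
      Tendsto (fun n => avS (ev fun y => V (y + z)) l (v fun y => V (y + z)) id (Nk n) (dl 0))
        atTop (𝓝 (b fun y => V (y + z))) ∧
      Tendsto (fun n => avS (ev fun y => V (y + z)) l (v fun y => V (y + z)) (fun s => -s) (Nk n)
        (dl 0)) atTop (𝓝 (b fun y => V (y + z))) := by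
    rw [ae_all_iff]
    intro z
    exact ((h3 d ν).2 z).quasiMeasurePreserving.ae hG
  filter_upwards [hGz] with V hV
  have hlim : ∀ (z : Site d) (S : L2 (Site d) →L[ℂ] L2 (Site d)), IsShift (-z) S →
      Tendsto (fun k => SL (ev V) l (v V) id continuous_id (Nk k) (dl z)) atTop
        (𝓝 ((χ z)⁻¹ • S (b fun y => V (y + z)))) ∧
      Tendsto (fun k => SL (ev V) l (v V) (fun s => -s) continuous_neg (Nk k) (dl z)) atTop
        (𝓝 ((χ z)⁻¹ • S (b fun y => V (y + z)))) := by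
    intro z S hS
    obtain ⟨T, hT⟩ := (h5 d).1 z
    have hinv : ∀ ψ, S (T ψ) = ψ := fun ψ => by
      ext x
      rw [hS, hT, neg_add_cancel_right]
    have hne := hO.ne z
    constructor
    · have := ((S.continuous.tendsto _).comp (hV z).1).const_smul (χ z)⁻¹
      refine this.congr fun k => ?_
      rw [SL_apply]
      have e := avS_conj (z := z) hev hO l hT hS V id continuous_id (Nk k) (dl 0)
      show (χ z)⁻¹ • S (avS (ev fun y => V (y + z)) l (v fun y => V (y + z)) id (Nk k) (dl 0)) = _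
      rw [e, map_smul, smul_smul, inv_mul_cancel₀ hne, one_smul, hinv, LIMB.shift_dl z S hS]
    · have := ((S.continuous.tendsto _).comp (hV z).2).const_smul (χ z)⁻¹
      refine this.congr fun k => ?_
      rw [SL_apply]
      have e := avS_conj (z := z) hev hO l hT hS V (fun s => -s) continuous_neg (Nk k) (dl 0)
      show (χ z)⁻¹ • S (avS (ev fun y => V (y + z)) l (v fun y => V (y + z)) (fun s => -s) (Nk k)
        (dl 0)) = _
      rw [e, map_smul, smul_smul, inv_mul_cancel₀ hne, one_smul, hinv, LIMB.shift_dl z S hS]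
  obtain ⟨B, hB⟩ := ext_lim (fun k => SL (ev V) l (v V) id continuous_id (Nk k))
    (fun k => SL (ev V) l (v V) (fun s => -s) continuous_neg (Nk k))
    ‖v V‖ (norm_nonneg _) (fun k => avS_norm (ev V) l (v V) id (Nk k))
    (fun k => avS_norm (ev V) l (v V) (fun s => -s) (Nk k))
    (Site d) dl (dl_dense d) (fun z => by
      obtain ⟨S, hS⟩ := (h5 d).1 (-z)
      exact ⟨_, hlim z S hS⟩)
  refine ⟨B, hB, fun z S hS => ?_⟩
  exact tendsto_nhds_unique (hB (dl z)).1 (hlim z S hS).1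

end Pool.Agent.L7h83.WM
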