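import Pool.Agent.Y662.ERG.Off
import Pool.Agent.L7h83.WM.Obs2

/-! # Orthogonality to the cyclic subspace of a site, twisted observables -/

set_option autoImplicit false

open MeasureTheory Filter Topology
open scoped BigOperators ENNReal NNReal InnerProductSpace ComplexConjugate

namespace Pool.Agent.L7h83.WM

open Pool.Agent.H5R2.NB Pool.Agent.H5R2.NBA Pool.Agent.Y662.ERG

variable {d : ℕ} {χ : Site d → ℂ} {v w : (Site d → ℝ) → L2 (Site d) →L[ℂ] L2 (Site d)} {M : ℝ}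
  {c : ℝ} {ev : (Site d → ℝ) → UG (L2 (Site d))}

theorem f1T_0 (hev : ∀ V, IsGrp c V (ev V)) (hO : ObsT d χ v w M) (l : ℝ) (ν : Measure ℝ)
    [IsProbabilityMeasure ν] (hν : ∀ κ : ℝ, ν {κ} ≠ 1) (Nk : ℕ → ℕ) (hNk : Tendsto Nk atTop atTop)
    (hG : ∀ᵐ V ∂(PP d ν), ∃ B : L2 (Site d) →L[ℂ] L2 (Site d), GoodT (ev V) l (v V) Nk B) :
    ∀ᵐ V ∂(PP d ν), ∀ B : L2 (Site d) →L[ℂ] L2 (Site d), GoodT (ev V) l (v V) Nk B →
      ∀ φ ∈ HAC (ev V), (∀ t, ⟪φ, (ev V).U t (dl 0)⟫_ℂ = 0) →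
        ⟪φ, B (dl 0 : L2 (Site d))⟫_ℂ = 0 := by
  have hmp := (t_RES d ν).1
  have h1 : ∀ᵐ p ∂((PP d ν).prod ν), ∃ B : L2 (Site d) →L[ℂ] L2 (Site d),
      GoodT (ev (Function.update p.1 0 p.2)) l (v (Function.update p.1 0 p.2)) Nk B :=
    hmp.quasiMeasurePreserving.ae hG
  have h2 := Measure.ae_ae_of_ae_prod h1
  filter_upwards [h2] with V hV B hB φ hφ hort
  have h3 : ∃ k, k ≠ V 0 ∧ ∃ B : L2 (Site d) →L[ℂ] L2 (Site d),
      GoodT (ev (Function.update V 0 k)) l (v (Function.update V 0 k)) Nk B := by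
    by_contra h
    have h4 : ∀ᵐ k ∂ν, k = V 0 := by
      filter_upwards [hV] with k hk
      by_contra hne
      exact h ⟨k, hne, hk⟩
    have h5 : ν {V 0} = 1 := by
      rw [← prob_compl_eq_zero_iff (measurableSet_singleton _)]
      exact h4
    exact hν _ h5
  obtain ⟨k, hk, B', hB'⟩ := h3
  have hfam := t_FAM ALL.a_UN d c ev hev V
  have hup : Function.update V 0 (V 0) = V := Function.update_eq_self 0 V
  obtain ⟨F, C, hF⟩ := hO.loc V k
  refine w6T_hac (fun κ => ev (Function.update V 0 κ)) (dl 0) hfam hk l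
    (v (Function.update V 0 k)) (v V) F (fun x => (dl x : L2 (Site d))) C
    (fun x => ?_) Nk hNk B' B hB' ?_ φ ?_ ?_
  · rw [norm_sub_rev]
    exact hF x
  · simpa only [hup] using hB
  · simpa only [hup] using hφ
  · simpa only [hup] using hort

theorem f1T (hev : ∀ V, IsGrp c V (ev V)) (hO : ObsT d χ v w M) (l : ℝ) (ν : Measure ℝ)
    [IsProbabilityMeasure ν] (hν : ∀ κ : ℝ, ν {κ} ≠ 1) (Nk : ℕ → ℕ) (hNk : Tendsto Nk atTop atTop)
    (hG : ∀ᵐ V ∂(PP d ν), ∃ B : L2 (Site d) →L[ℂ] L2 (Site d), GoodT (ev V) l (v V) Nk B) :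
    ∀ᵐ V ∂(PP d ν), ∀ B : L2 (Site d) →L[ℂ] L2 (Site d), GoodT (ev V) l (v V) Nk B →
      ∀ z : Site d, ∀ φ ∈ HAC (ev V), (∀ t, ⟪φ, (ev V).U t (dl z)⟫_ℂ = 0) →
        ⟪φ, B (dl z : L2 (Site d))⟫_ℂ = 0 := by
  have h2 := f1T_0 hev hO l ν hν Nk hNk hG
  have h3 : ∀ᵐ V ∂(PP d ν), ∀ z : Site d, ∀ B : L2 (Site d) →L[ℂ] L2 (Site d),
      GoodT (ev fun y => V (y + z)) l (v fun y => V (y + z)) Nk B →
        ∀ φ ∈ HAC (ev fun y => V (y + z)),
          (∀ t, ⟪φ, (ev fun y => V (y + z)).U t (dl 0)⟫_ℂ = 0) →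
          ⟪φ, B (dl 0 : L2 (Site d))⟫_ℂ = 0 := by
    rw [ae_all_iff]
    intro z
    exact ((t_RES d ν).2 z).quasiMeasurePreserving.ae h2
  filter_upwards [h3] with V hV B hB z φ hφ hort
  obtain ⟨S, hS⟩ := (t_OPS d).1 z
  obtain ⟨T, hT⟩ := (t_OPS d).1 (-z)
  have hSd : S (dl z) = dl 0 := by
    ext x
    rw [hS]
    unfold dl
    rw [lp.single_apply, lp.single_apply, Pi.single_apply, Pi.single_apply]
    by_cases h : x = 0
    · subst h; simp
    · rw [if_neg h, if_neg]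
      intro h'
      apply h
      exact add_eq_right.1 h'
  have hSi : ∀ a b : L2 (Site d), ⟪S a, S b⟫_ℂ = ⟪a, b⟫_ℂ := by
    intro a b
    rw [STAT.shift_inner z S T hS hT, ZAC.inv2 hS hT]
  have h4 := hV z _ (goodT_conj hev hO l hS hT V Nk B hB) (S φ) (ZAC.hac_conj hev hS hT V φ hφ)
    (fun t => by
      rw [← hSd, ALL.a_COV d c ev hev z S hS V, hSi]
      exact hort t)
  have h5 : (χ z • ((S.comp B).comp T)) (dl 0) = χ z • S (B (dl z)) := by
    show χ z • S (B (T (dl 0))) = _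
    rw [← hSd, ZAC.inv2 hS hT]
  rw [h5, inner_smul_right, hSi] at h4
  exact (mul_eq_zero.1 h4).resolve_left (hO.ne z)

theorem ObsT.off (hO : ObsT d χ v w M) (o : ℝ) :
    ObsT d χ (fun V => v (shf o V)) (fun V => w (shf o V)) M where
  adj V x y := hO.adj _ x y
  bound V x := hO.bound _ x
  boundw V x := hO.boundw _ x
  cont := by
    have h : Continuous fun p : (Site d → ℝ) × L2 (Site d) => (shf o p.1, p.2) := by
      unfold shf
      fun_prop
    exact hO.cont.comp h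
  contw := by
    have h : Continuous fun p : (Site d → ℝ) × L2 (Site d) => (shf o p.1, p.2) := by
      unfold shf
      fun_prop
    exact hO.contw.comp h
  chi := hO.chi
  mul := hO.mul
  cov z S hS V ψ := hO.cov z S hS (shf o V) ψ
  covw z S hS V ψ := hO.covw z S hS (shf o V) ψ
  loc V κ := by
    obtain ⟨F, C, h⟩ := hO.loc (shf o V) (κ - o)
    refine ⟨F, C, fun ψ => ?_⟩
    have e : shf o (Function.update V 0 κ) = Function.update (shf o V) 0 (κ - o) := by
      funext x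
      unfold shf
      by_cases hx : x = 0
      · subst hx; simp
      · rw [Function.update_of_ne hx, Function.update_of_ne hx]
    rw [e]
    exact h ψ
  locw V κ := by
    obtain ⟨F, C, h⟩ := hO.locw (shf o V) (κ - o)
    refine ⟨F, C, fun ψ => ?_⟩
    have e : shf o (Function.update V 0 κ) = Function.update (shf o V) 0 (κ - o) := by
      funext x
      unfold shf
      by_cases hx : x = 0
      · subst hx; simp
      · rw [Function.update_of_ne hx, Function.update_of_ne hx]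
    rw [e]
    exact h ψ

/-- the averages converge along subsequences, and the limit preserves orthogonality to the cyclic
subspaces of the sites -/
theorem limT_off (o : ℝ) (hev : ∀ ω : Site d → ℝ, IsGrp c (fun x => o + ω x) (ev ω))
    (hO : ObsT d χ v w M) (l : ℝ) (ν : Measure ℝ) [IsProbabilityMeasure ν]
    (hν : ∀ κ : ℝ, ν {κ} ≠ 1) :
    ∃ b : (Site d → ℝ) → L2 (Site d), AEStronglyMeasurable b (PP d ν) ∧
      ∀ Mk : ℕ → ℕ, Tendsto Mk atTop atTop →
      ∃ a : ℕ → ℕ, StrictMono a ∧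
        ∀ᵐ ω ∂(PP d ν), ∃ B : L2 (Site d) →L[ℂ] L2 (Site d),
          GoodT (ev ω) l (v ω) (Mk ∘ a) B ∧
          (∀ (z : Site d) (S : L2 (Site d) →L[ℂ] L2 (Site d)), IsShift (-z) S →
            B (dl z) = (χ z)⁻¹ • S (b fun y => ω (y + z))) ∧
          ∀ z : Site d, ∀ φ ∈ HAC (ev ω), (∀ t, ⟪φ, (ev ω).U t (dl z)⟫_ℂ = 0) →
            ⟪φ, B (dl z : L2 (Site d))⟫_ℂ = 0 := by
  have hev' : ∀ V, IsGrp c V (ev (shf o V)) := by
    intro V
    have h := hev (shf o V)
    have e : (fun x => o + shf o V x) = V := by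
      funext x
      unfold shf
      ring
    rwa [e] at h
  set e : (Site d → ℝ) ≃ᵐ (Site d → ℝ) := MeasurableEquiv.addLeft (fun _ : Site d => o) with he
  have hei : ∀ ω, e ω = fun x => o + ω x := fun ω => rfl
  have hse : ∀ ω, shf o (e ω) = ω := by
    intro ω
    rw [hei]
    funext x
    unfold shf
    ring
  have hg : Measurable (fun r : ℝ => o + r) := by fun_prop
  have hpm : IsProbabilityMeasure (ν.map fun r : ℝ => o + r) :=
    Measure.isProbabilityMeasure_map hg.aemeasurable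
  have hmap : (PP d ν).map e = PP d (ν.map fun r : ℝ => o + r) := by
    unfold PP
    exact Measure.infinitePi_map_pi (μ := fun _ : Site d => ν) (fun _ => hg)
  have hne : ∀ κ : ℝ, (ν.map fun r : ℝ => o + r) {κ} ≠ 1 := by
    intro κ
    rw [Measure.map_apply hg (measurableSet_singleton κ)]
    have : (fun r : ℝ => o + r) ⁻¹' {κ} = {κ - o} := by
      ext r
      simp only [Set.mem_preimage, Set.mem_singleton_iff]
      constructor <;> intro h <;> linarith
    rw [this]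
    exact hν _
  obtain ⟨b, hb, hlim⟩ := lim2T hev' (hO.off o) l (ν.map fun r : ℝ => o + r)
  refine ⟨fun ω => b (e ω), ?_, fun Mk hMk => ?_⟩
  · rw [← hmap] at hb
    exact hb.comp_aemeasurable e.measurable.aemeasurable
  · obtain ⟨a, ha, hG⟩ := hlim Mk hMk
    refine ⟨a, ha, ?_⟩
    have hNk : Tendsto (Mk ∘ a) atTop atTop := hMk.comp ha.tendsto_atTop
    have hF := f1T hev' (hO.off o) l (ν.map fun r : ℝ => o + r) hne (Mk ∘ a) hNk
      (hG.mono fun V ⟨B, hB, _⟩ => ⟨B, hB⟩)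
    have hGF := hG.and hF
    rw [← hmap, e.measurableEmbedding.ae_map_iff] at hGF
    filter_upwards [hGF] with ω ⟨⟨B, hB1, hB2⟩, hω⟩
    rw [hse] at hB1 hω
    exact ⟨B, hB1, hB2, hω B hB1⟩

end Pool.Agent.L7h83.WM
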