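import Pool.Agent.Y662.ERG.PerV
import Pool.Agent.L7h83.WM.F12

/-! # The fibre coefficients for one potential, twisted observables -/

set_option autoImplicit false

open MeasureTheory Filter Topology Set
open scoped ENNReal NNReal InnerProductSpace

namespace Pool.Agent.L7h83.WM

open Pool.Agent.TH980.IM Pool.Agent.H5R2 Pool.Agent.Y662.ERG
open Pool.Agent.H12R2.And (Rz isUnit_sub sub_Rz im_inner norm_Rz_le diff_inner)
open Pool.Agent.TH980.IM.PR

section abstract

variable {X : Type} [NormedAddCommGroup X] [InnerProductSpace ℂ X] [CompleteSpace X]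
variable {T : X →L[ℂ] X}

/-- existence of the coefficient: `w` is approximated by polynomials in `T` applied to `u`, in the
sense of densities -/
theorem exists_coeffT (hT : IsSelfAdjoint T) (w u : X) (p : ℕ → Polynomial ℂ)
    (hp : ∀ n, ∫⁻ E, ENNReal.ofReal (dn hT (w - Polynomial.aeval T (p n) u) E) ≤
      (2⁻¹ : ℝ≥0∞) ^ n) :
    ∀ᵐ E : ℝ, ∃ g : ℂ, Ngl T E (w - g • u) := by
  have h1 := dn_small hT (fun n => w - Polynomial.aeval T (p n) u) hp
  have h2 : ∀ᵐ E : ℝ, ∀ n, Tendsto (fun k => qn T (zk k E) (w - Polynomial.aeval T (p n) u))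
      atTop (𝓝 (Real.sqrt (kap * dn hT (w - Polynomial.aeval T (p n) u) E))) :=
    ae_all_iff.2 fun n => qn_tendsto hT _
  filter_upwards [h1, h2, qn_tendsto hT u] with E e1 e2 e3
  set a := Real.sqrt (kap * dn hT u E) with ha
  have e4 : ∀ n, Ngl T E (Polynomial.aeval T (p n) u - (p n).eval (E : ℂ) • u) :=
    fun n => ngl_poly hT (p n) u E
  set s : ℕ → ℝ := fun n => Real.sqrt (kap * dn hT (w - Polynomial.aeval T (p n) u) E) with hs
  have hs0 : Tendsto s atTop (𝓝 0) := sqrt_kap_tendsto e1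
  have hs00 : ∀ n, 0 ≤ s n := fun n => Real.sqrt_nonneg _
  -- `w - p_n(E) u`
  have e5 : ∀ n, Tendsto (fun k => qn T (zk k E) (w - (p n).eval (E : ℂ) • u)) atTop
      (𝓝 (s n)) := by
    intro n
    refine Ngl.lim ?_ (e2 n)
    have e : w - (p n).eval (E : ℂ) • u - (w - Polynomial.aeval T (p n) u) =
        Polynomial.aeval T (p n) u - (p n).eval (E : ℂ) • u := by abel
    rw [e]
    exact e4 n
  rcases (Real.sqrt_nonneg (kap * dn hT u E)).eq_or_lt with h0 | h0
  · rw [← ha] at h0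
    rw [← h0] at e3
    have hu : Ngl T E u := e3
    refine ⟨0, ?_⟩
    rw [zero_smul, sub_zero]
    -- `w` has the limit `s n` for all `n`
    have e6 : ∀ n, Tendsto (fun k => qn T (zk k E) w) atTop (𝓝 (s n)) := by
      intro n
      refine Ngl.lim ?_ (e5 n)
      have e : w - (w - (p n).eval (E : ℂ) • u) = (p n).eval (E : ℂ) • u := by abel
      rw [e]
      exact hu.smul _
    have e7 : ∀ n, s n = s 0 := fun n => tendsto_nhds_unique (e6 n) (e6 0)
    have e8 : s 0 = 0 := by
      have h3 : Tendsto s atTop (𝓝 (s 0)) := by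
        have : s = fun _ => s 0 := funext e7
        rw [this]
        exact tendsto_const_nhds
      exact tendsto_nhds_unique h3 hs0
    have e9 := e6 0
    rw [e8] at e9
    exact e9
  · rw [← ha] at h0
    have e6 : ∀ n m, ‖(p n).eval (E : ℂ) - (p m).eval (E : ℂ)‖ * a ≤ s n + s m := by
      intro n m
      have h3 : Tendsto (fun k => qn T (zk k E) (((p n).eval (E : ℂ) - (p m).eval (E : ℂ)) • u))
          atTop (𝓝 (‖(p n).eval (E : ℂ) - (p m).eval (E : ℂ)‖ * a)) :=
        (e3.const_mul _).congr fun k => (qn_smul _ _ _).symm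
      refine le_of_tendsto_of_tendsto' h3 ((e5 n).add (e5 m)) fun k => ?_
      have e : ((p n).eval (E : ℂ) - (p m).eval (E : ℂ)) • u =
          (w - (p m).eval (E : ℂ) • u) + (-1 : ℂ) • (w - (p n).eval (E : ℂ) • u) := by
        rw [neg_one_smul, sub_smul]; abel
      rw [e]
      refine (qn_add _ _ _).trans ?_
      rw [qn_smul]
      simp only [norm_neg, norm_one, one_mul]
      linarith
    have hcs : CauchySeq fun n => (p n).eval (E : ℂ) := by
      rw [Metric.cauchySeq_iff]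
      intro ε hε
      have hh : 0 < ε * a / 2 := by positivity
      obtain ⟨N, hN⟩ := eventually_atTop.1 (hs0.eventually (gt_mem_nhds hh))
      refine ⟨N, fun m hm n hn => ?_⟩
      rw [dist_eq_norm]
      have h3 := e6 m n
      have h4 := hN m hm
      have h5 := hN n hn
      have h6 : ‖(p m).eval (E : ℂ) - (p n).eval (E : ℂ)‖ * a < ε * a := by linarith
      exact lt_of_mul_lt_mul_right h6 h0.le
    obtain ⟨g, hg⟩ := cauchySeq_tendsto_of_complete hcs
    refine ⟨g, ?_⟩
    unfold Ngl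
    rw [Metric.tendsto_atTop]
    intro ε hε
    have h3 : Tendsto (fun n => s n + ‖(p n).eval (E : ℂ) - g‖ * (a + 1)) atTop (𝓝 0) := by
      have h4 := (tendsto_iff_norm_sub_tendsto_zero.1 hg).mul_const (a + 1)
      have h5 := hs0.add h4
      rwa [zero_mul, add_zero] at h5
    obtain ⟨n, hn⟩ := (h3.eventually (gt_mem_nhds (half_pos hε))).exists
    have h6 := (e5 n).eventually (gt_mem_nhds (show s n < s n + ε / 2 by linarith))
    have h7 := e3.eventually (gt_mem_nhds (show a < a + 1 by linarith))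
    obtain ⟨N, hN⟩ := eventually_atTop.1 (h6.and h7)
    refine ⟨N, fun k hk => ?_⟩
    obtain ⟨h8, h9⟩ := hN k hk
    rw [Real.dist_eq, sub_zero, abs_of_nonneg (qn_nonneg _ _)]
    have e : w - g • u = (w - (p n).eval (E : ℂ) • u) + ((p n).eval (E : ℂ) - g) • u := by
      rw [sub_smul]; abel
    rw [e]
    refine (qn_add _ _ _).trans_lt ?_
    rw [qn_smul]
    have h10 : ‖(p n).eval (E : ℂ) - g‖ * qn T (zk k E) u ≤
        ‖(p n).eval (E : ℂ) - g‖ * (a + 1) := mul_le_mul_of_nonneg_left h9.le (norm_nonneg _)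
    linarith

/-- an operator commuting with the group up to a phase -/
theorem twist_of_Ex {T B : X →L[ℂ] X} {l : ℝ} (h : ∀ t x, B (Ex T t x) = ph l (-t) • Ex T t (B x))
    (x : X) : B (T x) = T (B x) + (l : ℂ) • B x := by
  have h1 := ((B.restrictScalars ℝ).hasFDerivAt (x := Ex T 0 x)).comp_hasDerivAt (0 : ℝ)
    (Ex_deriv T 0 x)
  have h2 := Ex_deriv T 0 (B x)
  have h3 : (⇑(B.restrictScalars ℝ) ∘ fun s : ℝ => Ex T s x) =
      fun s : ℝ => ph l (-s) • Ex T s (B x) := by
    funext s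
    exact h s x
  rw [h3] at h1
  have hp : HasDerivAt (fun s : ℝ => ph l (-s)) (-(Complex.I * l)) 0 := by
    have e1 : (fun s : ℝ => ph l (-s)) = fun s : ℝ => Complex.exp ((-(Complex.I * l)) * s) := by
      funext s
      unfold ph
      congr 1
      push_cast
      ring
    rw [e1]
    have e2 : HasDerivAt (fun s : ℂ => Complex.exp ((-(Complex.I * l)) * s))
        (Complex.exp ((-(Complex.I * l)) * ((0 : ℝ) : ℂ)) * (-(Complex.I * l))) ((0 : ℝ) : ℂ) := by
      have e3 : HasDerivAt (fun s : ℂ => (-(Complex.I * l)) * s) (-(Complex.I * l))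
          ((0 : ℝ) : ℂ) := by
        simpa using (hasDerivAt_id ((0 : ℝ) : ℂ)).const_mul (-(Complex.I * l))
      exact e3.cexp
    have e4 := e2.comp_ofReal
    simpa using e4
  have h4 := hp.smul h2
  have h5 : B (-Complex.I • T (Ex T 0 x)) = ph l (-0) • (-Complex.I • T (Ex T 0 (B x))) +
      (-(Complex.I * l)) • Ex T 0 (B x) := h1.unique h4
  rw [Ex_zero, Ex_zero, map_smul, neg_zero, ph_zero, one_smul] at h5
  have h6 : (-Complex.I) ≠ 0 := neg_ne_zero.2 Complex.I_ne_zero
  have h7 : (-Complex.I) • (T (B x) + (l : ℂ) • B x) =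
      -Complex.I • T (B x) + (-(Complex.I * l)) • B x := by
    rw [smul_add, smul_smul]
    congr 2
    ring
  rw [← h7] at h5
  exact smul_right_injective X h6 h5

end abstract

variable {d : ℕ}

/-- the coefficient at one site -/
theorem fib_siteT {K : ℝ} {V : Sd d → ℝ} (hV : ∀ x, |V x| ≤ K) {W : NB.UG (L2 d)}
    (hW : NB.IsGrp (-1) (fun x => 2 * d + V x) W) (b e : L2 d)
    (hF : ∀ φ ∈ NBA.HAC W, (∀ t, ⟪φ, W.U t e⟫_ℂ = 0) → ⟪φ, b⟫_ℂ = 0) :
    ∀ᵐ E : ℝ, ∃ g : ℂ, Ngl (HV K V) E (b - g • e) := by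
  set T := HV K V with hT
  have hsa : IsSelfAdjoint T := HV_sa K V
  have hUE : ∀ t u, W.U t u = Ex T t u := fun t u => grp_Ex hV hW t u
  obtain ⟨P, hP1, hP2, hP3, hP4, hP5, -⟩ := NBA.t_PR (Sd d) W
  have hPac : ∀ v, spm hsa v ≪ volume → P v = v := by
    intro v hv
    apply hP2
    apply NBA.ALL.a_SPEC
    refine ⟨spm hsa v, inferInstance, hv, fun t => ?_⟩
    rw [hUE]
    exact Ex_spm hsa t v
  -- the closed subspace generated by the vectors `P p(T) e`
  let L : Polynomial ℂ →ₗ[ℂ] L2 d :=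
    { toFun := fun p => P (Polynomial.aeval T p e)
      map_add' := fun p q => by
        rw [map_add]
        show P (_ + _) = _
        rw [map_add]
        rfl
      map_smul' := fun c p => by
        rw [map_smul]
        show P (c • _) = c • _
        rw [map_smul]
        rfl }
  have hL : ∀ p, L p = P (Polynomial.aeval T p e) := fun p => rfl
  set Mc : Submodule ℂ (L2 d) := (LinearMap.range L).topologicalClosure with hMc
  haveI : CompleteSpace Mc := (Submodule.isClosed_topologicalClosure _).completeSpace_coe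
  set w : L2 d := P b with hw
  have hmem : w ∈ Mc := by
    set φ : L2 d := w - Mc.starProjection w with hφ
    have hφM : φ ∈ Mcᗮ := Submodule.sub_starProjection_mem_orthogonal w
    rw [Submodule.mem_orthogonal'] at hφM
    have h1 : ∀ p : Polynomial ℂ, ⟪P φ, Polynomial.aeval T p e⟫_ℂ = 0 := by
      intro p
      rw [hP3, ← hL]
      exact hφM _ (Submodule.le_topologicalClosure _ ⟨p, rfl⟩)
    have h2 : ∀ t, ⟪P φ, W.U t e⟫_ℂ = 0 := by
      intro t
      rw [hUE]
      apply orth_Ex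
      intro m
      have := h1 (Polynomial.X ^ m)
      rwa [map_pow, Polynomial.aeval_X] at this
    have h3 := hF (P φ) (hP1 φ) h2
    have h4 : ⟪φ, w⟫_ℂ = 0 := by
      rw [hw, ← hP3]
      exact h3
    have h5 : ⟪φ, Mc.starProjection w⟫_ℂ = 0 := hφM _ (Submodule.starProjection_apply_mem _ _)
    have h6 : ⟪φ, φ⟫_ℂ = 0 := by
      conv_lhs => rw [hφ]
      rw [← hφ, inner_sub_right, h4, h5, sub_zero]
    have h7 : φ = 0 := inner_self_eq_zero.1 h6
    rw [hφ, sub_eq_zero] at h7
    rw [h7]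
    exact Submodule.starProjection_apply_mem _ _
  have hex : ∀ n : ℕ, ∃ p : Polynomial ℂ, ‖w - P (Polynomial.aeval T p e)‖ < (2⁻¹ : ℝ) ^ n := by
    intro n
    have h1 : w ∈ closure (LinearMap.range L : Set (L2 d)) := hmem
    obtain ⟨_, ⟨p, rfl⟩, hp⟩ := Metric.mem_closure_iff.1 h1 ((2⁻¹ : ℝ) ^ n) (by positivity)
    refine ⟨p, ?_⟩
    rwa [dist_eq_norm] at hp
  choose p hp using hex
  refine exists_coeffT hsa b e p fun n => ?_
  refine (dn_le_proj hsa P hPac hP3 _).trans ?_
  have h1 : ‖P (b - Polynomial.aeval T (p n) e)‖ₑ ≤ (2⁻¹ : ℝ≥0∞) ^ n := by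
    rw [map_sub, ← ofReal_norm]
    refine (ENNReal.ofReal_le_ofReal (hp n).le).trans (le_of_eq ?_)
    rw [ENNReal.ofReal_pow (by norm_num), ENNReal.ofReal_inv_of_pos (by norm_num)]
    norm_num
  have h2 : ((2⁻¹ : ℝ≥0∞) ^ n) ≤ 1 := pow_le_one₀ (by simp) (by simp)
  calc ‖P (b - Polynomial.aeval T (p n) e)‖ₑ ^ 2 ≤ ((2⁻¹ : ℝ≥0∞) ^ n) ^ 2 := by gcongr
    _ = ((2⁻¹ : ℝ≥0∞) ^ n) * ((2⁻¹ : ℝ≥0∞) ^ n) := by rw [pow_two]
    _ ≤ ((2⁻¹ : ℝ≥0∞) ^ n) * 1 := by gcongr
    _ = _ := mul_one _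

/-- coordinates of `T δ_y` -/
theorem HV_ee (K : ℝ) (V : Sd d → ℝ) (y j : Sd d) :
    (HV K V (ee y)) j = ∑ i : Fin d, (2 * (if j = y then (1 : ℂ) else 0) -
      (if j + Pi.single i 1 = y then 1 else 0) - (if j - Pi.single i 1 = y then 1 else 0)) +
      (cl K (V j) : ℂ) * (if j = y then 1 else 0) := by
  rw [HV_apply]
  simp only [ee_apply]

theorem add_ne (y : Sd d) (i : Fin d) : y + Pi.single i 1 ≠ y := by
  intro h
  have h1 := congrFun h i
  rw [Pi.add_apply, Pi.single_eq_same] at h1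
  linarith

theorem sub_ne (y : Sd d) (i : Fin d) : y - Pi.single i 1 ≠ y := by
  intro h
  have h1 := congrFun h i
  rw [Pi.sub_apply, Pi.single_eq_same] at h1
  linarith

theorem HV_ee_self (K : ℝ) (V : Sd d → ℝ) (y : Sd d) :
    (HV K V (ee y)) y = ((2 * d + cl K (V y) : ℝ) : ℂ) := by
  rw [HV_ee, if_pos rfl]
  have e : ∀ i : Fin d, (2 * (1 : ℂ) - (if y + Pi.single i 1 = y then 1 else 0) -
      (if y - Pi.single i 1 = y then 1 else 0)) = 2 := by
    intro i
    rw [if_neg (add_ne y i), if_neg (sub_ne y i)]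
    ring
  simp only [e, Finset.sum_const, Finset.card_univ, Fintype.card_fin, nsmul_eq_mul]
  push_cast
  ring

theorem HV_ee_add (K : ℝ) (V : Sd d → ℝ) (y : Sd d) (i : Fin d) :
    (HV K V (ee y)) (y + Pi.single i 1) = -1 := by
  rw [HV_ee, if_neg (add_ne y i)]
  simp only [mul_zero, zero_sub, add_zero]
  rw [Finset.sum_eq_single i]
  · rw [if_neg, if_pos]
    · simp
    · simp
    · intro h
      have h1 := congrFun h i
      rw [Pi.add_apply, Pi.add_apply, Pi.single_eq_same] at h1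
      linarith
  · intro k _ hk
    rw [if_neg, if_neg]
    · simp
    · intro h
      have h1 := congrFun h i
      rw [Pi.sub_apply, Pi.add_apply, Pi.single_eq_same, single_ne i k hk] at h1
      linarith
    · intro h
      have h1 := congrFun h i
      rw [Pi.add_apply, Pi.add_apply, Pi.single_eq_same, single_ne i k hk] at h1
      linarith
  · intro h
    exact absurd (Finset.mem_univ i) h

theorem HV_ee_sub (K : ℝ) (V : Sd d → ℝ) (y : Sd d) (i : Fin d) :
    (HV K V (ee y)) (y - Pi.single i 1) = -1 := by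
  rw [HV_ee, if_neg (sub_ne y i)]
  simp only [mul_zero, zero_sub, add_zero]
  rw [Finset.sum_eq_single i]
  · rw [if_pos, if_neg]
    · simp
    · intro h
      have h1 := congrFun h i
      rw [Pi.sub_apply, Pi.sub_apply, Pi.single_eq_same] at h1
      linarith
    · simp
  · intro k _ hk
    rw [if_neg, if_neg]
    · simp
    · intro h
      have h1 := congrFun h i
      rw [Pi.sub_apply, Pi.sub_apply, Pi.single_eq_same, single_ne i k hk] at h1
      linarith
    · intro h
      have h1 := congrFun h i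
      rw [Pi.add_apply, Pi.sub_apply, Pi.single_eq_same, single_ne i k hk] at h1
      linarith
  · intro h
    exact absurd (Finset.mem_univ i) h

theorem HV_ee_far (K : ℝ) (V : Sd d → ℝ) (y j : Sd d) (h0 : j ≠ y)
    (h1 : ∀ i : Fin d, j ≠ y + Pi.single i 1) (h2 : ∀ i : Fin d, j ≠ y - Pi.single i 1) :
    (HV K V (ee y)) j = 0 := by
  rw [HV_ee, if_neg h0]
  simp only [mul_zero, zero_sub, add_zero]
  refine Finset.sum_eq_zero fun i _ => ?_
  rw [if_neg, if_neg]
  · simp
  · intro h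
    exact h1 i (by rw [← h]; simp)
  · intro h
    exact h2 i (by rw [← h]; simp)

theorem FS_sub {u v : L2 d} (hu : FS u) (hv : FS v) : FS (u - v) := by
  have h := hu.add (hv.smul (-1))
  rwa [neg_one_smul, ← sub_eq_add_neg] at h

/-- the relation between the coefficients at neighbouring sites -/
theorem coeff_rel (i0 : Fin d) {K : ℝ} {V : Sd d → ℝ} {h : Sd d → (Sd d → ℝ) × ℝ → ℂ} {E : ℝ}
    (e1 : Gen K h V E)
    (hPD : ∀ (m : ℤ) (n : ℕ) (p : Fin n → Sd d), Lay i0 m p → PD (MM h p (V, E)))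
    (hE : ∀ y, (2 * d + cl K (V y) : ℝ) ≠ E) {l : ℝ}
    {B : L2 d →L[ℂ] L2 d} (hB : ∀ x, B (HV K V x) = HV K V (B x) + (l : ℂ) • B x)
    {g : Sd d → ℂ} (hg : ∀ x, Ngl (HV K V) E (B (ee x) - g x • ee x)) (y j : Sd d)
    (hj : ∃ i : Fin d, j = y + Pi.single i 1 ∨ j = y - Pi.single i 1) :
    g j * (((2 * d + cl K (V y) : ℝ) : ℂ) - E) =
      (((2 * d + cl K (V y) : ℝ) : ℂ) - E - l) * g y := by
  have hsa := HV_sa K V
  set T := HV K V with hT
  set A : ℂ := ((2 * d + cl K (V y) : ℝ) : ℂ) with hA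
  have hAE : A - E ≠ 0 := by
    intro h0
    apply hE y
    rw [sub_eq_zero, hA] at h0
    exact_mod_cast h0
  set c : ℂ := (A - E - l) * g y / (A - E) with hc
  have hcA : c * (A - E) = (A - E - l) * g y := by
    rw [hc, div_mul_cancel₀ _ hAE]
  have hfs : FS (T (ee y)) := FS.HV (FS_ee y)
  set F := hfs.toFinset with hF
  have hrep : T (ee y) = ∑ x ∈ F, (T (ee y)) x • ee x := fin_sum fun j hj => by
    by_contra hne
    exact hj (hfs.mem_toFinset.2 hne)
  set a : Sd d → ℂ := fun x => (T (ee y)) x with ha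
  -- negligible vectors
  have n1 : Ngl T E (T (ee y) - (E : ℂ) • ee y) := qn_T hsa _ E
  have n2 : Ngl T E (T (B (ee y)) - (E : ℂ) • B (ee y)) := qn_T hsa _ E
  have n3 : Ngl T E (∑ x ∈ F, a x • (B (ee x) - g x • ee x)) :=
    Ngl.sum F fun x _ => (hg x).smul _
  have n4 : Ngl T E (((E : ℂ) + l) • (B (ee y) - g y • ee y)) := (hg y).smul _
  set u : L2 d := (∑ x ∈ F, (a x * g x) • (ee x : L2 d)) - (((E : ℂ) + l) * g y) • (ee y : L2 d) -
    c • (T (ee y) - (E : ℂ) • ee y) with hu
  have nu : Ngl T E u := by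
    have e : u = (T (B (ee y)) - (E : ℂ) • B (ee y)) -
        ∑ x ∈ F, a x • (B (ee x) - g x • ee x) +
        ((E : ℂ) + l) • (B (ee y) - g y • ee y) - c • (T (ee y) - (E : ℂ) • ee y) := by
      have h1 : T (B (ee y)) + (l : ℂ) • B (ee y) = ∑ x ∈ F, a x • B (ee x) := by
        rw [← hB]
        conv_lhs => rw [hrep]
        rw [map_sum]
        refine Finset.sum_congr rfl fun x _ => ?_
        rw [map_smul]
      have h2 : ∑ x ∈ F, a x • (B (ee x) - g x • ee x) = ∑ x ∈ F, a x • B (ee x) -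
          ∑ x ∈ F, (a x * g x) • ee x := by
        rw [← Finset.sum_sub_distrib]
        refine Finset.sum_congr rfl fun x _ => ?_
        rw [smul_sub, smul_smul]
      rw [hu, h2, ← h1, smul_sub ((E : ℂ) + l), smul_smul, add_smul]
      abel
    rw [e]
    exact ((n2.sub n3).add n4).sub (n1.smul c)
  have hufs : FS u := by
    refine FS_sub (FS_sub (FS.sum _ fun x _ => (FS_ee x).smul _) ((FS_ee y).smul _)) ?_
    exact (FS_sub (FS.HV (FS_ee y)) ((FS_ee y).smul _)).smul _
  have huj : ∀ j, u j = a j * g j - (((E : ℂ) + l) * g y) * (if j = y then 1 else 0) -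
      c * (a j - E * (if j = y then 1 else 0)) := by
    intro j
    have h0 : (∑ x ∈ F, (a x * g x) • (ee x : L2 d)) j = a j * g j := by
      have h1 : (∑ x ∈ F, (a x * g x) • (ee x : L2 d)) j =
        inner ℂ (ee j) (∑ x ∈ F, (a x * g x) • (ee x : L2 d)) := (inner_ee j _).symm
      rw [h1, inner_sum]
      simp only [inner_smul_right, inner_ee, ee_apply]
      simp only [mul_ite, mul_one, mul_zero, Finset.sum_ite_eq]
      split_ifs with hj
      · rfl
      · have : a j = 0 := by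
          by_contra hne
          exact hj (hfs.mem_toFinset.2 hne)
        rw [this, zero_mul]
    have h2 : u j = (∑ x ∈ F, (a x * g x) • (ee x : L2 d)) j -
        (((E : ℂ) + l) * g y) * (ee y : L2 d) j - c * (a j - E * (ee y : L2 d) j) := by
      rw [hu]
      rfl
    rw [h2, h0, ee_apply]
  have huy : u y = 0 := by
    rw [huj, if_pos rfl]
    have h0 : a y = A := HV_ee_self K V y
    rw [h0]
    linear_combination -hcA
  have hun : ∀ j, j ≠ y → u j = a j * (g j - c) := by
    intro j hj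
    rw [huj, if_neg hj]
    ring
  obtain ⟨v, hv, huv⟩ := kernel_zk i0 e1 hPD hufs nu
  have hnb : ∀ j, u j ≠ 0 → ∃ i : Fin d, j = y + Pi.single i 1 ∨ j = y - Pi.single i 1 := by
    intro j hj
    by_contra hcon
    push Not at hcon
    apply hj
    by_cases hjy : j = y
    · rw [hjy, huy]
    · rw [hun j hjy]
      have : a j = 0 := HV_ee_far K V y j hjy (fun i => (hcon i).1) (fun i => (hcon i).2)
      rw [this, zero_mul]
  have hu0 := kernel_nb hv huv y hnb (hE y)
  have h7 : g j = c := by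
    obtain ⟨i, hi | hi⟩ := hj
    · have hjy : j ≠ y := by rw [hi]; exact add_ne y i
      have h5 := hun j hjy
      rw [hu0] at h5
      have h6 : a j = -1 := by rw [ha, hi]; exact HV_ee_add K V y i
      rw [h6] at h5
      have h8 : (0 : ℂ) = -1 * (g j - c) := h5
      linear_combination h8
    · have hjy : j ≠ y := by rw [hi]; exact sub_ne y i
      have h5 := hun j hjy
      rw [hu0] at h5
      have h6 : a j = -1 := by rw [ha, hi]; exact HV_ee_sub K V y i
      rw [h6] at h5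
      have h8 : (0 : ℂ) = -1 * (g j - c) := h5
      linear_combination h8
  rw [h7]
  exact hcA

/-- one coefficient for all sites, which vanishes if the frequency is not zero -/
theorem per_VT (hd : 1 ≤ d) {K : ℝ} {V : Sd d → ℝ} (hV : ∀ x, |V x| ≤ K) {W : NB.UG (L2 d)}
    (hW : NB.IsGrp (-1) (fun x => 2 * d + V x) W) {B : L2 d →L[ℂ] L2 d} {l : ℝ}
    (hBc : ∀ t x, B (W.U t x) = ph l (-t) • W.U t (B x))
    (hF : ∀ z : Sd d, ∀ φ ∈ NBA.HAC W, (∀ t, ⟪φ, W.U t (ee z)⟫_ℂ = 0) → ⟪φ, B (ee z)⟫_ℂ = 0)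
    {h : Sd d → (Sd d → ℝ) × ℝ → ℂ} {Sg : Set ℝ}
    (h1 : ∀ᵐ E : ℝ, Gen K h V E)
    (h2 : ∀ᵐ E : ℝ, E ∈ Sg → ∀ (i0 : Fin d) (m : ℤ) (n : ℕ) (p : Fin n → Sd d), Lay i0 m p →
      PD (MM h p (V, E)))
    (h3 : ∀ᵐ E : ℝ, E ∉ Sg → ∀ x : Sd d, (h 0 (sh x V, E)).im ≤ 0) :
    ∀ᵐ E : ℝ, (∃ g : ℂ, (l ≠ 0 → g = 0) ∧ ∀ x, Ngl (HV K V) E (B (ee x) - g • ee x)) ∧
      (E ∉ Sg → ∀ x, Ngl (HV K V) E (B (ee x))) ∧
      (E ∈ Sg → ∀ x, ∃ a : ℝ, 0 < a ∧
        Tendsto (fun k => qn (HV K V) (zk k E) (ee x)) atTop (𝓝 a)) := by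
  have hUE : ∀ t u, W.U t u = Ex (HV K V) t u := fun t u => grp_Ex hV hW t u
  have hBT : ∀ x, B (HV K V x) = HV K V (B x) + (l : ℂ) • B x :=
    twist_of_Ex fun t x => by rw [← hUE, hBc, hUE]
  have h4 : ∀ᵐ E : ℝ, ∀ x : Sd d, ∃ g : ℂ, Ngl (HV K V) E (B (ee x) - g • ee x) :=
    ae_all_iff.2 fun x => fib_siteT hV hW (B (ee x)) (ee x) (hF x)
  have h5 : ∀ᵐ E : ℝ, ∀ y : Sd d, (2 * d + cl K (V y) : ℝ) ≠ E := by
    rw [ae_all_iff]
    intro y
    have : ∀ᵐ E : ℝ, E ∉ ({(2 * d + cl K (V y) : ℝ)} : Set ℝ) :=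
      (Set.countable_singleton _).ae_notMem volume
    filter_upwards [this] with E hE hE2
    exact hE hE2.symm
  have h6 : ∀ᵐ E : ℝ, ∀ x y : Sd d,
      (2 * d + cl K (V x) : ℝ) + (2 * d + cl K (V y)) - 2 * E ≠ l := by
    rw [ae_all_iff]
    intro x
    rw [ae_all_iff]
    intro y
    have : ∀ᵐ E : ℝ, E ∉ ({((2 * d + cl K (V x) : ℝ) + (2 * d + cl K (V y)) - l) / 2} : Set ℝ) :=
      (Set.countable_singleton _).ae_notMem volume
    filter_upwards [this] with E hE hE2
    apply hE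
    rw [Set.mem_singleton_iff]
    linarith
  filter_upwards [h1, h2, h3, h4, h5, h6] with E e1 e2 e3 e4 e5 e6
  have hnot : E ∉ Sg → ∀ x, Ngl (HV K V) E (ee x) := by
    intro hE x
    have t1 : Tendsto (fun k => inner ℂ (ee x) (Rz (HV K V) (zk k E) (ee x))) atTop
        (𝓝 (h 0 (sh x V, E))) := by
      have := e1 x x
      rw [sub_self] at this
      refine this.congr fun k => ?_
      exact GG_inner K V _ x x
    have t2 := qn_lim (HV_sa K V) t1
    rwa [Real.sqrt_eq_zero_of_nonpos (e3 hE x)] at t2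
  have hnotB : E ∉ Sg → ∀ x, Ngl (HV K V) E (B (ee x)) := by
    intro hE x
    obtain ⟨g, hg⟩ := e4 x
    have := hg.add ((hnot hE x).smul g)
    rwa [sub_add_cancel] at this
  have hin : E ∈ Sg → ∀ x, ∃ a : ℝ, 0 < a ∧
        Tendsto (fun k => qn (HV K V) (zk k E) (ee x)) atTop (𝓝 a) := by
    intro hE x
    have t1 : Tendsto (fun k => inner ℂ (ee x) (Rz (HV K V) (zk k E) (ee x))) atTop
        (𝓝 (h 0 (sh x V, E))) := by
      have := e1 x x
      rw [sub_self] at this
      refine this.congr fun k => ?_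
      exact GG_inner K V _ x x
    have t2 := qn_lim (HV_sa K V) t1
    refine ⟨_, ?_, t2⟩
    apply Real.sqrt_pos.2
    by_contra hcon
    push Not at hcon
    rw [Real.sqrt_eq_zero_of_nonpos hcon] at t2
    have hlay : Lay (⟨0, hd⟩ : Fin d) (x ⟨0, hd⟩) (fun _ : Fin 1 => x) :=
      ⟨fun a b _ => Subsingleton.elim a b, fun _ => Or.inl rfl⟩
    have h6 := PD_zero e1 (e2 hE _ _ 1 _ hlay) (s := fun _ => 1) (by simpa using t2) 0
    exact one_ne_zero h6
  refine ⟨?_, hnotB, hin⟩
  by_cases hE : E ∈ Sg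
  · choose g hg using e4
    have hrel := coeff_rel (l := l) ⟨0, hd⟩ e1 (fun m n p hp => e2 hE _ m n p hp) e5 hBT hg
    by_cases hl : l = 0
    · -- all coefficients agree
      have hgc : ∀ x, g x = g 0 := by
        intro x
        apply const_of_step
        intro y i
        have h7 := hrel y (y + Pi.single i 1) ⟨i, Or.inl rfl⟩
        rw [hl, Complex.ofReal_zero, sub_zero, mul_comm] at h7
        refine mul_left_cancel₀ ?_ h7
        intro h0
        apply e5 y
        rw [sub_eq_zero] at h0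
        exact_mod_cast h0
      refine ⟨g 0, fun h => absurd hl h, fun x => ?_⟩
      rw [← hgc x]
      exact hg x
    · -- all coefficients vanish
      have hg0 : ∀ x, g x = 0 := by
        intro x
        set y : Sd d := x + Pi.single ⟨0, hd⟩ 1 with hy
        have h7 := hrel y x ⟨⟨0, hd⟩, Or.inr (by rw [hy]; simp)⟩
        have h8 := hrel x y ⟨⟨0, hd⟩, Or.inl rfl⟩
        set A : ℂ := ((2 * d + cl K (V x) : ℝ) : ℂ) - E with hA
        set A' : ℂ := ((2 * d + cl K (V y) : ℝ) : ℂ) - E with hA'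
        have h9 : g x * (l * (A + A' - l)) = 0 := by
          linear_combination A * h7 + (A' - l) * h8
        have h10 : (l : ℂ) * (A + A' - l) ≠ 0 := by
          refine mul_ne_zero (by exact_mod_cast hl) ?_
          intro h0
          apply e6 x y
          have h11 : (((2 * d + cl K (V x) : ℝ) + (2 * d + cl K (V y)) - 2 * E - l : ℝ) : ℂ) =
              0 := by
            rw [← h0, hA, hA']
            push_cast
            ring
          have h12 : ((2 * d + cl K (V x) : ℝ) + (2 * d + cl K (V y)) - 2 * E - l : ℝ) = 0 := by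
            exact_mod_cast h11
          linarith
        exact (mul_eq_zero.1 h9).resolve_right h10
      refine ⟨0, fun _ => rfl, fun x => ?_⟩
      rw [← hg0 x]
      exact hg x
  · refine ⟨0, fun _ => rfl, fun x => ?_⟩
    rw [zero_smul, sub_zero]
    exact hnotB hE x

end Pool.Agent.L7h83.WM
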