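import Pool.Agent.L7h83.WM.Mix
import Pool.Agent.L7h83.WM.Fib2

/-! # The fibre coefficient of a twisted observable vanishes -/

set_option autoImplicit false

open MeasureTheory Filter Topology Set
open scoped ENNReal NNReal InnerProductSpace

namespace Pool.Agent.L7h83.WM

open Pool.Agent.TH980.IM Pool.Agent.H5R2 Pool.Agent.Y662.ERG
open Pool.Agent.H12R2.And (Rz isUnit_sub sub_Rz im_inner norm_Rz_le diff_inner diff_Rz)
open Pool.Agent.TH980.IM.PR

variable {d : ℕ}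

/-- the numerator of the coefficient -/
noncomputable def nmC (K : ℝ) (b : (Sd d → ℝ) → L2 d) (k : ℕ) (q : (Sd d → ℝ) × ℝ) : ℂ :=
  (((zk k q.2).im : ℝ) : ℂ) *
    inner ℂ (Rz (HV K q.1) (zk k q.2) (ee 0)) (Rz (HV K q.1) (zk k q.2) (b q.1))

theorem nmC_meas (K : ℝ) {b : (Sd d → ℝ) → L2 d} (hb : StronglyMeasurable b) (k : ℕ) :
    Measurable (nmC K b k) := by
  have h1 : Measurable (fun q : (Sd d → ℝ) × ℝ =>
      inner ℂ (Rz (HV K q.1) (zk k q.2) (ee 0)) (Rz (HV K q.1) (zk k q.2) (b q.1))) := by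
    refine meas_gen (F := fun V E => inner ℂ (Rz (HV K V) (zk k E) (ee 0))
      (Rz (HV K V) (zk k E) (b V))) (fun V => ?_) fun E => ?_
    · rw [continuous_iff_continuousAt]
      intro E
      have h2 : ∀ u : L2 d, ContinuousAt (fun E : ℝ => Rz (HV K V) (zk k E) u) E := by
        intro u
        have h2 : ContinuousAt (fun z => Rz (HV K V) z u) (zk k E) :=
          ((diff_Rz (HV_sa K V) (zk_im_pos k E).ne').clm_apply
            (differentiableAt_const _)).continuousAt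
        exact ContinuousAt.comp (f := fun E : ℝ => zk k E) h2 (continuous_zk k).continuousAt
      exact ContinuousAt.inner (h2 (ee 0)) (h2 (b V))
    · exact inner_sm K (zk_im_pos k E) hb
  unfold nmC
  refine Measurable.mul ?_ h1
  exact Complex.measurable_ofReal.comp
    ((Complex.continuous_im.comp ((continuous_zk k))).measurable.comp measurable_snd)

/-- the limit of the numerator -/
theorem nmC_lim {X : Type} [NormedAddCommGroup X] [InnerProductSpace ℂ X] [CompleteSpace X]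
    {T : X →L[ℂ] X} {E : ℝ} {u w : X} {g : ℂ} {a : ℝ}
    (hu : Tendsto (fun k => qn T (zk k E) u) atTop (𝓝 a)) (h : Ngl T E (w - g • u)) :
    Tendsto (fun k => (((zk k E).im : ℝ) : ℂ) *
      inner ℂ (Rz T (zk k E) u) (Rz T (zk k E) w)) atTop (𝓝 (g * ((a ^ 2 : ℝ) : ℂ))) := by
  have h1 : Tendsto (fun k => (((zk k E).im : ℝ) : ℂ) *
      inner ℂ (Rz T (zk k E) u) (Rz T (zk k E) (w - g • u))) atTop (𝓝 0) := by
    have h2 := hu.mul h
    rw [mul_zero] at h2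
    refine squeeze_zero_norm (fun k => ?_) h2
    have hz := zk_im_pos k E
    rw [norm_mul, Complex.norm_real, Real.norm_of_nonneg hz.le]
    unfold qn
    calc (zk k E).im * ‖inner ℂ (Rz T (zk k E) u) (Rz T (zk k E) (w - g • u))‖
        ≤ (zk k E).im * (‖Rz T (zk k E) u‖ * ‖Rz T (zk k E) (w - g • u)‖) :=
          mul_le_mul_of_nonneg_left (norm_inner_le_norm _ _) hz.le
      _ = (Real.sqrt (zk k E).im * Real.sqrt (zk k E).im) *
          (‖Rz T (zk k E) u‖ * ‖Rz T (zk k E) (w - g • u)‖) := by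
          rw [Real.mul_self_sqrt hz.le]
      _ = _ := by ring
  have h4 : Tendsto (fun k => g * (((qn T (zk k E) u) ^ 2 : ℝ) : ℂ)) atTop
      (𝓝 (g * ((a ^ 2 : ℝ) : ℂ))) :=
    (((Complex.continuous_ofReal.tendsto _).comp (hu.pow 2))).const_mul g
  have h5 := h1.add h4
  rw [zero_add] at h5
  refine h5.congr fun k => ?_
  have hz := zk_im_pos k E
  have e1 : w = (w - g • u) + g • u := by abel
  conv_rhs => rw [e1]
  have e2 : (inner ℂ (Rz T (zk k E) u) (Rz T (zk k E) u) : ℂ) =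
      ((‖Rz T (zk k E) u‖ ^ 2 : ℝ) : ℂ) := by
    rw [inner_self_eq_norm_sq_to_K]
    push_cast
    rfl
  rw [map_add, inner_add_right, map_smul, inner_smul_right, e2, mul_add]
  congr 1
  unfold qn
  rw [mul_pow, Real.sq_sqrt hz.le]
  push_cast
  ring

/-- **the coefficient vanishes** -/
theorem det_coreT (hd : 1 ≤ d) {K : ℝ} {ν : Measure ℝ} [IsProbabilityMeasure ν]
    {Sg : Set ℝ} (hSg : MeasurableSet Sg)
    {χ : Sd d → ℂ} (hχ1 : ∀ z, ‖χ z‖ = 1) (hχm : ∀ z z', χ (z + z') = χ z * χ z') {z0 : Sd d}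
    (hz0 : χ z0 ≠ 1)
    (b : (Sd d → ℝ) → L2 d) (hb : AEStronglyMeasurable b (PP (Sd d) ν))
    (Bop : (Sd d → ℝ) → L2 d →L[ℂ] L2 d)
    (hB4 : ∀ᵐ ω ∂(PP (Sd d) ν), ∀ (z : Sd d) (S : L2 d →L[ℂ] L2 d), NB.IsShift (-z) S →
      Bop ω (ee z) = (χ z)⁻¹ • S (b (sh z ω)))
    (hB5 : ∀ᵐ ω ∂(PP (Sd d) ν), ∀ᵐ E : ℝ,
      (∃ g : ℂ, ∀ x, Ngl (HV K ω) E (Bop ω (ee x) - g • ee x)) ∧
      (E ∉ Sg → ∀ x, Ngl (HV K ω) E (Bop ω (ee x))) ∧
      (E ∈ Sg → ∀ x, ∃ a : ℝ, 0 < a ∧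
        Tendsto (fun k => qn (HV K ω) (zk k E) (ee x)) atTop (𝓝 a))) :
    ∀ᵐ ω ∂(PP (Sd d) ν), ∀ᵐ E : ℝ, ∀ x, Ngl (HV K ω) E (Bop ω (ee x)) := by
  haveI : IsProbabilityMeasure (PP (Sd d) ν) := by unfold PP; infer_instance
  have hne : ∀ z, χ z ≠ 0 := fun z h0 => by
    have := hχ1 z
    rw [h0, norm_zero] at this
    exact zero_ne_one this
  have hχ0 : χ 0 = 1 := by
    have := hχm 0 0
    rw [add_zero] at this
    exact mul_left_cancel₀ (hne 0) (by rw [mul_one]; exact this.symm)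
  obtain ⟨b', hb', hbb⟩ := hb
  -- the approximations
  set F : ℕ → (Sd d → ℝ) × ℝ → ℂ := fun k => {q : (Sd d → ℝ) × ℝ | q.2 ∈ Sg}.indicator
    (fun q => nmC K b' k q / (((GG K q.1 (zk k q.2) 0 0).im : ℝ) : ℂ)) with hF
  have hSgm : MeasurableSet {q : (Sd d → ℝ) × ℝ | q.2 ∈ Sg} := measurable_snd hSg
  have hFm : ∀ k, Measurable (F k) := fun k =>
    ((nmC_meas K hb' k).div (Complex.measurable_ofReal.comp
      (Complex.measurable_im.comp (GG_meas K k 0 0)))).indicator hSgm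
  have hb0 : ∀ᵐ ω ∂(PP (Sd d) ν), Bop ω (ee 0) = b' ω := by
    filter_upwards [hB4, hbb] with ω h1 h2
    have h3 := h1 0 (ContinuousLinearMap.id ℂ (L2 d)) (fun ψ x => by
      show ψ x = ψ (x + -0)
      rw [neg_zero, add_zero])
    have h4 : sh (0 : Sd d) ω = ω := by funext y; simp [sh]
    rw [h4, hχ0, inv_one, one_smul] at h3
    rw [h3, ← h2]
    rfl
  -- convergence
  have hconv : ∀ᵐ ω ∂(PP (Sd d) ν), ∀ᵐ E : ℝ, ∃ r : ℂ, Tendsto (fun k => F k (ω, E)) atTop (𝓝 r) ∧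
      (E ∈ Sg → ∀ x, Ngl (HV K ω) E (Bop ω (ee x) - r • ee x)) := by
    filter_upwards [hB5, hb0] with ω h4 h5
    filter_upwards [h4] with E ⟨⟨g, hg⟩, e2, e3⟩
    by_cases hE : E ∈ Sg
    · obtain ⟨a, ha, hta⟩ := e3 hE 0
      have hlim := nmC_lim hta (hg 0)
      refine ⟨g, ?_, fun _ x => hg x⟩
      have hac : (((a ^ 2 : ℝ)) : ℂ) ≠ 0 := by
        have : a ^ 2 ≠ 0 := by positivity
        exact_mod_cast this
      have h6 := hlim.div ((Complex.continuous_ofReal.tendsto _).comp (hta.pow 2)) hac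
      have h7 : g * ((a ^ 2 : ℝ) : ℂ) / ((a ^ 2 : ℝ) : ℂ) = g := mul_div_cancel_right₀ _ hac
      rw [h7] at h6
      refine h6.congr fun k => ?_
      rw [hF]
      simp only [Pi.div_apply]
      rw [indicator_of_mem (show (ω, E) ∈ {q : (Sd d → ℝ) × ℝ | q.2 ∈ Sg} from hE)]
      unfold nmC
      simp only [Function.comp]
      rw [qn_sq (HV_sa K ω) (zk_im_pos k E), h5, GG_inner]
    · refine ⟨0, ?_, fun h => absurd h hE⟩
      refine tendsto_const_nhds.congr fun k => ?_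
      rw [hF]
      simp only
      rw [indicator_of_notMem (show (ω, E) ∉ {q : (Sd d → ℝ) × ℝ | q.2 ∈ Sg} from hE)]
  -- the measurable limit
  obtain ⟨G, hGm, hG⟩ : ∃ G : (Sd d → ℝ) × ℝ → ℂ, Measurable G ∧
      ∀ᵐ q ∂((PP (Sd d) ν).prod volume), Tendsto (fun k => F k q) atTop (𝓝 (G q)) := by
    apply measurable_limit_of_tendsto_metrizable_ae
    · intro k
      exact (hFm k).aemeasurable
    · have hm : MeasurableSet {q : (Sd d → ℝ) × ℝ |
          ∃ l : ℂ, Tendsto (fun k => F k q) atTop (𝓝 l)} :=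
        measurableSet_exists_tendsto fun k => hFm k
      have h1 : ∀ᵐ V ∂(PP (Sd d) ν), ∀ᵐ E : ℝ, (V, E) ∈ {q : (Sd d → ℝ) × ℝ |
          ∃ l : ℂ, Tendsto (fun k => F k q) atTop (𝓝 l)} := by
        filter_upwards [hconv] with V hV
        filter_upwards [hV] with E ⟨r, hr, _⟩
        exact ⟨r, hr⟩
      exact (Measure.ae_prod_mem_iff_ae_ae_mem hm).2 h1
  have hGa := Measure.ae_ae_of_ae_prod hG
  have hQ : ∀ᵐ ω ∂(PP (Sd d) ν), ∀ᵐ E : ℝ,
      (E ∈ Sg → ∀ x, Ngl (HV K ω) E (Bop ω (ee x) - G (ω, E) • ee x)) := by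
    filter_upwards [hconv, hGa] with ω h1 h2
    filter_upwards [h1, h2] with E ⟨r, hr1, hr2⟩ e2
    have := tendsto_nhds_unique e2 hr1
    rw [this]
    exact hr2
  -- translation covariance
  have hinv0 : ∀ᵐ ω ∂(PP (Sd d) ν), ∀ᵐ E : ℝ, ∀ z, E ∈ Sg →
      G (sh z ω, E) = χ z * G (ω, E) := by
    have hQs : ∀ᵐ ω ∂(PP (Sd d) ν), ∀ z : Sd d, (∀ᵐ E : ℝ,
        (E ∈ Sg → ∀ x, Ngl (HV K (sh z ω)) E
          (Bop (sh z ω) (ee x) - G (sh z ω, E) • ee x))) ∧
        Bop (sh z ω) (ee 0) = b' (sh z ω) ∧ b (sh z ω) = b' (sh z ω) := by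
      rw [ae_all_iff]
      intro z
      refine (mp_sh ν z).quasiMeasurePreserving.ae
        (p := fun ω => (∀ᵐ E : ℝ, (E ∈ Sg → ∀ x, Ngl (HV K ω) E
          (Bop ω (ee x) - G (ω, E) • ee x))) ∧
        Bop ω (ee 0) = b' ω ∧ b ω = b' ω) ?_
      filter_upwards [hQ, hb0, hbb] with ω h1 h2 h3
      exact ⟨h1, h2, h3⟩
    filter_upwards [hQ, hQs, hB4, hB5] with ω h1 h2 h3 h4
    rw [ae_all_iff]
    intro z
    obtain ⟨h5, h6, h7⟩ := h2 z
    filter_upwards [h1, h5, h4] with E e1 e2 e3 hE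
    obtain ⟨S, hS⟩ := (NB.t_OPS d).1 (-z)
    have h8 := Ngl.shift hS (e2 hE 0)
    have h11 : S (b (sh z ω)) = χ z • Bop ω (ee z) := by
      rw [h3 z S hS, smul_smul, mul_inv_cancel₀ (hne z), one_smul]
    rw [map_sub, map_smul, h6, ← h7, h11] at h8
    have h9 : S (ee 0) = ee z := NB.LIMB.shift_dl z S hS
    rw [h9] at h8
    obtain ⟨a, ha, hta⟩ := e3.2.2 hE z
    have h12 := (e1 hE z).smul (χ z)
    rw [smul_sub, smul_smul] at h12
    exact unique_of_ngl ha hta h8 h12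
  have hinv : ∀ᵐ E : ℝ, E ∈ Sg → ∀ᵐ ω ∂(PP (Sd d) ν), ∀ z, G (sh z ω, E) = χ z * G (ω, E) := by
    have hm : MeasurableSet {q : (Sd d → ℝ) × ℝ | ∀ z, q.2 ∈ Sg →
        G (sh z q.1, q.2) = χ z * G (q.1, q.2)} := by
      rw [setOf_forall]
      refine MeasurableSet.iInter fun z => ?_
      have h1 : MeasurableSet {q : (Sd d → ℝ) × ℝ | G (sh z q.1, q.2) = χ z * G (q.1, q.2)} :=
        measurableSet_eq_fun (hGm.comp (((meas_sh z).comp measurable_fst).prodMk measurable_snd))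
          ((hGm.comp (measurable_fst.prodMk measurable_snd)).const_mul _)
      have h2 : {q : (Sd d → ℝ) × ℝ | q.2 ∈ Sg → G (sh z q.1, q.2) = χ z * G (q.1, q.2)} =
          {q : (Sd d → ℝ) × ℝ | q.2 ∈ Sg}ᶜ ∪ {q | G (sh z q.1, q.2) = χ z * G (q.1, q.2)} := by
        ext q
        simp only [mem_setOf_eq, mem_union, mem_compl_iff]
        tauto
      rw [h2]
      exact hSgm.compl.union h1
    have h1 : ∀ᵐ q ∂((PP (Sd d) ν).prod volume), q ∈ {q : (Sd d → ℝ) × ℝ | ∀ z, q.2 ∈ Sg →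
        G (sh z q.1, q.2) = χ z * G (q.1, q.2)} := (Measure.ae_prod_mem_iff_ae_ae_mem hm).2 hinv0
    filter_upwards [ae_swap h1] with E hE hES
    filter_upwards [hE] with ω hω z
    exact hω z hES
  have hzero : ∀ᵐ E : ℝ, E ∈ Sg → ∀ᵐ ω ∂(PP (Sd d) ν), G (ω, E) = 0 := by
    filter_upwards [hinv] with E hE hES
    exact eig_zero hd ν hχ1 hχm hz0 (G := fun ω => G (ω, E))
      (hGm.comp (measurable_id.prodMk measurable_const)) (hE hES)
  have hzero2 : ∀ᵐ ω ∂(PP (Sd d) ν), ∀ᵐ E : ℝ, E ∈ Sg → G (ω, E) = 0 := by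
    have hm : MeasurableSet {q : ℝ × (Sd d → ℝ) | q.1 ∈ Sg → G (q.2, q.1) = 0} := by
      have h1 : MeasurableSet {q : ℝ × (Sd d → ℝ) | G (q.2, q.1) = 0} :=
        measurableSet_eq_fun (hGm.comp (measurable_snd.prodMk measurable_fst)) measurable_const
      have h2 : {q : ℝ × (Sd d → ℝ) | q.1 ∈ Sg → G (q.2, q.1) = 0} =
          {q : ℝ × (Sd d → ℝ) | q.1 ∈ Sg}ᶜ ∪ {q | G (q.2, q.1) = 0} := by
        ext q
        simp only [mem_setOf_eq, mem_union, mem_compl_iff]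
        tauto
      rw [h2]
      exact (measurable_fst hSg).compl.union h1
    have h1 : ∀ᵐ E : ℝ, ∀ᵐ ω ∂(PP (Sd d) ν), (E, ω) ∈
        {q : ℝ × (Sd d → ℝ) | q.1 ∈ Sg → G (q.2, q.1) = 0} := by
      filter_upwards [hzero] with E hE
      by_cases hES : E ∈ Sg
      · filter_upwards [hE hES] with ω hω _
        exact hω
      · exact ae_of_all _ fun ω h => absurd h hES
    have h2 := (Measure.ae_prod_mem_iff_ae_ae_mem hm).2 h1
    have h3 := (Measure.measurePreserving_swap (μ := PP (Sd d) ν)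
      (ν := (volume : Measure ℝ))).quasiMeasurePreserving.ae h2
    exact Measure.ae_ae_of_ae_prod h3
  filter_upwards [hQ, hzero2, hB5] with ω h1 h2 h3
  filter_upwards [h1, h2, h3] with E e1 e2 e3 x
  by_cases hES : E ∈ Sg
  · have h4 := e1 hES x
    rw [e2 hES, zero_smul, sub_zero] at h4
    exact h4
  · exact e3.2.1 hES x

end Pool.Agent.L7h83.WM
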