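import Pool.Agent.L7h83.WM.Lc

/-! # Local observables are dense in mean square -/

set_option autoImplicit false

open MeasureTheory Filter Topology
open scoped BigOperators ENNReal NNReal InnerProductSpace ComplexConjugate

namespace Pool.Agent.L7h83.WM

open Pool.Agent.TH980.IM Pool.Agent.H5R2 Pool.Agent.Y662.ERG Pool.Agent.R988

variable {d : ℕ}

theorem enorm_sq_le {E : Type} [SeminormedAddCommGroup E] (a b : E) :
    ‖a + b‖ₑ ^ 2 ≤ 2 * ‖a‖ₑ ^ 2 + 2 * ‖b‖ₑ ^ 2 := by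
  have h1 : ‖a + b‖ ^ 2 ≤ 2 * ‖a‖ ^ 2 + 2 * ‖b‖ ^ 2 := by
    have h2 : ‖a + b‖ ^ 2 ≤ (‖a‖ + ‖b‖) ^ 2 :=
      pow_le_pow_left₀ (norm_nonneg _) (norm_add_le _ _) 2
    nlinarith [sq_nonneg (‖a‖ - ‖b‖)]
  have e : ∀ x : E, ‖x‖ₑ ^ 2 = ENNReal.ofReal (‖x‖ ^ 2) := fun x => by
    rw [← ofReal_norm, ENNReal.ofReal_pow (norm_nonneg _)]
  have e2 : (2 : ℝ≥0∞) = ENNReal.ofReal 2 := by simp
  rw [e, e, e, e2, ← ENNReal.ofReal_mul (by norm_num), ← ENNReal.ofReal_mul (by norm_num),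
    ← ENNReal.ofReal_add (by positivity) (by positivity)]
  exact ENNReal.ofReal_le_ofReal h1

variable {ν : Measure ℝ} [IsProbabilityMeasure ν]

/-- approximation by a bounded continuous function of finitely many coordinates -/
theorem exists_cyl (g : (NB.Site d → ℝ) → ℂ) (hg : StronglyMeasurable g) (C : ℝ)
    (hC : ∀ V, ‖g V‖ ≤ C) (ε : ℝ≥0∞) (hε : 0 < ε) :
    ∃ (φ : (NB.Site d → ℝ) → ℂ) (R : ℝ), (∀ V, ‖φ V‖ ≤ 1) ∧ Continuous φ ∧
      (∃ D : Finset (NB.Site d), ∀ V V', (∀ x ∈ D, V x = V' x) → φ V = φ V') ∧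
      ∫⁻ V, ‖g V - (R : ℂ) * φ V‖ₑ ^ 2 ∂(NB.PP d ν) ≤ ε := by
  classical
  have hPP : IsProbabilityMeasure (NB.PP d ν) := by unfold NB.PP; infer_instance
  have hmem : MemLp g 2 (NB.PP d ν) :=
    MemLp.of_bound hg.aestronglyMeasurable C (Eventually.of_forall hC)
  obtain ⟨δ, hδ0, hδ⟩ : ∃ δ : ℝ≥0∞, 0 < δ ∧ 4 * δ ≤ ε ∧ δ ≤ 1 := by
    refine ⟨min (ε / 4) 1, lt_min (ENNReal.div_pos hε.ne' (by norm_num)) (by norm_num), ?_,
      min_le_right _ _⟩
    calc 4 * min (ε / 4) 1 ≤ 4 * (ε / 4) := by gcongr; exact min_le_left _ _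
      _ = ε := ENNReal.mul_div_cancel (by norm_num) (by norm_num)
  obtain ⟨f, hf1, hf2⟩ := hmem.exists_boundedContinuous_eLpNorm_sub_le (by norm_num)
    (ε := δ) hδ0.ne'
  have hsq : ∫⁻ V, ‖g V - f V‖ₑ ^ 2 ∂(NB.PP d ν) ≤ δ := by
    have h1 := eLpNorm_nnreal_pow_eq_lintegral (μ := NB.PP d ν) (f := g - (f : (NB.Site d → ℝ) → ℂ))
      (p := 2) (by norm_num)
    have h2 : ∫⁻ V, ‖g V - f V‖ₑ ^ 2 ∂(NB.PP d ν) =
        eLpNorm (g - (f : (NB.Site d → ℝ) → ℂ)) 2 (NB.PP d ν) ^ 2 := by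
      have h3 : (eLpNorm (g - (f : (NB.Site d → ℝ) → ℂ)) 2 (NB.PP d ν)) ^ 2 =
          (eLpNorm (g - (f : (NB.Site d → ℝ) → ℂ)) ((2 : ℝ≥0) : ℝ≥0∞) (NB.PP d ν)) ^
            (((2 : ℝ≥0) : ℝ)) := by
        rw [← ENNReal.rpow_natCast]
        norm_num
      rw [h3, h1]
      refine lintegral_congr fun V => ?_
      rw [← ENNReal.rpow_natCast]
      norm_num
    rw [h2]
    calc eLpNorm (g - (f : (NB.Site d → ℝ) → ℂ)) 2 (NB.PP d ν) ^ 2 ≤ δ ^ 2 := by gcongr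
      _ = δ * δ := sq δ
      _ ≤ δ * 1 := by gcongr; exact hδ.2
      _ = δ := mul_one δ
  -- cut off
  set cut : Finset (NB.Site d) → (NB.Site d → ℝ) → (NB.Site d → ℝ) :=
    fun D V x => if x ∈ D then V x else 0 with hcut
  have hcutc : ∀ D, Continuous (cut D) := by
    intro D
    refine continuous_pi fun x => ?_
    by_cases hx : x ∈ D
    · simp only [hcut, if_pos hx]
      exact continuous_apply x
    · simp only [hcut, if_neg hx]
      exact continuous_const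
  have hcutt : ∀ V, Tendsto (fun D => cut D V) atTop (𝓝 V) := by
    intro V
    rw [tendsto_pi_nhds]
    intro x
    refine tendsto_const_nhds.congr' ?_
    filter_upwards [eventually_ge_atTop {x}] with D hD
    simp only [hcut]
    rw [if_pos (hD (Finset.mem_singleton_self x))]
  have hlim : Tendsto (fun D : Finset (NB.Site d) => ∫⁻ V, ‖f V - f (cut D V)‖ₑ ^ 2 ∂(NB.PP d ν))
      atTop (𝓝 (∫⁻ _V, 0 ∂(NB.PP d ν))) := by
    refine tendsto_lintegral_filter_of_dominated_convergence'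
      (fun _ => ENNReal.ofReal ((2 * ‖f‖) ^ 2)) (Eventually.of_forall fun D => ?_)
      (Eventually.of_forall fun D => Eventually.of_forall fun V => ?_) ?_
      (Eventually.of_forall fun V => ?_)
    · exact ((f.continuous.sub (f.continuous.comp (hcutc D))).enorm.measurable.pow_const
        2).aemeasurable
    · have h1 : ‖f V - f (cut D V)‖ ≤ 2 * ‖f‖ := by
        refine (norm_sub_le _ _).trans ?_
        linarith [f.norm_coe_le_norm V, f.norm_coe_le_norm (cut D V)]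
      rw [← ofReal_norm, ← ENNReal.ofReal_pow (norm_nonneg _)]
      exact ENNReal.ofReal_le_ofReal (pow_le_pow_left₀ (norm_nonneg _) h1 2)
    · rw [lintegral_const]
      exact ENNReal.mul_ne_top ENNReal.ofReal_ne_top (measure_ne_top _ _)
    · have h1 : Tendsto (fun D => f V - f (cut D V)) atTop (𝓝 0) := by
        have := ((f.continuous.tendsto V).comp (hcutt V)).const_sub (f V)
        simpa using this
      have h2 := h1.enorm
      rw [enorm_zero] at h2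
      have h3 := ((ENNReal.continuous_pow 2).tendsto 0).comp h2
      simpa [Function.comp_def] using h3
  rw [lintegral_zero] at hlim
  obtain ⟨D, hD⟩ := (hlim.eventually (gt_mem_nhds hδ0)).exists
  set R : ℝ := ‖f‖ + 1 with hR
  have hR0 : 0 < R := by positivity
  have hRC : (R : ℂ) ≠ 0 := by exact_mod_cast hR0.ne'
  refine ⟨fun V => (R : ℂ)⁻¹ * f (cut D V), R, fun V => ?_, ?_, ⟨D, fun V V' h => ?_⟩, ?_⟩
  · rw [norm_mul, norm_inv, Complex.norm_real, Real.norm_eq_abs, abs_of_pos hR0,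
      inv_mul_le_one₀ hR0]
    linarith [f.norm_coe_le_norm (cut D V)]
  · exact continuous_const.mul (f.continuous.comp (hcutc D))
  · have e : cut D V = cut D V' := by
      funext x
      simp only [hcut]
      by_cases hx : x ∈ D
      · rw [if_pos hx, if_pos hx, h x hx]
      · rw [if_neg hx, if_neg hx]
    show (R : ℂ)⁻¹ * f (cut D V) = (R : ℂ)⁻¹ * f (cut D V')
    rw [e]
  · have h1 : ∀ V, g V - (R : ℂ) * ((R : ℂ)⁻¹ * f (cut D V)) =
        (g V - f V) + (f V - f (cut D V)) := by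
      intro V
      rw [← mul_assoc, mul_inv_cancel₀ hRC, one_mul]
      ring
    have m1 : Measurable fun V => 2 * ‖g V - f V‖ₑ ^ 2 :=
      (((hg.sub f.continuous.stronglyMeasurable).enorm).pow_const 2).const_mul 2
    calc ∫⁻ V, ‖g V - (R : ℂ) * ((R : ℂ)⁻¹ * f (cut D V))‖ₑ ^ 2 ∂(NB.PP d ν)
        ≤ ∫⁻ V, (2 * ‖g V - f V‖ₑ ^ 2 + 2 * ‖f V - f (cut D V)‖ₑ ^ 2) ∂(NB.PP d ν) := by
          refine lintegral_mono fun V => ?_
          rw [h1]
          exact enorm_sq_le _ _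
      _ = 2 * (∫⁻ V, ‖g V - f V‖ₑ ^ 2 ∂(NB.PP d ν)) +
          2 * ∫⁻ V, ‖f V - f (cut D V)‖ₑ ^ 2 ∂(NB.PP d ν) := by
          rw [lintegral_add_left m1, lintegral_const_mul' _ _ (by norm_num),
            lintegral_const_mul' _ _ (by norm_num)]
      _ ≤ 2 * δ + 2 * δ := by gcongr
      _ = 4 * δ := by ring
      _ ≤ ε := hδ.1

variable {A A' : NQ.OF d} {C : ℝ}

/-- local observables with given coefficients at the origin -/
theorem exists_fin (φ : NB.Site d → (NB.Site d → ℝ) → ℂ) (R : NB.Site d → ℝ)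
    (h : ∀ x V, ‖φ x V‖ ≤ 1) (hc : ∀ x, Continuous (φ x))
    (hφ : ∀ x, ∃ D : Finset (NB.Site d), ∀ V V', (∀ y ∈ D, V y = V' y) → φ x V = φ x V')
    (F : Finset (NB.Site d)) :
    ∃ (v w : (NB.Site d → ℝ) → L2 d →L[ℂ] L2 d) (M : ℝ), ObsT d (fun _ => 1) v w M ∧
      ∀ V x, (v V (NB.dl 0)) x = if x ∈ F then (R x : ℂ) * φ x V else 0 := by
  classical
  induction F using Finset.induction with
  | empty =>
    refine ⟨_, _, _, obsT_zero, fun V x => ?_⟩
    simp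
  | insert a s has ih =>
    obtain ⟨v, w, M, hO, hv⟩ := ih
    refine ⟨_, _, _, ((obsT_single (φ a) (h a) (hc a) (hφ a) a).smul (R a : ℂ)).add hO,
      fun V x => ?_⟩
    show ((R a : ℂ) • Tm (fun V => φ a fun j => V (j - a)) (fun _ => h a _) (-a) V (NB.dl 0) +
      v V (NB.dl 0)) x = _
    rw [lp.coeFn_add, Pi.add_apply, lp.coeFn_smul, Pi.smul_apply, single_dl (φ a) (h a), hv,
      smul_eq_mul]
    by_cases hx : x = a
    · subst hx
      rw [if_pos rfl, if_neg has, if_pos (Finset.mem_insert_self _ _), add_zero]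
    · rw [if_neg hx, mul_zero, zero_add]
      by_cases hxs : x ∈ s
      · rw [if_pos hxs, if_pos (Finset.mem_insert_of_mem hxs)]
      · rw [if_neg hxs, if_neg]
        rw [Finset.mem_insert]
        rintro (h1 | h1)
        · exact hx h1
        · exact hxs h1

/-- local observables are dense in mean square -/
theorem exists_local (hA : FT (fun _ => 1) C A A') (ε : ℝ≥0∞) (hε : 0 < ε) :
    ∃ (v w : (NB.Site d → ℝ) → L2 d →L[ℂ] L2 d) (M : ℝ), ObsT d (fun _ => 1) v w M ∧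
      ∫⁻ V, ‖A V (NB.dl 0) - v V (NB.dl 0)‖ₑ ^ 2 ∂(NB.PP d ν) ≤ ε := by
  classical
  by_cases hεt : ε = ∞
  · exact ⟨_, _, _, obsT_zero, by rw [hεt]; exact le_top⟩
  have hPP : IsProbabilityMeasure (NB.PP d ν) := by unfold NB.PP; infer_instance
  have hs : StronglyMeasurable fun V => A V (NB.dl 0) := hA.meas _ stronglyMeasurable_const
  set a : NB.Site d → (NB.Site d → ℝ) → ℂ := fun x V => (A V (NB.dl 0)) x with ha
  have ham : ∀ x, StronglyMeasurable (a x) := fun x =>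
    (NB.STAT.cont_eval x).comp_stronglyMeasurable hs
  have hab : ∀ x V, ‖a x V‖ ≤ C := by
    intro x V
    refine (lp.norm_apply_le_norm (by norm_num) _ _).trans ?_
    have := hA.bd V (NB.dl 0)
    rwa [NB.STAT.norm_dl, mul_one] at this
  have hsum : ∑' x, ∫⁻ V, ‖a x V‖ₑ ^ 2 ∂(NB.PP d ν) ≠ ∞ := by
    rw [← lintegral_tsum fun x => ((ham x).enorm.pow_const 2).aemeasurable]
    have h1 : ∀ V, ∑' x, ‖a x V‖ₑ ^ 2 = ‖A V (NB.dl 0)‖ₑ ^ 2 := fun V => NB.MOM.enorm_sq _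
    simp_rw [h1]
    refine ne_top_of_le_ne_top (b := ENNReal.ofReal (C ^ 2)) ENNReal.ofReal_ne_top ?_
    calc ∫⁻ V, ‖A V (NB.dl 0)‖ₑ ^ 2 ∂(NB.PP d ν) ≤ ∫⁻ _V, ENNReal.ofReal (C ^ 2) ∂(NB.PP d ν) := by
          refine lintegral_mono fun V => ?_
          show ‖A V (NB.dl 0)‖ₑ ^ 2 ≤ ENNReal.ofReal (C ^ 2)
          have h2 := hA.bd V (NB.dl 0)
          rw [NB.STAT.norm_dl, mul_one] at h2
          rw [← ofReal_norm, ← ENNReal.ofReal_pow (norm_nonneg _)]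
          exact ENNReal.ofReal_le_ofReal (pow_le_pow_left₀ (norm_nonneg _) h2 2)
      _ = ENNReal.ofReal (C ^ 2) := by simp
  have hε2 : 0 < ε / 2 := ENNReal.div_pos hε.ne' (by norm_num)
  obtain ⟨F, hF⟩ := ((ENNReal.tendsto_tsum_compl_atTop_zero hsum).eventually
    (gt_mem_nhds hε2)).exists
  have hε3 : 0 < ε / 2 / ((F.card + 1 : ℕ) : ℝ≥0∞) :=
    ENNReal.div_pos hε2.ne' (ENNReal.natCast_ne_top _)
  choose φ R h1 h2 h3 h4 using fun x => exists_cyl (ν := ν) (a x) (ham x) C (hab x) _ hε3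
  obtain ⟨v, w, M, hO, hv⟩ := exists_fin φ R h1 h2 h3 F
  refine ⟨v, w, M, hO, ?_⟩
  have hvm : StronglyMeasurable fun V => v V (NB.dl 0) := hO.ft.meas _ stronglyMeasurable_const
  have e1 : ∫⁻ V, ‖A V (NB.dl 0) - v V (NB.dl 0)‖ₑ ^ 2 ∂(NB.PP d ν) =
      ∑' x, ∫⁻ V, ‖a x V - (v V (NB.dl 0)) x‖ₑ ^ 2 ∂(NB.PP d ν) := by
    rw [← lintegral_tsum]
    · refine lintegral_congr fun V => ?_
      exact (NB.MOM.enorm_sq _).symm
    · intro x
      exact (((ham x).sub ((NB.STAT.cont_eval x).comp_stronglyMeasurable hvm)).enorm.pow_const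
        2).aemeasurable
  rw [e1, ← ENNReal.sum_add_tsum_compl F]
  have e2 : ∑ x ∈ F, ∫⁻ V, ‖a x V - (v V (NB.dl 0)) x‖ₑ ^ 2 ∂(NB.PP d ν) ≤ ε / 2 := by
    calc ∑ x ∈ F, ∫⁻ V, ‖a x V - (v V (NB.dl 0)) x‖ₑ ^ 2 ∂(NB.PP d ν)
        ≤ ∑ _x ∈ F, ε / 2 / ((F.card + 1 : ℕ) : ℝ≥0∞) := by
          refine Finset.sum_le_sum fun x hx => ?_
          simp_rw [hv, if_pos hx]
          exact h4 x
      _ = (F.card : ℝ≥0∞) * (ε / 2 / ((F.card + 1 : ℕ) : ℝ≥0∞)) := by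
          rw [Finset.sum_const, nsmul_eq_mul]
      _ ≤ ((F.card + 1 : ℕ) : ℝ≥0∞) * (ε / 2 / ((F.card + 1 : ℕ) : ℝ≥0∞)) := by
          gcongr
          exact Nat.le_succ _
      _ = ε / 2 := ENNReal.mul_div_cancel (by positivity) (ENNReal.natCast_ne_top _)
  have e3 : ∑' x : {x // x ∉ F}, ∫⁻ V, ‖a x V - (v V (NB.dl 0)) x‖ₑ ^ 2 ∂(NB.PP d ν) ≤ ε / 2 := by
    refine le_trans (le_of_eq ?_) hF.le
    refine tsum_congr fun x => ?_
    refine lintegral_congr fun V => ?_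
    rw [hv, if_neg x.2, sub_zero]
  calc _ ≤ ε / 2 + ε / 2 := add_le_add e2 e3
    _ = ε := ENNReal.add_halves ε

end Pool.Agent.L7h83.WM
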