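import Pool.Agent.L7h83.WM.Hf

/-! # The limit is a function of the operator; the microcanonical formula -/

set_option autoImplicit false

open MeasureTheory Filter Topology
open scoped BigOperators ENNReal NNReal InnerProductSpace ComplexConjugate

namespace Pool.Agent.L7h83.WM

open Pool.Agent.TH980.IM Pool.Agent.H5R2 Pool.Agent.Y662.ERG Pool.Agent.R988
open Pool.Agent.TH980.IM.PR

variable {d : ℕ} {c o : ℝ} {ev : (NB.Site d → ℝ) → NB.UG (L2 d)}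
variable {χ : NB.Site d → ℂ} {C : ℝ} {A A' D D' P : NQ.OF d}
variable {ν : Measure ℝ} [IsProbabilityMeasure ν]

/-- the limit field is a deterministic function of the operator -/
theorem fun_w (hd : 1 ≤ d) {K : ℝ} (hK : ∀ᵐ r ∂ν, |r| ≤ K) (hν : ∀ r : ℝ, ν {r} ≠ 1)
    (hev : ∀ ω : NB.Site d → ℝ, NB.IsGrp (-1) (fun x => 2 * d + ω x) (ev ω))
    {w : NQ.OF d} (hwF : FT (fun _ => 1) C w w)
    (hw : ∀ᵐ V ∂(NB.PP d ν), ∀ t x, w V ((ev V).U t x) = (ev V).U t (w V x))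
    (hF : ∀ᵐ V ∂(NB.PP d ν), ∀ z : NB.Site d, ∀ φ ∈ NBA.HAC (ev V),
      (∀ t, ⟪φ, (ev V).U t (NB.dl z)⟫_ℂ = 0) → ⟪w V φ, (NB.dl z : L2 d)⟫_ℂ = 0) :
    ∃ f : ℝ → ℝ, Measurable f ∧ (∀ E, |f E| ≤ C) ∧
      ∀ᵐ V ∂(NB.PP d ν), (∀ x, |V x| ≤ K) ∧ (∀ x, w V (HV K V x) = HV K V (w V x)) ∧
        ∀ ψ, ∀ᵐ E : ℝ, Ngl (HV K V) E (w V ψ - ((f E : ℝ) : ℂ) • ψ) := by
  have hbd := bd_ae (d := d) hK
  have hcomT : ∀ᵐ ω ∂(NB.PP d ν), ∀ x, w ω (HV K ω x) = HV K ω (w ω x) := by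
    filter_upwards [hw, hbd] with ω h1 h2
    exact comm_of_Ex fun t x => by rw [← grp_Ex h2 (hev ω), h1, grp_Ex h2 (hev ω)]
  obtain ⟨h, Sg, hSg, hm, hcore⟩ := all_core (d := d) hd hK hν
  have h5 : ∀ᵐ ω ∂(NB.PP d ν), ∀ᵐ E : ℝ,
      (∃ g : ℂ, ∀ x, Ngl (HV K ω) E (w ω (ee x) - g • ee x)) ∧
      (E ∉ Sg → ∀ x, Ngl (HV K ω) E (ee x)) ∧
      (E ∈ Sg → ∀ x, ∃ a : ℝ, 0 < a ∧
        Tendsto (fun k => qn (HV K ω) (zk k E) (ee x)) atTop (𝓝 a)) := by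
    filter_upwards [hF, hw, hbd, hcore] with ω e1 e3 e4 ⟨e5, e6, e7⟩
    exact per_V hd e4 (hev ω) (hwF.adj ω) e3 e1 e5 e7 e6
  have hb : AEStronglyMeasurable (fun V => w V (ee 0)) (NB.PP d ν) :=
    (hwF.meas _ stronglyMeasurable_const).aestronglyMeasurable
  have h4 : ∀ᵐ ω ∂(NB.PP d ν), ∀ (z : Sd d) (S : L2 d →L[ℂ] L2 d), NB.IsShift (-z) S →
      w ω (ee z) = S ((fun V => w V (ee 0)) (sh z ω)) := by
    refine Eventually.of_forall fun ω z S hS => ?_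
    have h6 := hwF.cov (-z) S hS (sh z ω) (ee 0)
    have e : (fun y => sh z ω (y + -z)) = ω := by
      funext y
      unfold sh
      simp
    have h7 : S (ee 0) = ee z := NB.LIMB.shift_dl z S hS
    rw [e, h7, one_smul] at h6
    exact h6
  obtain ⟨f, hf1, hf2, hf3⟩ := det_core hd hSg (fun V => w V (ee 0)) hb hwF.nn w
    (Eventually.of_forall fun V => hwF.adj V) hcomT (Eventually.of_forall fun V => hwF.opn V) h4 h5
  refine ⟨f, hf1, hf2, ?_⟩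
  filter_upwards [hbd, hcomT, hf3] with ω e1 e2 e3
  refine ⟨e1, e2, fun ψ => ?_⟩
  refine fib_all (HV_sa K ω) e2 (fun E => ((f E : ℝ) : ℂ)) (Dn d) Dn_dense ?_ ψ
  rintro _ ⟨s, c, rfl⟩
  filter_upwards [e3] with E hE
  have h6 : (w ω) (∑ x ∈ s, c x • ee x) - ((f E : ℝ) : ℂ) • ∑ x ∈ s, c x • (ee x : L2 d) =
      ∑ x ∈ s, c x • ((w ω) (ee x) - ((f E : ℝ) : ℂ) • ee x) := by
    rw [map_sum, Finset.smul_sum, ← Finset.sum_sub_distrib]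
    refine Finset.sum_congr rfl fun x _ => ?_
    rw [map_smul, smul_sub, smul_comm]
  rw [h6]
  exact Ngl.sum s fun x _ => (hE x).smul _

/-- the expectations do not depend on the time -/
theorem inv_time (hev : ∀ ω : NB.Site d → ℝ, NB.IsGrp c (fun x => o + ω x) (ev ω))
    (hP : PrF P) (hcomm : ∀ᵐ V ∂(NB.PP d ν), ∀ t x, P V ((ev V).U t x) = (ev V).U t (P V x))
    (hA : FT (fun _ => 1) C A A) (t s : ℝ) :
    ∫ V, ⟪(ev V).U t (P V (NB.dl 0)), (ev V).U (-s) (A V ((ev V).U s (P V (NB.dl 0))))⟫_ℂ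
      ∂(NB.PP d ν) =
    ∫ V, ⟪(ev V).U t (P V (NB.dl 0)), A V (P V (NB.dl 0))⟫_ℂ ∂(NB.PP d ν) := by
  have hU := fun r : ℝ => ft_U (c := c) (o := o) hev r
  -- `Q = P U_{-t} A P`
  have hQ := hP.ft.mul ((hU (-t)).mul (hA.mul hP.ft))
  have hY := hQ.mul (hU s)
  have h1 := NQ.trace (ν := ν) ((hU s).fld fun _ => rfl) ((hU s).swap.fld fun _ => by simp)
    (hY.fld fun _ => by simp) (hY.swap.fld fun _ => by simp) (hU s).adj hY.adj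
  have key : ∀ V (x : L2 d), ⟪(ev V).U t (P V x), A V (P V x)⟫_ℂ =
      ⟪x, P V ((ev V).U (-t) (A V (P V x)))⟫_ℂ := by
    intro V x
    rw [← hP.ft.adj, NB.STAT.inner_adj (ev V) (-t) (P V x) _, neg_neg]
  have e1 : ∫ V, ⟪(ev V).U t (P V (NB.dl 0)), (ev V).U (-s) (A V ((ev V).U s (P V (NB.dl 0))))⟫_ℂ
      ∂(NB.PP d ν) = ∫ V, ⟪NQ.vec (fun V => (ev V).U s) V, NQ.vec (fun V =>
        ((P V).comp (((ev V).U (-t)).comp ((A V).comp (P V)))).comp ((ev V).U s)) V⟫_ℂ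
      ∂(NB.PP d ν) := by
    refine integral_congr_ae ?_
    filter_upwards [hcomm] with V hV
    show ⟪(ev V).U t (P V (NB.dl 0)), (ev V).U (-s) (A V ((ev V).U s (P V (NB.dl 0))))⟫_ℂ =
      ⟪(ev V).U s (NB.dl 0), P V ((ev V).U (-t) (A V (P V ((ev V).U s (NB.dl 0)))))⟫_ℂ
    rw [← key, hV, NB.STAT.inner_adj (ev V) (-s), neg_neg, ← (ev V).add', ← (ev V).add',
      add_comm s t]
  have e2 : ∫ V, ⟪(ev V).U t (P V (NB.dl 0)), A V (P V (NB.dl 0))⟫_ℂ ∂(NB.PP d ν) =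
      ∫ V, ⟪NQ.vec (fun V => ((ev V).U (-s)).comp
        ((((P V).comp (A V)).comp ((ev V).U (-(-t)))).comp (P V))) V,
      NQ.vec (fun V => (ev V).U (-s)) V⟫_ℂ ∂(NB.PP d ν) := by
    refine integral_congr_ae (Eventually.of_forall fun V => ?_)
    show ⟪(ev V).U t (P V (NB.dl 0)), A V (P V (NB.dl 0))⟫_ℂ =
      ⟪(ev V).U (-s) (P V (A V ((ev V).U (-(-t)) (P V (NB.dl 0))))), (ev V).U (-s) (NB.dl 0)⟫_ℂ
    rw [NB.STAT.inner_UG, neg_neg, hP.ft.adj, hA.adj]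
  rw [e1, e2]
  exact h1

end Pool.Agent.L7h83.WM
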