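import Pool.Agent.L7h83.WM.Gn

/-! # Consequences for one state: almost periodic functions, residue classes, slabs -/

set_option autoImplicit false

open MeasureTheory Filter Topology
open scoped BigOperators ENNReal NNReal InnerProductSpace ComplexConjugate

namespace Pool.Agent.L7h83.WM

open Pool.Agent.TH980.IM Pool.Agent.H5R2 Pool.Agent.Y662.ERG Pool.Agent.R988

section abstract

variable {X : Type} [NormedAddCommGroup X] [InnerProductSpace ℂ X]

/-- the average over `[0,T]` -/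
noncomputable def avR (W : NB.UG X) (l : ℝ) (v : X →L[ℂ] X) (T : ℝ) (x : X) : X :=
  ((T : ℂ)⁻¹) • ∫ s in (0 : ℝ)..T, gT W l v x s

theorem avR_norm (W : NB.UG X) (l : ℝ) (v : X →L[ℂ] X) {T : ℝ} (hT : 0 < T) (x : X) :
    ‖avR W l v T x‖ ≤ ‖v‖ * ‖x‖ := by
  unfold avR
  rw [norm_smul, norm_inv, Complex.norm_real, Real.norm_eq_abs, abs_of_pos hT,
    inv_mul_le_iff₀ hT]
  refine (int_norm W l v x 0 T).trans (le_of_eq ?_)
  rw [sub_zero, abs_of_pos hT, mul_comm]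

theorem avR_add (W : NB.UG X) (l : ℝ) (v w : X →L[ℂ] X) (T : ℝ) (x : X) :
    avR W l (v + w) T x = avR W l v T x + avR W l w T x := by
  unfold avR
  rw [← smul_add, ← intervalIntegral.integral_add ((gT_cont W l v x).intervalIntegrable _ _)
    ((gT_cont W l w x).intervalIntegrable _ _)]
  congr 1
  refine intervalIntegral.integral_congr fun s _ => ?_
  show gT W l (v + w) x s = gT W l v x s + gT W l w x s
  unfold gT
  rw [← smul_add, ← map_add]
  rfl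

theorem avR_smul (W : NB.UG X) (l : ℝ) (v : X →L[ℂ] X) (r : ℂ) (T : ℝ) (x : X) :
    avR W l (r • v) T x = r • avR W l v T x := by
  have e : ∀ s, gT W l (r • v) x s = r • gT W l v x s := by
    intro s
    unfold gT
    rw [smul_comm r (ph l s)]
    congr 1
    show W.U (-s) (r • v (W.U s x)) = r • W.U (-s) (v (W.U s x))
    rw [map_smul]
  unfold avR
  simp_rw [e]
  rw [intervalIntegral.integral_smul, smul_comm]

theorem avR_sum (W : NB.UG X) (l : ℝ) {ι : Type} (F : Finset ι) (v : ι → X →L[ℂ] X) (T : ℝ)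
    (x : X) : avR W l (∑ i ∈ F, v i) T x = ∑ i ∈ F, avR W l (v i) T x := by
  classical
  induction F using Finset.induction with
  | empty =>
    rw [Finset.sum_empty, Finset.sum_empty]
    have := avR_smul W l (0 : X →L[ℂ] X) 0 T x
    rwa [zero_smul, zero_smul] at this
  | insert a s ha ih => rw [Finset.sum_insert ha, Finset.sum_insert ha, avR_add, ih]

theorem avR_one [CompleteSpace X] (W : NB.UG X) {T : ℝ} (hT : 0 < T) (x : X) :
    avR W 0 (ContinuousLinearMap.id ℂ X) T x = x := by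
  unfold avR
  have h : ∀ s, gT W 0 (ContinuousLinearMap.id ℂ X) x s = x := by
    intro s
    unfold gT
    rw [ph_zero_left, one_smul]
    show W.U (-s) (W.U s x) = x
    rw [← W.add', neg_add_cancel, W.zero']
  simp_rw [h]
  rw [intervalIntegral.integral_const, sub_zero]
  have e : T • x = (T : ℂ) • x := by rw [Complex.coe_smul]
  rw [e, smul_smul, inv_mul_cancel₀ (by exact_mod_cast hT.ne'), one_smul]

theorem inner_avR [CompleteSpace X] (W : NB.UG X) (v : X →L[ℂ] X) (T : ℝ) (x : X) :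
    ⟪x, avR W 0 v T x⟫_ℂ = (T : ℂ)⁻¹ * ∫ s in (0 : ℝ)..T, ⟪W.U s x, v (W.U s x)⟫_ℂ := by
  unfold avR
  rw [inner_smul_right]
  congr 1
  have h1 := (innerSL ℂ x).intervalIntegral_comp_comm
    ((gT_cont W 0 v x).intervalIntegrable (μ := volume) 0 T)
  simp only [innerSL_apply_apply] at h1
  rw [← h1]
  refine intervalIntegral.integral_congr fun s _ => ?_
  simp only [gT]
  rw [ph_zero_left, one_smul, ← NB.NN.inner_adj]

end abstract

variable {d : ℕ}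

/-- `θ` is not in `2πℤ^d` -/
def Nt {d : ℕ} (θ : Fin d → ℝ) : Prop := ∃ i, ∀ n : ℤ, θ i ≠ 2 * Real.pi * n

theorem Nt.char {θ : Fin d → ℝ} (h : Nt θ) : ∃ z, conj (wv θ z) ≠ 1 := by
  obtain ⟨i, hi⟩ := h
  exact wv_ne θ i hi

/-- almost periodic with mean value `m` -/
def Ap {d : ℕ} (g : NB.Site d → ℂ) (m : ℂ) : Prop :=
  ∀ ε : ℝ, 0 < ε → ∃ (F : Finset (Fin d → ℝ)) (c : (Fin d → ℝ) → ℂ), (∀ θ ∈ F, Nt θ) ∧
    ∀ x, ‖g x - m - ∑ θ ∈ F, c θ * wv θ x‖ ≤ ε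

theorem Ap.bdd {g : NB.Site d → ℂ} {m : ℂ} (h : Ap g m) : ∃ R : ℝ, 0 < R ∧ ∀ x, ‖g x‖ ≤ R := by
  obtain ⟨F, c, _, h1⟩ := h 1 one_pos
  refine ⟨1 + ‖m‖ + ∑ θ ∈ F, ‖c θ‖, by positivity, fun x => ?_⟩
  have e : g x = (g x - m - ∑ θ ∈ F, c θ * wv θ x) + m + ∑ θ ∈ F, c θ * wv θ x := by ring
  rw [e]
  refine (norm_add₃_le).trans ?_
  refine add_le_add (add_le_add (h1 x) le_rfl) ((norm_sum_le _ _).trans (le_of_eq ?_))
  refine Finset.sum_congr rfl fun θ _ => ?_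
  rw [norm_mul, wv_norm, mul_one]

/-- multiplication by a bounded function -/
theorem exists_mult (g : NB.Site d → ℂ) {R : ℝ} (hR : 0 ≤ R) (hg : ∀ x, ‖g x‖ ≤ R) :
    ∃ E : L2 d →L[ℂ] L2 d, (∀ u x, (E u) x = g x * u x) ∧ ‖E‖ ≤ R := by
  by_cases h0 : R = 0
  · refine ⟨0, fun u x => ?_, by simp [h0]⟩
    have : g x = 0 := by
      have := hg x
      rw [h0] at this
      exact norm_le_zero_iff.1 this
    rw [this, zero_mul]
    rfl
  have hR0 : 0 < R := lt_of_le_of_ne hR (Ne.symm h0)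
  have hRC : (R : ℂ) ≠ 0 := by exact_mod_cast h0
  have hb : ∀ x, ‖(R : ℂ)⁻¹ * g x‖ ≤ 1 := by
    intro x
    rw [norm_mul, norm_inv, Complex.norm_real, Real.norm_eq_abs, abs_of_pos hR0,
      inv_mul_le_one₀ hR0]
    exact hg x
  refine ⟨(R : ℂ) • mulL (fun x => (R : ℂ)⁻¹ * g x) hb, fun u x => ?_, ?_⟩
  · show (R : ℂ) * (((R : ℂ)⁻¹ * g x) * u x) = _
    rw [← mul_assoc, ← mul_assoc, mul_inv_cancel₀ hRC, one_mul]
  · rw [norm_smul, Complex.norm_real, Real.norm_eq_abs, abs_of_pos hR0]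
    have h1 : ‖mulL (fun x => (R : ℂ)⁻¹ * g x) hb‖ ≤ 1 :=
      ContinuousLinearMap.opNorm_le_bound _ zero_le_one fun u => by
        rw [one_mul]
        exact mulL_norm _ _ _
    calc R * ‖mulL (fun x => (R : ℂ)⁻¹ * g x) hb‖ ≤ R * 1 :=
          mul_le_mul_of_nonneg_left h1 hR
      _ = R := mul_one R

/-- almost periodic functions -/
theorem ap_tendsto (W : NB.UG (L2 d)) (A E : L2 d →L[ℂ] L2 d) {g : NB.Site d → ℂ} {m : ℂ}
    (hE : ∀ u x, (E u) x = g x * u x) (ψ : L2 d)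
    (F : ℕ → Finset (Fin d → ℝ)) (c : ℕ → (Fin d → ℝ) → ℂ)
    (hF : ∀ n x, ‖g x - m - ∑ θ ∈ F n, c n θ * wv θ x‖ ≤ 1 / ((n : ℝ) + 1))
    (hz : ∀ n, ∀ θ ∈ F n, Tendsto (fun T : ℝ => avR W 0 ((MW θ).comp A) T ψ) atTop (𝓝 0)) :
    Tendsto (fun T : ℝ => avR W 0 (E.comp A) T ψ - m • avR W 0 A T ψ) atTop (𝓝 0) := by
  rw [Metric.tendsto_atTop]
  intro ε hε
  obtain ⟨n, hn⟩ := exists_nat_gt (2 * (‖A‖ * ‖ψ‖) / ε)
  have hn1 : (0 : ℝ) < (n : ℝ) + 1 := by positivity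
  have hn2 : 1 / ((n : ℝ) + 1) * (‖A‖ * ‖ψ‖) < ε / 2 := by
    rw [div_mul_eq_mul_div, one_mul, div_lt_iff₀ hn1]
    rw [div_lt_iff₀ hε] at hn
    nlinarith
  have hsum : Tendsto (fun T : ℝ => ∑ θ ∈ F n, c n θ • avR W 0 ((MW θ).comp A) T ψ) atTop
      (𝓝 0) := by
    have := tendsto_finsetSum (F n) fun θ hθ => (hz n θ hθ).const_smul (c n θ)
    simpa using this
  rw [Metric.tendsto_atTop] at hsum
  obtain ⟨T₀, hT₀⟩ := hsum (ε / 2) (by positivity)
  refine ⟨max T₀ 1, fun T hT => ?_⟩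
  have hTp : 0 < T := lt_of_lt_of_le one_pos ((le_max_right _ _).trans hT)
  have h1 := hT₀ T ((le_max_left _ _).trans hT)
  rw [dist_zero_right] at h1 ⊢
  -- the remainder
  obtain ⟨Q, hQ⟩ : ∃ Q : L2 d →L[ℂ] L2 d, Q = E - m • ContinuousLinearMap.id ℂ (L2 d) -
      ∑ θ ∈ F n, c n θ • MW θ := ⟨_, rfl⟩
  have hQx : ∀ u x, (Q u) x = (g x - m - ∑ θ ∈ F n, c n θ * wv θ x) * u x := by
    intro u x
    have e1 : Q u = E u - m • u - ∑ θ ∈ F n, c n θ • MW θ u := by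
      rw [hQ]
      simp only [ContinuousLinearMap.sub_apply, ContinuousLinearMap.smul_apply,
        ContinuousLinearMap.id_apply, ContinuousLinearMap.sum_apply]
    have e2 : (∑ θ ∈ F n, c n θ • MW θ u : L2 d) x = ∑ θ ∈ F n, c n θ * (wv θ x * u x) := by
      rw [← NB.STAT.inner_dl x, inner_sum]
      refine Finset.sum_congr rfl fun θ _ => ?_
      rw [NB.STAT.inner_dl, lp.coeFn_smul, Pi.smul_apply, MW_apply, smul_eq_mul]
    rw [e1, lp.coeFn_sub, Pi.sub_apply, lp.coeFn_sub, Pi.sub_apply, lp.coeFn_smul, Pi.smul_apply,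
      hE, e2, sub_mul, sub_mul, Finset.sum_mul, smul_eq_mul]
    congr 1
    refine Finset.sum_congr rfl fun θ _ => ?_
    ring
  have hQn : ‖Q‖ ≤ 1 / ((n : ℝ) + 1) := by
    obtain ⟨E', hE1, hE2⟩ := exists_mult (fun x => g x - m - ∑ θ ∈ F n, c n θ * wv θ x)
      (by positivity : 0 ≤ 1 / ((n : ℝ) + 1)) (hF n)
    have : Q = E' := by
      ext u x
      rw [hQx, hE1]
    rw [this]
    exact hE2
  have e3 : E.comp A = m • A + (Q.comp A + ∑ θ ∈ F n, c n θ • (MW θ).comp A) := by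
    ext1 u
    have : Q (A u) = E (A u) - m • A u - ∑ θ ∈ F n, c n θ • MW θ (A u) := by
      rw [hQ]
      simp only [ContinuousLinearMap.sub_apply, ContinuousLinearMap.smul_apply,
        ContinuousLinearMap.id_apply, ContinuousLinearMap.sum_apply]
    simp only [ContinuousLinearMap.comp_apply, ContinuousLinearMap.add_apply,
      ContinuousLinearMap.smul_apply, ContinuousLinearMap.sum_apply]
    rw [this]
    abel
  have e4 : avR W 0 (E.comp A) T ψ - m • avR W 0 A T ψ = avR W 0 (Q.comp A) T ψ +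
      ∑ θ ∈ F n, c n θ • avR W 0 ((MW θ).comp A) T ψ := by
    rw [e3, avR_add, avR_smul, avR_add, avR_sum]
    simp_rw [avR_smul]
    abel
  rw [e4]
  have h2 : ‖avR W 0 (Q.comp A) T ψ‖ < ε / 2 := by
    refine lt_of_le_of_lt (avR_norm _ _ _ hTp _) ?_
    refine lt_of_le_of_lt ?_ hn2
    calc ‖Q.comp A‖ * ‖ψ‖ ≤ (‖Q‖ * ‖A‖) * ‖ψ‖ :=
          mul_le_mul_of_nonneg_right (Q.opNorm_comp_le A) (norm_nonneg _)
      _ ≤ (1 / ((n : ℝ) + 1) * ‖A‖) * ‖ψ‖ := by gcongr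
      _ = _ := by ring
  calc _ ≤ ‖avR W 0 (Q.comp A) T ψ‖ + ‖∑ θ ∈ F n, c n θ • avR W 0 ((MW θ).comp A) T ψ‖ :=
        norm_add_le _ _
    _ < ε / 2 + ε / 2 := add_lt_add h2 h1
    _ = ε := by ring

end Pool.Agent.L7h83.WM
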