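import Pool.Agent.L7h83.WM.Fp

/-! # Residue classes and slabs -/

set_option autoImplicit false

open MeasureTheory Filter Topology
open scoped BigOperators ENNReal NNReal InnerProductSpace ComplexConjugate

namespace Pool.Agent.L7h83.WM

open Pool.Agent.TH980.IM Pool.Agent.H5R2 Pool.Agent.Y662.ERG Pool.Agent.R988

variable {d : ℕ}

theorem wv_prod (θ : Fin d → ℝ) (x : NB.Site d) :
    wv θ x = ∏ i, Complex.exp (Complex.I * ((θ i * x i : ℝ) : ℂ)) := by
  unfold wv
  rw [← Complex.exp_sum, ← Finset.mul_sum]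
  push_cast
  rfl

/-- the sum of the roots of unity -/
theorem root_sum (m : ℕ) (hm : 1 ≤ m) (a : ℤ) :
    ∑ k ∈ Finset.range m, Complex.exp (Complex.I * (((2 * Real.pi * k / m) * a : ℝ) : ℂ)) =
      if (m : ℤ) ∣ a then (m : ℂ) else 0 := by
  have hmR : (m : ℝ) ≠ 0 := by positivity
  have hmC : (m : ℂ) ≠ 0 := by exact_mod_cast hmR
  set ζ : ℂ := Complex.exp (Complex.I * (((2 * Real.pi / m) * a : ℝ) : ℂ)) with hζ
  have h1 : ∀ k ∈ Finset.range m, Complex.exp (Complex.I *
      (((2 * Real.pi * k / m) * a : ℝ) : ℂ)) = ζ ^ k := by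
    intro k _
    rw [hζ, ← Complex.exp_nat_mul]
    congr 1
    push_cast
    ring
  rw [Finset.sum_congr rfl h1]
  have h2 : ζ ^ m = 1 := by
    rw [hζ, ← Complex.exp_nat_mul, Complex.exp_eq_one_iff]
    refine ⟨a, ?_⟩
    push_cast
    field_simp
  by_cases ha : (m : ℤ) ∣ a
  · obtain ⟨b, rfl⟩ := ha
    have h3 : ζ = 1 := by
      rw [hζ, Complex.exp_eq_one_iff]
      refine ⟨b, ?_⟩
      push_cast
      field_simp
    rw [h3, if_pos (dvd_mul_right _ _)]
    simp
  · rw [if_neg ha]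
    have h3 : ζ ≠ 1 := by
      intro h
      rw [hζ, Complex.exp_eq_one_iff] at h
      obtain ⟨n, hn⟩ := h
      refine ha ⟨n, ?_⟩
      have h4 : (2 * Real.pi / m) * (a : ℝ) = n * (2 * Real.pi) := by
        have h5 : Complex.I * (((2 * Real.pi / m) * a : ℝ) : ℂ) =
            Complex.I * ((n * (2 * Real.pi) : ℝ) : ℂ) := by
          rw [hn]
          push_cast
          ring
        exact_mod_cast mul_left_cancel₀ Complex.I_ne_zero h5
      have h5 : (a : ℝ) = m * n := by
        field_simp at h4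
        have hpi := Real.pi_pos
        nlinarith [h4]
      exact_mod_cast h5
    rw [geom_sum_eq h3, h2, sub_self, zero_div]

/-- the frequencies `2πp/m` -/
noncomputable def fr (m : ℕ) (p : Fin d → ℕ) : Fin d → ℝ := fun i => 2 * Real.pi * p i / m

theorem fr_inj (m : ℕ) (hm : 1 ≤ m) : Function.Injective (fr (d := d) m) := by
  intro p q h
  funext i
  have h1 := congrFun h i
  unfold fr at h1
  have hmR : (m : ℝ) ≠ 0 := by positivity
  field_simp at h1
  exact_mod_cast h1

theorem fr_nt (m : ℕ) (hm : 1 ≤ m) (p : Fin d → ℕ) (hp : p ≠ 0) (hpm : ∀ i, p i < m) :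
    Nt (fr m p) := by
  obtain ⟨i, hi⟩ := Function.ne_iff.1 hp
  refine ⟨i, fun n hn => ?_⟩
  unfold fr at hn
  have hmR : (0 : ℝ) < m := by exact_mod_cast hm
  have h1 : (p i : ℝ) = n * m := by
    have hpi := Real.pi_pos
    field_simp at hn
    linarith
  have h2 : (p i : ℤ) = n * m := by exact_mod_cast h1
  have h3 : 0 < p i := Nat.pos_of_ne_zero hi
  have h4 := hpm i
  have h5 : 0 < n := by
    by_contra h
    push Not at h
    have : n * (m : ℤ) ≤ 0 := mul_nonpos_of_nonpos_of_nonneg h (by positivity)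
    omega
  have h6 : (m : ℤ) ≤ n * m := by nlinarith [(by exact_mod_cast hm : (1 : ℤ) ≤ m)]
  omega

/-- the indicator function of a residue class is almost periodic with mean `m^{-d}` -/
theorem ap_res (m : ℕ) (hm : 1 ≤ m) (r : NB.Site d) (g : NB.Site d → ℂ)
    (hg : ∀ x, (∀ i, x i ≡ r i [ZMOD m]) → g x = 1)
    (hg' : ∀ x, (¬ ∀ i, x i ≡ r i [ZMOD m]) → g x = 0) :
    Ap g (((m : ℂ) ^ d)⁻¹) := by
  classical
  intro ε hε
  have hmC : (m : ℂ) ≠ 0 := by
    have : m ≠ 0 := by omega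
    exact_mod_cast this
  set Q : Finset (Fin d → ℕ) := Fintype.piFinset fun _ => Finset.range m with hQ
  have h0Q : (0 : Fin d → ℕ) ∈ Q := by
    rw [hQ, Fintype.mem_piFinset]
    intro i
    simp only [Pi.zero_apply, Finset.mem_range]
    omega
  refine ⟨(Q.erase 0).image (fr m), fun θ => ((m : ℂ) ^ d)⁻¹ * conj (wv θ r), fun θ hθ => ?_,
    fun x => ?_⟩
  · obtain ⟨p, hp, rfl⟩ := Finset.mem_image.1 hθ
    obtain ⟨hp0, hpQ⟩ := Finset.mem_erase.1 hp
    rw [hQ, Fintype.mem_piFinset] at hpQ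
    exact fr_nt m hm p hp0 fun i => Finset.mem_range.1 (hpQ i)
  · have hsum : ∑ p ∈ Q, conj (wv (fr m p) r) * wv (fr m p) x = (m : ℂ) ^ d * g x := by
      have e1 : ∀ p ∈ Q, conj (wv (fr m p) r) * wv (fr m p) x =
          ∏ i, Complex.exp (Complex.I *
            (((2 * Real.pi * (p i) / m) * ((x i - r i : ℤ) : ℝ) : ℝ) : ℂ)) := by
        intro p _
        have e2 : wv (fr m p) x = wv (fr m p) (x - r) * wv (fr m p) r := by
          rw [← wv_add, sub_add_cancel]
        rw [e2, mul_comm (wv (fr m p) (x - r)), ← mul_assoc, wv_conj, one_mul, wv_prod]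
        rfl
      rw [Finset.sum_congr rfl e1]
      have e3 := Finset.prod_univ_sum (fun _ : Fin d => Finset.range m)
        (fun (i : Fin d) (k : ℕ) => Complex.exp (Complex.I *
            (((2 * Real.pi * k / m) * ((x i - r i : ℤ) : ℝ) : ℝ) : ℂ)))
      rw [hQ, ← e3]
      simp_rw [root_sum m hm]
      by_cases hx : ∀ i, x i ≡ r i [ZMOD m]
      · rw [hg x hx, mul_one]
        have e4 : ∀ i : Fin d, (if (m : ℤ) ∣ x i - r i then (m : ℂ) else 0) = m := by
          intro i
          rw [if_pos]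
          exact (Int.modEq_iff_dvd.1 (hx i).symm)
        rw [Finset.prod_congr rfl fun i _ => e4 i, Finset.prod_const, Finset.card_univ,
          Fintype.card_fin]
      · rw [hg' x hx, mul_zero]
        push Not at hx
        obtain ⟨i, hi⟩ := hx
        refine Finset.prod_eq_zero (Finset.mem_univ i) ?_
        rw [if_neg]
        intro h
        exact hi (Int.modEq_iff_dvd.2 h).symm
    rw [← Finset.add_sum_erase _ _ h0Q] at hsum
    have e5 : conj (wv (fr m (0 : Fin d → ℕ)) r) * wv (fr m (0 : Fin d → ℕ)) x = 1 := by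
      have e6 : ∀ y, wv (fr m (0 : Fin d → ℕ)) y = 1 := by
        intro y
        rw [wv_prod]
        refine Finset.prod_eq_one fun i _ => ?_
        unfold fr
        simp
      rw [e6, e6]
      simp
    rw [e5] at hsum
    rw [Finset.sum_image fun p _ q _ h => fr_inj m hm h]
    have e7 : ∑ p ∈ Q.erase 0, ((m : ℂ) ^ d)⁻¹ * conj (wv (fr m p) r) * wv (fr m p) x =
        ((m : ℂ) ^ d)⁻¹ * ∑ p ∈ Q.erase 0, conj (wv (fr m p) r) * wv (fr m p) x := by
      rw [Finset.mul_sum]
      refine Finset.sum_congr rfl fun p _ => ?_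
      ring
    have hmd : (m : ℂ) ^ d ≠ 0 := pow_ne_zero _ hmC
    have e8 : ∑ p ∈ Q.erase 0, conj (wv (fr m p) r) * wv (fr m p) x = (m : ℂ) ^ d * g x - 1 := by
      rw [← hsum]
      ring
    rw [e7, e8]
    have e9 : g x - ((m : ℂ) ^ d)⁻¹ - ((m : ℂ) ^ d)⁻¹ * ((m : ℂ) ^ d * g x - 1) = 0 := by
      field_simp
      ring
    rw [e9, norm_zero]
    exact hε.le

end Pool.Agent.L7h83.WM
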