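import Pool.Agent.L7h83.WM.Fq

/-! # Slabs -/

set_option autoImplicit false

open MeasureTheory Filter Topology
open scoped BigOperators ENNReal NNReal InnerProductSpace ComplexConjugate

namespace Pool.Agent.L7h83.WM

open Pool.Agent.TH980.IM Pool.Agent.H5R2 Pool.Agent.Y662.ERG Pool.Agent.R988

variable {d : ℕ}

/-- the mass of `u` in `S` -/
noncomputable def ms (S : Set (NB.Site d)) (u : L2 d) : ℝ := ∑' x : S, ‖u x‖ ^ 2

theorem ms_le_of (S : Set (NB.Site d)) (u w : L2 d) (h : ∀ x ∈ S, ‖u x‖ ≤ ‖w x‖) :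
    ms S u ≤ ‖w‖ ^ 2 := by
  have h1 := NB.MOM.hasSum_sq w
  unfold ms
  have hs : Summable fun x : S => ‖w x‖ ^ 2 := h1.summable.comp_injective Subtype.coe_injective
  have hs2 : Summable fun x : S => ‖u x‖ ^ 2 :=
    Summable.of_nonneg_of_le (fun x => by positivity)
      (fun x => pow_le_pow_left₀ (norm_nonneg _) (h x x.2) 2) hs
  calc ∑' x : S, ‖u x‖ ^ 2 ≤ ∑' x : S, ‖w x‖ ^ 2 :=
        hs2.tsum_le_tsum (fun x => pow_le_pow_left₀ (norm_nonneg _) (h x x.2) 2) hs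
    _ ≤ ∑' x, ‖w x‖ ^ 2 := h1.summable.tsum_subtype_le (fun x => ‖w x‖ ^ 2) S (fun x => by positivity)
    _ = ‖w‖ ^ 2 := h1.tsum_eq

/-- the mass as a norm -/
theorem ms_eq (S : Set (NB.Site d)) : ∃ E : L2 d →L[ℂ] L2 d,
    (∀ x, x ∈ S → ∀ u, (E u) x = u x) ∧ (∀ x, x ∉ S → ∀ u, (E u) x = 0) ∧
      ∀ u, ms S u = ‖E u‖ ^ 2 := by
  classical
  refine ⟨mulL (fun x => if x ∈ S then 1 else 0) fun x => ?_, fun x hx u => ?_,
    fun x hx u => ?_, fun u => ?_⟩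
  · split_ifs <;> simp
  · rw [mulL_apply, if_pos hx, one_mul]
  · rw [mulL_apply, if_neg hx, zero_mul]
  · rw [← (NB.MOM.hasSum_sq _).tsum_eq]
    unfold ms
    rw [tsum_subtype S fun x => ‖u x‖ ^ 2]
    refine tsum_congr fun x => ?_
    rw [mulL_apply]
    by_cases hx : x ∈ S
    · rw [Set.indicator_of_mem hx, if_pos hx, one_mul]
    · rw [Set.indicator_of_notMem hx, if_neg hx, zero_mul]
      simp

/-- the frequency `k η e` -/
noncomputable def fe (e : Fin d → ℝ) (η : ℝ) (k : ℤ) : Fin d → ℝ := fun i => k * η * e i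

theorem wv_fe (e : Fin d → ℝ) (η : ℝ) (k : ℤ) (x : NB.Site d) :
    wv (fe e η k) x = Complex.exp (Complex.I * ((k * (η * ∑ i, e i * x i) : ℝ) : ℂ)) := by
  unfold wv fe
  congr 3
  rw [Finset.mul_sum, Finset.mul_sum]
  refine Finset.sum_congr rfl fun i _ => ?_
  ring

theorem MW_inner (e : Fin d → ℝ) (η : ℝ) (k k' : ℤ) (u : L2 d) :
    ⟪MW (fe e η k) u, MW (fe e η k') u⟫_ℂ = ⟪u, MW (fe e η (k' - k)) u⟫_ℂ := by
  rw [lp.inner_eq_tsum, lp.inner_eq_tsum]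
  refine tsum_congr fun x => ?_
  rw [MW_apply, MW_apply, MW_apply]
  have h1 : wv (fe e η k') x = wv (fe e η (k' - k)) x * wv (fe e η k) x := by
    rw [wv_fe, wv_fe, wv_fe, ← Complex.exp_add, ← mul_add, ← Complex.ofReal_add]
    congr 3
    push_cast
    ring
  have h2 := wv_conj (fe e η k) x
  simp only [RCLike.inner_apply, map_mul]
  rw [h1]
  linear_combination (wv (fe e η (k' - k)) x * u x * conj (u x)) * h2

/-- the trigonometric polynomial -/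
noncomputable def tp (e : Fin d → ℝ) (η c : ℝ) (n : ℕ) (u : L2 d) : L2 d :=
  ∑ k ∈ Finset.range n, Complex.exp (Complex.I * ((-(k * (η * c)) : ℝ) : ℂ)) •
    MW (fe e η (k : ℤ)) u

theorem tp_apply (e : Fin d → ℝ) (η c : ℝ) (n : ℕ) (u : L2 d) (x : NB.Site d) :
    (tp e η c n u) x = (∑ k ∈ Finset.range n,
      Complex.exp (Complex.I * ((k * (η * (∑ i, e i * x i - c)) : ℝ) : ℂ))) * u x := by
  unfold tp
  rw [← NB.STAT.inner_dl x, inner_sum, Finset.sum_mul]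
  refine Finset.sum_congr rfl fun k _ => ?_
  rw [NB.STAT.inner_dl, lp.coeFn_smul, Pi.smul_apply, MW_apply, smul_eq_mul, ← mul_assoc, wv_fe,
    ← Complex.exp_add, ← mul_add, ← Complex.ofReal_add]
  congr 4
  push_cast
  ring

theorem slab_le (e : Fin d → ℝ) (η c w : ℝ) (n : ℕ) (hη : 0 < η) (hn : 1 ≤ n)
    (hw : 2 * n * (η * w) ≤ 1) (u : L2 d) :
    ms {x : NB.Site d | |∑ i, e i * (x i : ℝ) - c| ≤ w} u ≤
      (4 / (n : ℝ) ^ 2) * ‖tp e η c n u‖ ^ 2 := by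
  have hnR : (0 : ℝ) < n := by exact_mod_cast hn
  have h1 : ∀ x ∈ {x : NB.Site d | |∑ i, e i * (x i : ℝ) - c| ≤ w},
      ‖u x‖ ≤ ‖(((2 / (n : ℝ) : ℝ) : ℂ) • tp e η c n u : L2 d) x‖ := by
    intro x hx
    have hx' : |∑ i, e i * (x i : ℝ) - c| ≤ w := hx
    rw [lp.coeFn_smul, Pi.smul_apply, tp_apply, norm_smul, norm_mul, ← mul_assoc,
      Complex.norm_real, Real.norm_eq_abs, abs_of_pos (by positivity : 0 < 2 / (n : ℝ))]
    refine le_mul_of_one_le_left (norm_nonneg _) ?_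
    set t : ℝ := η * (∑ i, e i * (x i : ℝ) - c) with ht
    have ht1 : |t| ≤ η * w := by
      rw [ht, abs_mul, abs_of_pos hη]
      exact mul_le_mul_of_nonneg_left hx' hη.le
    have h2 : ‖∑ k ∈ Finset.range n, (Complex.exp (Complex.I * ((k * t : ℝ) : ℂ)) - 1)‖ ≤
        n / 2 := by
      refine (norm_sum_le _ _).trans ?_
      have h3 : ∀ k ∈ Finset.range n, ‖Complex.exp (Complex.I * ((k * t : ℝ) : ℂ)) - 1‖ ≤
          1 / 2 := by
        intro k hk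
        refine Real.norm_exp_I_mul_ofReal_sub_one_le.trans ?_
        rw [Real.norm_eq_abs, abs_mul, Nat.abs_cast]
        have hk' : (k : ℝ) ≤ n := by exact_mod_cast (Finset.mem_range.1 hk).le
        have : (k : ℝ) * |t| ≤ n * (η * w) :=
          mul_le_mul hk' ht1 (abs_nonneg _) hnR.le
        linarith
      refine (Finset.sum_le_sum h3).trans (le_of_eq ?_)
      rw [Finset.sum_const, Finset.card_range, nsmul_eq_mul]
      ring
    rw [Finset.sum_sub_distrib, Finset.sum_const, Finset.card_range, nsmul_eq_mul, mul_one] at h2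
    have h4 : (n : ℝ) ≤ ‖∑ k ∈ Finset.range n, Complex.exp (Complex.I * ((k * t : ℝ) : ℂ))‖ +
        n / 2 := by
      have h5 : ‖(n : ℂ)‖ ≤ ‖∑ k ∈ Finset.range n, Complex.exp (Complex.I * ((k * t : ℝ) : ℂ))‖ +
          ‖∑ k ∈ Finset.range n, Complex.exp (Complex.I * ((k * t : ℝ) : ℂ)) - n‖ := by
        have e1 : (n : ℂ) = (∑ k ∈ Finset.range n, Complex.exp (Complex.I * ((k * t : ℝ) : ℂ))) -
          (∑ k ∈ Finset.range n, Complex.exp (Complex.I * ((k * t : ℝ) : ℂ)) - n) := by ring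
        conv_lhs => rw [e1]
        exact norm_sub_le _ _
      rw [Complex.norm_natCast] at h5
      linarith
    rw [div_mul_eq_mul_div, le_div_iff₀ hnR]
    linarith
  refine (ms_le_of _ _ _ h1).trans (le_of_eq ?_)
  rw [norm_smul, mul_pow, Complex.norm_real, Real.norm_eq_abs,
    abs_of_pos (by positivity : 0 < 2 / (n : ℝ))]
  congr 1
  rw [div_pow]
  norm_num

theorem tp_norm (e : Fin d → ℝ) (η c : ℝ) (n : ℕ) (u : L2 d) :
    ((‖tp e η c n u‖ ^ 2 : ℝ) : ℂ) = ∑ k ∈ Finset.range n, ∑ k' ∈ Finset.range n,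
      (conj (Complex.exp (Complex.I * ((-(k * (η * c)) : ℝ) : ℂ))) *
        Complex.exp (Complex.I * ((-(k' * (η * c)) : ℝ) : ℂ))) *
        ⟪u, MW (fe e η ((k' : ℤ) - k)) u⟫_ℂ := by
  have h : ((‖tp e η c n u‖ ^ 2 : ℝ) : ℂ) = ⟪tp e η c n u, tp e η c n u⟫_ℂ := by
    rw [inner_self_eq_norm_sq_to_K]
    norm_cast
  rw [h]
  unfold tp
  rw [sum_inner]
  refine Finset.sum_congr rfl fun k _ => ?_
  rw [inner_sum]
  refine Finset.sum_congr rfl fun k' _ => ?_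
  rw [inner_smul_left, inner_smul_right, MW_inner, mul_assoc]

theorem tp_avg (W : NB.UG (L2 d)) (e : Fin d → ℝ) (η c : ℝ) (n : ℕ) (ψ : L2 d) {T : ℝ}
    (hT : 0 < T) :
    T⁻¹ * ∫ s in (0 : ℝ)..T, ‖tp e η c n (W.U s ψ)‖ ^ 2 ≤
      ∑ k ∈ Finset.range n, ∑ k' ∈ Finset.range n,
        ‖ψ‖ * ‖avR W 0 (MW (fe e η ((k' : ℤ) - k))) T ψ‖ := by
  have hc : ∀ θ : Fin d → ℝ, Continuous fun s : ℝ => ⟪W.U s ψ, MW θ (W.U s ψ)⟫_ℂ := fun θ =>
    (W.cont' ψ).inner ((MW θ).continuous.comp (W.cont' ψ))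
  have h1 : ((T⁻¹ * ∫ s in (0 : ℝ)..T, ‖tp e η c n (W.U s ψ)‖ ^ 2 : ℝ) : ℂ) =
      ∑ k ∈ Finset.range n, ∑ k' ∈ Finset.range n,
      (conj (Complex.exp (Complex.I * ((-(k * (η * c)) : ℝ) : ℂ))) *
        Complex.exp (Complex.I * ((-(k' * (η * c)) : ℝ) : ℂ))) *
        ⟪ψ, avR W 0 (MW (fe e η ((k' : ℤ) - k))) T ψ⟫_ℂ := by
    rw [Complex.ofReal_mul, ← intervalIntegral.integral_ofReal]
    have e1 : ∀ s : ℝ, ((‖tp e η c n (W.U s ψ)‖ ^ 2 : ℝ) : ℂ) =
        ∑ k ∈ Finset.range n, ∑ k' ∈ Finset.range n,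
        (conj (Complex.exp (Complex.I * ((-(k * (η * c)) : ℝ) : ℂ))) *
          Complex.exp (Complex.I * ((-(k' * (η * c)) : ℝ) : ℂ))) *
          ⟪W.U s ψ, MW (fe e η ((k' : ℤ) - k)) (W.U s ψ)⟫_ℂ := fun s => tp_norm e η c n _
    have e2 : ∫ s in (0 : ℝ)..T, ((‖tp e η c n (W.U s ψ)‖ ^ 2 : ℝ) : ℂ) =
        ∑ k ∈ Finset.range n, ∑ k' ∈ Finset.range n,
        (conj (Complex.exp (Complex.I * ((-(k * (η * c)) : ℝ) : ℂ))) *
          Complex.exp (Complex.I * ((-(k' * (η * c)) : ℝ) : ℂ))) *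
          ∫ s in (0 : ℝ)..T, ⟪W.U s ψ, MW (fe e η ((k' : ℤ) - k)) (W.U s ψ)⟫_ℂ := by
      rw [intervalIntegral.integral_congr fun s _ => e1 s, intervalIntegral.integral_finsetSum]
      · refine Finset.sum_congr rfl fun k _ => ?_
        rw [intervalIntegral.integral_finsetSum]
        · refine Finset.sum_congr rfl fun k' _ => ?_
          rw [intervalIntegral.integral_const_mul]
        · intro k' _
          exact (continuous_const.mul (hc _)).intervalIntegrable _ _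
      · intro k _
        refine (continuous_finsetSum _ fun k' _ => ?_).intervalIntegrable _ _
        exact continuous_const.mul (hc _)
    rw [e2, Finset.mul_sum]
    refine Finset.sum_congr rfl fun k _ => ?_
    rw [Finset.mul_sum]
    refine Finset.sum_congr rfl fun k' _ => ?_
    rw [inner_avR, Complex.ofReal_inv]
    ring
  have h2 : T⁻¹ * ∫ s in (0 : ℝ)..T, ‖tp e η c n (W.U s ψ)‖ ^ 2 ≤
      ‖((T⁻¹ * ∫ s in (0 : ℝ)..T, ‖tp e η c n (W.U s ψ)‖ ^ 2 : ℝ) : ℂ)‖ := by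
    rw [Complex.norm_real]
    exact le_abs_self _
  refine h2.trans ?_
  rw [h1]
  refine (norm_sum_le _ _).trans (Finset.sum_le_sum fun k _ => ?_)
  refine (norm_sum_le _ _).trans (Finset.sum_le_sum fun k' _ => ?_)
  have hx : ∀ t : ℝ, ‖Complex.exp (Complex.I * (t : ℂ))‖ = 1 := by
    intro t
    rw [mul_comm, Complex.norm_exp_ofReal_mul_I]
  rw [norm_mul, norm_mul, RCLike.norm_conj, hx, hx, one_mul, one_mul]
  exact norm_inner_le_norm _ _

/-- the step used for width at most `k` -/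
noncomputable def et (e : Fin d → ℝ) (n k : ℕ) : ℝ :=
  (2 * (n : ℝ) * ((k : ℝ) + 1) * (1 + ∑ i, |e i|))⁻¹

theorem et_pos (e : Fin d → ℝ) (n k : ℕ) (hn : 1 ≤ n) : 0 < et e n k := by
  have hnR : (0 : ℝ) < n := by exact_mod_cast hn
  unfold et
  have : 0 ≤ ∑ i, |e i| := Finset.sum_nonneg fun i _ => abs_nonneg _
  positivity

theorem fe_nt (e : Fin d → ℝ) (he : e ≠ 0) (n k : ℕ) (hn : 1 ≤ n) (j : ℤ) (hj : j ≠ 0)
    (hjn : |j| ≤ n) : Nt (fe e (et e n k) j) := by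
  obtain ⟨i, hi⟩ := Function.ne_iff.1 he
  have hi' : e i ≠ 0 := hi
  refine ⟨i, fun m hm => ?_⟩
  have hη := et_pos e n k hn
  have hnR : (0 : ℝ) < n := by exact_mod_cast hn
  have h1 : |fe e (et e n k) j i| < 2 * Real.pi := by
    unfold fe
    rw [abs_mul, abs_mul, abs_of_pos hη]
    have h2 : |(j : ℝ)| ≤ n := by exact_mod_cast hjn
    have h3 : |e i| ≤ ∑ i, |e i| := Finset.single_le_sum (f := fun i => |e i|)
      (fun i _ => abs_nonneg _) (Finset.mem_univ i)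
    have h4 : (n : ℝ) * et e n k * |e i| ≤ 1 := by
      unfold et
      have hs : 0 ≤ ∑ i, |e i| := Finset.sum_nonneg fun i _ => abs_nonneg _
      rw [mul_assoc, inv_mul_eq_div, ← mul_div_assoc, div_le_one (by positivity)]
      have : (n : ℝ) * |e i| ≤ n * (1 + ∑ i, |e i|) :=
        mul_le_mul_of_nonneg_left (by linarith) hnR.le
      have h5 : (n : ℝ) * (1 + ∑ i, |e i|) ≤ 2 * n * (k + 1) * (1 + ∑ i, |e i|) := by
        have h6 : (1 : ℝ) ≤ 2 * ((k : ℝ) + 1) := by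
          have : (0 : ℝ) ≤ k := Nat.cast_nonneg k
          linarith
        have h7 : 0 ≤ (n : ℝ) * (1 + ∑ i, |e i|) := by positivity
        nlinarith
      linarith
    have h5 : |(j : ℝ)| * et e n k * |e i| ≤ n * et e n k * |e i| := by gcongr
    have := Real.pi_gt_three
    linarith
  have h2 : m = 0 := by
    rw [hm, abs_mul, abs_of_pos (by positivity : 0 < 2 * Real.pi)] at h1
    have h3 : |(m : ℝ)| < 1 := by
      have hp : 0 < 2 * Real.pi := by positivity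
      by_contra h
      push Not at h
      nlinarith
    have h4 : |m| < 1 := by exact_mod_cast h3
    rwa [Int.abs_lt_one_iff] at h4
  rw [h2] at hm
  unfold fe at hm
  simp only [Int.cast_zero, mul_zero, mul_eq_zero, Int.cast_eq_zero] at hm
  rcases hm with (h | h) | h
  · exact hj h
  · exact hη.ne' h
  · exact hi' h

/-- the mass in slabs of bounded width tends to zero, uniformly in the position of the slab -/
theorem slab_tendsto (W : NB.UG (L2 d)) (e : Fin d → ℝ) (ψ : L2 d)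
    (hz : ∀ (n k : ℕ) (j : ℤ), 1 ≤ n → j ≠ 0 → |j| ≤ n →
      Tendsto (fun T : ℝ => avR W 0 (MW (fe e (et e n k) j)) T ψ) atTop (𝓝 0))
    (w ε : ℝ) (hε : 0 < ε) :
    ∃ T₀ : ℝ, ∀ T : ℝ, T₀ ≤ T → ∀ c : ℝ, T⁻¹ * ∫ s in (0 : ℝ)..T,
      ms {x : NB.Site d | |∑ i, e i * (x i : ℝ) - c| ≤ w} (W.U s ψ) ≤ ε := by
  classical
  obtain ⟨k, hk⟩ := exists_nat_ge w
  obtain ⟨n₀, hn₀⟩ := exists_nat_gt (8 * ‖ψ‖ ^ 2 / ε)
  set n : ℕ := n₀ + 1 with hn
  have hn1 : 1 ≤ n := by omega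
  have hnR : (0 : ℝ) < n := by exact_mod_cast hn1
  have hnb : 4 * ‖ψ‖ ^ 2 / n < ε / 2 := by
    have h1 : 8 * ‖ψ‖ ^ 2 / ε < n := hn₀.trans (by rw [hn]; push_cast; linarith)
    rw [div_lt_iff₀ hε] at h1
    rw [div_lt_iff₀ hnR]
    linarith
  set η := et e n k with hη
  have hη0 : 0 < η := et_pos e n k hn1
  have hw : 2 * n * (η * w) ≤ 1 := by
    have hs : 0 ≤ ∑ i, |e i| := Finset.sum_nonneg fun i _ => abs_nonneg _
    have h1 : 2 * (n : ℝ) * (η * w) ≤ 2 * n * (η * (k + 1)) := by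
      have : w ≤ k + 1 := by linarith
      gcongr
    refine h1.trans ?_
    have h2 : 2 * (n : ℝ) * (η * (k + 1)) = (1 + ∑ i, |e i|)⁻¹ := by
      rw [hη]
      unfold et
      have hk0 : (0 : ℝ) < (k : ℝ) + 1 := by positivity
      have hs1 : (0 : ℝ) < 1 + ∑ i, |e i| := by positivity
      rw [mul_inv]
      field_simp
    rw [h2]
    exact inv_le_one_of_one_le₀ (by linarith)
  -- the off diagonal terms
  have hoff : Tendsto (fun T : ℝ => ∑ a ∈ Finset.range n, ∑ b ∈ (Finset.range n).erase a,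
      ‖ψ‖ * ‖avR W 0 (MW (fe e η ((b : ℤ) - a))) T ψ‖) atTop
      (𝓝 (∑ a ∈ Finset.range n, ∑ _b ∈ (Finset.range n).erase a, (0 : ℝ))) := by
    refine tendsto_finsetSum _ fun a ha => tendsto_finsetSum _ fun b hb => ?_
    obtain ⟨hb1, hb2⟩ := Finset.mem_erase.1 hb
    have ha' := Finset.mem_range.1 ha
    have hb' := Finset.mem_range.1 hb2
    have h1 := hz n k ((b : ℤ) - a) hn1 (by omega) (by
      rw [abs_le]
      omega)
    have h2 := (h1.norm).const_mul ‖ψ‖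
    rw [norm_zero, mul_zero] at h2
    exact h2
  simp only [Finset.sum_const_zero] at hoff
  have h3 := (hoff.const_mul (4 / (n : ℝ) ^ 2))
  rw [mul_zero] at h3
  obtain ⟨T₀, hT₀⟩ := (h3.eventually (gt_mem_nhds (half_pos hε))).exists_forall_of_atTop
  refine ⟨max T₀ 1, fun T hT c => ?_⟩
  have hTp : 0 < T := lt_of_lt_of_le one_pos ((le_max_right _ _).trans hT)
  have h4 := hT₀ T ((le_max_left _ _).trans hT)
  obtain ⟨E, _, _, hE⟩ := ms_eq {x : NB.Site d | |∑ i, e i * (x i : ℝ) - c| ≤ w}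
  have hcm : Continuous fun s : ℝ => ms {x : NB.Site d | |∑ i, e i * (x i : ℝ) - c| ≤ w}
      (W.U s ψ) := by
    simp_rw [hE]
    exact ((E.continuous.comp (W.cont' ψ)).norm).pow 2
  have hct : Continuous fun s : ℝ => (4 / (n : ℝ) ^ 2) * ‖tp e η c n (W.U s ψ)‖ ^ 2 := by
    refine continuous_const.mul ((Continuous.norm ?_).pow 2)
    unfold tp
    refine continuous_finsetSum _ fun k _ => ?_
    have hk : Continuous fun s : ℝ => MW (fe e η (k : ℤ)) (W.U s ψ) :=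
      (MW (fe e η (k : ℤ))).continuous.comp (W.cont' ψ)
    exact hk.const_smul (Complex.exp (Complex.I * ((-(k * (η * c)) : ℝ) : ℂ)))
  have h5 : ∫ s in (0 : ℝ)..T, ms {x : NB.Site d | |∑ i, e i * (x i : ℝ) - c| ≤ w} (W.U s ψ) ≤
      ∫ s in (0 : ℝ)..T, (4 / (n : ℝ) ^ 2) * ‖tp e η c n (W.U s ψ)‖ ^ 2 :=
    intervalIntegral.integral_mono_on hTp.le (hcm.intervalIntegrable _ _)
      (hct.intervalIntegrable _ _) fun s _ => slab_le e η c w n hη0 hn1 hw _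
  rw [intervalIntegral.integral_const_mul] at h5
  have h6 := tp_avg W e η c n ψ hTp
  have h7 : ∑ a ∈ Finset.range n, ∑ b ∈ Finset.range n,
      ‖ψ‖ * ‖avR W 0 (MW (fe e η ((b : ℤ) - a))) T ψ‖ ≤ n * ‖ψ‖ ^ 2 +
      ∑ a ∈ Finset.range n, ∑ b ∈ (Finset.range n).erase a,
      ‖ψ‖ * ‖avR W 0 (MW (fe e η ((b : ℤ) - a))) T ψ‖ := by
    have h8 : ∀ a ∈ Finset.range n, ∑ b ∈ Finset.range n,
        ‖ψ‖ * ‖avR W 0 (MW (fe e η ((b : ℤ) - a))) T ψ‖ ≤ ‖ψ‖ ^ 2 +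
        ∑ b ∈ (Finset.range n).erase a,
        ‖ψ‖ * ‖avR W 0 (MW (fe e η ((b : ℤ) - a))) T ψ‖ := by
      intro a ha
      rw [← Finset.add_sum_erase _ _ ha]
      refine add_le_add ?_ le_rfl
      rw [pow_two]
      refine mul_le_mul_of_nonneg_left ?_ (norm_nonneg _)
      refine (avR_norm _ _ _ hTp _).trans ?_
      have : ‖MW (fe e η ((a : ℤ) - a))‖ ≤ 1 :=
        ContinuousLinearMap.opNorm_le_bound _ zero_le_one fun u => by
          rw [one_mul]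
          exact MW_norm _ u
      calc _ ≤ 1 * ‖ψ‖ := mul_le_mul_of_nonneg_right this (norm_nonneg _)
        _ = ‖ψ‖ := one_mul _
    refine (Finset.sum_le_sum h8).trans (le_of_eq ?_)
    rw [Finset.sum_add_distrib, Finset.sum_const, Finset.card_range, nsmul_eq_mul]
  have hn4 : (0 : ℝ) ≤ 4 / (n : ℝ) ^ 2 := by positivity
  calc T⁻¹ * ∫ s in (0 : ℝ)..T, ms {x : NB.Site d | |∑ i, e i * (x i : ℝ) - c| ≤ w} (W.U s ψ)
      ≤ T⁻¹ * ((4 / (n : ℝ) ^ 2) * ∫ s in (0 : ℝ)..T, ‖tp e η c n (W.U s ψ)‖ ^ 2) :=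
        mul_le_mul_of_nonneg_left h5 (by positivity)
    _ = (4 / (n : ℝ) ^ 2) * (T⁻¹ * ∫ s in (0 : ℝ)..T, ‖tp e η c n (W.U s ψ)‖ ^ 2) := by ring
    _ ≤ (4 / (n : ℝ) ^ 2) * (n * ‖ψ‖ ^ 2 +
      ∑ a ∈ Finset.range n, ∑ b ∈ (Finset.range n).erase a,
      ‖ψ‖ * ‖avR W 0 (MW (fe e η ((b : ℤ) - a))) T ψ‖) :=
        mul_le_mul_of_nonneg_left (h6.trans h7) hn4
    _ = 4 * ‖ψ‖ ^ 2 / n + (4 / (n : ℝ) ^ 2) *
      ∑ a ∈ Finset.range n, ∑ b ∈ (Finset.range n).erase a,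
      ‖ψ‖ * ‖avR W 0 (MW (fe e η ((b : ℤ) - a))) T ψ‖ := by
        rw [mul_add]
        congr 1
        field_simp
    _ ≤ ε / 2 + ε / 2 := add_le_add hnb.le h4.le
    _ = ε := by ring

end Pool.Agent.L7h83.WM
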