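import Pool.Agent.L7h83.WM.Fs

/-! # The almost sure statements -/

set_option autoImplicit false

open MeasureTheory Filter Topology
open scoped BigOperators ENNReal NNReal InnerProductSpace ComplexConjugate

namespace Pool.Agent.L7h83.WM

open Pool.Agent.TH980.IM Pool.Agent.H5R2 Pool.Agent.Y662.ERG Pool.Agent.R988

variable {d : ℕ} {ev : (NB.Site d → ℝ) → NB.UG (L2 d)} {A A' : NQ.OF d} {C K : ℝ}
variable {ν : Measure ℝ} [IsProbabilityMeasure ν]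

theorem ft_id : FT (d := d) (fun _ => 1) 1 (fun _ => ContinuousLinearMap.id ℂ (L2 d))
    (fun _ => ContinuousLinearMap.id ℂ (L2 d)) where
  adj _ _ _ := rfl
  bd _ ψ := by rw [one_mul]; exact le_rfl
  bd' _ ψ := by rw [one_mul]; exact le_rfl
  meas _ hf := hf
  meas' _ hf := hf
  chi _ := by simp
  cov _ _ _ _ _ := by rw [one_smul]; rfl
  cov' _ _ _ _ _ := by rw [map_one, one_smul]; rfl

/-- almost periodic functions -/
theorem ap_all (hd : 1 ≤ d) (hK : ∀ᵐ r ∂ν, |r| ≤ K) (hν : ∀ r : ℝ, ν {r} ≠ 1)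
    (hev : ∀ ω : NB.Site d → ℝ, NB.IsGrp (-1) (fun x => 2 * d + ω x) (ev ω))
    (hA : FT (fun _ => 1) C A A') {g : NB.Site d → ℂ} {m : ℂ} (hg : Ap g m)
    {E : L2 d →L[ℂ] L2 d} (hE : ∀ u x, (E u) x = g x * u x) :
    ∀ᵐ V ∂(NB.PP d ν), ∀ ψ, spm (HV_sa K V) ψ ≪ volume →
      Tendsto (fun T : ℝ => avR (ev V) 0 (E.comp (A V)) T ψ - m • avR (ev V) 0 (A V) T ψ) atTop
        (𝓝 0) := by
  choose F c hF1 hF2 using fun n : ℕ => hg (1 / ((n : ℝ) + 1)) (by positivity)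
  have h1 : ∀ᵐ V ∂(NB.PP d ν), ∀ n : ℕ, ∀ θ ∈ F n, ∀ ψ, spm (HV_sa K V) ψ ≪ volume →
      Tendsto (fun T : ℝ => avR (ev V) 0 ((MW θ).comp (A V)) T ψ) atTop (𝓝 0) := by
    rw [ae_all_iff]
    intro n
    rw [Filter.eventually_all_finset]
    intro θ hθ
    exact waves_int hd hK hν hev hA θ (Or.inr (hF1 n θ hθ).char)
  filter_upwards [h1] with V hV ψ hψ
  exact ap_tendsto (ev V) (A V) E hE ψ F c hF2 fun n θ hθ => hV n θ hθ ψ hψ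

/-- the mass as a quadratic form -/
theorem ms_inner (S : Set (NB.Site d)) (g : NB.Site d → ℂ) (hg : ∀ x ∈ S, g x = 1)
    (hg' : ∀ x, x ∉ S → g x = 0) {E : L2 d →L[ℂ] L2 d} (hE : ∀ u x, (E u) x = g x * u x)
    (u : L2 d) : ((ms S u : ℝ) : ℂ) = ⟪u, E u⟫_ℂ := by
  obtain ⟨E', h1, h2, h3⟩ := ms_eq S
  have e : E' = E := by
    ext u x
    rw [hE]
    by_cases hx : x ∈ S
    · rw [h1 x hx, hg x hx, one_mul]
    · rw [h2 x hx, hg' x hx, zero_mul]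
  rw [h3, e]
  have h4 : ((‖E u‖ ^ 2 : ℝ) : ℂ) = ⟪E u, E u⟫_ℂ := by
    rw [inner_self_eq_norm_sq_to_K]
    norm_cast
  rw [h4, lp.inner_eq_tsum, lp.inner_eq_tsum]
  refine tsum_congr fun x => ?_
  rw [hE]
  by_cases hx : x ∈ S
  · rw [hg x hx, one_mul]
  · rw [hg' x hx, zero_mul]
    simp

/-- residue classes -/
theorem res_all (hd : 1 ≤ d) (hK : ∀ᵐ r ∂ν, |r| ≤ K) (hν : ∀ r : ℝ, ν {r} ≠ 1)
    (hev : ∀ ω : NB.Site d → ℝ, NB.IsGrp (-1) (fun x => 2 * d + ω x) (ev ω)) :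
    ∀ᵐ V ∂(NB.PP d ν), ∀ ψ, spm (HV_sa K V) ψ ≪ volume → ∀ (m : ℕ), 1 ≤ m →
      ∀ r : NB.Site d, Tendsto (fun T : ℝ => T⁻¹ * ∫ s in (0 : ℝ)..T,
        ms {x : NB.Site d | ∀ i, x i ≡ r i [ZMOD m]} ((ev V).U s ψ)) atTop
        (𝓝 (‖ψ‖ ^ 2 / (m : ℝ) ^ d)) := by
  classical
  have h1 : ∀ (m : ℕ) (r : NB.Site d), ∀ᵐ V ∂(NB.PP d ν), 1 ≤ m → ∀ ψ,
      spm (HV_sa K V) ψ ≪ volume → Tendsto (fun T : ℝ => T⁻¹ * ∫ s in (0 : ℝ)..T,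
        ms {x : NB.Site d | ∀ i, x i ≡ r i [ZMOD m]} ((ev V).U s ψ)) atTop
        (𝓝 (‖ψ‖ ^ 2 / (m : ℝ) ^ d)) := by
    intro m r
    by_cases hm : 1 ≤ m
    swap
    · exact Eventually.of_forall fun V h => absurd h hm
    set g : NB.Site d → ℂ := fun x => if ∀ i, x i ≡ r i [ZMOD m] then 1 else 0 with hg
    have hg1 : ∀ x, (∀ i, x i ≡ r i [ZMOD m]) → g x = 1 := fun x hx => if_pos hx
    have hg2 : ∀ x, (¬ ∀ i, x i ≡ r i [ZMOD m]) → g x = 0 := fun x hx => if_neg hx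
    have hap := ap_res m hm r g hg1 hg2
    obtain ⟨R, hR0, hR⟩ := hap.bdd
    obtain ⟨E, hE, _⟩ := exists_mult g hR0.le hR
    filter_upwards [ap_all hd hK hν hev (ft_id (d := d)) hap hE] with V hV _ ψ hψ
    have h2 := hV ψ hψ
    have h3 : Tendsto (fun T : ℝ => avR (ev V) 0 E T ψ) atTop (𝓝 (((m : ℂ) ^ d)⁻¹ • ψ)) := by
      have h4 := h2.add_const (((m : ℂ) ^ d)⁻¹ • ψ)
      rw [zero_add] at h4
      refine h4.congr' ?_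
      filter_upwards [eventually_gt_atTop (0 : ℝ)] with T hT
      rw [avR_one (ev V) hT]
      show avR (ev V) 0 (E.comp (ContinuousLinearMap.id ℂ (L2 d))) T ψ - _ + _ = _
      rw [sub_add_cancel, ContinuousLinearMap.comp_id]
    have h4 : Tendsto (fun T : ℝ => (⟪ψ, avR (ev V) 0 E T ψ⟫_ℂ).re) atTop
        (𝓝 (⟪ψ, ((m : ℂ) ^ d)⁻¹ • ψ⟫_ℂ).re) :=
      (Complex.continuous_re.tendsto _).comp (tendsto_const_nhds.inner h3)
    have h5 : (⟪ψ, ((m : ℂ) ^ d)⁻¹ • ψ⟫_ℂ).re = ‖ψ‖ ^ 2 / (m : ℝ) ^ d := by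
      rw [inner_smul_right, inner_self_eq_norm_sq_to_K]
      have : ((m : ℂ) ^ d)⁻¹ * ((‖ψ‖ : ℝ) : ℂ) ^ 2 = ((‖ψ‖ ^ 2 / (m : ℝ) ^ d : ℝ) : ℂ) := by
        push_cast
        ring
      exact (congrArg Complex.re this).trans (Complex.ofReal_re _)
    rw [h5] at h4
    refine h4.congr fun T => ?_
    rw [inner_avR]
    have h6 : ∀ s : ℝ, ⟪(ev V).U s ψ, E ((ev V).U s ψ)⟫_ℂ =
        ((ms {x : NB.Site d | ∀ i, x i ≡ r i [ZMOD m]} ((ev V).U s ψ) : ℝ) : ℂ) := fun s =>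
      (ms_inner _ g hg1 hg2 hE _).symm
    simp_rw [h6]
    rw [intervalIntegral.integral_ofReal, ← Complex.ofReal_inv, ← Complex.ofReal_mul,
      Complex.ofReal_re]
  have h2 : ∀ᵐ V ∂(NB.PP d ν), ∀ (m : ℕ) (r : NB.Site d), 1 ≤ m → ∀ ψ,
      spm (HV_sa K V) ψ ≪ volume → Tendsto (fun T : ℝ => T⁻¹ * ∫ s in (0 : ℝ)..T,
        ms {x : NB.Site d | ∀ i, x i ≡ r i [ZMOD m]} ((ev V).U s ψ)) atTop
        (𝓝 (‖ψ‖ ^ 2 / (m : ℝ) ^ d)) := by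
    rw [ae_all_iff]
    intro m
    rw [ae_all_iff]
    intro r
    exact h1 m r
  filter_upwards [h2] with V hV ψ hψ m hm r
  exact hV m r hm ψ hψ

/-- slabs -/
theorem slab_all (hd : 1 ≤ d) (hK : ∀ᵐ r ∂ν, |r| ≤ K) (hν : ∀ r : ℝ, ν {r} ≠ 1)
    (hev : ∀ ω : NB.Site d → ℝ, NB.IsGrp (-1) (fun x => 2 * d + ω x) (ev ω))
    (e : Fin d → ℝ) (he : e ≠ 0) :
    ∀ᵐ V ∂(NB.PP d ν), ∀ ψ, spm (HV_sa K V) ψ ≪ volume → ∀ w ε : ℝ, 0 < ε →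
      ∃ T₀ : ℝ, ∀ T : ℝ, T₀ ≤ T → ∀ c : ℝ, T⁻¹ * ∫ s in (0 : ℝ)..T,
        ms {x : NB.Site d | |∑ i, e i * (x i : ℝ) - c| ≤ w} ((ev V).U s ψ) ≤ ε := by
  have h1 : ∀ᵐ V ∂(NB.PP d ν), ∀ (n k : ℕ) (j : ℤ), 1 ≤ n → j ≠ 0 → |j| ≤ n → ∀ ψ,
      spm (HV_sa K V) ψ ≪ volume →
      Tendsto (fun T : ℝ => avR (ev V) 0 (MW (fe e (et e n k) j)) T ψ) atTop (𝓝 0) := by
    rw [ae_all_iff]
    intro n
    rw [ae_all_iff]
    intro k
    rw [ae_all_iff]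
    intro j
    by_cases hn : 1 ≤ n
    swap
    · exact Eventually.of_forall fun V h => absurd h hn
    by_cases hj : j = 0
    · exact Eventually.of_forall fun V _ h => absurd hj h
    by_cases hjn : |j| ≤ n
    swap
    · exact Eventually.of_forall fun V _ _ h => absurd h hjn
    filter_upwards [waves_int hd hK hν hev (ft_id (d := d)) (fe e (et e n k) j) (l := 0)
      (Or.inr (fe_nt e he n k hn j hj hjn).char)] with V hV _ _ _ ψ hψ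
    exact hV ψ hψ
  filter_upwards [h1] with V hV ψ hψ w ε hε
  exact slab_tendsto (ev V) e ψ (fun n k j hn hj hjn => hV n k j hn hj hjn ψ hψ) w ε hε

end Pool.Agent.L7h83.WM
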