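import Pool.Agent.L7h83.WM.Mn2

/-! # Multiplication by plane waves -/

set_option autoImplicit false

open MeasureTheory Filter Topology
open scoped BigOperators ENNReal NNReal InnerProductSpace ComplexConjugate

namespace Pool.Agent.L7h83.WM

open Pool.Agent.TH980.IM Pool.Agent.H5R2 Pool.Agent.Y662.ERG

section mul

variable {ι : Type}

theorem mul_mem {g : ι → ℂ} (hg : ∀ x, ‖g x‖ ≤ 1) (u : NB.L2 ι) :
    Memℓp (fun x => g x * u x) 2 := by
  have h := lp.memℓp u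
  refine memℓp_gen ?_
  have h2 := (memℓp_gen_iff (p := 2) (by norm_num)).1 h
  refine Summable.of_nonneg_of_le (fun _ => by positivity) (fun x => ?_) h2
  refine Real.rpow_le_rpow (norm_nonneg _) ?_ (by norm_num)
  rw [norm_mul]
  exact mul_le_of_le_one_left (norm_nonneg _) (hg x)

/-- multiplication by a function bounded by one -/
noncomputable def mulF (g : ι → ℂ) (hg : ∀ x, ‖g x‖ ≤ 1) (u : NB.L2 ι) : NB.L2 ι :=
  ⟨fun x => g x * u x, mul_mem hg u⟩

theorem mulF_apply (g : ι → ℂ) (hg : ∀ x, ‖g x‖ ≤ 1) (u : NB.L2 ι) (x : ι) :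
    (mulF g hg u) x = g x * u x := rfl

theorem mulF_norm (g : ι → ℂ) (hg : ∀ x, ‖g x‖ ≤ 1) (u : NB.L2 ι) : ‖mulF g hg u‖ ≤ ‖u‖ := by
  refine lp.norm_mono (p := 2) (by norm_num) fun x => ?_
  rw [mulF_apply, norm_mul]
  exact mul_le_of_le_one_left (norm_nonneg _) (hg x)

/-- multiplication by a function bounded by one -/
noncomputable def mulL (g : ι → ℂ) (hg : ∀ x, ‖g x‖ ≤ 1) : NB.L2 ι →L[ℂ] NB.L2 ι :=
  LinearMap.mkContinuous
    { toFun := mulF g hg
      map_add' := fun u w => by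
        ext x
        show g x * (u x + w x) = g x * u x + g x * w x
        ring
      map_smul' := fun c u => by
        ext x
        show g x * (c * u x) = c * (g x * u x)
        ring } 1 fun u => by
      rw [one_mul]
      exact mulF_norm g hg u

theorem mulL_apply (g : ι → ℂ) (hg : ∀ x, ‖g x‖ ≤ 1) (u : NB.L2 ι) (x : ι) :
    (mulL g hg u) x = g x * u x := rfl

theorem mulL_norm (g : ι → ℂ) (hg : ∀ x, ‖g x‖ ≤ 1) (u : NB.L2 ι) : ‖mulL g hg u‖ ≤ ‖u‖ :=
  mulF_norm g hg u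

theorem mulL_adj (g : ι → ℂ) (hg : ∀ x, ‖g x‖ ≤ 1) (hg' : ∀ x, ‖conj (g x)‖ ≤ 1)
    (u w : NB.L2 ι) : ⟪mulL g hg u, w⟫_ℂ = ⟪u, mulL (fun x => conj (g x)) hg' w⟫_ℂ := by
  rw [lp.inner_eq_tsum, lp.inner_eq_tsum]
  refine tsum_congr fun x => ?_
  rw [mulL_apply, mulL_apply]
  simp only [RCLike.inner_apply, map_mul]
  ring

end mul

/-- the plane wave `e^{iθ·x}` -/
noncomputable def wv {d : ℕ} (θ : Fin d → ℝ) (x : NB.Site d) : ℂ :=
  Complex.exp (Complex.I * ((∑ i, θ i * x i : ℝ) : ℂ))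

variable {d : ℕ}

theorem wv_norm (θ : Fin d → ℝ) (x : NB.Site d) : ‖wv θ x‖ = 1 := by
  unfold wv
  rw [mul_comm, Complex.norm_exp_ofReal_mul_I]

theorem wv_add (θ : Fin d → ℝ) (x z : NB.Site d) : wv θ (x + z) = wv θ x * wv θ z := by
  unfold wv
  have h : (∑ i, θ i * ((x + z) i : ℝ)) = (∑ i, θ i * (x i : ℝ)) + ∑ i, θ i * (z i : ℝ) := by
    rw [← Finset.sum_add_distrib]
    refine Finset.sum_congr rfl fun i _ => ?_
    rw [Pi.add_apply, Int.cast_add, mul_add]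
  rw [h, Complex.ofReal_add, mul_add, Complex.exp_add]

theorem wv_conj (θ : Fin d → ℝ) (x : NB.Site d) : conj (wv θ x) * wv θ x = 1 := by
  rw [mul_comm, Complex.mul_conj, Complex.normSq_eq_norm_sq, wv_norm]
  simp

theorem wv_conj_norm (θ : Fin d → ℝ) (x : NB.Site d) : ‖conj (wv θ x)‖ = 1 := by
  rw [RCLike.norm_conj, wv_norm]

/-- multiplication by the plane wave -/
noncomputable def MW (θ : Fin d → ℝ) : L2 d →L[ℂ] L2 d := mulL (wv θ) fun x => (wv_norm θ x).le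

/-- multiplication by the conjugate plane wave -/
noncomputable def MWc (θ : Fin d → ℝ) : L2 d →L[ℂ] L2 d :=
  mulL (fun x => conj (wv θ x)) fun x => (wv_conj_norm θ x).le

theorem MW_apply (θ : Fin d → ℝ) (u : L2 d) (x : NB.Site d) : (MW θ u) x = wv θ x * u x := rfl

theorem MWc_apply (θ : Fin d → ℝ) (u : L2 d) (x : NB.Site d) :
    (MWc θ u) x = conj (wv θ x) * u x := rfl

theorem MW_norm (θ : Fin d → ℝ) (u : L2 d) : ‖MW θ u‖ ≤ ‖u‖ := mulL_norm _ _ _

theorem MWc_norm (θ : Fin d → ℝ) (u : L2 d) : ‖MWc θ u‖ ≤ ‖u‖ := mulL_norm _ _ _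

theorem obsT_of {v0 : (NB.Site d → ℝ) → L2 d →L[ℂ] L2 d} {M : ℝ} (hO : Obs d v0 M)
    (θ : Fin d → ℝ) :
    ObsT d (fun z => conj (wv θ z)) (fun V => (MW θ).comp (v0 V)) (fun V => (v0 V).comp (MWc θ))
      M where
  adj V x y := by
    show ⟪MW θ (v0 V x), y⟫_ℂ = ⟪x, v0 V (MWc θ y)⟫_ℂ
    rw [← hO.symm]
    exact mulL_adj _ _ _ _ _
  bound V x := (MW_norm θ _).trans (hO.bound V x)
  boundw V x := by
    refine (hO.bound V _).trans (mul_le_mul_of_nonneg_left (MWc_norm θ _) hO.nn)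
  cont := (MW θ).continuous.comp hO.cont
  contw := by
    have h : Continuous fun p : (NB.Site d → ℝ) × L2 d => (p.1, MWc θ p.2) :=
      continuous_fst.prodMk ((MWc θ).continuous.comp continuous_snd)
    exact hO.cont.comp h
  chi z := wv_conj_norm θ z
  mul z z' := by rw [wv_add, map_mul]
  cov z S hS V ψ := by
    show MW θ (v0 (fun y => V (y + z)) (S ψ)) = conj (wv θ z) • S (MW θ (v0 V ψ))
    rw [hO.cov z S hS]
    ext x
    rw [MW_apply, hS, lp.coeFn_smul, Pi.smul_apply, hS, MW_apply, wv_add, smul_eq_mul]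
    have := wv_conj θ z
    linear_combination (-(wv θ x * (v0 V ψ) (x + z))) * this
  covw z S hS V ψ := by
    show v0 (fun y => V (y + z)) (MWc θ (S ψ)) = conj (conj (wv θ z)) • S (v0 V (MWc θ ψ))
    have h : MWc θ (S ψ) = wv θ z • S (MWc θ ψ) := by
      ext x
      rw [MWc_apply, hS, lp.coeFn_smul, Pi.smul_apply, hS, MWc_apply, wv_add, smul_eq_mul, map_mul]
      have := wv_conj θ z
      linear_combination (-(conj (wv θ x) * ψ (x + z))) * this
    rw [h, map_smul, hO.cov z S hS, Complex.conj_conj]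
  loc V κ := by
    obtain ⟨F, C, h⟩ := hO.loc V κ
    refine ⟨F, C, fun ψ => ?_⟩
    show ‖MW θ (v0 (Function.update V 0 κ) ψ) - MW θ (v0 V ψ)‖ ≤ _
    rw [← map_sub]
    exact (MW_norm θ _).trans (h ψ)
  locw V κ := by
    obtain ⟨F, C, h⟩ := hO.loc V κ
    refine ⟨F, C, fun ψ => (h (MWc θ ψ)).trans (le_of_eq ?_)⟩
    congr 1
    refine Finset.sum_congr rfl fun x _ => ?_
    rw [NB.STAT.inner_dl, NB.STAT.inner_dl, MWc_apply, norm_mul, wv_conj_norm, one_mul]

theorem wv_single (θ : Fin d → ℝ) (i : Fin d) :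
    wv θ (Pi.single i 1) = Complex.exp (Complex.I * (θ i : ℂ)) := by
  unfold wv
  congr 3
  rw [Finset.sum_eq_single i]
  · simp
  · intro j _ hj
    rw [Pi.single_eq_of_ne hj]
    simp
  · simp

/-- the character is not trivial -/
theorem wv_ne (θ : Fin d → ℝ) (i : Fin d) (hi : ∀ n : ℤ, θ i ≠ 2 * Real.pi * n) :
    ∃ z, conj (wv θ z) ≠ 1 := by
  refine ⟨Pi.single i 1, fun h => ?_⟩
  have h2 : wv θ (Pi.single i 1) = 1 := by
    have := congrArg conj h
    simpa using this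
  rw [wv_single, Complex.exp_eq_one_iff] at h2
  obtain ⟨n, hn⟩ := h2
  refine hi n ?_
  have h3 : Complex.I * (θ i : ℂ) = Complex.I * ((2 * Real.pi * n : ℝ) : ℂ) := by
    rw [hn]
    push_cast
    ring
  have h4 := mul_left_cancel₀ Complex.I_ne_zero h3
  exact_mod_cast h4

end Pool.Agent.L7h83.WM
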