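import Pool.Agent.R988.NQ.QAll
import Pool.Agent.L7h83.WM.Wav

/-! # Measurable fields of operators which are covariant up to a character -/

set_option autoImplicit false

open MeasureTheory Filter Topology
open scoped BigOperators ENNReal NNReal InnerProductSpace ComplexConjugate

namespace Pool.Agent.L7h83.WM

open Pool.Agent.TH980.IM Pool.Agent.H5R2 Pool.Agent.Y662.ERG Pool.Agent.R988

variable {d : ℕ}

/-- `A` is a measurable field of operators of norm at most `C`, covariant up to the character `χ`;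
the adjoint field is `A'` -/
structure FT (χ : NB.Site d → ℂ) (C : ℝ) (A A' : NQ.OF d) : Prop where
  adj : ∀ V f g, ⟪A V f, g⟫_ℂ = ⟪f, A' V g⟫_ℂ
  bd : ∀ V ψ, ‖A V ψ‖ ≤ C * ‖ψ‖
  bd' : ∀ V ψ, ‖A' V ψ‖ ≤ C * ‖ψ‖
  meas : ∀ f : (NB.Site d → ℝ) → L2 d, StronglyMeasurable f →
    StronglyMeasurable fun V => A V (f V)
  meas' : ∀ f : (NB.Site d → ℝ) → L2 d, StronglyMeasurable f →
    StronglyMeasurable fun V => A' V (f V)
  chi : ∀ z, ‖χ z‖ = 1
  cov : ∀ (z : NB.Site d) (S : L2 d →L[ℂ] L2 d), NB.IsShift z S → ∀ V ψ,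
    A (fun y => V (y + z)) (S ψ) = χ z • S (A V ψ)
  cov' : ∀ (z : NB.Site d) (S : L2 d →L[ℂ] L2 d), NB.IsShift z S → ∀ V ψ,
    A' (fun y => V (y + z)) (S ψ) = conj (χ z) • S (A' V ψ)

variable {χ χ₁ χ₂ : NB.Site d → ℂ} {C C₁ C₂ : ℝ} {A A' A₁ A₁' A₂ A₂' : NQ.OF d}

theorem FT.swap (h : FT χ C A A') : FT (fun z => conj (χ z)) C A' A where
  adj V f g := by rw [← inner_conj_symm, ← h.adj, inner_conj_symm]
  bd := h.bd'
  bd' := h.bd
  meas := h.meas'
  meas' := h.meas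
  chi z := by rw [RCLike.norm_conj]; exact h.chi z
  cov := h.cov'
  cov' z S hS V ψ := by rw [Complex.conj_conj]; exact h.cov z S hS V ψ

theorem FT.nn (h : FT χ C A A') : 0 ≤ C := by
  have h1 := h.bd 0 (NB.dl 0)
  rw [NB.STAT.norm_dl, mul_one] at h1
  exact (norm_nonneg _).trans h1

theorem FT.opn (h : FT χ C A A') (V : NB.Site d → ℝ) : ‖A V‖ ≤ C :=
  ContinuousLinearMap.opNorm_le_bound _ h.nn (h.bd V)

theorem FT.mul (h₁ : FT χ₁ C₁ A₁ A₁') (h₂ : FT χ₂ C₂ A₂ A₂') :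
    FT (fun z => χ₁ z * χ₂ z) (C₁ * C₂) (fun V => (A₁ V).comp (A₂ V))
      (fun V => (A₂' V).comp (A₁' V)) where
  adj V f g := by
    show ⟪A₁ V (A₂ V f), g⟫_ℂ = ⟪f, A₂' V (A₁' V g)⟫_ℂ
    rw [h₁.adj, h₂.adj]
  bd V ψ := by
    show ‖A₁ V (A₂ V ψ)‖ ≤ C₁ * C₂ * ‖ψ‖
    rw [mul_assoc]
    exact (h₁.bd V _).trans (mul_le_mul_of_nonneg_left (h₂.bd V ψ) h₁.nn)
  bd' V ψ := by
    show ‖A₂' V (A₁' V ψ)‖ ≤ C₁ * C₂ * ‖ψ‖
    rw [mul_comm C₁, mul_assoc]
    exact (h₂.bd' V _).trans (mul_le_mul_of_nonneg_left (h₁.bd' V ψ) h₂.nn)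
  meas f hf := h₁.meas _ (h₂.meas f hf)
  meas' f hf := h₂.meas' _ (h₁.meas' f hf)
  chi z := by rw [norm_mul, h₁.chi, h₂.chi, one_mul]
  cov z S hS V ψ := by
    show A₁ _ (A₂ _ (S ψ)) = _ • S (A₁ V (A₂ V ψ))
    rw [h₂.cov z S hS, map_smul, h₁.cov z S hS, smul_smul, mul_comm]
  cov' z S hS V ψ := by
    show A₂' _ (A₁' _ (S ψ)) = _ • S (A₂' V (A₁' V ψ))
    rw [h₁.cov' z S hS, map_smul, h₂.cov' z S hS, smul_smul, map_mul]

/-- difference of two fields with the same character -/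
theorem FT.sub (h₁ : FT χ C₁ A₁ A₁') (h₂ : FT χ C₂ A₂ A₂') :
    FT χ (C₁ + C₂) (fun V => A₁ V - A₂ V) (fun V => A₁' V - A₂' V) where
  adj V f g := by
    show ⟪A₁ V f - A₂ V f, g⟫_ℂ = ⟪f, A₁' V g - A₂' V g⟫_ℂ
    rw [inner_sub_left, inner_sub_right, h₁.adj, h₂.adj]
  bd V ψ := by
    show ‖A₁ V ψ - A₂ V ψ‖ ≤ (C₁ + C₂) * ‖ψ‖
    rw [add_mul]
    exact (norm_sub_le _ _).trans (add_le_add (h₁.bd V ψ) (h₂.bd V ψ))
  bd' V ψ := by
    show ‖A₁' V ψ - A₂' V ψ‖ ≤ (C₁ + C₂) * ‖ψ‖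
    rw [add_mul]
    exact (norm_sub_le _ _).trans (add_le_add (h₁.bd' V ψ) (h₂.bd' V ψ))
  meas f hf := (h₁.meas f hf).sub (h₂.meas f hf)
  meas' f hf := (h₁.meas' f hf).sub (h₂.meas' f hf)
  chi := h₁.chi
  cov z S hS V ψ := by
    show A₁ _ (S ψ) - A₂ _ (S ψ) = χ z • S (A₁ V ψ - A₂ V ψ)
    rw [h₁.cov z S hS, h₂.cov z S hS, map_sub, smul_sub]
  cov' z S hS V ψ := by
    show A₁' _ (S ψ) - A₂' _ (S ψ) = conj (χ z) • S (A₁' V ψ - A₂' V ψ)
    rw [h₁.cov' z S hS, h₂.cov' z S hS, map_sub, smul_sub]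

/-- a covariant field in the sense of `NQ` -/
theorem FT.fld (h : FT χ C A A') (h1 : ∀ z, χ z = 1) : NQ.Fld C A where
  bd := h.bd
  meas := h.meas
  cov z S hS V ψ := by rw [h.cov z S hS, h1, one_smul]

theorem FT.congr_chi (h : FT χ C A A') {χ' : NB.Site d → ℂ} (hχ : ∀ z, χ z = χ' z) :
    FT χ' C A A' := by
  have : χ = χ' := funext hχ
  rwa [← this]

/-- fields with almost everywhere measurable matrix elements -/
theorem exists_mod (ν : Measure ℝ) [IsProbabilityMeasure ν]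
    (adj : ∀ V f g, ⟪A V f, g⟫_ℂ = ⟪f, A' V g⟫_ℂ)
    (bd : ∀ V ψ, ‖A V ψ‖ ≤ C * ‖ψ‖) (bd' : ∀ V ψ, ‖A' V ψ‖ ≤ C * ‖ψ‖)
    (hm : ∀ x, AEStronglyMeasurable (fun V => A V (NB.dl x)) (NB.PP d ν))
    (chi : ∀ z, ‖χ z‖ = 1)
    (cov : ∀ (z : NB.Site d) (S : L2 d →L[ℂ] L2 d), NB.IsShift z S → ∀ V ψ,
      A (fun y => V (y + z)) (S ψ) = χ z • S (A V ψ))
    (cov' : ∀ (z : NB.Site d) (S : L2 d →L[ℂ] L2 d), NB.IsShift z S → ∀ V ψ,
      A' (fun y => V (y + z)) (S ψ) = conj (χ z) • S (A' V ψ)) :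
    ∃ A₀ A₀' : NQ.OF d, FT χ C A₀ A₀' ∧
      (∀ᵐ V ∂(NB.PP d ν), A₀ V = A V ∧ A₀' V = A' V) ∧
      ∀ V, (A₀ V = A V ∧ A₀' V = A' V) ∨ (A₀ V = 0 ∧ A₀' V = 0) := by
  classical
  have hC : 0 ≤ C := by
    have h1 := bd 0 (NB.dl 0)
    rw [NB.STAT.norm_dl, mul_one] at h1
    exact (norm_nonneg _).trans h1
  choose m hm1 hm2 using hm
  have hN : NB.PP d ν {V | ¬ ∀ x, A V (NB.dl x) = m x V} = 0 := by
    have h1 : ∀ᵐ V ∂(NB.PP d ν), ∀ x, A V (NB.dl x) = m x V := ae_all_iff.2 hm2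
    exact h1
  set N : Set (NB.Site d → ℝ) := toMeasurable (NB.PP d ν) {V | ¬ ∀ x, A V (NB.dl x) = m x V}
    with hNdef
  have hN1 : MeasurableSet N := measurableSet_toMeasurable _ _
  have hN2 : NB.PP d ν N = 0 := by rw [hNdef, measure_toMeasurable, hN]
  have hN3 : ∀ V, V ∉ N → ∀ x, A V (NB.dl x) = m x V := by
    intro V hV
    by_contra h
    exact hV (subset_toMeasurable _ _ h)
  set G : Set (NB.Site d → ℝ) := {V | ∀ z : NB.Site d, (fun y => V (y + z)) ∉ N} with hG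
  have hmp : ∀ z : NB.Site d, MeasurePreserving (fun (V : NB.Site d → ℝ) (y : NB.Site d) => V (y + z))
      (NB.PP d ν) (NB.PP d ν) := (NB.t_RES d ν).2
  have hG1 : MeasurableSet G := by
    have e : G = ⋂ z : NB.Site d, (fun (V : NB.Site d → ℝ) (y : NB.Site d) => V (y + z)) ⁻¹' Nᶜ := by
      ext V
      simp only [hG, Set.mem_iInter, Set.mem_preimage, Set.mem_compl_iff]
      rfl
    rw [e]
    exact MeasurableSet.iInter fun z => (hmp z).measurable hN1.compl
  have hG2 : ∀ᵐ V ∂(NB.PP d ν), V ∈ G := by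
    have h1 : ∀ᵐ V ∂(NB.PP d ν), V ∉ N := measure_eq_zero_iff_ae_notMem.1 hN2
    have h2 : ∀ᵐ V ∂(NB.PP d ν), ∀ z : NB.Site d, (fun y => V (y + z)) ∉ N := by
      rw [ae_all_iff]
      intro z
      exact (hmp z).quasiMeasurePreserving.ae h1
    exact h2
  have hG3 : ∀ (z : NB.Site d) (V : NB.Site d → ℝ), V ∈ G ↔ (fun y => V (y + z)) ∈ G := by
    intro z V
    constructor
    · intro h z'
      have := h (z' + z)
      show (fun y => V (y + z' + z)) ∉ N
      simpa only [add_assoc] using this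
    · intro h z'
      have := h (z' - z)
      have e : (fun y => (fun y' => V (y' + z)) (y + (z' - z))) = fun y => V (y + z') := by
        funext y
        show V (y + (z' - z) + z) = V (y + z')
        rw [add_assoc, sub_add_cancel]
      rwa [e] at this
  have hG4 : ∀ V ∈ G, ∀ x, A V (NB.dl x) = m x V := by
    intro V hV
    have := hV 0
    simp only [add_zero] at this
    exact hN3 V this
  have mA : ∀ y, StronglyMeasurable fun V => (if V ∈ G then A V else 0) (NB.dl y : L2 d) := by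
    intro y
    have e : (fun V => (if V ∈ G then A V else 0) (NB.dl y : L2 d)) = G.indicator (m y) := by
      funext V
      by_cases hV : V ∈ G
      · rw [if_pos hV, Set.indicator_of_mem hV, hG4 V hV]
      · rw [if_neg hV, Set.indicator_of_notMem hV]
        rfl
    rw [e]
    exact (hm1 y).indicator hG1
  have mA' : ∀ x, StronglyMeasurable fun V => (if V ∈ G then A' V else 0) (NB.dl x : L2 d) := by
    intro x
    refine NQ.sm_of_coord _ fun y => ?_
    have e : (fun V => ((if V ∈ G then A' V else 0) (NB.dl x : L2 d)) y) =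
        fun V => conj (((if V ∈ G then A V else 0) (NB.dl y : L2 d)) x) := by
      funext V
      by_cases hV : V ∈ G
      · rw [if_pos hV, if_pos hV, ← NB.STAT.inner_dl y, ← adj, ← inner_conj_symm,
          NB.STAT.inner_dl]
      · rw [if_neg hV, if_neg hV]
        simp
    rw [e]
    exact (Complex.continuous_conj.comp_stronglyMeasurable
      ((NB.STAT.cont_eval x).comp_stronglyMeasurable (mA y))).measurable
  refine ⟨fun V => if V ∈ G then A V else 0, fun V => if V ∈ G then A' V else 0,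
    ⟨fun V f g => ?_, fun V ψ => ?_, fun V ψ => ?_, fun f hf => ?_, fun f hf => ?_, chi,
      fun z S hS V ψ => ?_, fun z S hS V ψ => ?_⟩, ?_, fun V => ?_⟩
  · by_cases hV : V ∈ G
    · simp only [if_pos hV]
      exact adj V f g
    · simp only [if_neg hV]
      simp
  · by_cases hV : V ∈ G
    · simp only [if_pos hV]
      exact bd V ψ
    · simp only [if_neg hV]
      simp only [ContinuousLinearMap.zero_apply, norm_zero]
      positivity
  · by_cases hV : V ∈ G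
    · simp only [if_pos hV]
      exact bd' V ψ
    · simp only [if_neg hV]
      simp only [ContinuousLinearMap.zero_apply, norm_zero]
      positivity
  · refine NQ.sm_of_coord _ fun x => ?_
    have e : (fun V => ((if V ∈ G then A V else 0) (f V)) x) =
        fun V => ⟪(if V ∈ G then A' V else 0) (NB.dl x : L2 d), f V⟫_ℂ := by
      funext V
      rw [← NB.STAT.inner_dl x]
      by_cases hV : V ∈ G
      · rw [if_pos hV, if_pos hV, ← inner_conj_symm, adj, inner_conj_symm]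
      · rw [if_neg hV, if_neg hV]
        simp
    rw [e]
    exact ((mA' x).inner hf).measurable
  · refine NQ.sm_of_coord _ fun x => ?_
    have e : (fun V => ((if V ∈ G then A' V else 0) (f V)) x) =
        fun V => ⟪(if V ∈ G then A V else 0) (NB.dl x : L2 d), f V⟫_ℂ := by
      funext V
      rw [← NB.STAT.inner_dl x]
      by_cases hV : V ∈ G
      · rw [if_pos hV, if_pos hV, adj]
      · rw [if_neg hV, if_neg hV]
        simp
    rw [e]
    exact ((mA x).inner hf).measurable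
  · by_cases hV : V ∈ G
    · have hV' := (hG3 z V).1 hV
      simp only [if_pos hV, if_pos hV']
      exact cov z S hS V ψ
    · have hV' : (fun y => V (y + z)) ∉ G := fun h => hV ((hG3 z V).2 h)
      simp only [if_neg hV, if_neg hV']
      simp
  · by_cases hV : V ∈ G
    · have hV' := (hG3 z V).1 hV
      simp only [if_pos hV, if_pos hV']
      exact cov' z S hS V ψ
    · have hV' : (fun y => V (y + z)) ∉ G := fun h => hV ((hG3 z V).2 h)
      simp only [if_neg hV, if_neg hV']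
      simp
  · filter_upwards [hG2] with V hV
    exact ⟨if_pos hV, if_pos hV⟩
  · by_cases hV : V ∈ G
    · exact Or.inl ⟨if_pos hV, if_pos hV⟩
    · exact Or.inr ⟨if_neg hV, if_neg hV⟩

/-- a field of projections -/
structure PrF (P : NQ.OF d) : Prop where
  ft : FT (fun _ => 1) 1 P P
  idem : ∀ V ψ, P V (P V ψ) = P V ψ

/-- the projections to the absolutely continuous subspaces -/
theorem exists_PF (K : ℝ) (ν : Measure ℝ) [IsProbabilityMeasure ν] :
    ∃ P : NQ.OF d, PrF P ∧ ∀ᵐ V ∂(NB.PP d ν), P V = PA K V := by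
  obtain ⟨P, P', h1, h2, h3⟩ := exists_mod (χ := fun _ => 1) (C := 1) (A := fun V => PA K V)
    (A' := fun V => PA K V) ν (fun V f g => PA_symm K V f g)
    (fun V ψ => by rw [one_mul]; exact acP_norm _ ψ) (fun V ψ => by rw [one_mul]; exact acP_norm _ ψ)
    (fun x => PA_aesm K ν aestronglyMeasurable_const) (fun z => by simp)
    (fun z S hS V ψ => by rw [one_smul]; exact PA_shift K V z hS ψ)
    (fun z S hS V ψ => by rw [map_one, one_smul]; exact PA_shift K V z hS ψ)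
  have e : P' = P := by
    funext V
    rcases h3 V with ⟨e1, e2⟩ | ⟨e1, e2⟩
    · rw [e1, e2]
    · rw [e1, e2]
  rw [e] at h1
  refine ⟨P, ⟨h1, fun V ψ => ?_⟩, h2.mono fun V hV => hV.1⟩
  rcases h3 V with ⟨e1, e2⟩ | ⟨e1, e2⟩
  · rw [e1]
    exact PA_idem K V ψ
  · rw [e1]
    rfl

end Pool.Agent.L7h83.WM
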