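import Pool.Agent.L7h83.WM.Ct
import Pool.Agent.Y662.ERG.Dos

/-! # Space-time Fourier modes vanish on absolutely continuous states, almost surely -/

set_option autoImplicit false

open MeasureTheory Filter Topology
open scoped BigOperators ENNReal NNReal InnerProductSpace ComplexConjugate

namespace Pool.Agent.L7h83.WM

open Pool.Agent.TH980.IM Pool.Agent.H5R2 Pool.Agent.Y662.ERG Pool.Agent.R988

variable {d : ℕ} {ev : (NB.Site d → ℝ) → NB.UG (L2 d)}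
variable {χ : NB.Site d → ℂ} {C : ℝ} {A A' P : NQ.OF d}
variable {ν : Measure ℝ} [IsProbabilityMeasure ν]

/-- multiplication of a covariant field by a plane wave -/
theorem FT.wave (h : FT (fun _ => 1) C A A') (θ : Fin d → ℝ) :
    FT (fun z => conj (wv θ z)) C (fun V => (MW θ).comp (A V)) (fun V => (A' V).comp (MWc θ)) where
  adj V x y := by
    show ⟪MW θ (A V x), y⟫_ℂ = ⟪x, A' V (MWc θ y)⟫_ℂ
    rw [← h.adj]
    exact mulL_adj _ _ _ _ _
  bd V x := (MW_norm θ _).trans (h.bd V x)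
  bd' V x := (h.bd' V _).trans (mul_le_mul_of_nonneg_left (MWc_norm θ _) h.nn)
  meas f hf := (MW θ).continuous.comp_stronglyMeasurable (h.meas f hf)
  meas' f hf := h.meas' _ ((MWc θ).continuous.comp_stronglyMeasurable hf)
  chi z := wv_conj_norm θ z
  cov z S hS V ψ := by
    show MW θ (A (fun y => V (y + z)) (S ψ)) = conj (wv θ z) • S (MW θ (A V ψ))
    rw [h.cov z S hS, one_smul]
    ext x
    rw [MW_apply, hS, lp.coeFn_smul, Pi.smul_apply, hS, MW_apply, wv_add, smul_eq_mul]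
    have := wv_conj θ z
    linear_combination (-(wv θ x * (A V ψ) (x + z))) * this
  cov' z S hS V ψ := by
    show A' (fun y => V (y + z)) (MWc θ (S ψ)) = conj (conj (wv θ z)) • S (A' V (MWc θ ψ))
    have h2 : MWc θ (S ψ) = wv θ z • S (MWc θ ψ) := by
      ext x
      rw [MWc_apply, hS, lp.coeFn_smul, Pi.smul_apply, hS, MWc_apply, wv_add, smul_eq_mul, map_mul]
      have := wv_conj θ z
      linear_combination (-(conj (wv θ x) * ψ (x + z))) * this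
    rw [h2, map_smul, h.cov' z S hS, map_one, one_smul, Complex.conj_conj]

/-- local observables, mean square at the origin -/
theorem ms_local {w v : NQ.OF d} {M : ℝ} (hd : 1 ≤ d) {K : ℝ} (hK : ∀ᵐ r ∂ν, |r| ≤ K)
    (hν : ∀ r : ℝ, ν {r} ≠ 1)
    (hev : ∀ ω : NB.Site d → ℝ, NB.IsGrp (-1) (fun x => 2 * d + ω x) (ev ω))
    (hP : PrF P) (hPA : ∀ᵐ V ∂(NB.PP d ν), P V = PA K V)
    (hO : ObsT d χ v w M) {l : ℝ} (hl : l ≠ 0 ∨ ∃ z0, χ z0 ≠ 1) :
    Tendsto (fun N : ℕ => ∫⁻ V, ‖avS (ev V) l (v V) id N (P V (NB.dl 0))‖ₑ ^ 2 ∂(NB.PP d ν))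
      atTop (𝓝 0) := by
  refine fin_intT (c := -1) (o := 2 * d) hev hO (fun V => P V (NB.dl 0)) 1
    (hP.ft.meas _ stronglyMeasurable_const).aestronglyMeasurable (fun V => ?_) fun Mk hMk => ?_
  · have := hP.ft.bd V (NB.dl 0)
    rwa [NB.STAT.norm_dl, mul_one] at this
  · obtain ⟨a, ha, hG⟩ := mainT2 hd hK hν hev hO hl Mk hMk
    refine ⟨a, ha, ?_⟩
    filter_upwards [hG, hPA] with V ⟨B, hB, hB0⟩ hV
    have h1 := (hB (P V (NB.dl 0))).1
    have h2 : B (P V (NB.dl 0)) = 0 := by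
      refine hB0 _ ?_
      rw [hV]
      exact acP_ac _ _
    rw [h2] at h1
    exact h1

/-- the projections commute with the evolution -/
theorem comm_of {K : ℝ} (hK : ∀ᵐ r ∂ν, |r| ≤ K)
    (hev : ∀ ω : NB.Site d → ℝ, NB.IsGrp (-1) (fun x => 2 * d + ω x) (ev ω))
    (hPA : ∀ᵐ V ∂(NB.PP d ν), P V = PA K V) :
    ∀ᵐ V ∂(NB.PP d ν), ∀ t x, P V ((ev V).U t x) = (ev V).U t (P V x) := by
  filter_upwards [hPA, bd_ae (d := d) hK] with V h1 h2 t x
  rw [h1, grp_Ex h2 (hev V), grp_Ex h2 (hev V), PA_Ex]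

/-- the averages of `e^{iλs} e^{iθ·x} A_s` vanish on absolutely continuous states -/
theorem waves_int (hd : 1 ≤ d) {K : ℝ} (hK : ∀ᵐ r ∂ν, |r| ≤ K) (hν : ∀ r : ℝ, ν {r} ≠ 1)
    (hev : ∀ ω : NB.Site d → ℝ, NB.IsGrp (-1) (fun x => 2 * d + ω x) (ev ω))
    (hA : FT (fun _ => 1) C A A') (θ : Fin d → ℝ) {l : ℝ}
    (hl : l ≠ 0 ∨ ∃ z0, conj (wv θ z0) ≠ 1) :
    ∀ᵐ V ∂(NB.PP d ν), ∀ ψ, spm (HV_sa K V) ψ ≪ volume →
      Tendsto (fun T : ℝ => ((T : ℂ)⁻¹) • ∫ s in (0 : ℝ)..T,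
        gT (ev V) l ((MW θ).comp (A V)) ψ s) atTop (𝓝 0) := by
  obtain ⟨P, hP, hPA⟩ := exists_PF (d := d) K ν
  have hcomm := comm_of hK hev hPA
  have hms := ms_of_approx (c := -1) (o := 2 * d) hev hP hcomm (hA.wave θ) l fun ε hε => by
    obtain ⟨v, w, M, hO, hle⟩ := exists_local (ν := ν) hA ε hε
    refine ⟨M, _, _, (hO.wave θ).ft, le_trans (lintegral_mono fun V => ?_) hle,
      ms_local hd hK hν hev hP hPA (hO.wave θ) hl⟩
    show ‖MW θ (v V (NB.dl 0)) - MW θ (A V (NB.dl 0))‖ₑ ^ 2 ≤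
      ‖A V (NB.dl 0) - v V (NB.dl 0)‖ₑ ^ 2
    rw [← map_sub, ← ofReal_norm, ← ofReal_norm, norm_sub_rev (A V (NB.dl 0))]
    gcongr
    exact MW_norm θ _
  have hq := quenchT (c := -1) (o := 2 * d) hev hP hcomm (hA.wave θ) l hms
  filter_upwards [hq, hPA] with V h1 h2 ψ hψ
  have h3 : P V ψ = ψ := by
    rw [h2]
    exact acP_of _ hψ
  have h4 := h1 ψ
  rw [h3] at h4
  exact real_timesT _ _ _ _ h4

end Pool.Agent.L7h83.WM
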