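import Pool.Agent.L7h83.WM.Lf

/-! # The limit field preserves the orthogonality to the cyclic subspaces of the sites -/

set_option autoImplicit false

open MeasureTheory Filter Topology
open scoped BigOperators ENNReal NNReal InnerProductSpace ComplexConjugate

namespace Pool.Agent.L7h83.WM

open Pool.Agent.TH980.IM Pool.Agent.H5R2 Pool.Agent.Y662.ERG Pool.Agent.R988

section abstract

variable {X : Type} [NormedAddCommGroup X] [InnerProductSpace ℂ X] [CompleteSpace X]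
variable {T : X →L[ℂ] X}

/-- the absolutely continuous part preserves the orthogonality to a cyclic subspace -/
theorem ac_orth (hT : IsSelfAdjoint T) (e φ : X) (h : ∀ t : ℝ, ⟪φ, Ex T t e⟫_ℂ = 0) (t : ℝ) :
    ⟪acP hT φ, Ex T t e⟫_ℂ = 0 := by
  set N : Submodule ℂ X := Submodule.span ℂ (Set.range fun t : ℝ => Ex T t e) with hN
  set Mc : Submodule ℂ X := N.topologicalClosure with hMc
  haveI : CompleteSpace Mc := (Submodule.isClosed_topologicalClosure _).completeSpace_coe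
  have hmem : ∀ s : ℝ, Ex T s e ∈ Mc := fun s =>
    Submodule.le_topologicalClosure _ (Submodule.subset_span ⟨s, rfl⟩)
  have hinv0 : ∀ (s : ℝ), ∀ y ∈ N, Ex T s y ∈ N := by
    intro s y hy
    induction hy using Submodule.span_induction with
    | mem x hx =>
      obtain ⟨r, rfl⟩ := hx
      show Ex T s (Ex T r e) ∈ N
      rw [← Ex_add]
      exact Submodule.subset_span ⟨s + r, rfl⟩
    | zero => rw [map_zero]; exact N.zero_mem
    | add x y _ _ hx hy => rw [map_add]; exact N.add_mem hx hy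
    | smul a x _ hx => rw [map_smul]; exact N.smul_mem a hx
  have hinv : ∀ (s : ℝ), ∀ y ∈ Mc, Ex T s y ∈ Mc := by
    intro s y hy
    exact map_mem_closure (Ex T s).continuous hy (hinv0 s)
  have hQ : ∀ (s : ℝ) (x : X), Mc.starProjection (Ex T s x) = Ex T s (Mc.starProjection x) := by
    intro s x
    refine Submodule.eq_starProjection_of_mem_of_inner_eq_zero
      (hinv s _ (Submodule.starProjection_apply_mem Mc x)) fun w hw => ?_
    rw [← map_sub, Ex_adj hT]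
    exact Submodule.starProjection_inner_eq_zero _ _ (hinv (-s) w hw)
  have hQT : ∀ x, Mc.starProjection (T x) = T (Mc.starProjection x) := comm_of_Ex hQ
  have hQs : ∀ x y, ⟪Mc.starProjection x, y⟫_ℂ = ⟪x, Mc.starProjection y⟫_ℂ :=
    Submodule.inner_starProjection_left_eq_right Mc
  have h1 : Ex T t e = Mc.starProjection (Ex T t e) :=
    (Submodule.starProjection_eq_self_iff.2 (hmem t)).symm
  have h2 : acP hT (Ex T t e) ∈ Mc := by
    rw [h1, acP_comm hT hQT hQT hQs]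
    exact Submodule.starProjection_apply_mem Mc _
  have h3 : ∀ y ∈ N, ⟪φ, y⟫_ℂ = 0 := by
    intro y hy
    induction hy using Submodule.span_induction with
    | mem x hx =>
      obtain ⟨r, rfl⟩ := hx
      exact h r
    | zero => exact inner_zero_right _
    | add x y _ _ hx hy => rw [inner_add_right, hx, hy, add_zero]
    | smul a x _ hx => rw [inner_smul_right, hx, mul_zero]
  have h4 : IsClosed {y : X | ⟪φ, y⟫_ℂ = 0} :=
    isClosed_eq (continuous_const.inner continuous_id) continuous_const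
  have h5 : acP hT (Ex T t e) ∈ {y : X | ⟪φ, y⟫_ℂ = 0} := closure_minimal (fun y hy => h3 y hy) h4 h2
  rw [acP_symm]
  exact h5

end abstract

variable {d : ℕ} {c o : ℝ} {ev : (NB.Site d → ℝ) → NB.UG (L2 d)}
variable {χ : NB.Site d → ℂ} {C : ℝ} {A A' D D' P : NQ.OF d}
variable {ν : Measure ℝ} [IsProbabilityMeasure ν]

theorem ft_obs {v : NQ.OF d} {M : ℝ} (hO : Obs d v M) : FT (fun _ => 1) M v v := by
  refine ⟨hO.symm, hO.bound, hO.bound, fun f hf => ?_, fun f hf => ?_, fun z => by simp,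
    fun z S hS V ψ => ?_, fun z S hS V ψ => ?_⟩
  · exact hO.cont.comp_stronglyMeasurable (stronglyMeasurable_id.prodMk hf)
  · exact hO.cont.comp_stronglyMeasurable (stronglyMeasurable_id.prodMk hf)
  · rw [one_smul]
    exact hO.cov z S hS V ψ
  · rw [map_one, one_smul]
    exact hO.cov z S hS V ψ

/-- the averages are contractions in mean square, at all sites -/
theorem contr_site (hev : ∀ ω : NB.Site d → ℝ, NB.IsGrp c (fun x => o + ω x) (ev ω))
    (hP : PrF P) (hcomm : ∀ᵐ V ∂(NB.PP d ν), ∀ t x, P V ((ev V).U t x) = (ev V).U t (P V x))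
    (hD : FT χ C D D') (l : ℝ) (N : ℕ) (z : NB.Site d) :
    ∫⁻ V, ‖avS (ev V) l (D V) id N (P V (NB.dl z))‖ₑ ^ 2 ∂(NB.PP d ν) ≤
      ∫⁻ V, ‖D V (NB.dl 0)‖ₑ ^ 2 ∂(NB.PP d ν) := by
  have h1 := ((ft_avS hev hD l N).mul hP.ft).ms_site (ν := ν) z
  have h2 := contr hev hP hcomm hD l N
  refine (le_of_eq ?_).trans h2
  exact h1

/-- orthogonality to the cyclic subspaces of the sites -/
theorem hF_w {K : ℝ} (hK : ∀ᵐ r ∂ν, |r| ≤ K) (hν : ∀ r : ℝ, ν {r} ≠ 1)
    (hev : ∀ ω : NB.Site d → ℝ, NB.IsGrp (-1) (fun x => 2 * d + ω x) (ev ω))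
    (hP : PrF P) (hPA : ∀ᵐ V ∂(NB.PP d ν), P V = PA K V) (hA : FT (fun _ => 1) C A A)
    {w : NQ.OF d} (hwF : FT (fun _ => 1) C w w)
    (hw : ∀ᵐ V ∂(NB.PP d ν), (∀ t x, w V ((ev V).U t x) = (ev V).U t (w V x)) ∧
        (∀ x, P V (w V x) = w V x) ∧ ∀ x, w V (P V x) = w V x)
    (hq : ∀ᵐ V ∂(NB.PP d ν), ∀ x, Tendsto (fun N : ℕ => NB.avP (ev V) (A V) N (P V x)) atTop
      (𝓝 (w V x))) :
    ∀ᵐ V ∂(NB.PP d ν), ∀ z : NB.Site d, ∀ φ ∈ NBA.HAC (ev V),
      (∀ t, ⟪φ, (ev V).U t (NB.dl z)⟫_ℂ = 0) → ⟪w V φ, (NB.dl z : L2 d)⟫_ℂ = 0 := by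
  have hcomm := comm_of hK hev hPA
  have hε : ∀ k : ℕ, (0 : ℝ≥0∞) < (2⁻¹ : ℝ≥0∞) ^ k := fun k =>
    pos_iff_ne_zero.2 (pow_ne_zero k (by simp))
  choose v M hO hv using fun k : ℕ => exists_obs (ν := ν) hA ((2⁻¹ : ℝ≥0∞) ^ k) (hε k)
  have hlim : ∀ k : ℕ, ∃ a : ℕ → ℕ, StrictMono a ∧ ∀ᵐ V ∂(NB.PP d ν),
      ∃ B : L2 d →L[ℂ] L2 d, NB.Good (ev V) (v k V) a B ∧
        ∀ z : NB.Site d, ∀ φ ∈ NBA.HAC (ev V), (∀ t, ⟪φ, (ev V).U t (NB.dl z)⟫_ℂ = 0) →
            ⟪B φ, (NB.dl z : L2 d)⟫_ℂ = 0 := by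
    intro k
    obtain ⟨b, _, h1⟩ := lim_off (2 * d) hev (hO k) ν hν
    obtain ⟨a, ha, h2⟩ := h1 id tendsto_id
    exact ⟨a, ha, h2.mono fun V ⟨B, hB1, _, hB3⟩ => ⟨B, hB1, hB3⟩⟩
  choose a ha hG using hlim
  -- the comparison
  set g : ℕ → NB.Site d → (NB.Site d → ℝ) → ℕ → ℝ≥0∞ := fun k z V j =>
    ‖avS (ev V) 0 (v k V - A V) id (a k j) (P V (NB.dl z))‖ₑ ^ 2 with hg
  have hDF : ∀ k, FT (fun _ => 1) (M k + C) (fun V => v k V - A V) (fun V => v k V - A V) :=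
    fun k => (ft_obs (hO k)).sub hA
  have hgm : ∀ k z j, Measurable fun V => g k z V j := fun k z j =>
    (((sm_avS (c := -1) (o := 2 * d) hev (hDF k) 0 (a k j) _
      (hP.ft.meas _ stronglyMeasurable_const)).enorm).pow_const 2)
  have hgi : ∀ k z, ∫⁻ V, liminf (g k z V) atTop ∂(NB.PP d ν) ≤ (2⁻¹ : ℝ≥0∞) ^ k := by
    intro k z
    refine (lintegral_liminf_le fun j => hgm k z j).trans ?_
    have h1 : ∀ j, ∫⁻ V, g k z V j ∂(NB.PP d ν) ≤ (2⁻¹ : ℝ≥0∞) ^ k := fun j =>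
      (contr_site hev hP hcomm (hDF k) 0 (a k j) z).trans (hv k)
    refine (liminf_le_liminf (v := fun _ => (2⁻¹ : ℝ≥0∞) ^ k)
      (Eventually.of_forall h1)).trans ?_
    rw [liminf_const]
  have hsum : ∀ᵐ V ∂(NB.PP d ν), ∀ z : NB.Site d,
      Tendsto (fun k => liminf (g k z V) atTop) atTop (𝓝 0) := by
    rw [ae_all_iff]
    intro z
    have hm : ∀ k, Measurable fun V => liminf (g k z V) atTop := fun k =>
      Measurable.liminf fun j => hgm k z j
    have h1 : ∫⁻ V, ∑' k, liminf (g k z V) atTop ∂(NB.PP d ν) ≠ ∞ := by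
      rw [lintegral_tsum fun k => (hm k).aemeasurable]
      refine ne_top_of_le_ne_top ?_ (ENNReal.tsum_le_tsum fun k => hgi k z)
      rw [ENNReal.tsum_geometric]
      norm_num
    filter_upwards [ae_lt_top (Measurable.ennreal_tsum hm) h1] with V hV
    exact ENNReal.tendsto_atTop_zero_of_tsum_ne_top hV.ne
  have hGa : ∀ᵐ V ∂(NB.PP d ν), ∀ k : ℕ, ∃ B : L2 d →L[ℂ] L2 d, NB.Good (ev V) (v k V) (a k) B ∧
        ∀ z : NB.Site d, ∀ φ ∈ NBA.HAC (ev V), (∀ t, ⟪φ, (ev V).U t (NB.dl z)⟫_ℂ = 0) →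
            ⟪B φ, (NB.dl z : L2 d)⟫_ℂ = 0 := ae_all_iff.2 hG
  filter_upwards [hGa, hsum, hq, hw, hPA, bd_ae (d := d) hK] with V h1 h2 h3 ⟨_, _, h4⟩ h5 h6
    z φ hφ horth
  choose B hB hBF using h1
  have hat : ∀ k, Tendsto (a k) atTop atTop := fun k => (ha k).tendsto_atTop
  have hgl : ∀ k, liminf (g k z V) atTop = ‖B k (P V (NB.dl z)) - w V (NB.dl z)‖ₑ ^ 2 := by
    intro k
    have e1 := (hB k (P V (NB.dl z))).1
    have e2 := (h3 (NB.dl z)).comp (hat k)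
    have e3 := (e1.sub e2).enorm
    have e4 := ((ENNReal.continuous_pow 2).tendsto _).comp e3
    have e5 : Tendsto (g k z V) atTop (𝓝 (‖B k (P V (NB.dl z)) - w V (NB.dl z)‖ₑ ^ 2)) := by
      refine e4.congr fun j => ?_
      have e6 := avS_sub (ev V) 0 (A V) (v k V) id continuous_id (a k j) (P V (NB.dl z))
      rw [avS_zero, avS_zero] at e6
      show ‖NB.avP (ev V) (v k V) (a k j) (P V (NB.dl z)) -
        NB.avP (ev V) (A V) (a k j) (P V (NB.dl z))‖ₑ ^ 2 =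
        ‖avS (ev V) 0 (v k V - A V) id (a k j) (P V (NB.dl z))‖ₑ ^ 2
      rw [e6]
      congr 2
      abel
    exact e5.liminf_eq
  have hBl : Tendsto (fun k => B k (P V (NB.dl z))) atTop (𝓝 (w V (NB.dl z))) := by
    have e1 := h2 z
    simp only [hgl] at e1
    rw [tendsto_iff_norm_sub_tendsto_zero]
    have e2 := (ENNReal.tendsto_toReal (by simp : (0 : ℝ≥0∞) ≠ ∞)).comp e1
    rw [ENNReal.toReal_zero] at e2
    have e3 := (Real.continuous_sqrt.tendsto 0).comp e2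
    rw [Real.sqrt_zero] at e3
    refine e3.congr fun k => ?_
    show Real.sqrt ((‖B k (P V (NB.dl z)) - w V (NB.dl z)‖ₑ ^ 2).toReal) = _
    rw [ENNReal.toReal_pow, toReal_enorm, Real.sqrt_sq (norm_nonneg _)]
  set φ' : L2 d := P V φ with hφ'
  have hac : spm (HV_sa K V) φ' ≪ volume := by
    rw [hφ', h5]
    exact acP_ac _ _
  have hH : φ' ∈ NBA.HAC (ev V) := by
    apply NBA.ALL.a_SPEC
    refine ⟨spm (HV_sa K V) φ', inferInstance, hac, fun t => ?_⟩
    rw [grp_Ex h6 (hev V)]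
    exact Ex_spm (HV_sa K V) t φ'
  have horth' : ∀ t, ⟪φ', (ev V).U t (NB.dl z)⟫_ℂ = 0 := by
    intro t
    rw [grp_Ex h6 (hev V), hφ', h5]
    refine ac_orth (HV_sa K V) _ _ (fun s => ?_) t
    rw [← grp_Ex h6 (hev V)]
    exact horth s
  have hzero : ∀ k, ⟪φ', B k (P V (NB.dl z))⟫_ℂ = 0 := by
    intro k
    have hsym := NBA.W6.B_symm (ev V) (v k V) ((hO k).symm V) _ _ (hB k)
    have hcU := (NB.t_BP _ (ev V) (v k V) _ (hat k) _ (hB k)).2
    have hcT : ∀ x, B k (HV K V x) = HV K V (B k x) :=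
      comm_of_Ex fun t x => by rw [← grp_Ex h6 (hev V), hcU, grp_Ex h6 (hev V)]
    have e1 : P V (B k φ') = B k φ' := by
      rw [h5]
      exact acP_of _ (spm_comm_ac _ hcT hac)
    rw [← hsym, ← hP.ft.adj, e1]
    exact hBF k z φ' hH horth'
  have e1 : ⟪w V φ, (NB.dl z : L2 d)⟫_ℂ = ⟪φ', w V (NB.dl z)⟫_ℂ := by
    rw [← h4 φ, hwF.adj]
  rw [e1]
  have e2 : Tendsto (fun k => ⟪φ', B k (P V (NB.dl z))⟫_ℂ) atTop (𝓝 ⟪φ', w V (NB.dl z)⟫_ℂ) :=
    tendsto_const_nhds.inner hBl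
  simp only [hzero] at e2
  exact tendsto_nhds_unique e2 tendsto_const_nhds

end Pool.Agent.L7h83.WM
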