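import Pool.Agent.L7h83.WM.Qn

/-! # Finite range operators with cylinder coefficients -/

set_option autoImplicit false

open MeasureTheory Filter Topology
open scoped BigOperators ENNReal NNReal InnerProductSpace ComplexConjugate

namespace Pool.Agent.L7h83.WM

open Pool.Agent.TH980.IM Pool.Agent.H5R2 Pool.Agent.Y662.ERG Pool.Agent.R988

variable {d : ℕ}

/-- the shift -/
noncomputable def Sh (z : NB.Site d) : L2 d →L[ℂ] L2 d := ((NB.t_OPS d).1 z).choose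

theorem Sh_spec (z : NB.Site d) : NB.IsShift z (Sh z) := ((NB.t_OPS d).1 z).choose_spec

theorem Sh_apply (z : NB.Site d) (u : L2 d) (x : NB.Site d) : (Sh z u) x = u (x + z) :=
  Sh_spec z u x

theorem Sh_inner (z : NB.Site d) (f g : L2 d) : ⟪Sh z f, g⟫_ℂ = ⟪f, Sh (-z) g⟫_ℂ :=
  NB.STAT.shift_inner z _ _ (Sh_spec z) (Sh_spec (-z)) f g

theorem Sh_norm (z : NB.Site d) (u : L2 d) : ‖Sh z u‖ = ‖u‖ := by
  have h1 : Sh (-z) (Sh z u) = u := by
    ext x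
    rw [Sh_apply, Sh_apply, neg_add_cancel_right]
  have h2 : ⟪Sh z u, Sh z u⟫_ℂ = ⟪u, u⟫_ℂ := by rw [Sh_inner, h1]
  rw [inner_self_eq_norm_sq_to_K, inner_self_eq_norm_sq_to_K] at h2
  have h3 : ‖Sh z u‖ ^ 2 = ‖u‖ ^ 2 := by exact_mod_cast h2
  exact (sq_eq_sq₀ (norm_nonneg _) (norm_nonneg _)).1 h3

theorem norm_le_sum (u : L2 d) (F : Finset (NB.Site d)) (h : ∀ x, x ∉ F → u x = 0) :
    ‖u‖ ≤ ∑ x ∈ F, ‖u x‖ := by
  have h1 := NB.MOM.hasSum_sq u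
  have h2 : HasSum (fun x => ‖u x‖ ^ 2) (∑ x ∈ F, ‖u x‖ ^ 2) :=
    hasSum_sum_of_ne_finset_zero fun x hx => by rw [h x hx]; simp
  have h3 := h1.unique h2
  have h4 : ∑ x ∈ F, ‖u x‖ ^ 2 ≤ (∑ x ∈ F, ‖u x‖) ^ 2 :=
    Finset.sum_sq_le_sq_sum_of_nonneg fun x _ => norm_nonneg _
  have h5 : 0 ≤ ∑ x ∈ F, ‖u x‖ := Finset.sum_nonneg fun x _ => norm_nonneg _
  rw [← h3] at h4
  exact (sq_le_sq₀ (norm_nonneg _) h5).1 h4

/-- continuity of the multiplication -/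
theorem cont_mulL {T : Type} [TopologicalSpace T] (g : T → NB.Site d → ℂ)
    (hg : ∀ t x, ‖g t x‖ ≤ 1) (hc : ∀ x, Continuous fun t => g t x) :
    Continuous fun p : T × L2 d => mulL (g p.1) (hg p.1) p.2 := by
  rw [continuous_iff_continuousAt]
  rintro ⟨t₀, u₀⟩
  have h1 : Tendsto (fun p : T × L2 d => mulL (g p.1) (hg p.1) u₀) (𝓝 (t₀, u₀))
      (𝓝 (mulL (g t₀) (hg t₀) u₀)) := by
    have h2 : Tendsto (fun t : T => mulL (g t) (hg t) u₀) (𝓝 t₀)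
        (𝓝 (mulL (g t₀) (hg t₀) u₀)) := by
      rw [tendsto_iff_norm_sub_tendsto_zero]
      have h3 : Tendsto (fun t : T => ‖mulL (g t) (hg t) u₀ - mulL (g t₀) (hg t₀) u₀‖ ^ 2)
          (𝓝 t₀) (𝓝 0) := by
        have e : (fun t : T => ‖mulL (g t) (hg t) u₀ - mulL (g t₀) (hg t₀) u₀‖ ^ 2) =
            fun t => ∑' x, ‖(g t x - g t₀ x) * u₀ x‖ ^ 2 := by
          funext t
          rw [← (NB.MOM.hasSum_sq _).tsum_eq]
          refine tsum_congr fun x => ?_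
          rw [lp.coeFn_sub, Pi.sub_apply, mulL_apply, mulL_apply, sub_mul]
        rw [e]
        have h0 : (0 : ℝ) = ∑' x : NB.Site d, (0 : ℝ) := by simp
        rw [h0]
        refine tendsto_tsum_of_dominated_convergence (bound := fun x => 4 * ‖u₀ x‖ ^ 2)
          ((NB.MOM.hasSum_sq u₀).summable.mul_left 4) ?_ ?_
        · intro x
          have h4 : Tendsto (fun t => (g t x - g t₀ x) * u₀ x) (𝓝 t₀) (𝓝 0) := by
            have := (((hc x).tendsto t₀).sub_const (g t₀ x)).mul_const (u₀ x)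
            simpa using this
          have h5 := (h4.norm).pow 2
          simpa using h5
        · refine Eventually.of_forall fun t x => ?_
          rw [Real.norm_eq_abs, abs_of_nonneg (by positivity), norm_mul, mul_pow]
          have h6 : ‖g t x - g t₀ x‖ ≤ 2 := by
            refine (norm_sub_le _ _).trans ?_
            linarith [hg t x, hg t₀ x]
          have h7 : ‖g t x - g t₀ x‖ ^ 2 ≤ 2 ^ 2 := pow_le_pow_left₀ (norm_nonneg _) h6 2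
          nlinarith [sq_nonneg ‖u₀ x‖]
      have h4 := h3.sqrt
      simpa [Real.sqrt_sq (norm_nonneg _)] using h4
    exact h2.comp continuous_fst.continuousAt
  have h2 : Tendsto (fun p : T × L2 d => mulL (g p.1) (hg p.1) p.2 - mulL (g p.1) (hg p.1) u₀)
      (𝓝 (t₀, u₀)) (𝓝 0) := by
    have h3 : Tendsto (fun p : T × L2 d => ‖p.2 - u₀‖) (𝓝 (t₀, u₀)) (𝓝 0) := by
      have : Continuous fun p : T × L2 d => ‖p.2 - u₀‖ := by fun_prop
      have := this.tendsto (t₀, u₀)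
      simpa using this
    refine squeeze_zero_norm (fun p => ?_) h3
    rw [← map_sub]
    exact mulL_norm _ _ _
  have h3 := h2.add h1
  rw [zero_add] at h3
  refine h3.congr fun p => ?_
  exact sub_add_cancel _ _

/-- `(Tm u)(x) = φ(V(· + x)) u(x + y)` -/
noncomputable def Tm (φ : (NB.Site d → ℝ) → ℂ) (h : ∀ V, ‖φ V‖ ≤ 1) (y : NB.Site d)
    (V : NB.Site d → ℝ) : L2 d →L[ℂ] L2 d :=
  (mulL (fun x => φ fun j => V (j + x)) (fun _ => h _)).comp (Sh y)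

theorem Tm_apply (φ : (NB.Site d → ℝ) → ℂ) (h : ∀ V, ‖φ V‖ ≤ 1) (y : NB.Site d)
    (V : NB.Site d → ℝ) (u : L2 d) (x : NB.Site d) :
    (Tm φ h y V u) x = (φ fun j => V (j + x)) * u (x + y) := by
  show (φ fun j => V (j + x)) * (Sh y u) x = _
  rw [Sh_apply]

theorem Tm_norm (φ : (NB.Site d → ℝ) → ℂ) (h : ∀ V, ‖φ V‖ ≤ 1) (y : NB.Site d)
    (V : NB.Site d → ℝ) (u : L2 d) : ‖Tm φ h y V u‖ ≤ ‖u‖ := by
  refine (mulL_norm (fun x => φ fun j => V (j + x)) (fun _ => h _) (Sh y u)).trans (le_of_eq ?_)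
  exact Sh_norm y u

theorem Tm_cont (φ : (NB.Site d → ℝ) → ℂ) (h : ∀ V, ‖φ V‖ ≤ 1) (hc : Continuous φ)
    (y : NB.Site d) : Continuous fun p : (NB.Site d → ℝ) × L2 d => Tm φ h y p.1 p.2 := by
  have h1 := cont_mulL (T := NB.Site d → ℝ) (fun V x => φ fun j => V (j + x)) (fun _ _ => h _)
    (fun x => hc.comp (by fun_prop))
  exact h1.comp (continuous_fst.prodMk ((Sh y).continuous.comp continuous_snd))

theorem Tm_cov (φ : (NB.Site d → ℝ) → ℂ) (h : ∀ V, ‖φ V‖ ≤ 1) (y : NB.Site d)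
    (z : NB.Site d) (S : L2 d →L[ℂ] L2 d) (hS : NB.IsShift z S) (V : NB.Site d → ℝ) (ψ : L2 d) :
    Tm φ h y (fun j => V (j + z)) (S ψ) = S (Tm φ h y V ψ) := by
  ext x
  rw [Tm_apply, hS, hS, Tm_apply]
  have e1 : (fun j => V (j + x + z)) = fun j => V (j + (x + z)) := by
    funext j
    rw [add_assoc]
  have e2 : x + y + z = x + z + y := by abel
  rw [e1, e2]

theorem Tm_loc (φ : (NB.Site d → ℝ) → ℂ) (h : ∀ V, ‖φ V‖ ≤ 1)
    (hφ : ∃ D : Finset (NB.Site d), ∀ V V', (∀ x ∈ D, V x = V' x) → φ V = φ V')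
    (y : NB.Site d) (V : NB.Site d → ℝ) (κ : ℝ) :
    ∃ (F : Finset (NB.Site d)) (C : ℝ), ∀ ψ,
      ‖Tm φ h y (Function.update V 0 κ) ψ - Tm φ h y V ψ‖ ≤
        C * ∑ x ∈ F, ‖⟪(NB.dl x : L2 d), ψ⟫_ℂ‖ := by
  classical
  obtain ⟨D, hD⟩ := hφ
  refine ⟨(D.image fun j => -j).image fun x => x + y, 2, fun ψ => ?_⟩
  set u := Tm φ h y (Function.update V 0 κ) ψ - Tm φ h y V ψ with hu
  have hux : ∀ x, u x = ((φ fun j => Function.update V 0 κ (j + x)) - φ fun j => V (j + x)) *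
      ψ (x + y) := by
    intro x
    rw [hu, lp.coeFn_sub, Pi.sub_apply, Tm_apply, Tm_apply, sub_mul]
  have h1 : ∀ x, x ∉ D.image (fun j => -j) → u x = 0 := by
    intro x hx
    have e : (φ fun j => Function.update V 0 κ (j + x)) = φ fun j => V (j + x) := by
      refine hD _ _ fun j hj => ?_
      rw [Function.update_of_ne]
      intro h0
      refine hx (Finset.mem_image.2 ⟨j, hj, ?_⟩)
      exact (eq_neg_of_add_eq_zero_right h0).symm
    rw [hux, e, sub_self, zero_mul]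
  refine (norm_le_sum u _ h1).trans ?_
  rw [Finset.sum_image fun a _ b _ hab => add_right_cancel hab, Finset.mul_sum]
  refine Finset.sum_le_sum fun x _ => ?_
  rw [NB.STAT.inner_dl, hux, norm_mul]
  refine mul_le_mul_of_nonneg_right ?_ (norm_nonneg _)
  refine (norm_sub_le _ _).trans ?_
  linarith [h fun j => Function.update V 0 κ (j + x), h fun j => V (j + x)]

/-- one term -/
theorem obsT_single (φ : (NB.Site d → ℝ) → ℂ) (h : ∀ V, ‖φ V‖ ≤ 1) (hc : Continuous φ)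
    (hφ : ∃ D : Finset (NB.Site d), ∀ V V', (∀ x ∈ D, V x = V' x) → φ V = φ V')
    (y : NB.Site d) :
    ObsT d (fun _ => 1) (Tm (fun V => φ fun j => V (j - y)) (fun _ => h _) (-y))
      (Tm (fun V => conj (φ V)) (fun _ => by rw [RCLike.norm_conj]; exact h _) y) 1 where
  adj V f g := by
    show ⟪mulL (fun x => φ fun j => V (j - y + x)) (fun _ => h _) (Sh (-y) f), g⟫_ℂ = _
    rw [mulL_adj _ _ (fun x => by rw [RCLike.norm_conj]; exact h _), Sh_inner, neg_neg]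
    congr 1
    ext x
    rw [Sh_apply, mulL_apply, Tm_apply]
    congr 3
    funext j
    show V (j - y + (x + y)) = V (j + x)
    congr 1
    abel
  bound V x := by rw [one_mul]; exact Tm_norm _ _ _ _ _
  boundw V x := by rw [one_mul]; exact Tm_norm _ _ _ _ _
  cont := Tm_cont _ _ (hc.comp (by fun_prop)) _
  contw := Tm_cont _ _ (Complex.continuous_conj.comp hc) _
  chi _ := by simp
  mul _ _ := by simp
  cov z S hS V ψ := by rw [one_smul]; exact Tm_cov _ _ _ z S hS V ψ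
  covw z S hS V ψ := by rw [map_one, one_smul]; exact Tm_cov _ _ _ z S hS V ψ
  loc V κ := by
    classical
    refine Tm_loc _ _ ?_ _ V κ
    obtain ⟨D, hD⟩ := hφ
    refine ⟨D.image fun j => j - y, fun V V' hV => hD _ _ fun x hx => ?_⟩
    exact hV _ (Finset.mem_image_of_mem _ hx)
  locw V κ := by
    refine Tm_loc _ _ ?_ _ V κ
    obtain ⟨D, hD⟩ := hφ
    exact ⟨D, fun V V' hV => by rw [hD V V' hV]⟩

theorem single_dl (φ : (NB.Site d → ℝ) → ℂ) (h : ∀ V, ‖φ V‖ ≤ 1) (y : NB.Site d)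
    (V : NB.Site d → ℝ) (x : NB.Site d) :
    (Tm (fun V => φ fun j => V (j - y)) (fun _ => h _) (-y) V (NB.dl 0)) x =
      if x = y then φ V else 0 := by
  rw [Tm_apply]
  have e : ((NB.dl 0 : L2 d)) (x + -y) = if x = y then 1 else 0 := by
    have := ee_apply (d := d) 0 (x + -y)
    have h2 : (ee 0 : L2 d) = NB.dl 0 := rfl
    rw [h2] at this
    rw [this]
    by_cases hxy : x = y
    · rw [if_pos hxy, if_pos (by rw [hxy, add_neg_cancel])]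
    · rw [if_neg hxy, if_neg fun h0 => hxy (by rwa [add_neg_eq_zero] at h0)]
  rw [e]
  by_cases hxy : x = y
  · rw [if_pos hxy, if_pos hxy, mul_one, hxy]
    congr 1
    funext j
    show V (j - y + y) = V j
    rw [sub_add_cancel]
  · rw [if_neg hxy, if_neg hxy, mul_zero]

variable {χ : NB.Site d → ℂ} {v w v₁ w₁ v₂ w₂ : (NB.Site d → ℝ) → L2 d →L[ℂ] L2 d}
  {M M₁ M₂ : ℝ}

theorem ObsT.add (h₁ : ObsT d χ v₁ w₁ M₁) (h₂ : ObsT d χ v₂ w₂ M₂) :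
    ObsT d χ (fun V => v₁ V + v₂ V) (fun V => w₁ V + w₂ V) (M₁ + M₂) where
  adj V f g := by
    show ⟪v₁ V f + v₂ V f, g⟫_ℂ = ⟪f, w₁ V g + w₂ V g⟫_ℂ
    rw [inner_add_left, inner_add_right, h₁.adj, h₂.adj]
  bound V ψ := by
    show ‖v₁ V ψ + v₂ V ψ‖ ≤ (M₁ + M₂) * ‖ψ‖
    rw [add_mul]
    exact (norm_add_le _ _).trans (add_le_add (h₁.bound V ψ) (h₂.bound V ψ))
  boundw V ψ := by
    show ‖w₁ V ψ + w₂ V ψ‖ ≤ (M₁ + M₂) * ‖ψ‖
    rw [add_mul]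
    exact (norm_add_le _ _).trans (add_le_add (h₁.boundw V ψ) (h₂.boundw V ψ))
  cont := h₁.cont.add h₂.cont
  contw := h₁.contw.add h₂.contw
  chi := h₁.chi
  mul := h₁.mul
  cov z S hS V ψ := by
    show v₁ _ (S ψ) + v₂ _ (S ψ) = χ z • S (v₁ V ψ + v₂ V ψ)
    rw [h₁.cov z S hS, h₂.cov z S hS, map_add, smul_add]
  covw z S hS V ψ := by
    show w₁ _ (S ψ) + w₂ _ (S ψ) = conj (χ z) • S (w₁ V ψ + w₂ V ψ)
    rw [h₁.covw z S hS, h₂.covw z S hS, map_add, smul_add]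
  loc V κ := by
    classical
    obtain ⟨F₁, C₁, l₁⟩ := h₁.loc V κ
    obtain ⟨F₂, C₂, l₂⟩ := h₂.loc V κ
    refine ⟨F₁ ∪ F₂, |C₁| + |C₂|, fun ψ => ?_⟩
    show ‖v₁ _ ψ + v₂ _ ψ - (v₁ V ψ + v₂ V ψ)‖ ≤ _
    rw [add_sub_add_comm]
    refine (norm_add_le _ _).trans ?_
    have s1 : ∑ x ∈ F₁, ‖⟪(NB.dl x : L2 d), ψ⟫_ℂ‖ ≤
        ∑ x ∈ F₁ ∪ F₂, ‖⟪(NB.dl x : L2 d), ψ⟫_ℂ‖ :=
      Finset.sum_le_sum_of_subset_of_nonneg Finset.subset_union_left fun _ _ _ => norm_nonneg _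
    have s2 : ∑ x ∈ F₂, ‖⟪(NB.dl x : L2 d), ψ⟫_ℂ‖ ≤
        ∑ x ∈ F₁ ∪ F₂, ‖⟪(NB.dl x : L2 d), ψ⟫_ℂ‖ :=
      Finset.sum_le_sum_of_subset_of_nonneg Finset.subset_union_right fun _ _ _ => norm_nonneg _
    have p1 : 0 ≤ ∑ x ∈ F₁, ‖⟪(NB.dl x : L2 d), ψ⟫_ℂ‖ := Finset.sum_nonneg fun _ _ => norm_nonneg _
    have p2 : 0 ≤ ∑ x ∈ F₂, ‖⟪(NB.dl x : L2 d), ψ⟫_ℂ‖ := Finset.sum_nonneg fun _ _ => norm_nonneg _
    have t1 : C₁ * ∑ x ∈ F₁, ‖⟪(NB.dl x : L2 d), ψ⟫_ℂ‖ ≤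
        |C₁| * ∑ x ∈ F₁ ∪ F₂, ‖⟪(NB.dl x : L2 d), ψ⟫_ℂ‖ :=
      mul_le_mul (le_abs_self _) s1 p1 (abs_nonneg _)
    have t2 : C₂ * ∑ x ∈ F₂, ‖⟪(NB.dl x : L2 d), ψ⟫_ℂ‖ ≤
        |C₂| * ∑ x ∈ F₁ ∪ F₂, ‖⟪(NB.dl x : L2 d), ψ⟫_ℂ‖ :=
      mul_le_mul (le_abs_self _) s2 p2 (abs_nonneg _)
    rw [add_mul]
    exact add_le_add ((l₁ ψ).trans t1) ((l₂ ψ).trans t2)
  locw V κ := by
    classical
    obtain ⟨F₁, C₁, l₁⟩ := h₁.locw V κ
    obtain ⟨F₂, C₂, l₂⟩ := h₂.locw V κ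
    refine ⟨F₁ ∪ F₂, |C₁| + |C₂|, fun ψ => ?_⟩
    show ‖w₁ _ ψ + w₂ _ ψ - (w₁ V ψ + w₂ V ψ)‖ ≤ _
    rw [add_sub_add_comm]
    refine (norm_add_le _ _).trans ?_
    have s1 : ∑ x ∈ F₁, ‖⟪(NB.dl x : L2 d), ψ⟫_ℂ‖ ≤
        ∑ x ∈ F₁ ∪ F₂, ‖⟪(NB.dl x : L2 d), ψ⟫_ℂ‖ :=
      Finset.sum_le_sum_of_subset_of_nonneg Finset.subset_union_left fun _ _ _ => norm_nonneg _
    have s2 : ∑ x ∈ F₂, ‖⟪(NB.dl x : L2 d), ψ⟫_ℂ‖ ≤
        ∑ x ∈ F₁ ∪ F₂, ‖⟪(NB.dl x : L2 d), ψ⟫_ℂ‖ :=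
      Finset.sum_le_sum_of_subset_of_nonneg Finset.subset_union_right fun _ _ _ => norm_nonneg _
    have p1 : 0 ≤ ∑ x ∈ F₁, ‖⟪(NB.dl x : L2 d), ψ⟫_ℂ‖ := Finset.sum_nonneg fun _ _ => norm_nonneg _
    have p2 : 0 ≤ ∑ x ∈ F₂, ‖⟪(NB.dl x : L2 d), ψ⟫_ℂ‖ := Finset.sum_nonneg fun _ _ => norm_nonneg _
    have t1 : C₁ * ∑ x ∈ F₁, ‖⟪(NB.dl x : L2 d), ψ⟫_ℂ‖ ≤
        |C₁| * ∑ x ∈ F₁ ∪ F₂, ‖⟪(NB.dl x : L2 d), ψ⟫_ℂ‖ :=
      mul_le_mul (le_abs_self _) s1 p1 (abs_nonneg _)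
    have t2 : C₂ * ∑ x ∈ F₂, ‖⟪(NB.dl x : L2 d), ψ⟫_ℂ‖ ≤
        |C₂| * ∑ x ∈ F₁ ∪ F₂, ‖⟪(NB.dl x : L2 d), ψ⟫_ℂ‖ :=
      mul_le_mul (le_abs_self _) s2 p2 (abs_nonneg _)
    rw [add_mul]
    exact add_le_add ((l₁ ψ).trans t1) ((l₂ ψ).trans t2)

theorem ObsT.smul (h : ObsT d χ v w M) (r : ℂ) :
    ObsT d χ (fun V => r • v V) (fun V => conj r • w V) (‖r‖ * M) where
  adj V f g := by
    show ⟪r • v V f, g⟫_ℂ = ⟪f, conj r • w V g⟫_ℂ
    rw [inner_smul_left, inner_smul_right, h.adj]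
  bound V ψ := by
    show ‖r • v V ψ‖ ≤ ‖r‖ * M * ‖ψ‖
    rw [norm_smul, mul_assoc]
    exact mul_le_mul_of_nonneg_left (h.bound V ψ) (norm_nonneg _)
  boundw V ψ := by
    show ‖conj r • w V ψ‖ ≤ ‖r‖ * M * ‖ψ‖
    rw [norm_smul, RCLike.norm_conj, mul_assoc]
    exact mul_le_mul_of_nonneg_left (h.boundw V ψ) (norm_nonneg _)
  cont := h.cont.const_smul r
  contw := h.contw.const_smul (conj r)
  chi := h.chi
  mul := h.mul
  cov z S hS V ψ := by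
    show r • v _ (S ψ) = χ z • S (r • v V ψ)
    rw [h.cov z S hS, map_smul, smul_comm]
  covw z S hS V ψ := by
    show conj r • w _ (S ψ) = conj (χ z) • S (conj r • w V ψ)
    rw [h.covw z S hS, map_smul, smul_comm]
  loc V κ := by
    obtain ⟨F, C, l⟩ := h.loc V κ
    refine ⟨F, ‖r‖ * C, fun ψ => ?_⟩
    show ‖r • v _ ψ - r • v V ψ‖ ≤ _
    rw [← smul_sub, norm_smul, mul_assoc]
    exact mul_le_mul_of_nonneg_left (l ψ) (norm_nonneg _)
  locw V κ := by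
    obtain ⟨F, C, l⟩ := h.locw V κ
    refine ⟨F, ‖r‖ * C, fun ψ => ?_⟩
    show ‖conj r • w _ ψ - conj r • w V ψ‖ ≤ _
    rw [← smul_sub, norm_smul, RCLike.norm_conj, mul_assoc]
    exact mul_le_mul_of_nonneg_left (l ψ) (norm_nonneg _)

theorem obsT_zero : ObsT d (fun _ => 1) (fun _ => 0) (fun _ => 0) 0 where
  adj V f g := by simp
  bound V ψ := by simp
  boundw V ψ := by simp
  cont := by simpa using continuous_const
  contw := by simpa using continuous_const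
  chi _ := by simp
  mul _ _ := by simp
  cov z S hS V ψ := by simp
  covw z S hS V ψ := by simp
  loc V κ := ⟨∅, 0, fun ψ => by simp⟩
  locw V κ := ⟨∅, 0, fun ψ => by simp⟩

/-- multiplication of a covariant local observable by a plane wave -/
theorem ObsT.wave (h : ObsT d (fun _ => 1) v w M) (θ : Fin d → ℝ) :
    ObsT d (fun z => conj (wv θ z)) (fun V => (MW θ).comp (v V)) (fun V => (w V).comp (MWc θ))
      M where
  adj V x y := by
    show ⟪MW θ (v V x), y⟫_ℂ = ⟪x, w V (MWc θ y)⟫_ℂ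
    rw [← h.adj]
    exact mulL_adj _ _ _ _ _
  bound V x := (MW_norm θ _).trans (h.bound V x)
  boundw V x := by
    refine (h.boundw V _).trans (mul_le_mul_of_nonneg_left (MWc_norm θ _) h.nn)
  cont := (MW θ).continuous.comp h.cont
  contw := by
    have h1 : Continuous fun p : (NB.Site d → ℝ) × L2 d => (p.1, MWc θ p.2) :=
      continuous_fst.prodMk ((MWc θ).continuous.comp continuous_snd)
    exact h.contw.comp h1
  chi z := wv_conj_norm θ z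
  mul z z' := by rw [wv_add, map_mul]
  cov z S hS V ψ := by
    show MW θ (v (fun y => V (y + z)) (S ψ)) = conj (wv θ z) • S (MW θ (v V ψ))
    rw [h.cov z S hS, one_smul]
    ext x
    rw [MW_apply, hS, lp.coeFn_smul, Pi.smul_apply, hS, MW_apply, wv_add, smul_eq_mul]
    have := wv_conj θ z
    linear_combination (-(wv θ x * (v V ψ) (x + z))) * this
  covw z S hS V ψ := by
    show w (fun y => V (y + z)) (MWc θ (S ψ)) = conj (conj (wv θ z)) • S (w V (MWc θ ψ))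
    have h2 : MWc θ (S ψ) = wv θ z • S (MWc θ ψ) := by
      ext x
      rw [MWc_apply, hS, lp.coeFn_smul, Pi.smul_apply, hS, MWc_apply, wv_add, smul_eq_mul, map_mul]
      have := wv_conj θ z
      linear_combination (-(conj (wv θ x) * ψ (x + z))) * this
    rw [h2, map_smul, h.covw z S hS, map_one, one_smul, Complex.conj_conj]
  loc V κ := by
    obtain ⟨F, C, l⟩ := h.loc V κ
    refine ⟨F, C, fun ψ => ?_⟩
    show ‖MW θ (v (Function.update V 0 κ) ψ) - MW θ (v V ψ)‖ ≤ _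
    rw [← map_sub]
    exact (MW_norm θ _).trans (l ψ)
  locw V κ := by
    obtain ⟨F, C, l⟩ := h.locw V κ
    refine ⟨F, C, fun ψ => (l (MWc θ ψ)).trans (le_of_eq ?_)⟩
    congr 1
    refine Finset.sum_congr rfl fun x _ => ?_
    rw [NB.STAT.inner_dl, NB.STAT.inner_dl, MWc_apply, norm_mul, wv_conj_norm, one_mul]

/-- a local observable is a field -/
theorem ObsT.ft (h : ObsT d χ v w M) : FT χ M v w where
  adj := h.adj
  bd := h.bound
  bd' := h.boundw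
  meas f hf := h.cont.comp_stronglyMeasurable (stronglyMeasurable_id.prodMk hf)
  meas' f hf := h.contw.comp_stronglyMeasurable (stronglyMeasurable_id.prodMk hf)
  chi := h.chi
  cov := h.cov
  cov' := h.covw

end Pool.Agent.L7h83.WM
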