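import Pool.Agent.L7h83.WM.Lw

/-! # The limit field, and almost sure convergence -/

set_option autoImplicit false

open MeasureTheory Filter Topology
open scoped BigOperators ENNReal NNReal InnerProductSpace ComplexConjugate

namespace Pool.Agent.L7h83.WM

open Pool.Agent.TH980.IM Pool.Agent.H5R2 Pool.Agent.Y662.ERG Pool.Agent.R988

variable {d : ℕ} {c o : ℝ} {ev : (NB.Site d → ℝ) → NB.UG (L2 d)}
variable {χ : NB.Site d → ℂ} {C : ℝ} {A A' P : NQ.OF d}
variable {ν : Measure ℝ} [IsProbabilityMeasure ν]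

/-- the strong limit exists -/
def HasLim (Y : ℕ → NQ.OF d) (V : NB.Site d → ℝ) : Prop :=
  ∃ B : L2 d →L[ℂ] L2 d, ∀ x, Tendsto (fun j => Y j V x) atTop (𝓝 (B x))

theorem HasLim.shift {Y : ℕ → NQ.OF d} (hY : ∀ j, FT (fun _ => 1) C (Y j) (Y j))
    {V : NB.Site d → ℝ} (h : HasLim Y V) (z : NB.Site d) : HasLim Y (fun y => V (y + z)) := by
  obtain ⟨B, hB⟩ := h
  refine ⟨(Sh z).comp (B.comp (Sh (-z))), fun x => ?_⟩
  have h1 := ((Sh z).continuous.tendsto _).comp (hB (Sh (-z) x))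
  refine h1.congr fun j => ?_
  have h2 := (hY j).cov z (Sh z) (Sh_spec z) V (Sh (-z) x)
  rw [one_smul] at h2
  have h3 : Sh z (Sh (-z) x) = x := by
    ext y
    rw [Sh_apply, Sh_apply, add_neg_cancel_right]
  rw [h3] at h2
  exact h2.symm

/-- limits of fields -/
theorem lim_field {Y : ℕ → NQ.OF d} (hY : ∀ j, FT (fun _ => 1) C (Y j) (Y j))
    (h : ∀ᵐ V ∂(NB.PP d ν), HasLim Y V) :
    ∃ w : NQ.OF d, FT (fun _ => 1) C w w ∧
      ∀ᵐ V ∂(NB.PP d ν), ∀ x, Tendsto (fun j => Y j V x) atTop (𝓝 (w V x)) := by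
  classical
  set w₁ : NQ.OF d := fun V => if h : HasLim Y V then h.choose else 0 with hw₁
  have hw : ∀ V, HasLim Y V → ∀ x, Tendsto (fun j => Y j V x) atTop (𝓝 (w₁ V x)) := by
    intro V hV x
    simp only [hw₁, dif_pos hV]
    exact hV.choose_spec x
  have hw0 : ∀ V, ¬ HasLim Y V → w₁ V = 0 := by
    intro V hV
    simp only [hw₁, dif_neg hV]
  have hC : 0 ≤ C := (hY 0).nn
  have adj : ∀ V f g, ⟪w₁ V f, g⟫_ℂ = ⟪f, w₁ V g⟫_ℂ := by
    intro V f g
    by_cases hV : HasLim Y V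
    · have h1 : Tendsto (fun j => ⟪Y j V f, g⟫_ℂ) atTop (𝓝 ⟪w₁ V f, g⟫_ℂ) :=
        (hw V hV f).inner tendsto_const_nhds
      have h2 : Tendsto (fun j => ⟪f, Y j V g⟫_ℂ) atTop (𝓝 ⟪f, w₁ V g⟫_ℂ) :=
        tendsto_const_nhds.inner (hw V hV g)
      exact tendsto_nhds_unique h1 (h2.congr fun j => ((hY j).adj V f g).symm)
    · rw [hw0 V hV]
      simp
  have bd : ∀ V ψ, ‖w₁ V ψ‖ ≤ C * ‖ψ‖ := by
    intro V ψ
    by_cases hV : HasLim Y V
    · exact le_of_tendsto (hw V hV ψ).norm (Eventually.of_forall fun j => (hY j).bd V ψ)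
    · rw [hw0 V hV]
      simp only [ContinuousLinearMap.zero_apply, norm_zero]
      positivity
  have cov : ∀ (z : NB.Site d) (S : L2 d →L[ℂ] L2 d), NB.IsShift z S → ∀ V ψ,
      w₁ (fun y => V (y + z)) (S ψ) = S (w₁ V ψ) := by
    intro z S hS V ψ
    by_cases hV : HasLim Y V
    · have hV' := hV.shift hY z
      have h1 := hw _ hV' (S ψ)
      have h2 := (S.continuous.tendsto _).comp (hw V hV ψ)
      refine tendsto_nhds_unique h1 (h2.congr fun j => ?_)
      have h3 := (hY j).cov z S hS V ψ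
      rw [one_smul] at h3
      exact h3.symm
    · have hV' : ¬ HasLim Y (fun y => V (y + z)) := by
        intro h2
        have h3 := h2.shift hY (-z)
        have e : (fun y => (fun y => V (y + z)) (y + -z)) = V := by
          funext y; simp
        rw [e] at h3
        exact hV h3
      rw [hw0 V hV, hw0 _ hV']
      simp
  obtain ⟨B, B', h1, h2, h3⟩ := exists_mod (χ := fun _ => 1) (C := C) (A := w₁) (A' := w₁) ν
    adj bd bd (fun x => by
      refine aestronglyMeasurable_of_tendsto_ae atTop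
        (f := fun j V => Y j V (NB.dl x)) (fun j =>
          ((hY j).meas _ stronglyMeasurable_const).aestronglyMeasurable) ?_
      filter_upwards [h] with V hV
      exact hw V hV _) (fun z => by simp)
    (fun z S hS V ψ => by rw [one_smul]; exact cov z S hS V ψ)
    (fun z S hS V ψ => by rw [map_one, one_smul]; exact cov z S hS V ψ)
  have e : B' = B := by
    funext V
    rcases h3 V with ⟨e1, e2⟩ | ⟨e1, e2⟩
    · rw [e1, e2]
    · rw [e1, e2]
  rw [e] at h1
  refine ⟨B, h1, ?_⟩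
  filter_upwards [h, h2] with V hV hV2 x
  rw [hV2.1]
  exact hw V hV x

/-- the averages as a symmetric field -/
theorem ft_av (hev : ∀ ω : NB.Site d → ℝ, NB.IsGrp c (fun x => o + ω x) (ev ω))
    (hA : FT (fun _ => 1) C A A) (m : ℕ) :
    FT (fun _ => 1) C (fun V => SL (ev V) 0 (A V) id continuous_id m)
      (fun V => SL (ev V) 0 (A V) id continuous_id m) := by
  have h := ft_avS hev hA 0 m
  rw [neg_zero] at h
  exact h

theorem SL_av (V : NB.Site d → ℝ) (m : ℕ) (x : L2 d) :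
    SL (ev V) 0 (A V) id continuous_id m x = NB.avP (ev V) (A V) m x := by
  rw [SL_apply, avS_zero]

/-- the averages asymptotically commute with the evolution -/
theorem av_comm (W : NB.UG (L2 d)) (v : L2 d →L[ℂ] L2 d) {ns : ℕ → ℕ}
    (hns : Tendsto ns atTop atTop) (x y y' : L2 d) (t : ℝ)
    (h1 : Tendsto (fun j => NB.avP W v (ns j) x) atTop (𝓝 y))
    (h2 : Tendsto (fun j => NB.avP W v (ns j) (W.U t x)) atTop (𝓝 y')) : y' = W.U t y := by
  have h3 : Tendsto (fun j => W.U t (NB.avP W v (ns j) x)) atTop (𝓝 (W.U t y)) :=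
    ((W.U t).continuous.tendsto _).comp h1
  have h4 : Tendsto (fun j => NB.avP W v (ns j) (W.U t x) - W.U t (NB.avP W v (ns j) x)) atTop
      (𝓝 0) := by
    refine squeeze_zero_norm (fun j => ?_)
      (a := fun j => ((ns j : ℕ) : ℝ)⁻¹ * (2 * (‖v‖ * ‖x‖ * |t|))) ?_
    · have := avS_shift W 0 v (ns j) x t
      rw [avS_zero, avS_zero, ph_zero_left, one_smul] at this
      exact this
    · have h5 : Tendsto (fun k => ((ns k : ℕ) : ℝ)⁻¹) atTop (𝓝 0) :=
        tendsto_inv_atTop_zero.comp (tendsto_natCast_atTop_atTop.comp hns)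
      simpa using h5.mul_const (2 * (‖v‖ * ‖x‖ * |t|))
  have h5 := tendsto_nhds_unique h4 (h2.sub h3)
  exact sub_eq_zero.1 h5.symm

/-- the limit of the averages as a field -/
theorem exists_w (hd : 1 ≤ d) {K : ℝ} (hK : ∀ᵐ r ∂ν, |r| ≤ K) (hν : ∀ r : ℝ, ν {r} ≠ 1)
    (hev : ∀ ω : NB.Site d → ℝ, NB.IsGrp (-1) (fun x => 2 * d + ω x) (ev ω))
    (hP : PrF P) (hPA : ∀ᵐ V ∂(NB.PP d ν), P V = PA K V) (hA : FT (fun _ => 1) C A A) :
    ∃ w : NQ.OF d, FT (fun _ => 1) C w w ∧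
      (∀ᵐ V ∂(NB.PP d ν), (∀ t x, w V ((ev V).U t x) = (ev V).U t (w V x)) ∧
        (∀ x, P V (w V x) = w V x) ∧ ∀ x, w V (P V x) = w V x) ∧
      Tendsto (fun N : ℕ => ∫⁻ V, ‖NB.avP (ev V) (A V) N (P V (NB.dl 0)) - w V (NB.dl 0)‖ₑ ^ 2
        ∂(NB.PP d ν)) atTop (𝓝 0) := by
  have hcomm := comm_of hK hev hPA
  obtain ⟨b, hbm, hb, ns, hns, hbs⟩ := exists_b hd hK hν hev hP hcomm hA
  have hnt : Tendsto ns atTop atTop := hns.tendsto_atTop
  have hFX : ∀ j, FT (fun _ => 1) C (fun V => SL (ev V) 0 (A V) id continuous_id (ns j))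
      (fun V => SL (ev V) 0 (A V) id continuous_id (ns j)) := fun j =>
    ft_av (c := -1) (o := 2 * d) hev hA (ns j)
  have hZ : ∀ j, FT (fun _ => 1) C
      (fun V => (SL (ev V) 0 (A V) id continuous_id (ns j)).comp (P V))
      (fun V => (P V).comp (SL (ev V) 0 (A V) id continuous_id (ns j))) := by
    intro j
    have h1 := ((hFX j).mul hP.ft).congr_chi (χ' := fun _ => 1) fun z => by simp
    rw [mul_one] at h1
    exact h1
  have hL := lim_of_origin (ν := ν) hZ (by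
    filter_upwards [hbs] with V hV
    refine ⟨b V, hV.congr fun j => ?_⟩
    exact (SL_av V (ns j) _).symm)
  set Y : ℕ → NQ.OF d := fun j V =>
    (P V).comp ((SL (ev V) 0 (A V) id continuous_id (ns j)).comp (P V)) with hY
  have hYF : ∀ j, FT (fun _ => 1) C (Y j) (Y j) := by
    intro j
    have h1 := (hP.ft.mul (hZ j)).congr_chi (χ' := fun _ => 1) fun z => by simp
    rw [one_mul] at h1
    exact h1
  obtain ⟨w, hwF, hw⟩ := lim_field (ν := ν) hYF (by
    filter_upwards [hL] with V ⟨B, hB⟩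
    exact ⟨(P V).comp B, fun x => ((P V).continuous.tendsto _).comp (hB x)⟩)
  have hmain : ∀ᵐ V ∂(NB.PP d ν), (∀ x, Tendsto (fun j => NB.avP (ev V) (A V) (ns j) (P V x))
      atTop (𝓝 (w V x))) ∧ (∀ t x, w V ((ev V).U t x) = (ev V).U t (w V x)) ∧
        (∀ x, P V (w V x) = w V x) ∧ ∀ x, w V (P V x) = w V x := by
    filter_upwards [hL, hw, hcomm, hPA, bd_ae (d := d) hK] with V ⟨B, hB⟩ h2 h3 h4 h5
    have hB' : ∀ x, Tendsto (fun j => NB.avP (ev V) (A V) (ns j) (P V x)) atTop (𝓝 (B x)) :=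
      fun x => (hB x).congr fun j => SL_av V (ns j) _
    have hc : ∀ t x, B ((ev V).U t x) = (ev V).U t (B x) := by
      intro t x
      have h6 := hB' ((ev V).U t x)
      rw [h3] at h6
      exact av_comm (ev V) (A V) hnt _ _ _ t (hB' x) h6
    have hcT : ∀ x, B (HV K V x) = HV K V (B x) :=
      comm_of_Ex fun t x => by rw [← grp_Ex h5 (hev V), hc, grp_Ex h5 (hev V)]
    have hBP : ∀ x, B (P V x) = B x := by
      intro x
      have h6 := hB' (P V x)
      rw [hP.idem] at h6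
      exact tendsto_nhds_unique h6 (hB' x)
    have hPB : ∀ x, P V (B x) = B x := by
      intro x
      rw [← hBP x, h4]
      refine acP_of _ (spm_comm_ac _ hcT ?_)
      exact acP_ac _ _
    have hwB : ∀ x, w V x = B x := by
      intro x
      have h6 : Tendsto (fun j => Y j V x) atTop (𝓝 (P V (B x))) :=
        ((P V).continuous.tendsto _).comp (hB x)
      rw [hPB] at h6
      exact tendsto_nhds_unique (h2 x) h6
    refine ⟨fun x => ?_, fun t x => ?_, fun x => ?_, fun x => ?_⟩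
    · rw [hwB]; exact hB' x
    · rw [hwB, hwB]; exact hc t x
    · rw [hwB]; exact hPB x
    · rw [hwB, hwB]; exact hBP x
  refine ⟨w, hwF, hmain.mono fun V hV => hV.2, ?_⟩
  refine hb.congr fun N => ?_
  refine lintegral_congr_ae ?_
  filter_upwards [hbs, hmain] with V h1 h2
  have := tendsto_nhds_unique h1 (h2.1 (NB.dl 0))
  rw [this]

/-- almost sure convergence -/
theorem quench_w (hev : ∀ ω : NB.Site d → ℝ, NB.IsGrp c (fun x => o + ω x) (ev ω))
    (hP : PrF P) (hcomm : ∀ᵐ V ∂(NB.PP d ν), ∀ t x, P V ((ev V).U t x) = (ev V).U t (P V x))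
    (hA : FT (fun _ => 1) C A A) {w : NQ.OF d} (hwF : FT (fun _ => 1) C w w)
    (hw : ∀ᵐ V ∂(NB.PP d ν), (∀ t x, w V ((ev V).U t x) = (ev V).U t (w V x)) ∧
        (∀ x, P V (w V x) = w V x) ∧ ∀ x, w V (P V x) = w V x)
    (hlim : Tendsto (fun N : ℕ => ∫⁻ V, ‖NB.avP (ev V) (A V) N (P V (NB.dl 0)) -
      w V (NB.dl 0)‖ₑ ^ 2 ∂(NB.PP d ν)) atTop (𝓝 0)) :
    ∀ᵐ V ∂(NB.PP d ν), ∀ x, Tendsto (fun N : ℕ => NB.avP (ev V) (A V) N (P V x)) atTop
      (𝓝 (w V x)) := by
  set Z : ℕ → NQ.OF d := fun m V => (SL (ev V) 0 (A V) id continuous_id m).comp (P V) - w V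
    with hZdef
  have hZa : ∀ m V x, Z m V x = NB.avP (ev V) (A V) m (P V x) - w V x := by
    intro m V x
    rw [← SL_av]
    rfl
  have hZ : ∀ m, ∃ Z', FT (fun _ => 1) (C * 1 + C) (Z m) Z' := by
    intro m
    have h1 := (((ft_av hev hA m).mul hP.ft).congr_chi (χ' := fun _ => 1) fun z => by simp).sub hwF
    exact ⟨_, h1⟩
  choose Z' hZF using hZ
  have hcs := core_sup (ν := ν) hev hZF (by
    refine hlim.congr fun N => lintegral_congr fun V => ?_
    rw [hZa])
  have h0 : ∀ᵐ V ∂(NB.PP d ν), Tendsto (fun N : ℕ => Z N V (NB.dl 0)) atTop (𝓝 0) := by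
    filter_upwards [hcs, hcomm, hw] with V h1 h2 ⟨h3, h4, h5⟩
    have h6 : Tendsto (fun N : ℕ => NB.avP (ev V) (A V) N (P V (NB.dl 0))) atTop
        (𝓝 (w V (NB.dl 0))) := by
      refine NQ.tendsto_of_blocks (ev V) (A V) (P V (NB.dl 0)) (w V (NB.dl 0)) fun ε hε => ?_
      obtain ⟨m, hm, hmn⟩ := h1 ε hε
      refine ⟨m, hm, fun n hn => ?_⟩
      have h7 := NQ.block_bound (ev V) (A V) (w V) h3 m n hm hn (P V (NB.dl 0))
      have h8 : ∀ k ∈ Finset.range n, ‖NB.avP (ev V) (A V) m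
          ((ev V).U (((k * m : ℕ) : ℝ)) (P V (NB.dl 0))) -
          w V ((ev V).U (((k * m : ℕ) : ℝ)) (P V (NB.dl 0)))‖ ^ 2 =
          ‖Z m V ((ev V).U (((k * m : ℕ) : ℝ)) (NB.dl 0))‖ ^ 2 := by
        intro k _
        rw [hZa, h2, ← h2, h5]
      rw [Finset.sum_congr rfl h8, h5] at h7
      have h9 := h7.trans (hmn n hn)
      exact (sq_le_sq₀ (norm_nonneg _) hε.le).1 h9
    have h7 := h6.sub_const (w V (NB.dl 0))
    rw [sub_self] at h7
    exact h7.congr fun N => (hZa N V _).symm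
  filter_upwards [all_of_origin hZF h0] with V hV x
  have h1 := (hV x).add_const (w V x)
  rw [zero_add] at h1
  refine h1.congr fun N => ?_
  rw [hZa, sub_add_cancel]

end Pool.Agent.L7h83.WM
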