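import Pool.Agent.L7h83.WM.Cs
import Pool.Agent.Y662.ERG.Dos

/-! # The averages converge in mean square on the absolutely continuous states -/

set_option autoImplicit false

open MeasureTheory Filter Topology
open scoped BigOperators ENNReal NNReal InnerProductSpace ComplexConjugate

namespace Pool.Agent.L7h83.WM

open Pool.Agent.TH980.IM Pool.Agent.H5R2 Pool.Agent.Y662.ERG Pool.Agent.R988

variable {d : ℕ} {c o : ℝ} {ev : (NB.Site d → ℝ) → NB.UG (L2 d)}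
variable {χ : NB.Site d → ℂ} {C : ℝ} {A A' P : NQ.OF d}
variable {ν : Measure ℝ} [IsProbabilityMeasure ν]

theorem avS_zero {X : Type} [NormedAddCommGroup X] [InnerProductSpace ℂ X]
    (W : NB.UG X) (v : X →L[ℂ] X) (N : ℕ) (x : X) : avS W 0 v id N x = NB.avP W v N x := by
  unfold avS NB.avP
  congr 1
  refine intervalIntegral.integral_congr fun s _ => ?_
  show gT W 0 v x s = _
  unfold gT
  rw [ph_zero_left, one_smul]

theorem lint_II (hD : FT χ C A A') :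
    ∫⁻ V, ‖A V (NB.dl 0)‖ₑ ^ 2 ∂(NB.PP d ν) = ENNReal.ofReal (II ν A) := by
  unfold II
  rw [ofReal_integral_eq_lintegral_ofReal hD.sq_int (Eventually.of_forall fun V => sq_nonneg _)]
  refine lintegral_congr fun V => ?_
  rw [ENNReal.ofReal_pow (norm_nonneg _), ofReal_norm]

theorem II_swap (hD : FT (fun _ => 1) C A A') : II ν A = II ν A' := by
  have h1 := NQ.trace (ν := ν) (hD.fld fun _ => rfl) (hD.swap.fld fun _ => by simp)
    (hD.fld fun _ => rfl) (hD.swap.fld fun _ => by simp) hD.adj hD.adj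
  have e : ∀ (D : NQ.OF d) V, ⟪NQ.vec D V, NQ.vec D V⟫_ℂ = ((‖D V (NB.dl 0)‖ ^ 2 : ℝ) : ℂ) := by
    intro D V
    rw [inner_self_eq_norm_sq_to_K]
    norm_cast
  simp only [e] at h1
  rw [int_ofReal, int_ofReal] at h1
  exact_mod_cast h1

/-- symmetric local observables are dense in mean square among the symmetric fields -/
theorem exists_obs (hA : FT (fun _ => 1) C A A) (ε : ℝ≥0∞) (hε : 0 < ε) :
    ∃ (v : (NB.Site d → ℝ) → L2 d →L[ℂ] L2 d) (M : ℝ), Obs d v M ∧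
      ∫⁻ V, ‖v V (NB.dl 0) - A V (NB.dl 0)‖ₑ ^ 2 ∂(NB.PP d ν) ≤ ε := by
  have hε4 : 0 < ε / 4 := ENNReal.div_pos hε.ne' (by norm_num)
  obtain ⟨v, w, M, hO, h⟩ := exists_local (ν := ν) hA (ε / 4) hε4
  have hO' : ObsT d (fun _ => 1) w v M := by
    have h1 := hO.swap
    have e : (fun _ : NB.Site d => conj (1 : ℂ)) = fun _ => 1 := by
      funext z
      simp
    rw [e] at h1
    exact h1
  have h2 := (hO.add hO').smul (1 / 2 : ℂ)
  set u : NQ.OF d := fun V => (1 / 2 : ℂ) • (v V + w V) with hu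
  have hum : FT (fun _ => 1) _ u _ := h2.ft
  have hw : ∫⁻ V, ‖A V (NB.dl 0) - w V (NB.dl 0)‖ₑ ^ 2 ∂(NB.PP d ν) ≤ ε / 4 := by
    have a1 := hA.sub hO.ft
    have a2 := lint_II (ν := ν) a1
    have a3 := lint_II (ν := ν) a1.swap
    have a4 := II_swap (ν := ν) a1
    have a5 : ∫⁻ V, ‖(A V - w V) (NB.dl 0)‖ₑ ^ 2 ∂(NB.PP d ν) =
        ∫⁻ V, ‖(A V - v V) (NB.dl 0)‖ₑ ^ 2 ∂(NB.PP d ν) := by
      rw [a2, a3, a4]
    exact a5.le.trans h
  refine ⟨u, _, ⟨fun V x y => ?_, h2.bound, h2.cont, fun z S hS V ψ => ?_, h2.loc⟩, ?_⟩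
  · have h3 := h2.adj V x y
    rw [h3]
    congr 1
    show (conj (1 / 2 : ℂ)) • (w V + v V) y = (1 / 2 : ℂ) • (v V + w V) y
    rw [add_comm (w V)]
    congr 1
    rw [map_div₀, map_one, map_ofNat]
  · have h3 := h2.cov z S hS V ψ
    rw [one_smul] at h3
    exact h3
  · have mv : Measurable fun V => 2 * ‖A V (NB.dl 0) - v V (NB.dl 0)‖ₑ ^ 2 :=
      ((((hA.sub hO.ft).meas _ stronglyMeasurable_const).enorm).pow_const 2).const_mul 2
    calc ∫⁻ V, ‖u V (NB.dl 0) - A V (NB.dl 0)‖ₑ ^ 2 ∂(NB.PP d ν)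
        ≤ ∫⁻ V, (2 * ‖A V (NB.dl 0) - v V (NB.dl 0)‖ₑ ^ 2 +
          2 * ‖A V (NB.dl 0) - w V (NB.dl 0)‖ₑ ^ 2) ∂(NB.PP d ν) := by
          refine lintegral_mono fun V => ?_
          refine le_trans ?_ (enorm_sq_le _ _)
          have e : u V (NB.dl 0) - A V (NB.dl 0) = (-(1 / 2 : ℂ)) •
              ((A V (NB.dl 0) - v V (NB.dl 0)) + (A V (NB.dl 0) - w V (NB.dl 0))) := by
            show (1 / 2 : ℂ) • (v V (NB.dl 0) + w V (NB.dl 0)) - A V (NB.dl 0) = _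
            module
          rw [e, ← ofReal_norm, ← ofReal_norm]
          gcongr
          rw [norm_smul]
          refine mul_le_of_le_one_left (norm_nonneg _) ?_
          rw [norm_neg]
          norm_num
      _ = 2 * (∫⁻ V, ‖A V (NB.dl 0) - v V (NB.dl 0)‖ₑ ^ 2 ∂(NB.PP d ν)) +
          2 * ∫⁻ V, ‖A V (NB.dl 0) - w V (NB.dl 0)‖ₑ ^ 2 ∂(NB.PP d ν) := by
          rw [lintegral_add_left mv, lintegral_const_mul' _ _ (by norm_num),
            lintegral_const_mul' _ _ (by norm_num)]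
      _ ≤ 2 * (ε / 4) + 2 * (ε / 4) := by gcongr
      _ = ε := by
          rw [← two_mul, ← mul_assoc]
          norm_num
          exact ENNReal.mul_div_cancel (by norm_num) (by norm_num)

/-- completeness of the space of square integrable functions -/
theorem l2lim {Ω E : Type} [MeasurableSpace Ω] [NormedAddCommGroup E] [CompleteSpace E]
    (μ : Measure Ω) (Φ : ℕ → Ω → E) (hΦ : ∀ n, MemLp (Φ n) 2 μ)
    (hc : ∀ δ : ℝ≥0∞, 0 < δ → ∃ N : ℕ, ∀ m ≥ N, ∀ n ≥ N, ∫⁻ x, ‖Φ m x - Φ n x‖ₑ ^ 2 ∂μ ≤ δ) :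
    ∃ b : Ω → E, StronglyMeasurable b ∧
      Tendsto (fun n => ∫⁻ x, ‖Φ n x - b x‖ₑ ^ 2 ∂μ) atTop (𝓝 0) ∧
      ∃ ns : ℕ → ℕ, StrictMono ns ∧ ∀ᵐ x ∂μ, Tendsto (fun j => Φ (ns j) x) atTop (𝓝 (b x)) := by
  have hfact : Fact ((1 : ℝ≥0∞) ≤ 2) := ⟨by norm_num⟩
  have hcau : CauchySeq fun n => (hΦ n).toLp (Φ n) := by
    rw [EMetric.cauchySeq_iff]
    intro ε hε
    set η : ℝ≥0∞ := min ε 1 with hη
    have hη0 : 0 < η := lt_min hε (by norm_num)
    have hηt : η ≠ ∞ := ne_top_of_le_ne_top (by norm_num) (min_le_right _ _)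
    have hη2 : 0 < η ^ 2 := pos_iff_ne_zero.2 (pow_ne_zero 2 hη0.ne')
    obtain ⟨N, hN⟩ := hc (η ^ 2 / 2) (ENNReal.div_pos hη2.ne' (by norm_num))
    refine ⟨N, fun m hm n hn => ?_⟩
    have h1 := hN m hm n hn
    rw [Lp.edist_toLp_toLp]
    have h2 : eLpNorm (Φ m - Φ n) 2 μ ^ 2 ≤ η ^ 2 / 2 := by
      rw [sqL]
      exact h1
    have h3 : η ^ 2 / 2 < η ^ 2 := ENNReal.half_lt_self hη2.ne' (ENNReal.pow_ne_top hηt)
    have h4 := lt_of_pow_lt_pow_left' 2 (h2.trans_lt h3)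
    exact h4.trans_le (min_le_left _ _)
  obtain ⟨b, hb⟩ := cauchySeq_tendsto_of_complete hcau
  rw [Lp.tendsto_Lp_iff_tendsto_eLpNorm'] at hb
  refine ⟨b, Lp.stronglyMeasurable b, ?_, ?_⟩
  · have h1 := ((ENNReal.continuous_pow 2).tendsto 0).comp hb
    have h0 : (0 : ℝ≥0∞) ^ 2 = 0 := by norm_num
    rw [h0] at h1
    refine h1.congr fun n => ?_
    show eLpNorm (((hΦ n).toLp (Φ n) : Ω → E) - (b : Ω → E)) 2 μ ^ 2 = _
    rw [sqL]
    refine lintegral_congr_ae ?_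
    filter_upwards [(hΦ n).coeFn_toLp] with x hx
    rw [Pi.sub_apply, hx]
  · have h2 : Tendsto (fun n => eLpNorm (Φ n - (b : Ω → E)) 2 μ) atTop (𝓝 0) := by
      refine hb.congr fun n => ?_
      refine eLpNorm_congr_ae ?_
      filter_upwards [(hΦ n).coeFn_toLp] with x hx
      rw [Pi.sub_apply, Pi.sub_apply, hx]
    have h3 := tendstoInMeasure_of_tendsto_eLpNorm (p := 2) (by norm_num)
      (fun n => (hΦ n).aestronglyMeasurable) (Lp.stronglyMeasurable b).aestronglyMeasurable h2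
    exact h3.exists_seq_tendsto_ae

theorem memLp_of {f : (NB.Site d → ℝ) → L2 d} (hf : StronglyMeasurable f) {R : ℝ}
    (hR : ∀ V, ‖f V‖ ≤ R) : MemLp f 2 (NB.PP d ν) := by
  have hPP : IsProbabilityMeasure (NB.PP d ν) := by unfold NB.PP; infer_instance
  exact MemLp.of_bound hf.aestronglyMeasurable R (Eventually.of_forall hR)

theorem PrF.sm (hP : PrF P) : StronglyMeasurable fun V => P V (NB.dl 0 : L2 d) :=
  hP.ft.meas _ stronglyMeasurable_const

theorem PrF.nb (hP : PrF P) (V : NB.Site d → ℝ) : ‖P V (NB.dl 0 : L2 d)‖ ≤ 1 := by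
  have := hP.ft.bd V (NB.dl 0)
  rwa [NB.STAT.norm_dl, mul_one] at this

/-- the averages converge in mean square at the origin -/
theorem exists_b (hd : 1 ≤ d) {K : ℝ} (hK : ∀ᵐ r ∂ν, |r| ≤ K) (hν : ∀ r : ℝ, ν {r} ≠ 1)
    (hev : ∀ ω : NB.Site d → ℝ, NB.IsGrp (-1) (fun x => 2 * d + ω x) (ev ω))
    (hP : PrF P) (hcomm : ∀ᵐ V ∂(NB.PP d ν), ∀ t x, P V ((ev V).U t x) = (ev V).U t (P V x))
    (hA : FT (fun _ => 1) C A A) :
    ∃ b : (NB.Site d → ℝ) → L2 d, StronglyMeasurable b ∧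
      Tendsto (fun N : ℕ => ∫⁻ V, ‖NB.avP (ev V) (A V) N (P V (NB.dl 0)) - b V‖ₑ ^ 2
        ∂(NB.PP d ν)) atTop (𝓝 0) ∧
      ∃ ns : ℕ → ℕ, StrictMono ns ∧ ∀ᵐ V ∂(NB.PP d ν),
        Tendsto (fun j => NB.avP (ev V) (A V) (ns j) (P V (NB.dl 0))) atTop (𝓝 (b V)) := by
  have hsm : ∀ {R : ℝ} {D D' : NQ.OF d}, FT (fun _ => 1) R D D' → ∀ N : ℕ,
      StronglyMeasurable fun V => NB.avP (ev V) (D V) N (P V (NB.dl 0)) := by
    intro R D D' hD N
    have h1 := sm_avS (c := -1) (o := 2 * d) hev hD 0 N _ hP.sm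
    simpa only [avS_zero] using h1
  have hbd : ∀ (N : ℕ) V, ‖NB.avP (ev V) (A V) N (P V (NB.dl 0))‖ ≤ C := by
    intro N V
    rw [← avS_zero]
    refine (avS_norm _ _ _ _ _ _).trans ?_
    calc ‖A V‖ * ‖P V (NB.dl 0)‖ ≤ C * 1 :=
          mul_le_mul (hA.opn V) (hP.nb V) (norm_nonneg _) hA.nn
      _ = C := mul_one C
  refine l2lim (NB.PP d ν) (fun N V => NB.avP (ev V) (A V) N (P V (NB.dl 0)))
    (fun N => memLp_of (hsm hA N) (hbd N)) fun δ hδ => ?_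
  have hδ16 : 0 < δ / 16 := ENNReal.div_pos hδ.ne' (by norm_num)
  obtain ⟨v, M, hO, hv⟩ := exists_obs (ν := ν) hA (δ / 16) hδ16
  obtain ⟨f, Bop, hf1, hf2, hlim, hB⟩ := main_f hd hK hν hev hO
  obtain ⟨hmB, hconv⟩ := fin_int hev hO hlim (fun V => P V (NB.dl 0)) 1
    hP.sm.aestronglyMeasurable hP.nb
  rw [ENNReal.tendsto_atTop_zero] at hconv
  obtain ⟨N₀, hN₀⟩ := hconv (δ / 16) hδ16
  have hvF : FT (fun _ => 1) M v v := by
    refine ⟨hO.symm, hO.bound, hO.bound, fun f hf => ?_, fun f hf => ?_, fun z => by simp,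
      fun z S hS V ψ => ?_, fun z S hS V ψ => ?_⟩
    · exact hO.cont.comp_stronglyMeasurable (stronglyMeasurable_id.prodMk hf)
    · exact hO.cont.comp_stronglyMeasurable (stronglyMeasurable_id.prodMk hf)
    · rw [one_smul]
      exact hO.cov z S hS V ψ
    · rw [map_one, one_smul]
      exact hO.cov z S hS V ψ
  have key : ∀ m ≥ N₀, ∫⁻ V, ‖NB.avP (ev V) (A V) m (P V (NB.dl 0)) - Bop V (P V (NB.dl 0))‖ₑ ^ 2
      ∂(NB.PP d ν) ≤ δ / 4 := by
    intro m hm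
    have h3 := contr hev hP hcomm (hvF.sub hA) 0 m
    have h5 := h3.trans hv
    have hm1 : Measurable fun V => 2 * ‖avS (ev V) 0 (v V - A V) id m (P V (NB.dl 0))‖ₑ ^ 2 :=
      (((sm_avS hev (hvF.sub hA) 0 m _ hP.sm).enorm).pow_const 2).const_mul 2
    calc ∫⁻ V, ‖NB.avP (ev V) (A V) m (P V (NB.dl 0)) - Bop V (P V (NB.dl 0))‖ₑ ^ 2 ∂(NB.PP d ν)
        ≤ ∫⁻ V, (2 * ‖avS (ev V) 0 (v V - A V) id m (P V (NB.dl 0))‖ₑ ^ 2 +
          2 * ‖NB.avP (ev V) (v V) m (P V (NB.dl 0)) - Bop V (P V (NB.dl 0))‖ₑ ^ 2)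
          ∂(NB.PP d ν) := by
          refine lintegral_mono fun V => ?_
          have e : NB.avP (ev V) (A V) m (P V (NB.dl 0)) - Bop V (P V (NB.dl 0)) =
              -avS (ev V) 0 (v V - A V) id m (P V (NB.dl 0)) +
              (NB.avP (ev V) (v V) m (P V (NB.dl 0)) - Bop V (P V (NB.dl 0))) := by
            have e2 := avS_sub (ev V) 0 (A V) (v V) id continuous_id m (P V (NB.dl 0))
            rw [avS_zero, avS_zero] at e2
            rw [e2]
            abel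
          rw [e]
          refine (enorm_sq_le _ _).trans (le_of_eq ?_)
          rw [enorm_neg]
      _ = 2 * (∫⁻ V, ‖avS (ev V) 0 (v V - A V) id m (P V (NB.dl 0))‖ₑ ^ 2 ∂(NB.PP d ν)) +
          2 * ∫⁻ V, ‖NB.avP (ev V) (v V) m (P V (NB.dl 0)) - Bop V (P V (NB.dl 0))‖ₑ ^ 2
            ∂(NB.PP d ν) := by
          rw [lintegral_add_left hm1, lintegral_const_mul' _ _ (by norm_num),
            lintegral_const_mul' _ _ (by norm_num)]
      _ ≤ 2 * (δ / 16) + 2 * (δ / 16) := by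
          gcongr
          exact hN₀ m hm
      _ = δ / 4 := by
          rw [← two_mul, ← mul_assoc, ENNReal.div_eq_inv_mul, ENNReal.div_eq_inv_mul, ← mul_assoc]
          congr 1
          have e16 : (16 : ℝ≥0∞) = 4 * 4 := by norm_num
          have e4 : (2 : ℝ≥0∞) * 2 = 4 := by norm_num
          rw [e16, ENNReal.mul_inv (by norm_num) (by norm_num), e4, ← mul_assoc,
            ENNReal.mul_inv_cancel (by norm_num) (by norm_num), one_mul]
  refine ⟨N₀, fun m hm n hn => ?_⟩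
  have hm1 : AEMeasurable (fun V => 2 * ‖NB.avP (ev V) (A V) m (P V (NB.dl 0)) -
      Bop V (P V (NB.dl 0))‖ₑ ^ 2) (NB.PP d ν) :=
    ((((hsm hA m).aestronglyMeasurable.sub hmB).enorm).pow_const 2).const_mul 2
  calc ∫⁻ V, ‖NB.avP (ev V) (A V) m (P V (NB.dl 0)) - NB.avP (ev V) (A V) n (P V (NB.dl 0))‖ₑ ^ 2
        ∂(NB.PP d ν)
      ≤ ∫⁻ V, (2 * ‖NB.avP (ev V) (A V) m (P V (NB.dl 0)) - Bop V (P V (NB.dl 0))‖ₑ ^ 2 +
        2 * ‖NB.avP (ev V) (A V) n (P V (NB.dl 0)) - Bop V (P V (NB.dl 0))‖ₑ ^ 2)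
        ∂(NB.PP d ν) := by
        refine lintegral_mono fun V => ?_
        have e : NB.avP (ev V) (A V) m (P V (NB.dl 0)) - NB.avP (ev V) (A V) n (P V (NB.dl 0)) =
            (NB.avP (ev V) (A V) m (P V (NB.dl 0)) - Bop V (P V (NB.dl 0))) +
            -(NB.avP (ev V) (A V) n (P V (NB.dl 0)) - Bop V (P V (NB.dl 0))) := by
          abel
        rw [e]
        refine (enorm_sq_le _ _).trans (le_of_eq ?_)
        rw [enorm_neg]
    _ = 2 * (∫⁻ V, ‖NB.avP (ev V) (A V) m (P V (NB.dl 0)) - Bop V (P V (NB.dl 0))‖ₑ ^ 2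
          ∂(NB.PP d ν)) +
        2 * ∫⁻ V, ‖NB.avP (ev V) (A V) n (P V (NB.dl 0)) - Bop V (P V (NB.dl 0))‖ₑ ^ 2
          ∂(NB.PP d ν) := by
        rw [lintegral_add_left' hm1, lintegral_const_mul' _ _ (by norm_num),
          lintegral_const_mul' _ _ (by norm_num)]
    _ ≤ 2 * (δ / 4) + 2 * (δ / 4) := by
        gcongr
        · exact key m hm
        · exact key n hn
    _ = δ := by
        rw [← two_mul, ← mul_assoc]
        norm_num
        exact ENNReal.mul_div_cancel (by norm_num) (by norm_num)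

end Pool.Agent.L7h83.WM
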