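import Pool.Agent.L7h83.WM.Mq

/-! # The ergodic theorem on the absolutely continuous states, for all observables -/

set_option autoImplicit false

open MeasureTheory Filter Topology
open scoped BigOperators ENNReal NNReal InnerProductSpace ComplexConjugate

namespace Pool.Agent.L7h83.WM

open Pool.Agent.TH980.IM Pool.Agent.H5R2 Pool.Agent.Y662.ERG Pool.Agent.R988
open Pool.Agent.TH980.IM.PR

variable {d : ℕ} {c o : ℝ} {ev : (NB.Site d → ℝ) → NB.UG (L2 d)}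
variable {χ : NB.Site d → ℂ} {C : ℝ} {A A' D D' P : NQ.OF d}
variable {ν : Measure ℝ} [IsProbabilityMeasure ν]

theorem exp_bd (t E : ℝ) : ‖Complex.exp (Complex.I * t * E)‖ = 1 := by
  rw [Complex.norm_exp]
  simp

theorem int_exp (m : Measure ℝ) [IsFiniteMeasure m] {f : ℝ → ℝ} (hf : Measurable f) {M : ℝ}
    (hM : ∀ E, |f E| ≤ M) (t : ℝ) :
    Integrable (fun E : ℝ => Complex.exp (Complex.I * t * E) * f E) m := by
  refine Integrable.of_bound (C := M) ?_ (Eventually.of_forall fun E => ?_)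
  · exact Measurable.aestronglyMeasurable (by fun_prop)
  · rw [norm_mul, exp_bd, one_mul, Complex.norm_real]
    exact hM E

theorem int_lin (m : Measure ℝ) [IsFiniteMeasure m] {f₁ f₂ : ℝ → ℝ} (h₁ : Measurable f₁)
    (h₂ : Measurable f₂) {M : ℝ} (b₁ : ∀ E, |f₁ E| ≤ M) (b₂ : ∀ E, |f₂ E| ≤ M) (t : ℝ) :
    ∫ E : ℝ, Complex.exp (Complex.I * t * E) * ((f₁ E : ℂ) + Complex.I * (f₂ E : ℂ)) ∂m =
      (∫ E : ℝ, Complex.exp (Complex.I * t * E) * f₁ E ∂m) +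
        Complex.I * ∫ E : ℝ, Complex.exp (Complex.I * t * E) * f₂ E ∂m := by
  rw [← integral_const_mul, ← integral_add (int_exp m h₁ b₁ t) ((int_exp m h₂ b₂ t).const_mul _)]
  refine integral_congr_ae (Eventually.of_forall fun E => ?_)
  show Complex.exp (Complex.I * t * E) * ((f₁ E : ℂ) + Complex.I * (f₂ E : ℂ)) =
    Complex.exp (Complex.I * t * E) * f₁ E + Complex.I * (Complex.exp (Complex.I * t * E) * f₂ E)
  ring

theorem int_inner (hev : ∀ ω : NB.Site d → ℝ, NB.IsGrp c (fun x => o + ω x) (ev ω))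
    (hP : PrF P) (hA : FT χ C A A') (t : ℝ) :
    Integrable (fun V => ⟪(ev V).U t (P V (NB.dl 0)), A V (P V (NB.dl 0))⟫_ℂ) (NB.PP d ν) := by
  have hPP : IsProbabilityMeasure (NB.PP d ν) := by unfold NB.PP; infer_instance
  refine Integrable.of_bound (C := C) ?_ (Eventually.of_forall fun V => ?_)
  · exact (((ft_U hev t).meas _ hP.sm).inner (hA.meas _ hP.sm)).aestronglyMeasurable
  · refine (norm_inner_le_norm _ _).trans ?_
    rw [(ev V).norm']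
    calc ‖P V (NB.dl 0)‖ * ‖A V (P V (NB.dl 0))‖ ≤ 1 * (C * 1) := by
          refine mul_le_mul (hP.nb V) ?_ (norm_nonneg _) zero_le_one
          exact (hA.bd V _).trans (mul_le_mul_of_nonneg_left (hP.nb V) hA.nn)
      _ = C := by ring

/-- from integer times to real times -/
theorem real_times (W : NB.UG (L2 d)) (u : L2 d →L[ℂ] L2 d) (x y : L2 d)
    (h : Tendsto (fun N : ℕ => NB.avP W u N x) atTop (𝓝 y)) :
    Tendsto (fun T : ℝ => ((T : ℂ)⁻¹) • ∫ s in (0 : ℝ)..T, W.U (-s) (u (W.U s x))) atTop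
      (𝓝 y) := by
  have hfl : Tendsto (fun t : ℝ => ⌊t⌋₊) atTop atTop := tendsto_nat_floor_atTop
  have h1 := (tendsto_iff_norm_sub_tendsto_zero.1 h).comp hfl
  have h2 : Tendsto (fun T : ℝ => ‖NB.avP W u ⌊T⌋₊ x - y‖ + T⁻¹ * (‖u‖ * ‖x‖ + ‖y‖)) atTop
      (𝓝 0) := by
    have := h1.add (tendsto_inv_atTop_zero.mul_const (‖u‖ * ‖x‖ + ‖y‖))
    simpa using this
  rw [tendsto_iff_norm_sub_tendsto_zero]
  refine squeeze_zero' (Eventually.of_forall fun T => norm_nonneg _) ?_ h2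
  filter_upwards [eventually_ge_atTop (1 : ℝ)] with T hT
  exact norm_real W u x y T hT

theorem main_all (hd : 1 ≤ d) {K : ℝ} (hK : ∀ᵐ r ∂ν, |r| ≤ K) (hν : ∀ r : ℝ, ν {r} ≠ 1)
    (hev : ∀ ω : NB.Site d → ℝ, NB.IsGrp (-1) (fun x => 2 * d + ω x) (ev ω)) :
    ∃ κ : Measure ℝ, IsFiniteMeasure κ ∧ κ ≪ volume ∧
      (∀ t : ℝ, ∫ ω, ⟪PA K ω (NB.dl 0), (ev ω).U t (PA K ω (NB.dl 0))⟫_ℂ ∂(NB.PP d ν) =
        ∫ E : ℝ, Complex.exp (-(Complex.I * t * E)) ∂κ) ∧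
      ∀ (A A' : NQ.OF d) (C : ℝ), FT (fun _ => 1) C A A' →
      ∃ (f : ℝ → ℂ) (w : NQ.OF d), Measurable f ∧ (∀ E, ‖f E‖ ≤ 2 * C) ∧
        (∀ t : ℝ, ∫ ω, ⟪(ev ω).U t (PA K ω (NB.dl 0)), A ω (PA K ω (NB.dl 0))⟫_ℂ ∂(NB.PP d ν) =
          ∫ E : ℝ, Complex.exp (Complex.I * t * E) * f E ∂κ) ∧
        ∀ᵐ V ∂(NB.PP d ν), (∀ x, |V x| ≤ K) ∧ ∀ ψ, spm (HV_sa K V) ψ ≪ volume →
          Tendsto (fun T : ℝ => ((T : ℂ)⁻¹) • ∫ s in (0 : ℝ)..T,
            (ev V).U (-s) (A V ((ev V).U s ψ))) atTop (𝓝 (w V ψ)) ∧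
          (∀ t : ℝ, ⟪(ev V).U t ψ, w V ψ⟫_ℂ =
            ∫ E : ℝ, Complex.exp (Complex.I * t * E) * f E ∂(spm (HV_sa K V) ψ)) ∧
          ‖w V ψ‖ ^ 2 = ∫ E, ‖f E‖ ^ 2 ∂(spm (HV_sa K V) ψ) := by
  obtain ⟨κ, hκ1, hκ2, hκ⟩ := dos (d := d) K ν
  have hbd := bd_ae (d := d) hK
  refine ⟨κ, hκ1, hκ2, fun t => ?_, fun A A' C hA => ?_⟩
  · rw [← hκ (fun E => Complex.exp (-(Complex.I * t * E))) (by fun_prop)
      ⟨1, fun E => by rw [Complex.norm_exp]; simp⟩]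
    refine integral_congr_ae ?_
    filter_upwards [hbd] with ω hω
    rw [grp_Ex hω (hev ω), Ex_spm (HV_sa K ω)]
  obtain ⟨P, hP, hPA⟩ := exists_PF (d := d) K ν
  have hC : 0 ≤ C := hA.nn
  -- the symmetric parts
  have ha₁ : ‖(1 / 2 : ℂ)‖ ≤ 1 / 2 := by norm_num
  have ha₂ : ‖(-Complex.I / 2 : ℂ)‖ ≤ 1 / 2 := by
    rw [norm_div, norm_neg, Complex.norm_I]
    norm_num
  have hA₁ := hA.lin (1 / 2) ha₁
  have hA₂ := hA.lin (-Complex.I / 2) ha₂
  set A₁ : NQ.OF d := fun V => (1 / 2 : ℂ) • A V + conj (1 / 2 : ℂ) • A' V with hA₁def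
  set A₂ : NQ.OF d := fun V => (-Complex.I / 2 : ℂ) • A V + conj (-Complex.I / 2 : ℂ) • A' V
    with hA₂def
  have hAA : ∀ V, A V = A₁ V + Complex.I • A₂ V := by
    intro V
    have e1 : conj (1 / 2 : ℂ) = 1 / 2 := by rw [map_div₀, map_one, map_ofNat]
    have e2 : conj (-Complex.I / 2 : ℂ) = Complex.I / 2 := by
      rw [map_div₀, map_neg, Complex.conj_I, map_ofNat, neg_neg]
    simp only [hA₁def, hA₂def]
    rw [e1, e2, smul_add, smul_smul, smul_smul]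
    have e3 : Complex.I * (-Complex.I / 2) = 1 / 2 := by
      rw [mul_div_assoc', mul_neg, Complex.I_mul_I, neg_neg]
    have e4 : Complex.I * (Complex.I / 2) = -(1 / 2) := by
      rw [mul_div_assoc', Complex.I_mul_I, neg_div]
    rw [e3, e4, neg_smul]
    have e5 : (1 / 2 : ℂ) • A V + (1 / 2 : ℂ) • A V = A V := by
      rw [← add_smul]
      norm_num
    calc A V = (1 / 2 : ℂ) • A V + (1 / 2 : ℂ) • A V := e5.symm
      _ = _ := by abel
  obtain ⟨f₁, w₁, hf₁, hb₁, hl₁, hn₁, hm₁⟩ := main_sym hd hK hν hev hA₁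
  obtain ⟨f₂, w₂, hf₂, hb₂, hl₂, hn₂, hm₂⟩ := main_sym hd hK hν hev hA₂
  have hfm : Measurable fun E : ℝ => (f₁ E : ℂ) + Complex.I * (f₂ E : ℂ) := by fun_prop
  have hfb : ∀ E, ‖(f₁ E : ℂ) + Complex.I * (f₂ E : ℂ)‖ ≤ 2 * C := by
    intro E
    refine (norm_add_le _ _).trans ?_
    rw [norm_mul, Complex.norm_I, one_mul, Complex.norm_real, Complex.norm_real]
    have h1 := hb₁ E
    have h2 := hb₂ E
    rw [← Real.norm_eq_abs] at h1 h2
    linarith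
  refine ⟨fun E => (f₁ E : ℂ) + Complex.I * (f₂ E : ℂ), fun V => w₁ V + Complex.I • w₂ V,
    hfm, hfb, fun t => ?_, ?_⟩
  · -- the microcanonical formula
    have hmic : ∀ {B w : NQ.OF d} {f : ℝ → ℝ}, Measurable f → (∀ E, |f E| ≤ C) →
        (∀ᵐ V ∂(NB.PP d ν), (∀ x, |V x| ≤ K) ∧ (∀ x, w V (HV K V x) = HV K V (w V x)) ∧
          ∀ ψ, ∀ᵐ E : ℝ, Ngl (HV K V) E (w V ψ - ((f E : ℝ) : ℂ) • ψ)) →
        (∀ t : ℝ, ∫ V, ⟪(ev V).U t (PA K V (NB.dl 0)), B V (PA K V (NB.dl 0))⟫_ℂ ∂(NB.PP d ν) =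
          ∫ V, ⟪(ev V).U t (PA K V (NB.dl 0)), w V (PA K V (NB.dl 0))⟫_ℂ ∂(NB.PP d ν)) →
        ∫ V, ⟪(ev V).U t (PA K V (NB.dl 0)), B V (PA K V (NB.dl 0))⟫_ℂ ∂(NB.PP d ν) =
          ∫ E : ℝ, Complex.exp (Complex.I * t * E) * f E ∂κ := by
      intro B w f hf1 hf2 hn hm
      rw [hm t, ← hκ (fun E => Complex.exp (Complex.I * t * E) * f E) (by fun_prop)
        ⟨C, fun E => by
          rw [norm_mul, exp_bd, one_mul, Complex.norm_real]
          exact hf2 E⟩]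
      refine integral_congr_ae ?_
      filter_upwards [hn] with ω ⟨h1, h2, h3⟩
      rw [grp_Ex h1 (hev ω)]
      exact inner_of_ngl (HV_sa K ω) h2 hf1 hf2 h3 (acP_ac _ _) t
    have e1 := hmic hf₁ hb₁ hn₁ hm₁
    have e2 := hmic hf₂ hb₂ hn₂ hm₂
    have i1 : Integrable (fun V => ⟪(ev V).U t (PA K V (NB.dl 0)), A₁ V (PA K V (NB.dl 0))⟫_ℂ)
        (NB.PP d ν) := by
      refine (int_inner (c := -1) (o := 2 * d) hev hP hA₁ t).congr ?_
      filter_upwards [hPA] with V hV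
      rw [hV]
    have i2 : Integrable (fun V => ⟪(ev V).U t (PA K V (NB.dl 0)), A₂ V (PA K V (NB.dl 0))⟫_ℂ)
        (NB.PP d ν) := by
      refine (int_inner (c := -1) (o := 2 * d) hev hP hA₂ t).congr ?_
      filter_upwards [hPA] with V hV
      rw [hV]
    rw [int_lin κ hf₁ hf₂ hb₁ hb₂ t, ← e1, ← e2, ← integral_const_mul,
      ← integral_add i1 (i2.const_mul _)]
    refine integral_congr_ae (Eventually.of_forall fun V => ?_)
    show ⟪(ev V).U t (PA K V (NB.dl 0)), A V (PA K V (NB.dl 0))⟫_ℂ = _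
    rw [hAA V]
    show ⟪(ev V).U t (PA K V (NB.dl 0)), A₁ V (PA K V (NB.dl 0)) +
      Complex.I • A₂ V (PA K V (NB.dl 0))⟫_ℂ = _
    rw [inner_add_right, inner_smul_right]
  · filter_upwards [hl₁, hl₂, hn₁, hn₂] with V g1 g2 ⟨g3, g4, g5⟩ ⟨_, g6, g7⟩
    refine ⟨g3, fun ψ hψ => ⟨?_, fun t => ?_, ?_⟩⟩
    · refine real_times (ev V) (A V) ψ _ ?_
      have h1 := (g1 ψ hψ).add ((g2 ψ hψ).const_smul Complex.I)
      refine h1.congr fun N => ?_
      rw [hAA V]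
      exact (avP_lin (ev V) (A₁ V) (A₂ V) Complex.I N ψ).symm
    · have h1 := inner_of_ngl (HV_sa K V) g4 hf₁ hb₁ g5 hψ t
      have h2 := inner_of_ngl (HV_sa K V) g6 hf₂ hb₂ g7 hψ t
      rw [int_lin (spm (HV_sa K V) ψ) hf₁ hf₂ hb₁ hb₂ t, ← h1, ← h2, grp_Ex g3 (hev V)]
      show ⟪Ex (HV K V) t ψ, w₁ V ψ + Complex.I • w₂ V ψ⟫_ℂ = _
      rw [inner_add_right, inner_smul_right]
    · have hcomm : ∀ x, (w₁ V + Complex.I • w₂ V) (HV K V x) =
          HV K V ((w₁ V + Complex.I • w₂ V) x) := by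
        intro x
        show w₁ V (HV K V x) + Complex.I • w₂ V (HV K V x) =
          HV K V (w₁ V x + Complex.I • w₂ V x)
        rw [g4, g6, map_add, map_smul]
      have hng : ∀ᵐ E : ℝ, Ngl (HV K V) E ((w₁ V + Complex.I • w₂ V) ψ -
          ((f₁ E : ℂ) + Complex.I * (f₂ E : ℂ)) • ψ) := by
        filter_upwards [g5 ψ, g7 ψ] with E h1 h2
        have h3 := h1.add (h2.smul Complex.I)
        have e : (w₁ V + Complex.I • w₂ V) ψ - ((f₁ E : ℂ) + Complex.I * (f₂ E : ℂ)) • ψ =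
            (w₁ V ψ - ((f₁ E : ℝ) : ℂ) • ψ) + Complex.I • (w₂ V ψ - ((f₂ E : ℝ) : ℂ) • ψ) := by
          show w₁ V ψ + Complex.I • w₂ V ψ - _ = _
          rw [add_smul, smul_sub, smul_smul]
          abel
        rw [e]
        exact h3
      have h4 := norm_of_ngl (HV_sa K V) hcomm hfm hψ hng
      have h5 : ∫⁻ E, ‖(f₁ E : ℂ) + Complex.I * (f₂ E : ℂ)‖ₑ ^ 2 ∂(spm (HV_sa K V) ψ) =
          ENNReal.ofReal (∫ E, ‖(f₁ E : ℂ) + Complex.I * (f₂ E : ℂ)‖ ^ 2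
            ∂(spm (HV_sa K V) ψ)) := by
        rw [ofReal_integral_eq_lintegral_ofReal]
        · refine lintegral_congr fun E => ?_
          rw [← ofReal_norm, ← ENNReal.ofReal_pow (norm_nonneg _)]
        · refine Integrable.of_bound (hfm.norm.pow_const 2).aestronglyMeasurable ((2 * C) ^ 2)
            (ae_of_all _ fun E => ?_)
          rw [norm_pow, norm_norm]
          exact pow_le_pow_left₀ (norm_nonneg _) (hfb E) 2
        · exact ae_of_all _ fun E => sq_nonneg _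
      have h6 : ‖(w₁ V + Complex.I • w₂ V) ψ‖ₑ ^ 2 =
          ENNReal.ofReal (‖(w₁ V + Complex.I • w₂ V) ψ‖ ^ 2) := by
        rw [← ofReal_norm, ENNReal.ofReal_pow (norm_nonneg _)]
      rw [h6, h5] at h4
      exact (ENNReal.ofReal_eq_ofReal_iff (by positivity)
        (integral_nonneg fun E => sq_nonneg _)).1 h4

end Pool.Agent.L7h83.WM
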