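import Pool.Agent.Y662.ERG.Det

/-! # Bernoulli shifts have no eigenfunctions -/

set_option autoImplicit false

open MeasureTheory Filter Topology Set ProbabilityTheory
open scoped ENNReal NNReal

namespace Pool.Agent.L7h83.WM

open Pool.Agent.TH980.IM Pool.Agent.H5R2 Pool.Agent.Y662.ERG
open Pool.Agent.TH980.IM.PR

variable {d : ℕ}

/-- a set which does not meet infinitely many of its translates is negligible -/
theorem mix_zero (ν : Measure ℝ) [IsProbabilityMeasure ν] {N : Set (Sd d → ℝ)}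
    (hN : MeasurableSet N) {Xs : Set (Sd d)} (hX : Xs.Infinite)
    (h0 : ∀ x ∈ Xs, (PP (Sd d) ν).real (N ∩ sh x ⁻¹' N) = 0) : (PP (Sd d) ν).real N = 0 := by
  haveI : IsProbabilityMeasure (PP (Sd d) ν) := by unfold PP; infer_instance
  set a := (PP (Sd d) ν).real N with ha
  have ha0 : 0 ≤ a := measureReal_nonneg
  have ha1 : a ≤ 1 := measureReal_le_one
  have key : ∀ ε : ℝ, 0 < ε → a * a ≤ 4 * ε := by
    intro ε hε
    obtain ⟨s, S, hS, hC⟩ := approx ν hN (ENNReal.ofReal_pos.2 hε)
    set C : Set (Sd d → ℝ) := cylinder s S with hCdef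
    have hCm : MeasurableSet C := MeasurableSet.cylinder s hS
    -- choose a far translation
    obtain ⟨x, hxX, hx⟩ : ∃ x ∈ Xs, ∀ y ∈ s, ∀ z ∈ s, y + x ≠ z := by
      obtain ⟨x, hxX, hx⟩ := hX.exists_notMem_finset ((s ×ˢ s).image fun q => q.2 - q.1)
      refine ⟨x, hxX, fun y hy z hz h => hx ?_⟩
      rw [Finset.mem_image]
      exact ⟨(y, z), Finset.mem_product.2 ⟨hy, hz⟩, by rw [← h]; simp⟩
    set t : Finset (Sd d) := s.image (fun y => y + x) with ht
    have hdisj : Disjoint s t := by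
      rw [Finset.disjoint_left]
      intro z hz hzt
      rw [ht, Finset.mem_image] at hzt
      obtain ⟨y, hy, hyz⟩ := hzt
      exact hx y hy z hz hyz
    -- independence
    have hind : iIndepFun (fun (i : Sd d) (V : Sd d → ℝ) => V i) (PP (Sd d) ν) := by
      unfold PP
      exact iIndepFun_infinitePi (P := fun _ : Sd d => ν) (X := fun _ v => v)
        (fun _ => measurable_id)
    have hind2 := hind.indepFun_finset s t hdisj (fun i => measurable_pi_apply i)
    set S' : Set (t → ℝ) := {w | (fun i : s => w ⟨(i : Sd d) + x, by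
      rw [ht, Finset.mem_image]; exact ⟨i, i.2, rfl⟩⟩) ∈ S} with hS'
    have hS'm : MeasurableSet S' := by
      have : Measurable (fun (w : t → ℝ) (i : s) => w ⟨(i : Sd d) + x, by
        rw [ht, Finset.mem_image]; exact ⟨i, i.2, rfl⟩⟩) := by
        rw [measurable_pi_iff]
        intro i
        exact measurable_pi_apply _
      exact this hS
    have h1 := hind2.measure_inter_preimage_eq_mul S S' hS hS'm
    have hpre1 : (fun (a : Sd d → ℝ) (i : s) => a i) ⁻¹' S = C := rfl
    have hpre2 : (fun (a : Sd d → ℝ) (i : t) => a i) ⁻¹' S' = sh x ⁻¹' C := rfl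
    rw [hpre1, hpre2] at h1
    have h2 : (PP (Sd d) ν).real (C ∩ sh x ⁻¹' C) =
        (PP (Sd d) ν).real C * (PP (Sd d) ν).real C := by
      rw [measureReal_def, h1, ENNReal.toReal_mul,
        (mp_sh ν x).measure_preimage hCm.nullMeasurableSet]
      rfl
    have hsd : (PP (Sd d) ν).real (symmDiff C N) ≤ ε :=
      ENNReal.toReal_le_of_le_ofReal hε.le hC.le
    have hsd2 : (PP (Sd d) ν).real (sh x ⁻¹' symmDiff C N) ≤ ε := by
      rw [measureReal_def, (mp_sh ν x).measure_preimage (hCm.symmDiff hN).nullMeasurableSet]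
      exact hsd
    have h3 : |(PP (Sd d) ν).real C - a| ≤ ε := by
      refine le_trans ?_ hsd
      exact abs_measureReal_sub_le_measureReal_symmDiff hCm.nullMeasurableSet hN.nullMeasurableSet
    have h4 : |(PP (Sd d) ν).real (C ∩ sh x ⁻¹' C) - 0| ≤ 2 * ε := by
      have hsub : symmDiff (C ∩ sh x ⁻¹' C) (N ∩ sh x ⁻¹' N) ⊆
          symmDiff C N ∪ sh x ⁻¹' symmDiff C N := by
        intro V hV
        simp only [Set.mem_symmDiff, mem_inter_iff, mem_preimage, mem_union] at hV ⊢
        tauto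
      rw [← h0 x hxX]
      refine (abs_measureReal_sub_le_measureReal_symmDiff
        (hCm.inter (meas_sh x hCm)).nullMeasurableSet
        (hN.inter (meas_sh x hN)).nullMeasurableSet).trans ?_
      refine (measureReal_mono hsub (measure_ne_top _ _)).trans ?_
      refine (measureReal_union_le _ _).trans ?_
      linarith
    have hc1 : (PP (Sd d) ν).real C ≤ 1 := measureReal_le_one
    have hc0 : 0 ≤ (PP (Sd d) ν).real C := measureReal_nonneg
    rw [h2, sub_zero] at h4
    rw [abs_le] at h3 h4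
    nlinarith
  have h5 : a * a ≤ 0 := by
    by_contra hne
    push Not at hne
    have := key (a * a / 8) (by positivity)
    linarith
  have h6 : a * a = 0 := le_antisymm h5 (mul_self_nonneg a)
  exact mul_self_eq_zero.1 h6

/-- the shift has no eigenfunctions -/
theorem eig_zero (hd : 1 ≤ d) (ν : Measure ℝ) [IsProbabilityMeasure ν] {χ : Sd d → ℂ}
    (hχ1 : ∀ z, ‖χ z‖ = 1) (hχm : ∀ z z', χ (z + z') = χ z * χ z') {z0 : Sd d} (hz0 : χ z0 ≠ 1)
    {G : (Sd d → ℝ) → ℂ} (hG : Measurable G)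
    (h : ∀ᵐ ω ∂(PP (Sd d) ν), ∀ z, G (sh z ω) = χ z * G ω) :
    ∀ᵐ ω ∂(PP (Sd d) ν), G ω = 0 := by
  haveI : Nonempty (Fin d) := ⟨⟨0, hd⟩⟩
  haveI : Infinite (Sd d) := Pi.infinite_of_right
  haveI : IsProbabilityMeasure (PP (Sd d) ν) := by unfold PP; infer_instance
  set δ : ℝ := ‖χ z0 - 1‖ / 2 with hδ
  have hδ0 : 0 < δ := by
    have : 0 < ‖χ z0 - 1‖ := norm_pos_iff.2 (sub_ne_zero.2 hz0)
    positivity
  set Xs : Set (Sd d) := {x | δ ≤ ‖χ x - 1‖} with hXs
  have hX : Xs.Infinite := by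
    intro hfin
    have hcov : (univ : Set (Sd d)) ⊆ Xs ∪ (fun x => x - z0) '' Xs := by
      intro x _
      by_cases hx : x ∈ Xs
      · exact Or.inl hx
      · right
        refine ⟨x + z0, ?_, by simp⟩
        have h1 : ‖χ x - 1‖ < δ := not_le.1 hx
        have h2 : ‖χ (x + z0) - χ x‖ = 2 * δ := by
          have e : χ (x + z0) - χ x = χ x * (χ z0 - 1) := by rw [hχm]; ring
          rw [e, norm_mul, hχ1, one_mul, hδ]
          ring
        have h3 : ‖χ (x + z0) - χ x‖ ≤ ‖χ (x + z0) - 1‖ + ‖χ x - 1‖ := by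
          have e : χ (x + z0) - χ x = (χ (x + z0) - 1) - (χ x - 1) := by ring
          rw [e]
          exact norm_sub_le _ _
        show δ ≤ ‖χ (x + z0) - 1‖
        linarith
    have : (univ : Set (Sd d)).Finite := (hfin.union (hfin.image _)).subset hcov
    exact Set.infinite_univ this
  set r : ℂ → ℝ := fun w => δ * ‖w‖ / (3 + δ) with hr
  have hrc : Continuous r := by
    rw [hr]
    fun_prop
  have hr0 : ∀ w, w ≠ 0 → 0 < r w := by
    intro w hw
    have : 0 < ‖w‖ := norm_pos_iff.2 hw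
    rw [hr]
    positivity
  have hr2 : ∀ w, w ≠ 0 → 2 * r w < δ * (‖w‖ - r w) := by
    intro w hw
    have h1 : 0 < ‖w‖ := norm_pos_iff.2 hw
    have h2 : r w * (3 + δ) = δ * ‖w‖ := by
      rw [hr]
      field_simp
    have h3 := hr0 w hw
    nlinarith
  have hnull : ∀ w, w ≠ 0 → ∀ᵐ ω ∂(PP (Sd d) ν), G ω ∉ Metric.ball w (r w) := by
    intro w hw
    set N : Set (Sd d → ℝ) := G ⁻¹' Metric.ball w (r w) with hN
    have hNm : MeasurableSet N := hG Metric.isOpen_ball.measurableSet
    have h1 : (PP (Sd d) ν).real N = 0 := by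
      refine mix_zero ν hNm hX fun x hx => ?_
      have h2 : PP (Sd d) ν (N ∩ sh x ⁻¹' N) = 0 := by
        rw [measure_eq_zero_iff_ae_notMem]
        filter_upwards [h] with ω hω hmem
        obtain ⟨m1, m2⟩ := hmem
        have m1' : ‖G ω - w‖ < r w := by
          have : dist (G ω) w < r w := m1
          rwa [dist_eq_norm] at this
        have m2' : ‖χ x * G ω - w‖ < r w := by
          have : dist (G (sh x ω)) w < r w := m2
          rwa [dist_eq_norm, hω x] at this
        have m3 : ‖(χ x - 1) * G ω‖ < 2 * r w := by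
          have e : (χ x - 1) * G ω = (χ x * G ω - w) - (G ω - w) := by ring
          rw [e]
          calc _ ≤ ‖χ x * G ω - w‖ + ‖G ω - w‖ := norm_sub_le _ _
            _ < 2 * r w := by linarith
        have m4 : ‖w‖ - r w ≤ ‖G ω‖ := by
          have := norm_sub_norm_le w (G ω)
          rw [norm_sub_rev] at this
          linarith
        rw [norm_mul] at m3
        have m5 : δ * (‖w‖ - r w) ≤ ‖χ x - 1‖ * ‖G ω‖ := by
          have m6 : 0 ≤ ‖G ω‖ := norm_nonneg _
          calc δ * (‖w‖ - r w) ≤ δ * ‖G ω‖ := mul_le_mul_of_nonneg_left m4 hδ0.le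
            _ ≤ ‖χ x - 1‖ * ‖G ω‖ := mul_le_mul_of_nonneg_right hx m6
        have := hr2 w hw
        linarith
      rw [measureReal_def, h2]
      rfl
    have h2 : PP (Sd d) ν N = 0 := by
      rw [measureReal_def, ENNReal.toReal_eq_zero_iff] at h1
      rcases h1 with h1 | h1
      · exact h1
      · exact absurd h1 (measure_ne_top _ _)
    exact measure_eq_zero_iff_ae_notMem.1 h2
  have hall : ∀ᵐ ω ∂(PP (Sd d) ν), ∀ n : ℕ, TopologicalSpace.denseSeq ℂ n ≠ 0 →
      G ω ∉ Metric.ball (TopologicalSpace.denseSeq ℂ n) (r (TopologicalSpace.denseSeq ℂ n)) := by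
    rw [ae_all_iff]
    intro n
    by_cases hn : TopologicalSpace.denseSeq ℂ n = 0
    · exact ae_of_all _ fun ω h => absurd hn h
    · filter_upwards [hnull _ hn] with ω hω _
      exact hω
  filter_upwards [hall] with ω hω
  by_contra hne
  have hopen : IsOpen {w : ℂ | ‖G ω - w‖ < r w ∧ w ≠ 0} := by
    refine IsOpen.inter ?_ isOpen_ne
    exact isOpen_lt (by fun_prop) hrc
  have hmem : G ω ∈ {w : ℂ | ‖G ω - w‖ < r w ∧ w ≠ 0} := by
    refine ⟨?_, hne⟩
    rw [sub_self, norm_zero]
    exact hr0 _ hne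
  obtain ⟨n, hn⟩ := (TopologicalSpace.denseRange_denseSeq ℂ).exists_mem_open hopen ⟨_, hmem⟩
  refine hω n hn.2 ?_
  rw [Metric.mem_ball, dist_eq_norm]
  exact hn.1

end Pool.Agent.L7h83.WM
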