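import Pool.Agent.Y662.ERG.Acp
import Pool.Agent.L7h83.WM.Det2

/-! # Averages with a phase vanish on the absolutely continuous subspace -/

set_option autoImplicit false

open MeasureTheory Filter Topology Set
open scoped ENNReal NNReal InnerProductSpace ComplexConjugate

namespace Pool.Agent.L7h83.WM

open Pool.Agent.TH980.IM Pool.Agent.H5R2 Pool.Agent.Y662.ERG
open Pool.Agent.TH980.IM.PR

variable {d : ℕ} {χ : NB.Site d → ℂ} {v w : (NB.Site d → ℝ) → L2 d →L[ℂ] L2 d} {M : ℝ}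
  {ev : (NB.Site d → ℝ) → NB.UG (L2 d)}

theorem acP_zero_of_ngl {X : Type} [NormedAddCommGroup X] [InnerProductSpace ℂ X]
    [CompleteSpace X] {T : X →L[ℂ] X} (hT : IsSelfAdjoint T) {u : X}
    (h : ∀ᵐ E : ℝ, Ngl T E u) : acP hT u = 0 := by
  have h1 := acP_mass hT u
  have h2 : ∫⁻ E, ENNReal.ofReal (dn hT u E) = 0 := by
    rw [lintegral_eq_zero_iff (dn_meas hT _).ennreal_ofReal]
    filter_upwards [h, qn_tendsto hT u] with E e1 e2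
    have e3 := tendsto_nhds_unique e1 e2
    have e4 : Real.sqrt (kap * dn hT u E) = 0 := e3.symm
    rw [Real.sqrt_eq_zero (mul_nonneg kap_pos.le (dn_nonneg _ _ _))] at e4
    have e5 : dn hT u E = 0 := (mul_eq_zero.1 e4).resolve_left kap_pos.ne'
    show ENNReal.ofReal (dn hT u E) = 0
    rw [e5, ENNReal.ofReal_zero]
  rw [h2] at h1
  have h3 : ‖acP hT u‖ₑ = 0 := by
    rcases pow_eq_zero_iff (two_ne_zero) |>.1 h1 with h4
    exact h4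
  exact enorm_eq_zero.1 h3

/-- the limit operators have no absolutely continuous part -/
theorem mainT (hd : 1 ≤ d) {K : ℝ} {ν : Measure ℝ} [IsProbabilityMeasure ν]
    (hK : ∀ᵐ r ∂ν, |r| ≤ K) (hν : ∀ r : ℝ, ν {r} ≠ 1)
    (hev : ∀ ω : NB.Site d → ℝ, NB.IsGrp (-1) (fun x => 2 * d + ω x) (ev ω))
    (hO : ObsT d χ v w M) {l : ℝ} (hl : l ≠ 0 ∨ ∃ z0, χ z0 ≠ 1) (Mk : ℕ → ℕ)
    (hMk : Tendsto Mk atTop atTop) :
    ∃ a : ℕ → ℕ, StrictMono a ∧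
      ∀ᵐ ω ∂(NB.PP d ν), ∃ B : L2 d →L[ℂ] L2 d, GoodT (ev ω) l (v ω) (Mk ∘ a) B ∧
        ∀ x, acP (HV_sa K ω) (B x) = 0 := by
  obtain ⟨b, hb, hlim⟩ := limT_off (2 * d) hev hO l ν hν
  obtain ⟨a0, ha0, hG0⟩ := hlim Mk hMk
  refine ⟨a0, ha0, ?_⟩
  have hN0 : Tendsto (Mk ∘ a0) atTop atTop := hMk.comp ha0.tendsto_atTop
  set P : (NB.Site d → ℝ) → (L2 d →L[ℂ] L2 d) → Prop := fun ω B =>
    GoodT (ev ω) l (v ω) (Mk ∘ a0) B ∧
      (∀ (z : NB.Site d) (S : L2 d →L[ℂ] L2 d), NB.IsShift (-z) S →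
        B (NB.dl z) = (χ z)⁻¹ • S (b fun y => ω (y + z))) ∧
      ∀ z : NB.Site d, ∀ φ ∈ NBA.HAC (ev ω), (∀ t, ⟪φ, (ev ω).U t (NB.dl z)⟫_ℂ = 0) →
        ⟪φ, B (NB.dl z : L2 d)⟫_ℂ = 0 with hP
  set Bop : (NB.Site d → ℝ) → L2 d →L[ℂ] L2 d := fun ω =>
    Classical.epsilon (fun B => P ω B) with hBop
  have hB : ∀ᵐ ω ∂(NB.PP d ν), P ω (Bop ω) := by
    filter_upwards [hG0] with ω hω
    exact Classical.epsilon_spec (p := fun B => P ω B) hω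
  have hbd : ∀ᵐ ω ∂(NB.PP d ν), ∀ x, |ω x| ≤ K := by
    rw [ae_all_iff]
    intro x
    exact (measurePreserving_eval_infinitePi (fun _ : Sd d => ν) x).quasiMeasurePreserving.ae hK
  obtain ⟨h, Sg, hSg, hm, hcore⟩ := all_core (d := d) hd hK hν
  have h5 : ∀ᵐ ω ∂(NB.PP d ν), ∀ᵐ E : ℝ,
      (∃ g : ℂ, (l ≠ 0 → g = 0) ∧ ∀ x, Ngl (HV K ω) E (Bop ω (ee x) - g • ee x)) ∧
      (E ∉ Sg → ∀ x, Ngl (HV K ω) E (Bop ω (ee x))) ∧
      (E ∈ Sg → ∀ x, ∃ a : ℝ, 0 < a ∧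
        Tendsto (fun k => qn (HV K ω) (zk k E) (ee x)) atTop (𝓝 a)) := by
    filter_upwards [hB, hbd, hcore] with ω e1 e4 ⟨e5, e6, e7⟩
    exact per_VT hd e4 (hev ω) (e1.1.comm hN0) e1.2.2 e5 e7 e6
  have h4 : ∀ᵐ ω ∂(NB.PP d ν), ∀ (z : Sd d) (S : L2 d →L[ℂ] L2 d), NB.IsShift (-z) S →
      Bop ω (ee z) = (χ z)⁻¹ • S (b (sh z ω)) := hB.mono fun ω hω => hω.2.1
  have h6 : ∀ᵐ ω ∂(NB.PP d ν), ∀ᵐ E : ℝ, ∀ x, Ngl (HV K ω) E (Bop ω (ee x)) := by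
    by_cases hl0 : l = 0
    · obtain ⟨z0, hz0⟩ := hl.resolve_left (fun h => h hl0)
      refine det_coreT hd hSg hO.chi hO.mul hz0 b hb Bop h4 ?_
      filter_upwards [h5] with ω hω
      filter_upwards [hω] with E ⟨⟨g, _, hg⟩, e2, e3⟩
      exact ⟨⟨g, hg⟩, e2, e3⟩
    · filter_upwards [h5] with ω hω
      filter_upwards [hω] with E ⟨⟨g, hg0, hg⟩, e2, e3⟩ x
      have := hg x
      rwa [hg0 hl0, zero_smul, sub_zero] at this
  filter_upwards [hB, h6] with ω e1 e2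
  refine ⟨Bop ω, e1.1, fun x => ?_⟩
  have h7 : (acP (HV_sa K ω)).comp (Bop ω) = 0 := by
    refine ContinuousLinearMap.ext_on (s := Set.range (NB.dl (d := d)))
      (fun x => NB.LIMB.dl_dense d x) ?_
    rintro _ ⟨z, rfl⟩
    show acP (HV_sa K ω) (Bop ω (ee z)) = 0
    exact acP_zero_of_ngl (HV_sa K ω) (e2.mono fun E hE => hE z)
  exact congrArg (fun A : L2 d →L[ℂ] L2 d => A x) h7

/-- the limit operators vanish on the absolutely continuous subspace -/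
theorem mainT2 (hd : 1 ≤ d) {K : ℝ} {ν : Measure ℝ} [IsProbabilityMeasure ν]
    (hK : ∀ᵐ r ∂ν, |r| ≤ K) (hν : ∀ r : ℝ, ν {r} ≠ 1)
    (hev : ∀ ω : NB.Site d → ℝ, NB.IsGrp (-1) (fun x => 2 * d + ω x) (ev ω))
    (hO : ObsT d χ v w M) {l : ℝ} (hl : l ≠ 0 ∨ ∃ z0, χ z0 ≠ 1) (Mk : ℕ → ℕ)
    (hMk : Tendsto Mk atTop atTop) :
    ∃ a : ℕ → ℕ, StrictMono a ∧
      ∀ᵐ ω ∂(NB.PP d ν), ∃ B : L2 d →L[ℂ] L2 d, GoodT (ev ω) l (v ω) (Mk ∘ a) B ∧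
        ∀ ψ, spm (HV_sa K ω) ψ ≪ volume → B ψ = 0 := by
  obtain ⟨a1, ha1, h1⟩ := mainT hd hK hν hev hO hl Mk hMk
  have hl' : (-l) ≠ 0 ∨ ∃ z0, (fun z => conj (χ z)) z0 ≠ 1 := by
    rcases hl with hl | ⟨z0, hz0⟩
    · exact Or.inl (neg_ne_zero.2 hl)
    · refine Or.inr ⟨z0, fun h => hz0 ?_⟩
      have := congrArg conj h
      simpa using this
  obtain ⟨a2, ha2, h2⟩ := mainT hd hK hν hev hO.swap hl' (Mk ∘ a1) (hMk.comp ha1.tendsto_atTop)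
  refine ⟨a1 ∘ a2, ha1.comp ha2, ?_⟩
  filter_upwards [h1, h2] with ω ⟨B, hB, _⟩ ⟨B', hB', hz⟩
  have hBc : GoodT (ev ω) l (v ω) (Mk ∘ a1 ∘ a2) B := hB.comp ha2
  refine ⟨B, hBc, fun ψ hψ => ?_⟩
  have h3 : ∀ y, ⟪B ψ, y⟫_ℂ = 0 := by
    intro y
    have e1 : ⟪B ψ, y⟫_ℂ = ⟪ψ, B' y⟫_ℂ := GoodT.adj (hO.adj ω) hBc hB' ψ y
    rw [e1, ← acP_of (HV_sa K ω) hψ, acP_symm, hz y, inner_zero_right]
  exact inner_self_eq_zero.1 (h3 _)

/-- integer times: convergence in mean square -/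
theorem fin_intT {ν : Measure ℝ} [IsProbabilityMeasure ν]
    {c : ℝ} {o : ℝ} (hev : ∀ ω : NB.Site d → ℝ, NB.IsGrp c (fun x => o + ω x) (ev ω))
    (hO : ObsT d χ v w M) {l : ℝ}
    (ψ : (NB.Site d → ℝ) → L2 d) (R : ℝ) (hψ : AEStronglyMeasurable ψ (NB.PP d ν))
    (hR : ∀ V, ‖ψ V‖ ≤ R)
    (hlim : ∀ Mk : ℕ → ℕ, Tendsto Mk atTop atTop → ∃ a : ℕ → ℕ, StrictMono a ∧
        ∀ᵐ ω ∂(NB.PP d ν), Tendsto (fun k => avS (ev ω) l (v ω) id (Mk (a k)) (ψ ω)) atTop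
          (𝓝 0)) :
    Tendsto (fun N : ℕ => ∫⁻ ω, ‖avS (ev ω) l (v ω) id N (ψ ω)‖ₑ ^ 2 ∂(NB.PP d ν))
      atTop (𝓝 0) := by
  haveI : IsProbabilityMeasure (NB.PP d ν) := by unfold NB.PP; infer_instance
  have hR0 : 0 ≤ R := (norm_nonneg _).trans (hR 0)
  -- measurability of the averages
  have hev' : ∀ V, NB.IsGrp c V (ev (shf o V)) := by
    intro V
    have h := hev (shf o V)
    have e : (fun x => o + shf o V x) = V := by
      funext x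
      unfold shf
      ring
    rwa [e] at h
  have hme : ∀ N : ℕ, AEStronglyMeasurable (fun ω => avS (ev ω) l (v ω) id N (ψ ω))
      (NB.PP d ν) := by
    intro N
    have h1 := cont_intT hev' (hO.off o) l id continuous_id (N : ℝ)
    have h2 : Continuous fun p : (NB.Site d → ℝ) × L2 d =>
        (((fun x => o + p.1 x) : NB.Site d → ℝ), p.2) := by fun_prop
    have h3 := h1.comp h2
    have h4 : ∀ ω : NB.Site d → ℝ, shf o (fun x => o + ω x) = ω := by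
      intro ω
      funext x
      unfold shf
      ring
    have h5 := h3.comp_aestronglyMeasurable
      ((aestronglyMeasurable_id (α := NB.Site d → ℝ) (μ := NB.PP d ν)).prodMk hψ)
    simp only [Function.comp_def, id_eq, h4] at h5
    exact h5.const_smul ((N : ℂ)⁻¹)
  refine tendsto_of_subseq_tendsto ?_
  intro Mk hMk
  obtain ⟨a, ha, hG⟩ := hlim Mk hMk
  refine ⟨a, ?_⟩
  have hbd : ∀ N ω, ‖avS (ev ω) l (v ω) id N (ψ ω)‖ ≤ M * R := by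
    intro N ω
    refine (avS_norm _ _ _ _ _ _).trans ?_
    exact mul_le_mul (hO.opn ω) (hR ω) (norm_nonneg _) hO.nn
  have key : Tendsto (fun k => ∫⁻ ω, ‖avS (ev ω) l (v ω) id (Mk (a k)) (ψ ω)‖ₑ ^ 2
      ∂(NB.PP d ν)) atTop (𝓝 (∫⁻ _V, 0 ∂(NB.PP d ν))) := by
    refine tendsto_lintegral_of_dominated_convergence'
      (fun _ => ENNReal.ofReal ((M * R) ^ 2)) (fun k => ?_) (fun k => ?_) ?_ ?_
    · exact (hme _).enorm.pow_const 2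
    · refine ae_of_all _ fun ω => ?_
      show ‖avS (ev ω) l (v ω) id (Mk (a k)) (ψ ω)‖ₑ ^ 2 ≤ ENNReal.ofReal ((M * R) ^ 2)
      rw [← ofReal_norm, ← ENNReal.ofReal_pow (norm_nonneg _)]
      exact ENNReal.ofReal_le_ofReal (pow_le_pow_left₀ (norm_nonneg _) (hbd _ _) 2)
    · rw [lintegral_const]
      simp
    · filter_upwards [hG] with ω hω
      have h5 := hω.enorm
      rw [enorm_zero] at h5
      have h6 := (ENNReal.continuous_pow 2).tendsto 0 |>.comp h5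
      simpa [Function.comp_def] using h6
  simpa using key

/-- pointwise comparison of the average over `[0,T]` and over `[0,⌊T⌋]` -/
theorem norm_realT (W : NB.UG (L2 d)) (l : ℝ) (u : L2 d →L[ℂ] L2 d) (x : L2 d) (T : ℝ)
    (hT : 1 ≤ T) :
    ‖((T : ℂ)⁻¹) • (∫ s in (0 : ℝ)..T, gT W l u x s)‖ ≤
      ‖avS W l u id ⌊T⌋₊ x‖ + T⁻¹ * (‖u‖ * ‖x‖) := by
  set N := ⌊T⌋₊ with hN
  have hNpos : 0 < N := Nat.floor_pos.2 hT
  have hNt : (N : ℝ) ≤ T := Nat.floor_le (by linarith)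
  have hNt2 : T < N + 1 := Nat.lt_floor_add_one T
  have hT0 : 0 < T := by linarith
  have hi : ∀ a b : ℝ, IntervalIntegrable (fun s : ℝ => gT W l u x s) volume a b :=
    fun a b => (gT_cont W l u x).intervalIntegrable a b
  have e : ∫ s in (0 : ℝ)..T, gT W l u x s =
      (N : ℂ) • avS W l u id N x + ∫ s in (N : ℝ)..T, gT W l u x s := by
    have h1 : (N : ℂ) • avS W l u id N x = ∫ s in (0 : ℝ)..(N : ℝ), gT W l u x s := by
      unfold avS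
      rw [smul_smul, mul_inv_cancel₀ (by exact_mod_cast hNpos.ne'), one_smul]
      rfl
    rw [h1, intervalIntegral.integral_add_adjacent_intervals (hi _ _) (hi _ _)]
  have hTN : |T - N| ≤ 1 := by
    rw [abs_of_nonneg (by linarith)]
    linarith
  have h2 : ‖∫ s in (N : ℝ)..T, gT W l u x s‖ ≤ ‖u‖ * ‖x‖ := by
    refine (int_norm W l u x (N : ℝ) T).trans ?_
    calc ‖u‖ * ‖x‖ * |T - N| ≤ ‖u‖ * ‖x‖ * 1 := by gcongr
      _ = ‖u‖ * ‖x‖ := mul_one _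
  rw [e, norm_smul, norm_inv, Complex.norm_real, Real.norm_eq_abs, abs_of_pos hT0]
  calc T⁻¹ * ‖(N : ℂ) • avS W l u id N x + ∫ s in (N : ℝ)..T, gT W l u x s‖
      ≤ T⁻¹ * (T * ‖avS W l u id N x‖ + ‖u‖ * ‖x‖) := by
        refine mul_le_mul_of_nonneg_left ?_ (by positivity)
        refine (norm_add_le _ _).trans (add_le_add ?_ h2)
        rw [norm_smul, Complex.norm_natCast]
        exact mul_le_mul_of_nonneg_right hNt (norm_nonneg _)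
    _ = ‖avS W l u id N x‖ + T⁻¹ * (‖u‖ * ‖x‖) := by
        field_simp

/-- real times -/
theorem fin_realT {ν : Measure ℝ} [IsProbabilityMeasure ν]
    (hO : ObsT d χ v w M) {l : ℝ}
    (ψ : (NB.Site d → ℝ) → L2 d) (R : ℝ) (hR : ∀ V, ‖ψ V‖ ≤ R)
    (h : Tendsto (fun N : ℕ => ∫⁻ ω, ‖avS (ev ω) l (v ω) id N (ψ ω)‖ₑ ^ 2 ∂(NB.PP d ν))
      atTop (𝓝 0)) :
    Tendsto (fun T : ℝ => ∫⁻ ω, ‖((T : ℂ)⁻¹) • (∫ s in (0 : ℝ)..T,
      gT (ev ω) l (v ω) (ψ ω) s)‖ₑ ^ 2 ∂(NB.PP d ν)) atTop (𝓝 0) := by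
  haveI : IsProbabilityMeasure (NB.PP d ν) := by unfold NB.PP; infer_instance
  have hR0 : 0 ≤ R := (norm_nonneg _).trans (hR 0)
  have hfl : Tendsto (fun t : ℝ => ⌊t⌋₊) atTop atTop := tendsto_nat_floor_atTop
  have h2 := h.comp hfl
  have h3 : Tendsto (fun T : ℝ => 2 * (∫⁻ ω, ‖avS (ev ω) l (v ω) id ⌊T⌋₊ (ψ ω)‖ₑ ^ 2
      ∂(NB.PP d ν)) + ENNReal.ofReal (2 * (T⁻¹ * (M * R)) ^ 2)) atTop (𝓝 0) := by
    have a1 : Tendsto (fun T : ℝ => 2 * (∫⁻ ω, ‖avS (ev ω) l (v ω) id ⌊T⌋₊ (ψ ω)‖ₑ ^ 2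
        ∂(NB.PP d ν))) atTop (𝓝 0) := by
      have := ENNReal.Tendsto.const_mul (a := 2) h2 (Or.inr (by norm_num))
      simpa using this
    have a2 : Tendsto (fun T : ℝ => ENNReal.ofReal (2 * (T⁻¹ * (M * R)) ^ 2)) atTop (𝓝 0) := by
      have b1 : Tendsto (fun T : ℝ => 2 * (T⁻¹ * (M * R)) ^ 2) atTop (𝓝 0) := by
        have b2 := ((tendsto_inv_atTop_zero (𝕜 := ℝ)).mul_const (M * R)).pow 2
        have b3 := b2.const_mul 2
        simpa using b3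
      have := ENNReal.tendsto_ofReal b1
      simpa using this
    simpa using a1.add a2
  refine tendsto_of_tendsto_of_tendsto_of_le_of_le' tendsto_const_nhds h3
    (Eventually.of_forall fun t => bot_le) ?_
  filter_upwards [eventually_ge_atTop (1 : ℝ)] with T hT
  have hpt : ∀ᵐ ω ∂(NB.PP d ν), ‖((T : ℂ)⁻¹) • (∫ s in (0 : ℝ)..T,
        gT (ev ω) l (v ω) (ψ ω) s)‖ₑ ^ 2 ≤
      2 * ‖avS (ev ω) l (v ω) id ⌊T⌋₊ (ψ ω)‖ₑ ^ 2 + ENNReal.ofReal (2 * (T⁻¹ * (M * R)) ^ 2) := by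
    refine ae_of_all _ fun ω => ?_
    have g1 := norm_realT (ev ω) l (v ω) (ψ ω) T hT
    have g2 : T⁻¹ * (‖v ω‖ * ‖ψ ω‖) ≤ T⁻¹ * (M * R) := by
      refine mul_le_mul_of_nonneg_left ?_ (by positivity)
      exact mul_le_mul (hO.opn ω) (hR ω) (norm_nonneg _) hO.nn
    set A := ‖((T : ℂ)⁻¹) • (∫ s in (0 : ℝ)..T, gT (ev ω) l (v ω) (ψ ω) s)‖ with hA
    set Bn := ‖avS (ev ω) l (v ω) id ⌊T⌋₊ (ψ ω)‖ with hBn
    set D := T⁻¹ * (M * R) with hD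
    have g3 : A ^ 2 ≤ 2 * Bn ^ 2 + 2 * D ^ 2 := by
      have hA0 : 0 ≤ A := norm_nonneg _
      have g4 : A ≤ Bn + D := by linarith
      have g5 : A ^ 2 ≤ (Bn + D) ^ 2 := pow_le_pow_left₀ hA0 g4 2
      nlinarith [sq_nonneg (Bn - D)]
    have e2 : (2 : ℝ≥0∞) * ENNReal.ofReal (Bn ^ 2) = ENNReal.ofReal (2 * Bn ^ 2) := by
      rw [ENNReal.ofReal_mul (by norm_num)]
      norm_num
    rw [← ofReal_norm, ← ofReal_norm, ← hA, ← hBn, ← ENNReal.ofReal_pow (norm_nonneg _),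
      ← ENNReal.ofReal_pow (norm_nonneg _), e2,
      ← ENNReal.ofReal_add (by positivity) (by positivity)]
    exact ENNReal.ofReal_le_ofReal g3
  calc (∫⁻ ω, ‖((T : ℂ)⁻¹) • (∫ s in (0 : ℝ)..T,
        gT (ev ω) l (v ω) (ψ ω) s)‖ₑ ^ 2 ∂(NB.PP d ν))
      ≤ ∫⁻ ω, (2 * ‖avS (ev ω) l (v ω) id ⌊T⌋₊ (ψ ω)‖ₑ ^ 2 +
        ENNReal.ofReal (2 * (T⁻¹ * (M * R)) ^ 2)) ∂(NB.PP d ν) :=
        lintegral_mono_ae hpt
    _ = _ := by
        rw [lintegral_add_right _ measurable_const, lintegral_const_mul' _ _ (by norm_num)]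
        simp

end Pool.Agent.L7h83.WM
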