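import Pool.Agent.L7h83.WM.Fi

/-! # The microcanonical formula for general observables -/

set_option autoImplicit false

open MeasureTheory Filter Topology
open scoped BigOperators ENNReal NNReal InnerProductSpace ComplexConjugate

namespace Pool.Agent.L7h83.WM

open Pool.Agent.TH980.IM Pool.Agent.H5R2 Pool.Agent.Y662.ERG Pool.Agent.R988
open Pool.Agent.TH980.IM.PR

variable {d : ℕ} {c o : ℝ} {ev : (NB.Site d → ℝ) → NB.UG (L2 d)}
variable {χ : NB.Site d → ℂ} {C : ℝ} {A A' D D' P : NQ.OF d}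
variable {ν : Measure ℝ} [IsProbabilityMeasure ν]

/-- the expectation of the average -/
theorem mic_avg (hev : ∀ ω : NB.Site d → ℝ, NB.IsGrp c (fun x => o + ω x) (ev ω))
    (hP : PrF P) (hcomm : ∀ᵐ V ∂(NB.PP d ν), ∀ t x, P V ((ev V).U t x) = (ev V).U t (P V x))
    (hA : FT (fun _ => 1) C A A) (t : ℝ) (N : ℕ) (hN : 0 < N) :
    ∫ V, ⟪(ev V).U t (P V (NB.dl 0)), NB.avP (ev V) (A V) N (P V (NB.dl 0))⟫_ℂ ∂(NB.PP d ν) =
    ∫ V, ⟪(ev V).U t (P V (NB.dl 0)), A V (P V (NB.dl 0))⟫_ℂ ∂(NB.PP d ν) := by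
  have hPP : IsProbabilityMeasure (NB.PP d ν) := by unfold NB.PP; infer_instance
  have hNR : (0 : ℝ) < N := by exact_mod_cast hN
  have hNC : (N : ℂ) ≠ 0 := by exact_mod_cast hN.ne'
  set p : (NB.Site d → ℝ) → L2 d := fun V => P V (NB.dl 0) with hp
  set q : (NB.Site d → ℝ) → L2 d := fun V => (ev V).U t (p V) with hq
  have hpm : StronglyMeasurable p := hP.sm
  have hqm : StronglyMeasurable q := (ft_U hev t).meas _ hpm
  have hpb : ∀ V, ‖p V‖ ≤ 1 := hP.nb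
  have hqb : ∀ V, ‖q V‖ ≤ 1 := fun V => by
    simp only [hq]
    rw [(ev V).norm']
    exact hpb V
  set Φ : ℝ → (NB.Site d → ℝ) → ℂ :=
    fun s V => ⟪q V, (ev V).U (-s) (A V ((ev V).U s (p V)))⟫_ℂ with hΦ
  have hΦc : ∀ V, Continuous fun s => Φ s V := fun V =>
    continuous_const.inner (NB.LIMB.cont_P (ev V) (A V) (p V))
  have hΦm1 : ∀ s, StronglyMeasurable (Φ s) := by
    intro s
    have a1 := (ft_U hev s).meas p hpm
    have a2 := hA.meas _ a1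
    have a3 := (ft_U hev (-s)).meas _ a2
    exact hqm.inner a3
  have hΦm : StronglyMeasurable (Function.uncurry Φ) :=
    stronglyMeasurable_uncurry_of_continuous_of_stronglyMeasurable hΦc hΦm1
  have hΦb : ∀ s V, ‖Φ s V‖ ≤ C := by
    intro s V
    refine (norm_inner_le_norm _ _).trans ?_
    have h1 : ‖(ev V).U (-s) (A V ((ev V).U s (p V)))‖ ≤ C := by
      rw [(ev V).norm']
      refine (hA.bd V _).trans ?_
      rw [(ev V).norm']
      calc C * ‖p V‖ ≤ C * 1 := mul_le_mul_of_nonneg_left (hpb V) hA.nn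
        _ = C := mul_one C
    calc ‖q V‖ * ‖(ev V).U (-s) (A V ((ev V).U s (p V)))‖ ≤ 1 * C :=
          mul_le_mul (hqb V) h1 (norm_nonneg _) zero_le_one
      _ = C := one_mul C
  have hint : Integrable (Function.uncurry Φ)
      ((volume.restrict (Set.Ioc (0 : ℝ) (N : ℝ))).prod (NB.PP d ν)) :=
    Integrable.of_bound hΦm.aestronglyMeasurable C (Eventually.of_forall fun z => hΦb z.1 z.2)
  have e1 : ∀ V, ⟪q V, NB.avP (ev V) (A V) N (p V)⟫_ℂ =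
      (N : ℂ)⁻¹ * ∫ s in (0 : ℝ)..(N : ℝ), Φ s V := by
    intro V
    unfold NB.avP
    rw [inner_smul_right]
    congr 1
    have h := ContinuousLinearMap.intervalIntegral_comp_comm (innerSL ℂ (q V))
      ((NB.LIMB.cont_P (ev V) (A V) (p V)).intervalIntegrable (μ := volume) (0 : ℝ) (N : ℝ))
    exact h.symm
  show ∫ V, ⟪q V, NB.avP (ev V) (A V) N (p V)⟫_ℂ ∂(NB.PP d ν) = _
  simp_rw [e1]
  rw [integral_const_mul]
  have e2 : ∫ V, (∫ s in (0 : ℝ)..(N : ℝ), Φ s V) ∂(NB.PP d ν) =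
      ∫ s in (0 : ℝ)..(N : ℝ), (∫ V, Φ s V ∂(NB.PP d ν)) := by
    simp_rw [intervalIntegral.integral_of_le hNR.le]
    exact (integral_integral_swap hint).symm
  rw [e2]
  have e3 : ∀ s : ℝ, ∫ V, Φ s V ∂(NB.PP d ν) =
      ∫ V, ⟪(ev V).U t (P V (NB.dl 0)), A V (P V (NB.dl 0))⟫_ℂ ∂(NB.PP d ν) := fun s =>
    inv_time hev hP hcomm hA t s
  simp_rw [e3]
  rw [intervalIntegral.integral_const, sub_zero, Complex.real_smul, ← mul_assoc]
  have e4 : ((N : ℝ) : ℂ) = (N : ℂ) := by simp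
  rw [e4, inv_mul_cancel₀ hNC, one_mul]

/-- the microcanonical formula -/
theorem mic_w (hev : ∀ ω : NB.Site d → ℝ, NB.IsGrp c (fun x => o + ω x) (ev ω))
    (hP : PrF P) (hcomm : ∀ᵐ V ∂(NB.PP d ν), ∀ t x, P V ((ev V).U t x) = (ev V).U t (P V x))
    (hA : FT (fun _ => 1) C A A) {w : NQ.OF d} (hwF : FT (fun _ => 1) C w w)
    (hlim : Tendsto (fun N : ℕ => ∫⁻ V, ‖NB.avP (ev V) (A V) N (P V (NB.dl 0)) -
      w V (NB.dl 0)‖ₑ ^ 2 ∂(NB.PP d ν)) atTop (𝓝 0)) (t : ℝ) :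
    ∫ V, ⟪(ev V).U t (P V (NB.dl 0)), A V (P V (NB.dl 0))⟫_ℂ ∂(NB.PP d ν) =
      ∫ V, ⟪(ev V).U t (P V (NB.dl 0)), w V (NB.dl 0)⟫_ℂ ∂(NB.PP d ν) := by
  have hPP : IsProbabilityMeasure (NB.PP d ν) := by unfold NB.PP; infer_instance
  have hqm : StronglyMeasurable fun V => (ev V).U t (P V (NB.dl 0)) := (ft_U hev t).meas _ hP.sm
  have hqb : ∀ V, ‖(ev V).U t (P V (NB.dl 0))‖ ≤ 1 := fun V => by
    rw [(ev V).norm']
    exact hP.nb V
  have ham : ∀ N : ℕ, StronglyMeasurable fun V => NB.avP (ev V) (A V) N (P V (NB.dl 0)) := by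
    intro N
    have h1 := sm_avS hev hA 0 N _ hP.sm
    simpa only [avS_zero] using h1
  have hab : ∀ (N : ℕ) V, ‖NB.avP (ev V) (A V) N (P V (NB.dl 0))‖ ≤ C := by
    intro N V
    rw [← avS_zero]
    refine (avS_norm _ _ _ _ _ _).trans ?_
    calc ‖A V‖ * ‖P V (NB.dl 0)‖ ≤ C * 1 :=
          mul_le_mul (hA.opn V) (hP.nb V) (norm_nonneg _) hA.nn
      _ = C := mul_one C
  have hwm : StronglyMeasurable fun V => w V (NB.dl 0) := hwF.meas _ stronglyMeasurable_const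
  have hwb : ∀ V, ‖w V (NB.dl 0)‖ ≤ C := by
    intro V
    have := hwF.bd V (NB.dl 0)
    rwa [NB.STAT.norm_dl, mul_one] at this
  have key := tendsto_inner_of_sq hqm.aestronglyMeasurable (Eventually.of_forall hqb)
    (fun N => (ham N).aestronglyMeasurable) (fun N => Eventually.of_forall (hab N))
    hwm.aestronglyMeasurable (Eventually.of_forall hwb) hlim
  have h1 : Tendsto (fun N : ℕ => ∫ V, ⟪(ev V).U t (P V (NB.dl 0)),
      NB.avP (ev V) (A V) N (P V (NB.dl 0))⟫_ℂ ∂(NB.PP d ν)) atTop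
      (𝓝 (∫ V, ⟪(ev V).U t (P V (NB.dl 0)), A V (P V (NB.dl 0))⟫_ℂ ∂(NB.PP d ν))) := by
    refine tendsto_const_nhds.congr' ?_
    filter_upwards [eventually_gt_atTop 0] with N hN
    exact (mic_avg hev hP hcomm hA t N hN).symm
  exact tendsto_nhds_unique h1 key

/-- everything for symmetric observables -/
theorem main_sym (hd : 1 ≤ d) {K : ℝ} (hK : ∀ᵐ r ∂ν, |r| ≤ K) (hν : ∀ r : ℝ, ν {r} ≠ 1)
    (hev : ∀ ω : NB.Site d → ℝ, NB.IsGrp (-1) (fun x => 2 * d + ω x) (ev ω))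
    (hA : FT (fun _ => 1) C A A) :
    ∃ (f : ℝ → ℝ) (w : NQ.OF d), Measurable f ∧ (∀ E, |f E| ≤ C) ∧
      (∀ᵐ V ∂(NB.PP d ν), ∀ x, spm (HV_sa K V) x ≪ volume →
        Tendsto (fun N : ℕ => NB.avP (ev V) (A V) N x) atTop (𝓝 (w V x))) ∧
      (∀ᵐ V ∂(NB.PP d ν), (∀ x, |V x| ≤ K) ∧ (∀ x, w V (HV K V x) = HV K V (w V x)) ∧
        ∀ ψ, ∀ᵐ E : ℝ, Ngl (HV K V) E (w V ψ - ((f E : ℝ) : ℂ) • ψ)) ∧
      ∀ t : ℝ, ∫ V, ⟪(ev V).U t (PA K V (NB.dl 0)), A V (PA K V (NB.dl 0))⟫_ℂ ∂(NB.PP d ν) =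
        ∫ V, ⟪(ev V).U t (PA K V (NB.dl 0)), w V (PA K V (NB.dl 0))⟫_ℂ ∂(NB.PP d ν) := by
  obtain ⟨P, hP, hPA⟩ := exists_PF (d := d) K ν
  have hcomm := comm_of hK hev hPA
  obtain ⟨w, hwF, hw, hlim⟩ := exists_w hd hK hν hev hP hPA hA
  have hq := quench_w (c := -1) (o := 2 * d) hev hP hcomm hA hwF hw hlim
  have hF := hF_w hK hν hev hP hPA hA hwF hw hq
  obtain ⟨f, hf1, hf2, hf3⟩ := fun_w hd hK hν hev hwF (hw.mono fun V hV => hV.1) hF
  refine ⟨f, w, hf1, hf2, ?_, hf3, fun t => ?_⟩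
  · filter_upwards [hq, hPA] with V h1 h2 x hx
    have h3 := h1 x
    have h4 : P V x = x := by
      rw [h2]
      exact acP_of _ hx
    rw [h4] at h3
    exact h3
  · have h1 := mic_w (c := -1) (o := 2 * d) hev hP hcomm hA hwF hlim t
    have e1 : ∫ V, ⟪(ev V).U t (PA K V (NB.dl 0)), A V (PA K V (NB.dl 0))⟫_ℂ ∂(NB.PP d ν) =
        ∫ V, ⟪(ev V).U t (P V (NB.dl 0)), A V (P V (NB.dl 0))⟫_ℂ ∂(NB.PP d ν) := by
      refine integral_congr_ae ?_
      filter_upwards [hPA] with V hV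
      rw [hV]
    have e2 : ∫ V, ⟪(ev V).U t (PA K V (NB.dl 0)), w V (PA K V (NB.dl 0))⟫_ℂ ∂(NB.PP d ν) =
        ∫ V, ⟪(ev V).U t (P V (NB.dl 0)), w V (NB.dl 0)⟫_ℂ ∂(NB.PP d ν) := by
      refine integral_congr_ae ?_
      filter_upwards [hPA, hw] with V hV ⟨_, _, h3⟩
      rw [← hV, h3]
    rw [e1, e2]
    exact h1

/-- linear combinations of a field and its adjoint -/
theorem FT.lin (h : FT (fun _ => 1) C A A') (a : ℂ) (ha : ‖a‖ ≤ 1 / 2) :
    FT (fun _ => 1) C (fun V => a • A V + conj a • A' V) (fun V => a • A V + conj a • A' V) := by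
  have hs : ∀ V f g, ⟪(a • A V + conj a • A' V) f, g⟫_ℂ =
      ⟪f, (a • A V + conj a • A' V) g⟫_ℂ := by
    intro V f g
    show ⟪a • A V f + conj a • A' V f, g⟫_ℂ = ⟪f, a • A V g + conj a • A' V g⟫_ℂ
    rw [inner_add_left, inner_add_right, inner_smul_left, inner_smul_left, inner_smul_right,
      inner_smul_right, h.adj, h.swap.adj, Complex.conj_conj, add_comm]
  have hb : ∀ V ψ, ‖(a • A V + conj a • A' V) ψ‖ ≤ C * ‖ψ‖ := by
    intro V ψ
    show ‖a • A V ψ + conj a • A' V ψ‖ ≤ _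
    refine (norm_add_le _ _).trans ?_
    rw [norm_smul, norm_smul, RCLike.norm_conj]
    have h1 := h.bd V ψ
    have h2 := h.bd' V ψ
    have h3 : 0 ≤ C * ‖ψ‖ := mul_nonneg h.nn (norm_nonneg _)
    have h4 : ‖a‖ * ‖A V ψ‖ ≤ 1 / 2 * (C * ‖ψ‖) := mul_le_mul ha h1 (norm_nonneg _) (by norm_num)
    have h5 : ‖a‖ * ‖A' V ψ‖ ≤ 1 / 2 * (C * ‖ψ‖) := mul_le_mul ha h2 (norm_nonneg _) (by norm_num)
    linarith
  have hm : ∀ f : (NB.Site d → ℝ) → L2 d, StronglyMeasurable f →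
      StronglyMeasurable fun V => (a • A V + conj a • A' V) (f V) := fun f hf =>
    ((h.meas f hf).const_smul a).add ((h.meas' f hf).const_smul (conj a))
  have hc : ∀ (z : NB.Site d) (S : L2 d →L[ℂ] L2 d), NB.IsShift z S → ∀ V ψ,
      (a • A (fun y => V (y + z)) + conj a • A' (fun y => V (y + z))) (S ψ) =
        S ((a • A V + conj a • A' V) ψ) := by
    intro z S hS V ψ
    show a • A (fun y => V (y + z)) (S ψ) + conj a • A' (fun y => V (y + z)) (S ψ) =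
      S (a • A V ψ + conj a • A' V ψ)
    have h1 := h.cov z S hS V ψ
    have h2 := h.cov' z S hS V ψ
    rw [one_smul] at h1
    rw [map_one, one_smul] at h2
    rw [h1, h2, map_add, map_smul, map_smul]
  exact ⟨hs, hb, hb, hm, hm, fun z => by simp, fun z S hS V ψ => by rw [one_smul]; exact hc z S hS V ψ,
    fun z S hS V ψ => by rw [map_one, one_smul]; exact hc z S hS V ψ⟩

theorem avP_lin {X : Type} [NormedAddCommGroup X] [InnerProductSpace ℂ X]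
    (W : NB.UG X) (v₁ v₂ : X →L[ℂ] X) (a : ℂ) (N : ℕ) (x : X) :
    NB.avP W (v₁ + a • v₂) N x = NB.avP W v₁ N x + a • NB.avP W v₂ N x := by
  have hi : ∀ u : X →L[ℂ] X, IntervalIntegrable
      (fun s : ℝ => W.U (-s) (u (W.U s x))) volume 0 (N : ℝ) := fun u =>
    (NB.BP.g_cont W u x).intervalIntegrable _ _
  have hi2 : IntervalIntegrable (fun s : ℝ => a • W.U (-s) (v₂ (W.U s x))) volume 0 (N : ℝ) :=
    (hi v₂).smul a
  have e : ∫ s in (0 : ℝ)..(N : ℝ), W.U (-s) ((v₁ + a • v₂) (W.U s x)) =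
      (∫ s in (0 : ℝ)..(N : ℝ), W.U (-s) (v₁ (W.U s x))) +
        a • ∫ s in (0 : ℝ)..(N : ℝ), W.U (-s) (v₂ (W.U s x)) := by
    have e2 : a • ∫ s in (0 : ℝ)..(N : ℝ), W.U (-s) (v₂ (W.U s x)) =
        ∫ s in (0 : ℝ)..(N : ℝ), a • W.U (-s) (v₂ (W.U s x)) :=
      (intervalIntegral.integral_smul a _).symm
    rw [e2, ← intervalIntegral.integral_add (hi v₁) hi2]
    refine intervalIntegral.integral_congr fun s _ => ?_
    show W.U (-s) (v₁ (W.U s x) + a • v₂ (W.U s x)) = W.U (-s) (v₁ (W.U s x)) +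
      a • W.U (-s) (v₂ (W.U s x))
    rw [map_add, map_smul]
  unfold NB.avP
  rw [e, smul_add, smul_comm a]

end Pool.Agent.L7h83.WM
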