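import Pool.Agent.L7h83.WM.Bl

/-! # Almost sure convergence of the averages on the range of a field of projections -/

set_option autoImplicit false

open MeasureTheory Filter Topology
open scoped BigOperators ENNReal NNReal InnerProductSpace ComplexConjugate

namespace Pool.Agent.L7h83.WM

open Pool.Agent.TH980.IM Pool.Agent.H5R2 Pool.Agent.Y662.ERG Pool.Agent.R988

variable {d : ℕ} {c o : ℝ} {ev : (NB.Site d → ℝ) → NB.UG (L2 d)}
variable {χ : NB.Site d → ℂ} {C : ℝ} {A A' P : NQ.OF d}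
variable {ν : Measure ℝ} [IsProbabilityMeasure ν]

/-- `P X* X P` -/
noncomputable def BB (P X X' : NQ.OF d) : NQ.OF d :=
  fun V => (P V).comp ((X' V).comp ((X V).comp (P V)))

theorem BB_apply (P X X' : NQ.OF d) (V : NB.Site d → ℝ) (u : L2 d) :
    BB P X X' V u = P V (X' V (X V (P V u))) := rfl

theorem BB_fld {X X' : NQ.OF d} (hP : PrF P) (hX : FT χ C X X') :
    NQ.Fld (C * C) (BB P X X') := by
  have h := (hP.ft.mul (hX.swap.mul (hX.mul hP.ft))).fld (fun z => by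
    show 1 * (conj (χ z) * (χ z * 1)) = 1
    rw [one_mul, mul_one, mul_comm, Complex.mul_conj, Complex.normSq_eq_norm_sq, hX.chi]
    simp)
  have e : 1 * (C * (C * 1)) = C * C := by ring
  rw [e] at h
  exact h

theorem BB_sym {X X' : NQ.OF d} (hP : PrF P) (hX : FT χ C X X') : NQ.Sym (BB P X X') := by
  intro V f g
  rw [BB_apply, BB_apply, hP.ft.adj, hX.swap.adj, hX.adj, hP.ft.adj]

theorem BB_norm {X X' : NQ.OF d} (hP : PrF P) (hX : FT χ C X X') (V : NB.Site d → ℝ) (u : L2 d) :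
    ‖X V (P V u)‖ ^ 2 ≤ ‖BB P X X' V u‖ * ‖u‖ := by
  have h1 : (⟪BB P X X' V u, u⟫_ℂ).re = ‖X V (P V u)‖ ^ 2 := by
    rw [BB_apply, hP.ft.adj, hX.swap.adj, inner_self_eq_norm_sq_to_K]
    norm_cast
  rw [← h1]
  exact (Complex.re_le_norm _).trans (norm_inner_le_norm _ _)

theorem BB_le {X X' : NQ.OF d} (hP : PrF P) (hX : FT χ C X X') (V : NB.Site d → ℝ) (u : L2 d) :
    ‖BB P X X' V u‖ ≤ C * ‖X V (P V u)‖ := by
  rw [BB_apply]
  refine (hP.ft.bd V _).trans ?_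
  rw [one_mul]
  exact hX.bd' V _

/-- mean square convergence implies almost sure convergence, at the origin -/
theorem quench0T (hev : ∀ ω : NB.Site d → ℝ, NB.IsGrp c (fun x => o + ω x) (ev ω))
    (hP : PrF P) (hcomm : ∀ᵐ V ∂(NB.PP d ν), ∀ t x, P V ((ev V).U t x) = (ev V).U t (P V x))
    (hA : FT χ C A A') (l : ℝ)
    (hlim : Tendsto (fun N : ℕ => ∫⁻ V, ‖avS (ev V) l (A V) id N (P V (NB.dl 0))‖ₑ ^ 2
      ∂(NB.PP d ν)) atTop (𝓝 0)) :
    ∀ᵐ V ∂(NB.PP d ν), Tendsto (fun N : ℕ => avS (ev V) l (A V) id N (P V (NB.dl 0))) atTop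
      (𝓝 0) := by
  set X : ℕ → NQ.OF d := fun m V => SL (ev V) l (A V) id continuous_id m with hX
  set X' : ℕ → NQ.OF d := fun m V => SL (ev V) (-l) (A' V) id continuous_id m with hX'
  have hFX : ∀ m, FT χ C (X m) (X' m) := fun m => ft_avS hev hA l m
  set B : ℕ → NQ.OF d := fun m => BB P (X m) (X' m) with hB
  have hC0 : 0 ≤ C := hA.nn
  have hD : ∀ m : ℕ, NQ.Data (NQ.Uf ev (m : ℝ)) (NQ.Uf ev (-(m : ℝ))) (B m) (C * C) := by
    intro m
    refine ⟨(ft_U hev _).fld fun _ => rfl, (ft_U hev _).fld fun _ => rfl, (ft_U hev _).adj,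
      fun V f => ?_, fun V f => ?_, by positivity, BB_fld hP (hFX m), BB_sym hP (hFX m)⟩
    · show (ev V).U (-(m : ℝ)) ((ev V).U (m : ℝ) f) = f
      rw [← (ev V).add', neg_add_cancel, (ev V).zero']
    · show (ev V).U (m : ℝ) ((ev V).U (-(m : ℝ)) f) = f
      rw [← (ev V).add', add_neg_cancel, (ev V).zero']
  set γ : ℝ := C * C with hγ
  set R : ℕ → (NB.Site d → ℝ) → ℝ≥0∞ := fun m V => ⨆ n : ℕ, ENNReal.ofReal
    (NQ.qq (NQ.Uf ev (m : ℝ)) (NQ.Uf ev (-(m : ℝ))) (B m) (n + 1) V /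
      ((n + 1 : ℕ) : ℝ)) with hR
  have hRm : ∀ m, Measurable (R m) := fun m => Measurable.iSup fun n =>
    ENNReal.measurable_ofReal.comp ((NQ.meas_qq (hD m) (n + 1)).div_const _)
  have hPP : IsProbabilityMeasure (NB.PP d ν) := by unfold NB.PP; infer_instance
  -- the traces tend to zero
  have htau : Tendsto (fun m : ℕ => NQ.tauB ν (B m)) atTop (𝓝 0) := by
    have h1 := (ENNReal.tendsto_toReal (by simp : (0 : ℝ≥0∞) ≠ ∞)).comp hlim
    rw [ENNReal.toReal_zero] at h1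
    have h2 := h1.const_mul (C ^ 2)
    rw [mul_zero] at h2
    refine squeeze_zero (fun m => integral_nonneg fun V => sq_nonneg _) (fun m => ?_) h2
    have hs : StronglyMeasurable fun V => avS (ev V) l (A V) id m (P V (NB.dl 0)) :=
      sm_avS hev hA l m _ (hP.ft.meas _ stronglyMeasurable_const)
    have e1 : (∫⁻ V, ‖avS (ev V) l (A V) id m (P V (NB.dl 0))‖ₑ ^ 2 ∂(NB.PP d ν)).toReal =
        ∫ V, ‖avS (ev V) l (A V) id m (P V (NB.dl 0))‖ ^ 2 ∂(NB.PP d ν) := by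
      rw [integral_eq_lintegral_of_nonneg_ae (Eventually.of_forall fun V => sq_nonneg _)
        (hs.norm.pow 2).aestronglyMeasurable]
      congr 1
      refine lintegral_congr fun V => ?_
      rw [ENNReal.ofReal_pow (norm_nonneg _), ofReal_norm]
    show NQ.tauB ν (B m) ≤ C ^ 2 *
      (∫⁻ V, ‖avS (ev V) l (A V) id m (P V (NB.dl 0))‖ₑ ^ 2 ∂(NB.PP d ν)).toReal
    rw [e1, ← integral_const_mul]
    unfold NQ.tauB
    have hbd : ∀ V, ‖avS (ev V) l (A V) id m (P V (NB.dl 0))‖ ≤ C := by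
      intro V
      have b1 := (hFX m).bd V (P V (NB.dl 0))
      have b2 := hP.ft.bd V (NB.dl 0)
      rw [NB.STAT.norm_dl, one_mul] at b2
      have b3 : C * ‖P V (NB.dl 0)‖ ≤ C * 1 := mul_le_mul_of_nonneg_left b2 hC0
      rw [mul_one] at b3
      exact b1.trans b3
    have i1 : Integrable (fun V => ‖NQ.vec (B m) V‖ ^ 2) (NB.PP d ν) := by
      refine Integrable.of_bound ((hD m).fB.sm.norm.pow 2).aestronglyMeasurable ((C * C) ^ 2)
        (Eventually.of_forall fun V => ?_)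
      rw [norm_pow, norm_norm]
      exact pow_le_pow_left₀ (norm_nonneg _) ((hD m).fB.nb V) 2
    have i2 : Integrable (fun V => C ^ 2 * ‖avS (ev V) l (A V) id m (P V (NB.dl 0))‖ ^ 2)
        (NB.PP d ν) := by
      refine Integrable.const_mul ?_ _
      refine Integrable.of_bound (hs.norm.pow 2).aestronglyMeasurable (C ^ 2)
        (Eventually.of_forall fun V => ?_)
      rw [norm_pow, norm_norm]
      exact pow_le_pow_left₀ (norm_nonneg _) (hbd V) 2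
    refine integral_mono i1 i2 fun V => ?_
    show ‖NQ.vec (B m) V‖ ^ 2 ≤ C ^ 2 * ‖avS (ev V) l (A V) id m (P V (NB.dl 0))‖ ^ 2
    rw [← mul_pow]
    exact pow_le_pow_left₀ (norm_nonneg _) (BB_le hP (hFX m) V (NB.dl 0)) 2
  have hsmall : ∀ ε : ℝ, 0 < ε → ∃ m : ℕ, 0 < m ∧
      ∫⁻ V, R m V ∂(NB.PP d ν) ≤ ENNReal.ofReal (3 * ε) := by
    intro ε hε
    have h1 : ∀ᶠ m : ℕ in atTop, 2 * γ ^ 2 * (NQ.tauB ν (B m) / ε) < ε := by
      have h2 : Tendsto (fun m : ℕ => 2 * γ ^ 2 * (NQ.tauB ν (B m) / ε)) atTop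
          (𝓝 0) := by
        have := (htau.div_const ε).const_mul (2 * γ ^ 2)
        simpa using this
      exact (tendsto_order.1 h2).2 ε hε
    obtain ⟨m, hm, hm0⟩ := (h1.and (eventually_gt_atTop 0)).exists
    refine ⟨m, hm0, (NQ.maximal (hD m) hε).trans (ENNReal.ofReal_le_ofReal ?_)⟩
    linarith
  -- the infimum vanishes
  have hinf : ∀ᵐ V ∂(NB.PP d ν), (⨅ m : ℕ, R (m + 1) V) = 0 := by
    have hm : Measurable fun V => ⨅ m : ℕ, R (m + 1) V := Measurable.iInf fun m => hRm (m + 1)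
    have h0 : ∫⁻ V, (⨅ m : ℕ, R (m + 1) V) ∂(NB.PP d ν) = 0 := by
      refine le_antisymm ?_ bot_le
      refine ge_of_tendsto (x := 𝓝[>] (0 : ℝ)) (f := fun ε => ENNReal.ofReal (3 * ε)) ?_ ?_
      · have hc : Continuous fun ε : ℝ => ENNReal.ofReal (3 * ε) :=
          ENNReal.continuous_ofReal.comp (continuous_const.mul continuous_id)
        have := hc.tendsto 0
        rw [mul_zero, ENNReal.ofReal_zero] at this
        exact this.mono_left nhdsWithin_le_nhds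
      · filter_upwards [self_mem_nhdsWithin] with ε hε
        obtain ⟨m, hm0, hm1⟩ := hsmall ε hε
        refine le_trans (lintegral_mono fun V => ?_) hm1
        obtain ⟨k, rfl⟩ : ∃ k, m = k + 1 := ⟨m - 1, by omega⟩
        exact iInf_le (fun m : ℕ => R (m + 1) V) k
    exact (lintegral_eq_zero_iff hm).1 h0
  filter_upwards [hinf, hcomm] with V hV hcV
  refine tendsto_of_blocksT (ev V) l (A V) (P V (NB.dl 0)) fun ε hε => ?_
  have h1 : (⨅ m : ℕ, R (m + 1) V) < ENNReal.ofReal ((ε ^ 2) ^ 2) := by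
    rw [hV]
    exact ENNReal.ofReal_pos.2 (by positivity)
  obtain ⟨k, hk⟩ := iInf_lt_iff.1 h1
  refine ⟨k + 1, Nat.succ_pos k, fun n hn => ?_⟩
  obtain ⟨n', rfl⟩ : ∃ n', n = n' + 1 := ⟨n - 1, by omega⟩
  have h2 : ENNReal.ofReal (NQ.qq (NQ.Uf ev ((k + 1 : ℕ) : ℝ)) (NQ.Uf ev (-((k + 1 : ℕ) : ℝ)))
      (B (k + 1)) (n' + 1) V / ((n' + 1 : ℕ) : ℝ)) ≤ ENNReal.ofReal ((ε ^ 2) ^ 2) :=
    (le_iSup (fun n : ℕ => ENNReal.ofReal (NQ.qq (NQ.Uf ev ((k + 1 : ℕ) : ℝ))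
      (NQ.Uf ev (-((k + 1 : ℕ) : ℝ))) (B (k + 1)) (n + 1) V /
        ((n + 1 : ℕ) : ℝ))) n').trans hk.le
  rw [ENNReal.ofReal_le_ofReal_iff (by positivity)] at h2
  have h3 := block_boundT (ev V) l (A V) (k + 1) (n' + 1) (Nat.succ_pos k)
    (Nat.succ_pos n') (P V (NB.dl 0))
  have h4 := NQ.SS_eq (ev := ev) (m := k + 1) (hD (k + 1)).sB (n' + 1) V (NB.dl 0)
  unfold NQ.qq at h2
  rw [h4] at h2
  set a : ℕ → ℝ := fun j => ‖B (k + 1) V ((ev V).U (((j * (k + 1) : ℕ) : ℝ)) (NB.dl 0))‖ with ha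
  have hn1 : (0 : ℝ) < ((n' + 1 : ℕ) : ℝ) := by positivity
  have h5 : ∀ j, ‖avS (ev V) l (A V) id (k + 1)
      ((ev V).U (((j * (k + 1) : ℕ) : ℝ)) (P V (NB.dl 0)))‖ ^ 2 ≤ a j := by
    intro j
    rw [← hcV]
    have b1 := BB_norm hP (hFX (k + 1)) V ((ev V).U (((j * (k + 1) : ℕ) : ℝ)) (NB.dl 0))
    rw [(ev V).norm', NB.STAT.norm_dl, mul_one] at b1
    exact b1
  have h6 : (∑ j ∈ Finset.range (n' + 1), a j) / ((n' + 1 : ℕ) : ℝ) ≤ ε ^ 2 := by
    have b1 := sq_sum_le_card_mul_sum_sq (s := Finset.range (n' + 1)) (f := a)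
    rw [Finset.card_range] at b1
    have b2 : (∑ j ∈ Finset.range (n' + 1), a j ^ 2) / ((n' + 1 : ℕ) : ℝ) ≤ (ε ^ 2) ^ 2 := h2
    rw [div_le_iff₀ hn1] at b2
    rw [div_le_iff₀ hn1]
    have b3 : (∑ j ∈ Finset.range (n' + 1), a j) ^ 2 ≤ (ε ^ 2 * ((n' + 1 : ℕ) : ℝ)) ^ 2 := by
      calc (∑ j ∈ Finset.range (n' + 1), a j) ^ 2
          ≤ ((n' + 1 : ℕ) : ℝ) * ∑ j ∈ Finset.range (n' + 1), a j ^ 2 := b1
        _ ≤ ((n' + 1 : ℕ) : ℝ) * ((ε ^ 2) ^ 2 * ((n' + 1 : ℕ) : ℝ)) :=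
            mul_le_mul_of_nonneg_left b2 hn1.le
        _ = _ := by ring
    have b4 : 0 ≤ ∑ j ∈ Finset.range (n' + 1), a j := Finset.sum_nonneg fun j _ => norm_nonneg _
    exact (sq_le_sq₀ b4 (by positivity)).1 b3
  have h7 : ‖avS (ev V) l (A V) id ((n' + 1) * (k + 1)) (P V (NB.dl 0))‖ ^ 2 ≤ ε ^ 2 := by
    refine h3.trans (le_trans ?_ h6)
    refine div_le_div_of_nonneg_right ?_ hn1.le
    exact Finset.sum_le_sum fun j _ => h5 j
  exact (sq_le_sq₀ (norm_nonneg _) hε.le).1 h7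

/-- mean square convergence at the origin implies almost sure strong convergence -/
theorem quenchT (hev : ∀ ω : NB.Site d → ℝ, NB.IsGrp c (fun x => o + ω x) (ev ω))
    (hP : PrF P) (hcomm : ∀ᵐ V ∂(NB.PP d ν), ∀ t x, P V ((ev V).U t x) = (ev V).U t (P V x))
    (hA : FT χ C A A') (l : ℝ)
    (hlim : Tendsto (fun N : ℕ => ∫⁻ V, ‖avS (ev V) l (A V) id N (P V (NB.dl 0))‖ₑ ^ 2
      ∂(NB.PP d ν)) atTop (𝓝 0)) :
    ∀ᵐ V ∂(NB.PP d ν), ∀ x, Tendsto (fun N : ℕ => avS (ev V) l (A V) id N (P V x)) atTop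
      (𝓝 0) := by
  have h0 := quench0T hev hP hcomm hA l hlim
  have hz : ∀ᵐ V ∂(NB.PP d ν), ∀ z : NB.Site d,
      Tendsto (fun N : ℕ => avS (ev fun y => V (y + z)) l (A fun y => V (y + z)) id N
        (P (fun y => V (y + z)) (NB.dl 0))) atTop (𝓝 0) := by
    rw [ae_all_iff]
    intro z
    exact ((NB.t_RES d ν).2 z).quasiMeasurePreserving.ae h0
  filter_upwards [hz] with V hV
  have hdl : ∀ z : NB.Site d, Tendsto (fun N : ℕ => avS (ev V) l (A V) id N (P V (NB.dl z))) atTop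
      (𝓝 0) := by
    intro z
    obtain ⟨S, hS⟩ := (NB.t_OPS d).1 (-z)
    have e : (fun y => (fun y => V (y + z)) (y + -z)) = V := by
      funext y; simp
    have h1 := ((S.continuous.tendsto _).comp (hV z)).const_smul (χ (-z))
    rw [map_zero, smul_zero] at h1
    refine h1.congr fun N => ?_
    have h2 := (ft_avS hev hA l N).cov (-z) S hS (fun y => V (y + z))
      (P (fun y => V (y + z)) (NB.dl 0))
    have h3 := hP.ft.cov (-z) S hS (fun y => V (y + z)) (NB.dl 0)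
    rw [e, NB.LIMB.shift_dl z S hS, one_smul] at h3
    rw [← h3, e] at h2
    exact h2.symm
  set Y : ℕ → L2 d →L[ℂ] L2 d := fun N => (SL (ev V) l (A V) id continuous_id N).comp (P V)
    with hY
  have hYb : ∀ N x, ‖Y N x‖ ≤ C * ‖x‖ := by
    intro N x
    have b1 := (ft_avS hev hA l N).bd V (P V x)
    have b2 := hP.ft.bd V x
    rw [one_mul] at b2
    exact b1.trans (mul_le_mul_of_nonneg_left b2 hA.nn)
  obtain ⟨B, hB⟩ := NB.LIMB.ext_lim Y Y C hA.nn hYb hYb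
    (NB.Site d) NB.dl (NB.LIMB.dl_dense d) (fun z => ⟨0, hdl z, hdl z⟩)
  have hBw : B = 0 := by
    refine ContinuousLinearMap.ext_on (s := Set.range (NB.dl (d := d)))
      (fun x => NB.LIMB.dl_dense d x) ?_
    rintro _ ⟨z, rfl⟩
    exact tendsto_nhds_unique (hB (NB.dl z)).1 (hdl z)
  intro x
  have := (hB x).1
  rw [hBw] at this
  exact this

/-- real times -/
theorem real_timesT (W : NB.UG (L2 d)) (l : ℝ) (u : L2 d →L[ℂ] L2 d) (x : L2 d)
    (h : Tendsto (fun N : ℕ => avS W l u id N x) atTop (𝓝 0)) :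
    Tendsto (fun T : ℝ => ((T : ℂ)⁻¹) • ∫ s in (0 : ℝ)..T, gT W l u x s) atTop (𝓝 0) := by
  have hfl : Tendsto (fun t : ℝ => ⌊t⌋₊) atTop atTop := tendsto_nat_floor_atTop
  have h1 := (h.comp hfl).norm
  rw [norm_zero] at h1
  have h2 : Tendsto (fun T : ℝ => ‖avS W l u id ⌊T⌋₊ x‖ + T⁻¹ * (‖u‖ * ‖x‖)) atTop (𝓝 0) := by
    have := h1.add (tendsto_inv_atTop_zero.mul_const (‖u‖ * ‖x‖))
    simpa using this
  rw [tendsto_zero_iff_norm_tendsto_zero]
  refine squeeze_zero' (Eventually.of_forall fun T => norm_nonneg _) ?_ h2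
  filter_upwards [eventually_ge_atTop (1 : ℝ)] with T hT
  exact norm_realT W l u x T hT

end Pool.Agent.L7h83.WM
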