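import Pool.Agent.Y662.ERG.Fam

/-! # Time averages with a phase: basic properties -/

set_option autoImplicit false

open MeasureTheory Filter Topology
open scoped BigOperators ENNReal NNReal InnerProductSpace ComplexConjugate

namespace Pool.Agent.L7h83.WM

open Pool.Agent.H5R2.NB Pool.Agent.H5R2.NBA

/-- the phase `e^{i l s}` -/
noncomputable def ph (l s : ℝ) : ℂ := Complex.exp (Complex.I * ((l * s : ℝ) : ℂ))

theorem norm_ph (l s : ℝ) : ‖ph l s‖ = 1 := by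
  unfold ph
  rw [mul_comm, Complex.norm_exp_ofReal_mul_I]

theorem ph_add (l s t : ℝ) : ph l (s + t) = ph l s * ph l t := by
  unfold ph
  rw [← Complex.exp_add]
  congr 1
  push_cast
  ring

theorem ph_zero (l : ℝ) : ph l 0 = 1 := by
  unfold ph
  simp

theorem ph_zero_left (s : ℝ) : ph 0 s = 1 := by
  unfold ph
  simp

theorem ph_neg_mul (l t : ℝ) : ph l (-t) * ph l t = 1 := by
  rw [← ph_add, neg_add_cancel, ph_zero]

theorem conj_ph (l s : ℝ) : conj (ph l s) = ph (-l) s := by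
  unfold ph
  rw [← Complex.exp_conj]
  congr 1
  rw [map_mul, Complex.conj_I, Complex.conj_ofReal]
  push_cast
  ring

theorem cont_ph (l : ℝ) : Continuous (ph l) := by
  unfold ph
  fun_prop

section abstract

variable {X : Type} [NormedAddCommGroup X] [InnerProductSpace ℂ X]

/-- the observable at time `s` with its phase -/
noncomputable def gT (W : UG X) (l : ℝ) (v : X →L[ℂ] X) (x : X) (s : ℝ) : X :=
  ph l s • W.U (-s) (v (W.U s x))

/-- the time average, `σ` is the identity or `-` -/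
noncomputable def avS (W : UG X) (l : ℝ) (v : X →L[ℂ] X) (σ : ℝ → ℝ) (N : ℕ) (x : X) : X :=
  ((N : ℂ)⁻¹) • ∫ s in (0 : ℝ)..(N : ℝ), gT W l v x (σ s)

/-- forward and backward averages converge to the same operator -/
def GoodT (W : UG X) (l : ℝ) (v : X →L[ℂ] X) (Nk : ℕ → ℕ) (B : X →L[ℂ] X) : Prop :=
  ∀ x, Tendsto (fun k => avS W l v id (Nk k) x) atTop (𝓝 (B x)) ∧
    Tendsto (fun k => avS W l v (fun s => -s) (Nk k) x) atTop (𝓝 (B x))

theorem gT_cont (W : UG X) (l : ℝ) (v : X →L[ℂ] X) (x : X) : Continuous (gT W l v x) :=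
  (cont_ph l).smul (BP.g_cont W v x)

theorem gT_norm (W : UG X) (l : ℝ) (v : X →L[ℂ] X) (x : X) (s : ℝ) :
    ‖gT W l v x s‖ ≤ ‖v‖ * ‖x‖ := by
  unfold gT
  rw [norm_smul, norm_ph, one_mul]
  exact BP.g_norm W v x s

theorem avS_norm (W : UG X) (l : ℝ) (v : X →L[ℂ] X) (σ : ℝ → ℝ) (N : ℕ) (x : X) :
    ‖avS W l v σ N x‖ ≤ ‖v‖ * ‖x‖ :=
  LIMB.norm_avg _ _ (fun _ => gT_norm W l v x _) N

theorem gT_shift (W : UG X) (l : ℝ) (v : X →L[ℂ] X) (x : X) (t s : ℝ) :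
    gT W l v (W.U t x) s = ph l (-t) • W.U t (gT W l v x (s + t)) := by
  unfold gT
  rw [map_smul, smul_smul, ← W.add', ← W.add']
  congr 1
  · rw [← ph_add]
    congr 1
    ring
  · congr 2
    ring

theorem int_norm (W : UG X) (l : ℝ) (v : X →L[ℂ] X) (x : X) (a b : ℝ) :
    ‖∫ s in a..b, gT W l v x s‖ ≤ ‖v‖ * ‖x‖ * |b - a| :=
  intervalIntegral.norm_integral_le_of_norm_le_const fun s _ => gT_norm W l v x s

theorem avS_shift [CompleteSpace X] (W : UG X) (l : ℝ) (v : X →L[ℂ] X) (N : ℕ) (x : X) (t : ℝ) :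
    ‖avS W l v id N (W.U t x) - ph l (-t) • W.U t (avS W l v id N x)‖ ≤
      (N : ℝ)⁻¹ * (2 * (‖v‖ * ‖x‖ * |t|)) := by
  have hi : ∀ a b : ℝ, IntervalIntegrable (gT W l v x) volume a b :=
    fun a b => (gT_cont W l v x).intervalIntegrable a b
  have h1 : avS W l v id N (W.U t x) =
      ((N : ℂ)⁻¹) • ph l (-t) • W.U t (∫ s in t..(N : ℝ) + t, gT W l v x s) := by
    unfold avS
    congr 1
    have e1 : ∫ s in (0 : ℝ)..(N : ℝ), gT W l v (W.U t x) (id s) =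
        ∫ s in (0 : ℝ)..(N : ℝ), ph l (-t) • W.U t (gT W l v x (s + t)) :=
      intervalIntegral.integral_congr fun s _ => gT_shift W l v x t s
    rw [e1, intervalIntegral.integral_comp_add_right (fun s => ph l (-t) • W.U t (gT W l v x s)) t,
      zero_add, intervalIntegral.integral_smul,
      ContinuousLinearMap.intervalIntegral_comp_comm _ (hi _ _)]
  have h2 : ph l (-t) • W.U t (avS W l v id N x) =
      ((N : ℂ)⁻¹) • ph l (-t) • W.U t (∫ s in (0 : ℝ)..(N : ℝ), gT W l v x s) := by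
    unfold avS
    rw [map_smul, smul_comm]
    rfl
  rw [h1, h2, ← smul_sub, ← smul_sub, ← map_sub, norm_smul, norm_smul, norm_inv,
    Complex.norm_natCast, norm_ph, one_mul, W.norm']
  refine mul_le_mul_of_nonneg_left ?_ (by positivity)
  have h3 : ∫ s in t..(N : ℝ) + t, gT W l v x s = (∫ s in t..(0 : ℝ), gT W l v x s) +
      (∫ s in (0 : ℝ)..(N : ℝ), gT W l v x s) + ∫ s in (N : ℝ)..(N : ℝ) + t, gT W l v x s := by
    rw [intervalIntegral.integral_add_adjacent_intervals (hi _ _) (hi _ _),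
      intervalIntegral.integral_add_adjacent_intervals (hi _ _) (hi _ _)]
  have h4 : (∫ s in t..(N : ℝ) + t, gT W l v x s) - ∫ s in (0 : ℝ)..(N : ℝ), gT W l v x s =
      (∫ s in t..(0 : ℝ), gT W l v x s) + ∫ s in (N : ℝ)..(N : ℝ) + t, gT W l v x s := by
    rw [h3]; abel
  rw [h4]
  have h5 := int_norm W l v x t 0
  have h6 := int_norm W l v x (N : ℝ) ((N : ℝ) + t)
  rw [zero_sub, abs_neg] at h5
  rw [add_sub_cancel_left] at h6
  refine (norm_add_le _ _).trans ?_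
  linarith

theorem GoodT.norm_le {W : UG X} {l : ℝ} {v : X →L[ℂ] X} {Nk : ℕ → ℕ} {B : X →L[ℂ] X}
    (hB : GoodT W l v Nk B) (x : X) : ‖B x‖ ≤ ‖v‖ * ‖x‖ :=
  le_of_tendsto (hB x).1.norm (Eventually.of_forall fun k => avS_norm W l v id (Nk k) x)

theorem GoodT.comm [CompleteSpace X] {W : UG X} {l : ℝ} {v : X →L[ℂ] X} {Nk : ℕ → ℕ}
    (hNk : Tendsto Nk atTop atTop) {B : X →L[ℂ] X} (hB : GoodT W l v Nk B) (t : ℝ) (x : X) :
    B (W.U t x) = ph l (-t) • W.U t (B x) := by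
  have h1 := (hB (W.U t x)).1
  have h2 : Tendsto (fun k => ph l (-t) • W.U t (avS W l v id (Nk k) x)) atTop
      (𝓝 (ph l (-t) • W.U t (B x))) :=
    (((W.U t).continuous.tendsto _).comp (hB x).1).const_smul _
  have h3 : Tendsto (fun k => avS W l v id (Nk k) (W.U t x) -
      ph l (-t) • W.U t (avS W l v id (Nk k) x)) atTop (𝓝 0) := by
    refine squeeze_zero_norm (fun k => avS_shift W l v (Nk k) x t) ?_
    have h4 : Tendsto (fun k => ((Nk k : ℕ) : ℝ)⁻¹) atTop (𝓝 0) :=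
      tendsto_inv_atTop_zero.comp (tendsto_natCast_atTop_atTop.comp hNk)
    simpa using h4.mul_const (2 * (‖v‖ * ‖x‖ * |t|))
  have h5 := tendsto_nhds_unique h3 (h1.sub h2)
  exact (sub_eq_zero.1 h5.symm)

theorem GoodT.comp {W : UG X} {l : ℝ} {v : X →L[ℂ] X} {Nk : ℕ → ℕ} {B : X →L[ℂ] X}
    (hB : GoodT W l v Nk B) {a : ℕ → ℕ} (ha : StrictMono a) : GoodT W l v (Nk ∘ a) B :=
  fun x => ⟨(hB x).1.comp ha.tendsto_atTop, (hB x).2.comp ha.tendsto_atTop⟩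

theorem inner_avS [CompleteSpace X] (W : UG X) (l : ℝ) (v : X →L[ℂ] X) (x y : X) (σ : ℝ → ℝ)
    (hσ : Continuous σ) (N : ℕ) :
    ⟪x, avS W l v σ N y⟫_ℂ =
      ((N : ℂ)⁻¹) * ∫ s in (0 : ℝ)..(N : ℝ), ph l (σ s) * W3.m W v x y (σ s) := by
  unfold avS
  rw [inner_smul_right]
  congr 1
  have hc : Continuous fun s => gT W l v y (σ s) := (gT_cont W l v y).comp hσ
  have h1 := (innerSL ℂ x).intervalIntegral_comp_comm (hc.intervalIntegrable (μ := volume) 0 N)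
  simp only [innerSL_apply_apply] at h1
  rw [← h1]
  refine intervalIntegral.integral_congr fun s _ => ?_
  simp only [W3.m, gT]
  rw [inner_smul_right, NN.inner_adj]

/-- the averages of adjoint observables are adjoint -/
theorem avS_adj [CompleteSpace X] (W : UG X) (l : ℝ) (v w : X →L[ℂ] X)
    (hvw : ∀ x y, ⟪v x, y⟫_ℂ = ⟪x, w y⟫_ℂ) (x y : X) (N : ℕ) :
    ⟪avS W l v id N x, y⟫_ℂ = ⟪x, avS W (-l) w id N y⟫_ℂ := by
  have hN : (0 : ℝ) ≤ (N : ℝ) := Nat.cast_nonneg _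
  rw [← inner_conj_symm, inner_avS W l v y x id continuous_id,
    inner_avS W (-l) w x y id continuous_id, map_mul, map_inv₀, Complex.conj_natCast,
    intervalIntegral.integral_of_le hN, intervalIntegral.integral_of_le hN, ← integral_conj]
  congr 1
  refine integral_congr_ae (Eventually.of_forall fun s => ?_)
  simp only [id, W3.m]
  rw [map_mul, conj_ph, inner_conj_symm, hvw]

theorem GoodT.adj [CompleteSpace X] {W : UG X} {l : ℝ} {v w : X →L[ℂ] X}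
    (hvw : ∀ x y, ⟪v x, y⟫_ℂ = ⟪x, w y⟫_ℂ) {Nk : ℕ → ℕ} {B B' : X →L[ℂ] X}
    (hB : GoodT W l v Nk B) (hB' : GoodT W (-l) w Nk B') (x y : X) :
    ⟪B x, y⟫_ℂ = ⟪x, B' y⟫_ℂ := by
  have h1 : Tendsto (fun k => ⟪avS W l v id (Nk k) x, y⟫_ℂ) atTop (𝓝 ⟪B x, y⟫_ℂ) :=
    (hB x).1.inner tendsto_const_nhds
  have h2 : Tendsto (fun k => ⟪x, avS W (-l) w id (Nk k) y⟫_ℂ) atTop (𝓝 ⟪x, B' y⟫_ℂ) :=
    tendsto_const_nhds.inner (hB' y).1
  refine tendsto_nhds_unique h1 (h2.congr fun k => ?_)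
  exact (avS_adj W l v w hvw x y (Nk k)).symm

/-- the wave operators intertwine the averages -/
theorem coreT [CompleteSpace X] (W W' : UG X) (l : ℝ) (v : X →L[ℂ] X) (Nk : ℕ → ℕ)
    (hN : Tendsto Nk atTop atTop) (f : Filter ℝ) (σ : ℝ → ℝ) (hσ : Continuous σ)
    (hl : Tendsto σ atTop f) (φ φp ψ ψp b b' : X)
    (hφ : Tendsto (fun t : ℝ => W'.U (-t) (W.U t φ)) f (𝓝 φp))
    (hψ : Tendsto (fun t : ℝ => W'.U (-t) (W.U t ψ)) f (𝓝 ψp))
    (hb : Tendsto (fun k => avS W l v σ (Nk k) ψ) atTop (𝓝 b))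
    (hb' : Tendsto (fun k => avS W' l v σ (Nk k) ψp) atTop (𝓝 b')) :
    ⟪φp, b'⟫_ℂ = ⟪φ, b⟫_ℂ := by
  have hD : Tendsto (fun s => ph l (σ s) * W3.m W' v φp ψp (σ s) -
      ph l (σ s) * W3.m W v φ ψ (σ s)) atTop (𝓝 0) := by
    have h1 := (tendsto_iff_norm_sub_tendsto_zero.1 hφ).comp hl
    have h2 := (tendsto_iff_norm_sub_tendsto_zero.1 hψ).comp hl
    have h3 := (h1.mul_const (‖v‖ * ‖ψp‖)).add ((h2.const_mul ‖v‖).const_mul ‖φ‖)
    simp only [zero_mul, mul_zero, add_zero] at h3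
    refine squeeze_zero_norm (fun s => ?_) h3
    rw [← mul_sub, norm_mul, norm_ph, one_mul]
    exact W3.m_diff W W' v φ ψ φp ψp (σ s)
  have hcp : Continuous fun s => ph l (σ s) := (cont_ph l).comp hσ
  have hc1 : Continuous fun s => ph l (σ s) * W3.m W' v φp ψp (σ s) :=
    hcp.mul ((W3.m_cont W' v φp ψp).comp hσ)
  have hc2 : Continuous fun s => ph l (σ s) * W3.m W v φ ψ (σ s) :=
    hcp.mul ((W3.m_cont W v φ ψ).comp hσ)
  have h4 := W3.cesaro (D := fun s => ph l (σ s) * W3.m W' v φp ψp (σ s) -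
      ph l (σ s) * W3.m W v φ ψ (σ s)) (hc1.sub hc2)
    (‖φp‖ * (‖v‖ * ‖ψp‖) + ‖φ‖ * (‖v‖ * ‖ψ‖))
    (fun s => (norm_sub_le _ _).trans (add_le_add
      (by rw [norm_mul, norm_ph, one_mul]; exact W3.m_norm _ _ _ _ _)
      (by rw [norm_mul, norm_ph, one_mul]; exact W3.m_norm _ _ _ _ _))) hD hN
  have h5 : ∀ k, ((Nk k : ℂ)⁻¹) * ∫ s in (0 : ℝ)..(Nk k : ℝ),
      (ph l (σ s) * W3.m W' v φp ψp (σ s) - ph l (σ s) * W3.m W v φ ψ (σ s)) =
      ⟪φp, avS W' l v σ (Nk k) ψp⟫_ℂ - ⟪φ, avS W l v σ (Nk k) ψ⟫_ℂ := by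
    intro k
    rw [inner_avS W' l v φp ψp σ hσ, inner_avS W l v φ ψ σ hσ, ← mul_sub,
      intervalIntegral.integral_sub (hc1.intervalIntegrable _ _) (hc2.intervalIntegrable _ _)]
  simp only [h5] at h4
  have h6 := (Filter.Tendsto.inner (𝕜 := ℂ) (tendsto_const_nhds (x := φp)) hb').sub
    (Filter.Tendsto.inner (𝕜 := ℂ) (tendsto_const_nhds (x := φ)) hb)
  exact sub_eq_zero.1 (tendsto_nhds_unique h6 h4)

end abstract

variable {ι : Type}

/-- the Cesàro means of an operator which is controlled by finitely many coefficients -/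
theorem neg_coreT {α : Type} (W : UG (L2 ι)) (l : ℝ) (D : L2 ι →L[ℂ] L2 ι) (F : Finset α)
    (f : α → L2 ι) (A : ℝ) (hD : ∀ x, ‖D x‖ ≤ A * ∑ i ∈ F, ‖⟪f i, x⟫_ℂ‖) (ψ : L2 ι) (σ : ℝ → ℝ)
    (hσ : Continuous σ) (hw : ∀ φ : L2 ι, Tendsto (fun t : ℝ => ⟪φ, W.U (σ t) ψ⟫_ℂ) atTop (𝓝 0))
    (Nk : ℕ → ℕ) (hN : Tendsto Nk atTop atTop) :
    Tendsto (fun k => avS W l D σ (Nk k) ψ) atTop (𝓝 0) := by
  have hc : Continuous fun s : ℝ => ‖D (W.U (σ s) ψ)‖ :=
    (D.continuous.comp ((W.cont' ψ).comp hσ)).norm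
  have h0 : Tendsto (fun s : ℝ => ‖D (W.U (σ s) ψ)‖) atTop (𝓝 0) := by
    have h1 : Tendsto (fun s : ℝ => A * ∑ i ∈ F, ‖⟪f i, W.U (σ s) ψ⟫_ℂ‖) atTop
        (𝓝 (A * ∑ _i ∈ F, 0)) := by
      refine Tendsto.const_mul _ (tendsto_finsetSum _ fun i _ => ?_)
      have := (hw (f i)).norm
      rwa [norm_zero] at this
    rw [Finset.sum_const_zero, mul_zero] at h1
    exact squeeze_zero (fun _ => norm_nonneg _) (fun s => hD _) h1
  have h2 : Tendsto (fun s : ℝ => ((‖D (W.U (σ s) ψ)‖ : ℝ) : ℂ)) atTop (𝓝 0) := by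
    have := (Complex.continuous_ofReal.tendsto 0).comp h0
    rwa [Complex.ofReal_zero] at this
  have h3 := W3.cesaro (D := fun s : ℝ => ((‖D (W.U (σ s) ψ)‖ : ℝ) : ℂ))
    (Complex.continuous_ofReal.comp hc) (‖D‖ * ‖ψ‖) (fun s => by
      rw [Complex.norm_real, norm_norm]
      refine (D.le_opNorm _).trans ?_
      rw [W.norm']) h2 hN
  have h4 := h3.norm
  rw [norm_zero] at h4
  refine squeeze_zero_norm (fun k => ?_) h4
  have hk : (0 : ℝ) ≤ (Nk k : ℝ) := Nat.cast_nonneg _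
  have h5 : ‖∫ s in (0 : ℝ)..(Nk k : ℝ), gT W l D ψ (σ s)‖ ≤
      ∫ s in (0 : ℝ)..(Nk k : ℝ), ‖D (W.U (σ s) ψ)‖ := by
    refine (intervalIntegral.norm_integral_le_integral_norm hk).trans (le_of_eq ?_)
    refine intervalIntegral.integral_congr fun s _ => ?_
    show ‖gT W l D ψ (σ s)‖ = ‖D (W.U (σ s) ψ)‖
    unfold gT
    rw [norm_smul, norm_ph, one_mul]
    exact W.norm' _ _
  have h6 : ∫ s in (0 : ℝ)..(Nk k : ℝ), ((‖D (W.U (σ s) ψ)‖ : ℝ) : ℂ) =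
      ((∫ s in (0 : ℝ)..(Nk k : ℝ), ‖D (W.U (σ s) ψ)‖ : ℝ) : ℂ) :=
    intervalIntegral.integral_ofReal
  have h7 : 0 ≤ ∫ s in (0 : ℝ)..(Nk k : ℝ), ‖D (W.U (σ s) ψ)‖ :=
    intervalIntegral.integral_nonneg hk fun s _ => norm_nonneg _
  unfold avS
  rw [norm_smul, h6, norm_mul, Complex.norm_real, Real.norm_of_nonneg h7]
  exact mul_le_mul_of_nonneg_left h5 (norm_nonneg _)

theorem avS_sub {X : Type} [NormedAddCommGroup X] [InnerProductSpace ℂ X]
    (W : UG X) (l : ℝ) (v v' : X →L[ℂ] X) (σ : ℝ → ℝ) (hσ : Continuous σ) (N : ℕ)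
    (x : X) :
    avS W l v σ N x = avS W l v' σ N x - avS W l (v' - v) σ N x := by
  have hi : ∀ u : X →L[ℂ] X, IntervalIntegrable
      (fun s : ℝ => gT W l u x (σ s)) volume 0 (N : ℝ) := fun u =>
    ((gT_cont W l u x).comp hσ).intervalIntegrable _ _
  unfold avS
  rw [← smul_sub, ← intervalIntegral.integral_sub (hi v') (hi (v' - v))]
  congr 1
  refine intervalIntegral.integral_congr fun s _ => ?_
  show gT W l v x (σ s) = gT W l v' x (σ s) - gT W l (v' - v) x (σ s)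
  unfold gT
  rw [← smul_sub, ← map_sub]
  congr 2
  show v _ = v' _ - (v' _ - v _)
  abel

end Pool.Agent.L7h83.WM
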